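import Pool.Agent.J4.H90.Perc.Fin5
import Pool.Agent.Y290.CB.Box2
import Pool.Agent.Y232.CB.Tau
import Pool.Agent.Y815.CB.Two2
import Pool.Agent.Y333.CB.Sim

/-!
Two large clusters in a box, with an explicit dependence on the parameter (after the project CB).
-/

set_option autoImplicit false

open MeasureTheory Set

namespace Pool.Agent.J4.H90.Perc

open Pool.Agent.W783.PC (pm DepOn Inc)
open Pool.Agent.W424.PC (cfgOf)
open Pool.Agent.Y990.PL (Expl)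
open Pool.Agent.Y990.CB
open Pool.Agent.Y689.CB (Nf_anti cfg_mono cfg_true)
open Pool.Agent.Y290.CB (Tq Pq mem_Tq Pq_card Bo_step near dq dq_sum one_pair sum_ite_const)
open H974 (Ex Ok ind Pr)

noncomputable section

variable {d : ℕ}

/-- the constant -/
def Kb (d : ℕ) (p : unitInterval) : ℝ :=
  ((p : ℝ) ^ 5)⁻¹ * (7 : ℝ) ^ (4 * d) * 8 * 32 ^ d * √(4 * d : ℝ)

theorem box2u (hctc : S_ctc) (M : Mod d) (p : unitInterval) (hM : Nd M) (hQ : Qm M) (hp : 0 < p)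
    (L m n Q : ℕ) (τ : ℝ) (hm : 2 ≤ m) (hQL : Q + 4 * n + 1 ≤ L) (hτ : 0 < τ)
    (hcn : ∀ u ∈ Bf (0 : Z d) Q, ∀ x ∈ Bf u n, ∀ y ∈ Bf u n,
      τ ≤ (mu M p).real (Cn M (Bo u (4 * n)) x y)) :
    ∑ u ∈ Bf (0 : Z d) Q, ∑ x ∈ Bf u n, ∑ y ∈ Bf u n, (mu M p).real (Ev M L m x y) ≤
      (Kb d p + 1) / τ * ((n : ℝ) + 1) ^ (3 * d) * ((2 * L + 1 : ℕ) : ℝ) ^ d / √m := by
  classical
  have hp0 : (0 : ℝ) < p := by exact_mod_cast hp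
  have hp1 : (p : ℝ) ≤ 1 := p.2.2
  set K : ℝ := ((p : ℝ) ^ 5)⁻¹ * (7 : ℝ) ^ (4 * d) * 8 * 32 ^ d * √(4 * d : ℝ) with hK
  have hK0 : 0 ≤ K := by positivity
  show _ ≤ (K + 1) / τ * ((n : ℝ) + 1) ^ (3 * d) * ((2 * L + 1 : ℕ) : ℝ) ^ d / √m
  set S : Finset M.ι := (In_fin M (Bo_finite 0 L)).toFinset with hSdef
  have hS : (S : Set M.ι) = In M (Bo 0 L) := (In_fin M (Bo_finite 0 L)).coe_toFinset
  obtain ⟨hs, hd0⟩ := dq_sum M p L m (by omega) S hS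
  set δ : (Z d × Z d) × (Z d × Z d) → ℝ := dq M p L m S with hδ
  set V : ℝ := ((2 * L + 1 : ℕ) : ℝ) ^ d with hV
  have hV0 : 0 ≤ V := by positivity
  have hm0 : (0 : ℝ) < m := by
    have : 0 < m := by omega
    exact_mod_cast this
  have hsm : 0 < √(m : ℝ) := Real.sqrt_pos.2 hm0
  have hsq : √((4 * d : ℝ) / m) = √(4 * d : ℝ) / √(m : ℝ) := Real.sqrt_div (by positivity) _
  -- one pair
  have h1 : ∀ u ∈ Bf (0 : Z d) Q, ∀ x ∈ Bf u n, ∀ y ∈ Bf u n,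
      τ * (mu M p).real (Ev M L m x y) ≤
        ∑ q ∈ Tq M L, if q.1.1 ∈ Bo u (4 * n) then δ q else 0 := by
    intro u hu x hx y hy
    have hD : Bo u (4 * n) ⊆ Bo (0 : Z d) L := Bo_sub (mem_Bf.1 hu) (by omega)
    exact one_pair hctc M p hM hQ L m hm S hS (Bo u (4 * n)) hD x y
      (Bo_mono u (by omega) (mem_Bf.1 hx)) (Bo_mono u (by omega) (mem_Bf.1 hy)) τ
      (hcn u hu x hx y hy)
  have h2 : τ * ∑ u ∈ Bf (0 : Z d) Q, ∑ x ∈ Bf u n, ∑ y ∈ Bf u n,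
      (mu M p).real (Ev M L m x y) ≤
      ∑ u ∈ Bf (0 : Z d) Q, ∑ x ∈ Bf u n, ∑ y ∈ Bf u n,
        ∑ q ∈ Tq M L, if q.1.1 ∈ Bo u (4 * n) then δ q else 0 := by
    rw [Finset.mul_sum]
    refine Finset.sum_le_sum fun u hu => ?_
    rw [Finset.mul_sum]
    refine Finset.sum_le_sum fun x hx => ?_
    rw [Finset.mul_sum]
    exact Finset.sum_le_sum fun y hy => h1 u hu x hx y hy
  have h3 : ∑ u ∈ Bf (0 : Z d) Q, ∑ x ∈ Bf u n, ∑ y ∈ Bf u n,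
        ∑ q ∈ Tq M L, (if q.1.1 ∈ Bo u (4 * n) then δ q else 0) ≤
      (2 * (4 * n) + 1 : ℕ) ^ d * ((2 * n + 1 : ℕ) ^ d * (2 * n + 1 : ℕ) ^ d) *
        ∑ q ∈ Tq M L, δ q := by
    have e1 : ∀ u ∈ Bf (0 : Z d) Q, ∑ x ∈ Bf u n, ∑ y ∈ Bf u n,
        ∑ q ∈ Tq M L, (if q.1.1 ∈ Bo u (4 * n) then δ q else 0) =
        ((2 * n + 1 : ℕ) ^ d * (2 * n + 1 : ℕ) ^ d : ℝ) *
          ∑ q ∈ Tq M L, (if q.1.1 ∈ Bo u (4 * n) then δ q else 0) := by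
      intro u _
      rw [Finset.sum_const, Finset.sum_const, card_Bf, nsmul_eq_mul, nsmul_eq_mul]
      push_cast
      ring
    rw [Finset.sum_congr rfl e1, ← Finset.mul_sum, Finset.sum_comm]
    have e2 : ∑ q ∈ Tq M L, ∑ u ∈ Bf (0 : Z d) Q, (if q.1.1 ∈ Bo u (4 * n) then δ q else 0) ≤
        ∑ q ∈ Tq M L, ((2 * (4 * n) + 1 : ℕ) : ℝ) ^ d * δ q := by
      refine Finset.sum_le_sum fun q _ => ?_
      rw [sum_ite_const]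
      refine mul_le_mul_of_nonneg_right ?_ (hd0 q)
      have hsub : (Bf (0 : Z d) Q).filter (fun u => q.1.1 ∈ Bo u (4 * n)) ⊆
          Bf q.1.1 (4 * n) := by
        intro u hu
        rw [Finset.mem_filter] at hu
        exact mem_Bf.2 (mem_Bo_comm.1 hu.2)
      have := Finset.card_le_card hsub
      rw [card_Bf] at this
      exact_mod_cast this
    rw [← Finset.mul_sum] at e2
    calc _ ≤ ((2 * n + 1 : ℕ) ^ d * (2 * n + 1 : ℕ) ^ d : ℝ) *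
          (((2 * (4 * n) + 1 : ℕ) : ℝ) ^ d * ∑ q ∈ Tq M L, δ q) :=
          mul_le_mul_of_nonneg_left e2 (by positivity)
      _ = _ := by push_cast; ring
  have hδ0 : 0 ≤ ∑ q ∈ Tq M L, δ q := Finset.sum_nonneg fun q _ => hd0 q
  have h4 : ∑ q ∈ Tq M L, δ q ≤
      ((p : ℝ) ^ 5)⁻¹ * ((7 : ℝ) ^ (4 * d) * (8 * V * (√(4 * d : ℝ) / √(m : ℝ)))) := by
    rw [← hsq]
    rw [← div_eq_inv_mul, le_div_iff₀ (by positivity), mul_comm]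
    exact hs
  have h5 : (((2 * (4 * n) + 1 : ℕ) : ℝ) ^ d * (((2 * n + 1 : ℕ) : ℝ) ^ d *
      ((2 * n + 1 : ℕ) : ℝ) ^ d)) ≤ 32 ^ d * ((n : ℝ) + 1) ^ (3 * d) := by
    have k1 : (((2 * (4 * n) + 1 : ℕ) : ℝ) * (((2 * n + 1 : ℕ) : ℝ) *
        ((2 * n + 1 : ℕ) : ℝ))) ≤ 32 * ((n : ℝ) + 1) ^ 3 := by
      push_cast
      have hn : (0 : ℝ) ≤ n := by positivity
      nlinarith [mul_nonneg hn hn, mul_nonneg hn (mul_nonneg hn hn)]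
    calc _ = ((((2 * (4 * n) + 1 : ℕ) : ℝ) * (((2 * n + 1 : ℕ) : ℝ) *
        ((2 * n + 1 : ℕ) : ℝ)))) ^ d := by rw [mul_pow, mul_pow]
      _ ≤ (32 * ((n : ℝ) + 1) ^ 3) ^ d := pow_le_pow_left₀ (by positivity) k1 d
      _ = _ := by rw [mul_pow, ← pow_mul]
  have h6 : τ * ∑ u ∈ Bf (0 : Z d) Q, ∑ x ∈ Bf u n, ∑ y ∈ Bf u n,
      (mu M p).real (Ev M L m x y) ≤ K * ((n : ℝ) + 1) ^ (3 * d) * V / √(m : ℝ) := by
    refine (h2.trans h3).trans ?_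
    calc _ ≤ (32 ^ d * ((n : ℝ) + 1) ^ (3 * d)) *
          (((p : ℝ) ^ 5)⁻¹ * ((7 : ℝ) ^ (4 * d) * (8 * V * (√(4 * d : ℝ) / √(m : ℝ))))) :=
          mul_le_mul h5 h4 hδ0 (by positivity)
      _ = _ := by rw [hK]; ring
  have h7 : ∑ u ∈ Bf (0 : Z d) Q, ∑ x ∈ Bf u n, ∑ y ∈ Bf u n,
      (mu M p).real (Ev M L m x y) ≤ (K * ((n : ℝ) + 1) ^ (3 * d) * V / √(m : ℝ)) / τ := by
    rw [le_div_iff₀ hτ, mul_comm]
    exact h6
  refine h7.trans ?_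
  have h8 : (K * ((n : ℝ) + 1) ^ (3 * d) * V / √(m : ℝ)) / τ =
      K * (((n : ℝ) + 1) ^ (3 * d) * V / √(m : ℝ) / τ) := by ring
  have h9 : (K + 1) / τ * ((n : ℝ) + 1) ^ (3 * d) * V / √(m : ℝ) =
      (K + 1) * (((n : ℝ) + 1) ^ (3 * d) * V / √(m : ℝ) / τ) := by ring
  rw [h8, h9]
  exact mul_le_mul_of_nonneg_right (by linarith) (by positivity)

end

end Pool.Agent.J4.H90.Perc
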