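import Pool.Agent.J4.H90.Perc.En

/-!
Cells of the lattice, their interior points, and the energy of a function which is constant on the cells.
-/

set_option autoImplicit false
set_option linter.deprecated false

open MeasureTheory Set Filter
open scoped Topology

namespace Pool.Agent.J4.H90.Perc

open Pool.Agent.Results.MP_54f242_pr.InfraredMean (opn P tau cube dot Dhat Dhat_le cube_meas cube_fin
  cube_vol cos_mul_Dhat box box_card dot_sub integrable_of_cont int_cos int_cos_mul_cos int_term)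
open Pool.Agent.Y990.CB (Z Bo Bf mem_Bf card_Bf coe_Bf)

noncomputable section

variable {d : ℕ}

theorem divmod {N q t : ℤ} (h0 : 0 ≤ t) (h1 : t < N) :
    (N * q + t) / N = q ∧ (N * q + t) % N = t := by
  have hN : N ≠ 0 := by omega
  constructor
  · rw [add_comm, Int.add_mul_ediv_left _ _ hN, Int.ediv_eq_zero_of_lt h0 h1, zero_add]
  · rw [add_comm, Int.add_mul_emod_self_left, Int.emod_eq_of_lt h0 h1]

/-- the cell of a vertex -/
def cell (N : ℕ) (x : Z d) : Z d := fun i => x i / (N : ℤ)

/-- the vertex is at distance at least `r` from the boundary of its cell -/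
def inn (N r : ℕ) (x : Z d) : Prop := ∀ i, (r : ℤ) ≤ x i % (N : ℤ) ∧ x i % (N : ℤ) < N - r

theorem inn_add {N r : ℕ} {x z : Z d} (h : inn N r x) (hz : ∀ i, |z i| ≤ r) :
    cell N (x + z) = cell N x ∧ ∀ i, (x + z) i % (N : ℤ) = x i % (N : ℤ) + z i := by
  have key : ∀ i, ((x + z) i / (N : ℤ) = x i / (N : ℤ)) ∧ (x + z) i % (N : ℤ) = x i % (N : ℤ) + z i := by
    intro i
    have h1 := h i
    have h2 := abs_le.1 (hz i)
    have h3 := Int.mul_ediv_add_emod (x i) (N : ℤ)
    have h4 := divmod (N := (N : ℤ)) (q := x i / (N : ℤ)) (t := x i % (N : ℤ) + z i)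
      (by omega) (by omega)
    have h5 : (N : ℤ) * (x i / (N : ℤ)) + (x i % (N : ℤ) + z i) = (x + z) i := by
      rw [Pi.add_apply]; linarith
    rw [h5] at h4
    exact h4
  exact ⟨funext fun i => (key i).1, fun i => (key i).2⟩

theorem mem_box_cell {N L : ℕ} (hN : 0 < N) (x : Z d) :
    x ∈ box d (N * L) ↔ cell N x ∈ box d L := by
  unfold box cell
  rw [Fintype.mem_piFinset, Fintype.mem_piFinset]
  refine forall_congr' fun i => ?_
  rw [Finset.mem_Ico, Finset.mem_Ico]
  have hN' : (0 : ℤ) < N := by exact_mod_cast hN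
  push_cast
  constructor
  · rintro ⟨h1, h2⟩
    exact ⟨Int.ediv_nonneg h1 hN'.le, Int.ediv_lt_of_lt_mul hN' (by linarith)⟩
  · rintro ⟨h1, h2⟩
    have h3 := Int.mul_ediv_add_emod (x i) (N : ℤ)
    have h4 := Int.emod_nonneg (x i) hN'.ne'
    have h5 := Int.emod_lt_of_pos (x i) hN'
    constructor
    · have := mul_nonneg hN'.le h1
      linarith
    · have h6 : (N : ℤ) * (x i / N) ≤ N * (L - 1) := mul_le_mul_of_nonneg_left (by omega) hN'.le
      linarith

theorem inn_mem {N r L : ℕ} (hN : 0 < N) {x z : Z d} (hx : x ∈ box d (N * L)) (h : inn N r x)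
    (hz : ∀ i, |z i| ≤ r) : x + z ∈ box d (N * L) := by
  rw [mem_box_cell hN] at hx ⊢
  rw [(inn_add h hz).1]
  exact hx

theorem cnt1 (N r L : ℕ) : L * (N - 2 * r) ≤ ((Finset.Ico (0 : ℤ) ((N * L : ℕ) : ℤ)).filter
    (fun t => (r : ℤ) ≤ t % (N : ℤ) ∧ t % (N : ℤ) < N - r)).card := by
  have h0 : L * (N - 2 * r) = (Finset.range L ×ˢ Finset.range (N - 2 * r)).card := by simp
  rw [h0]
  have hdm : ∀ q : ℕ × ℕ, q ∈ Finset.range L ×ˢ Finset.range (N - 2 * r) →
      ((N : ℤ) * (q.1 : ℤ) + ((r : ℤ) + q.2)) / (N : ℤ) = q.1 ∧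
      ((N : ℤ) * (q.1 : ℤ) + ((r : ℤ) + q.2)) % (N : ℤ) = (r : ℤ) + q.2 := by
    intro q hq
    rw [Finset.mem_product, Finset.mem_range, Finset.mem_range] at hq
    exact divmod (by omega) (by omega)
  refine Finset.card_le_card_of_injOn (fun q => (N : ℤ) * (q.1 : ℤ) + ((r : ℤ) + q.2)) ?_ ?_
  · intro q hq
    have hq' := Finset.mem_coe.1 hq
    obtain ⟨h1, h2⟩ := hdm q hq'
    rw [Finset.mem_product, Finset.mem_range, Finset.mem_range] at hq'
    rw [Finset.mem_coe, Finset.mem_filter, Finset.mem_Ico, h2]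
    refine ⟨⟨by positivity, ?_⟩, by omega, by omega⟩
    have h3 : (N : ℤ) * (q.1 : ℤ) ≤ N * (L - 1) := by
      have : (q.1 : ℤ) ≤ L - 1 := by omega
      exact mul_le_mul_of_nonneg_left this (by positivity)
    push_cast
    have : (r : ℤ) + q.2 < N := by omega
    linarith
  · intro q hq q' hq' he
    obtain ⟨h1, h2⟩ := hdm q (Finset.mem_coe.1 hq)
    obtain ⟨h3, h4⟩ := hdm q' (Finset.mem_coe.1 hq')
    have he' : (N : ℤ) * (q.1 : ℤ) + ((r : ℤ) + q.2) = (N : ℤ) * (q'.1 : ℤ) + ((r : ℤ) + q'.2) := he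
    rw [← he'] at h3 h4
    have e1 : (q.1 : ℤ) = q'.1 := by rw [← h1, ← h3]
    have e2 : (q.2 : ℤ) = q'.2 := by omega
    exact Prod.ext (by exact_mod_cast e1) (by exact_mod_cast e2)

open Classical in
/-- the number of the vertices of the box which are close to the boundaries of the cells -/
def nn (d N r L : ℕ) : ℕ := ((box d (N * L)).filter (fun x => ¬ inn N r x)).card

open Classical in
theorem nn_le (N r L : ℕ) (h : 2 * r ≤ N) :
    (nn d N r L : ℝ) ≤ ((N * L : ℕ) : ℝ) ^ d - ((L : ℝ) * (N - 2 * r)) ^ d := by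
  have h1 := Finset.card_filter_add_card_filter_not (s := box d (N * L)) (fun x => inn N r x)
  have h2 : (box d (N * L)).filter (fun x => inn N r x) = Fintype.piFinset (fun _ : Fin d =>
      (Finset.Ico (0 : ℤ) ((N * L : ℕ) : ℤ)).filter
        (fun t => (r : ℤ) ≤ t % (N : ℤ) ∧ t % (N : ℤ) < N - r)) := by
    ext x
    rw [Finset.mem_filter, Fintype.mem_piFinset]
    unfold box inn
    rw [Fintype.mem_piFinset, ← forall_and]
    refine forall_congr' fun i => ?_
    rw [Finset.mem_filter]
  have h3 : (L * (N - 2 * r)) ^ d ≤ ((box d (N * L)).filter (fun x => inn N r x)).card := by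
    rw [h2, Fintype.card_piFinset, Finset.prod_const, Finset.card_univ, Fintype.card_fin]
    exact Nat.pow_le_pow_left (cnt1 N r L) d
  have h4 : (((box d (N * L)).filter (fun x => inn N r x)).card : ℝ) + (nn d N r L : ℝ) =
      ((N * L : ℕ) : ℝ) ^ d := by
    rw [← box_card]
    unfold nn
    exact_mod_cast h1
  have h5 : ((L : ℝ) * (N - 2 * r)) ^ d ≤ (((box d (N * L)).filter (fun x => inn N r x)).card : ℝ) := by
    have h6 : ((L : ℝ) * (N - 2 * r)) ^ d = (((L * (N - 2 * r)) ^ d : ℕ) : ℝ) := by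
      push_cast [Nat.cast_sub h]
      ring
    rw [h6]
    exact_mod_cast h3
  linarith

theorem Wv_wt {A : Finset (Z d)} (Y : Z d → ℝ) {x : Z d} (hx : x ∈ A) :
    Wv wt A Y x = (Y x - (1 / (2 * (d : ℝ))) * ∑ i : Fin d,
      ((if x - Pi.single i 1 ∈ A then Y (x - Pi.single i 1) else 0) +
        (if x + Pi.single i 1 ∈ A then Y (x + Pi.single i 1) else 0))) / 2 := by
  unfold Wv
  simp_rw [Kv_wt]
  have e : ∀ y ∈ A, Y y * (((if y - x = 0 then (1 : ℝ) else 0) - (1 / (2 * (d : ℝ))) * ∑ i : Fin d,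
      ((if y - x = -Pi.single i 1 then (1 : ℝ) else 0) +
        (if y - x = Pi.single i 1 then (1 : ℝ) else 0))) / 2) =
      (if y = x then Y y else 0) / 2 - (1 / (2 * (d : ℝ))) / 2 * ∑ i : Fin d,
      ((if y = x - Pi.single i 1 then Y y else 0) + (if y = x + Pi.single i 1 then Y y else 0)) := by
    intro y _
    have h1 : (y - x = 0) ↔ y = x := sub_eq_zero
    have h2 : ∀ i : Fin d, (y - x = -Pi.single i 1) ↔ (y = x - Pi.single i 1) := fun i => by
      rw [sub_eq_iff_eq_add, neg_add_eq_sub]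
    have h3 : ∀ i : Fin d, (y - x = Pi.single i 1) ↔ (y = x + Pi.single i 1) := fun i => by
      rw [sub_eq_iff_eq_add, add_comm]
    simp_rw [h1, h2, h3]
    have h4 : ∀ (c : Prop) [Decidable c], (if c then Y y else 0) = Y y * (if c then (1 : ℝ) else 0) := by
      intro c _; split_ifs <;> simp
    simp_rw [h4, ← mul_add, ← Finset.mul_sum]
    ring
  rw [Finset.sum_congr rfl e, Finset.sum_sub_distrib, ← Finset.sum_div, Finset.sum_ite_eq', if_pos hx,
    ← Finset.mul_sum, Finset.sum_comm]
  simp_rw [Finset.sum_add_distrib, Finset.sum_ite_eq']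
  ring

open Classical in
/-- the energy of a function which is constant on the cells -/
theorem en_cell (hd : 1 ≤ d) {N L : ℕ} (hN : 0 < N) (s : Z d → ℝ) (hs : ∀ j, |s j| ≤ 1) :
    bl wt (box d (N * L)) (fun x => s (cell N x)) (fun x => s (cell N x)) ≤ (nn d N 1 L : ℝ) := by
  rw [bl_Wv]
  have hd0 : (0 : ℝ) < d := by exact_mod_cast hd
  have hz : ∀ i : Fin d, ∀ j, |(Pi.single i (1 : ℤ) : Z d) j| ≤ ((1 : ℕ) : ℤ) := by
    intro i j
    rw [Pi.single_apply]
    split_ifs <;> simp
  have hz' : ∀ i : Fin d, ∀ j, |(-Pi.single i (1 : ℤ) : Z d) j| ≤ ((1 : ℕ) : ℤ) := by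
    intro i j
    rw [Pi.neg_apply, abs_neg]
    exact hz i j
  have h1 : ∀ x ∈ box d (N * L), s (cell N x) * Wv wt (box d (N * L)) (fun x => s (cell N x)) x ≤
      if ¬ inn N 1 x then (1 : ℝ) else 0 := by
    intro x hx
    rw [Wv_wt _ hx]
    by_cases hi : inn N 1 x
    · rw [if_neg (not_not.2 hi)]
      have e : ∀ i : Fin d, ((if x - Pi.single i 1 ∈ box d (N * L) then
          s (cell N (x - Pi.single i 1)) else 0) +
          (if x + Pi.single i 1 ∈ box d (N * L) then s (cell N (x + Pi.single i 1)) else 0)) =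
          2 * s (cell N x) := by
        intro i
        have m1 := inn_mem hN hx hi (hz i)
        have m2 := inn_mem hN hx hi (hz' i)
        have c1 := (inn_add hi (hz i)).1
        have c2 := (inn_add hi (hz' i)).1
        rw [← sub_eq_add_neg] at m2 c2
        rw [if_pos m2, if_pos m1, c1, c2]
        ring
      simp_rw [e]
      rw [Finset.sum_const, Finset.card_univ, Fintype.card_fin, nsmul_eq_mul]
      have : (1 / (2 * (d : ℝ))) * ((d : ℝ) * (2 * s (cell N x))) = s (cell N x) := by field_simp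
      rw [this]
      simp
    · rw [if_pos hi]
      have hb : |∑ i : Fin d, ((if x - Pi.single i 1 ∈ box d (N * L) then
          s (cell N (x - Pi.single i 1)) else 0) +
          (if x + Pi.single i 1 ∈ box d (N * L) then s (cell N (x + Pi.single i 1)) else 0))| ≤
          (d : ℝ) * 2 := by
        refine (Finset.abs_sum_le_sum_abs _ _).trans ?_
        refine (Finset.sum_le_card_nsmul _ _ 2 fun i _ => ?_).trans (le_of_eq ?_)
        · refine (abs_add_le _ _).trans ?_
          have a1 : |(if x - Pi.single i 1 ∈ box d (N * L) then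
              s (cell N (x - Pi.single i 1)) else 0)| ≤ 1 := by
            split_ifs
            · exact hs _
            · simp
          have a2 : |(if x + Pi.single i 1 ∈ box d (N * L) then
              s (cell N (x + Pi.single i 1)) else 0)| ≤ 1 := by
            split_ifs
            · exact hs _
            · simp
          linarith
        · rw [Finset.card_univ, Fintype.card_fin, nsmul_eq_mul]
      set S := ∑ i : Fin d, ((if x - Pi.single i 1 ∈ box d (N * L) then
          s (cell N (x - Pi.single i 1)) else 0) +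
          (if x + Pi.single i 1 ∈ box d (N * L) then s (cell N (x + Pi.single i 1)) else 0)) with hS
      have hb2 : |(1 / (2 * (d : ℝ))) * S| ≤ 1 := by
        rw [abs_mul, abs_of_pos (by positivity : (0 : ℝ) < 1 / (2 * (d : ℝ)))]
        calc (1 / (2 * (d : ℝ))) * |S| ≤ (1 / (2 * (d : ℝ))) * ((d : ℝ) * 2) := by gcongr
          _ = 1 := by field_simp
      have h3 : |s (cell N x) * ((s (cell N x) - (1 / (2 * (d : ℝ))) * S) / 2)| ≤ 1 := by
        rw [abs_mul]
        have h4 : |(s (cell N x) - (1 / (2 * (d : ℝ))) * S) / 2| ≤ 1 := by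
          rw [abs_div, abs_two, div_le_one two_pos]
          refine (abs_sub _ _).trans ?_
          linarith [hs (cell N x)]
        exact mul_le_one₀ (hs _) (abs_nonneg _) h4
      exact (le_abs_self _).trans h3
  refine (Finset.sum_le_sum h1).trans (le_of_eq ?_)
  rw [← Finset.sum_filter, Finset.sum_const, nsmul_eq_mul, mul_one]
  rfl

end

end Pool.Agent.J4.H90.Perc
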