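import Pool.Agent.J4.H90.Perc.Sup

/-!
Comparison of the energy of the clusters with the energy of the local fluctuations.
-/

set_option autoImplicit false
set_option linter.deprecated false

open MeasureTheory Set Filter
open scoped Topology

namespace Pool.Agent.J4.H90.Perc

open Pool.Agent.Results.MP_54f242_pr.InfraredMean (opn P tau cube dot Dhat Dhat_le cube_meas cube_fin
  cube_vol cos_mul_Dhat box box_card dot_sub integrable_of_cont int_cos int_cos_mul_cos int_term)
open Pool.Agent.Y990.CB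
open Pool.Agent.W783.PC (pm DepOn Inc bern)

noncomputable section

variable {d : ℕ} (M : Mod d) (p : unitInterval)

theorem bl_congr (v : (Fin d → ℝ) → ℝ) (A : Finset (Fin d → ℤ)) {X Y : (Fin d → ℤ) → ℝ}
    (h : ∀ x ∈ A, X x = Y x) : bl v A X X = bl v A Y Y := by
  unfold bl
  refine Finset.sum_congr rfl fun x hx => Finset.sum_congr rfl fun y hy => ?_
  rw [h x hx, h y hy]

open Classical in
theorem bl_filter (v : (Fin d → ℝ) → ℝ) (A : Finset (Fin d → ℤ)) (Q : (Fin d → ℤ) → Prop)
    (Y : (Fin d → ℤ) → ℝ) :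
    bl v A (fun x => if Q x then Y x else 0) (fun x => if Q x then Y x else 0) =
      bl v (A.filter Q) Y Y := by
  unfold bl
  rw [Finset.sum_filter]
  refine Finset.sum_congr rfl fun x _ => ?_
  by_cases h : Q x
  · rw [if_pos h, Finset.sum_filter]
    refine Finset.sum_congr rfl fun y _ => ?_
    by_cases h2 : Q y <;> simp [h, h2]
  · rw [if_neg h]
    refine Finset.sum_eq_zero fun y _ => ?_
    simp [h]

open Classical in
/-- two vertices of the cell in infinite clusters which are not related -/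
def cnf (N L : ℕ) (Rel : Z d → Z d → Prop) (ω : M.ι → Bool) (x : Z d) : ℝ :=
  if ∃ y ∈ box d (N * L), cell N y = cell N x ∧ ω ∈ Perc M x ∧ ω ∈ Perc M y ∧ ¬ Rel x y then 1 else 0

theorem perc_sub (m : ℕ) (x : Z d) : Perc M x ⊆ Ae M m x := by
  rw [← inter_Ae]
  exact iInter_subset _ m

open Classical in
/-- **The energy of signs of the clusters.** -/
theorem comb (hd : 1 ≤ d) {N m L : ℕ} (hN : 0 < N) {v : (Fin d → ℝ) → ℝ} (hv : Mu v)
    (hvw : ∀ k, v k ≤ wt k) (Rel : Z d → Z d → Prop) (ω : M.ι → Bool) (Rb : ℝ)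
    (hR : ∀ T ∈ (box d L).powerset, bl v (SS d N m L) (fun x => sgn T (cell N x) * ci M p m x ω)
      (fun x => sgn T (cell N x) * ci M p m x ω) ≤ Rb)
    (X : Z d → ℝ) (hX : ∀ x, X x = 1 ∨ X x = -1) (hXc : ∀ x y, Rel x y → X x = X y)
    {a : ℝ} (ha : 0 < a) :
    bl v (box d (N * L)) (fun x => X x * (Perc M x).indicator 1 ω)
      (fun x => X x * (Perc M x).indicator 1 ω) ≤
      (1 + a) * Rb + (1 + a⁻¹) * (4 * (4 * ∑ x ∈ box d (N * L), cnf M N L Rel ω x +
        ∑ x ∈ box d (N * L), ((Ae M m x).indicator 1 ω - (Perc M x).indicator 1 ω) +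
        (nn d N 1 L + nn d N m L))) := by
  set A := box d (N * L) with hA
  set e : Z d → ℝ := fun x => (Perc M x).indicator 1 ω with he
  set ea : Z d → ℝ := fun x => (Ae M m x).indicator 1 ω with hea
  set π := pr M p m with hπ
  have hπ0 : 0 ≤ π := pr_nonneg M p m
  have hπ1 : π ≤ 1 := pr_le_one M p m
  set s : Z d → ℝ := fun j => if h : ∃ x, x ∈ A ∧ cell N x = j ∧ ω ∈ Perc M x then X h.choose else 1
    with hs
  have hs1 : ∀ j, s j = 1 ∨ s j = -1 := by
    intro j
    simp only [hs]
    split_ifs with h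
    · exact hX _
    · exact Or.inl rfl
  set T : Finset (Z d) := (box d L).filter (fun j => s j = -1) with hT
  have hTs : ∀ x ∈ A, sgn T (cell N x) = s (cell N x) := by
    intro x hx
    have h1 := (mem_box_cell hN x).1 hx
    unfold sgn
    rcases hs1 (cell N x) with h | h
    · rw [if_neg, h]
      rw [hT, Finset.mem_filter]
      rintro ⟨_, h2⟩
      rw [h] at h2; norm_num at h2
    · rw [if_pos, h]
      rw [hT, Finset.mem_filter]
      exact ⟨h1, h⟩
  set S : Z d → ℝ := fun x => sgn T (cell N x) with hS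
  have hSsq : ∀ x, S x ^ 2 = 1 := fun x => by rw [sq]; exact sgn_sq T _
  have he01 : ∀ x, e x = 0 ∨ e x = 1 := by
    intro x
    by_cases h : ω ∈ Perc M x
    · right; simp only [he]; rw [Set.indicator_of_mem h]; rfl
    · left; simp only [he]; rw [Set.indicator_of_notMem h]
  have hle : ∀ x, e x ≤ ea x := by
    intro x
    simp only [he, hea]
    exact Set.indicator_le_indicator_of_subset (perc_sub M m x) (fun _ => zero_le_one) ω
  have hea01 : ∀ x, ea x = 0 ∨ ea x = 1 := by
    intro x
    by_cases h : ω ∈ Ae M m x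
    · right; simp only [hea]; rw [Set.indicator_of_mem h]; rfl
    · left; simp only [hea]; rw [Set.indicator_of_notMem h]
  have hci : ∀ x, ci M p m x ω = ea x - π := fun x => rfl
  set E1 : Z d → ℝ := fun x => (X x - S x) * e x with hE1
  set E2 : Z d → ℝ := fun x => S x * (e x - ea x) with hE2
  set E3 : Z d → ℝ := fun x => π * S x with hE3
  set E4 : Z d → ℝ := fun x => if ¬ inn N m x then S x * ci M p m x ω else 0 with hE4
  set F : Z d → ℝ := fun x => if inn N m x then S x * ci M p m x ω else 0 with hF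
  have hdec : ∀ x ∈ A, X x * e x = F x + ((E1 x + E2 x) + (E3 x + E4 x)) := by
    intro x _
    simp only [hF, hE1, hE2, hE3, hE4, hci]
    by_cases hi : inn N m x
    · rw [if_pos hi, if_neg (not_not.2 hi)]; ring
    · rw [if_neg hi, if_pos hi]; ring
  have hb : bl v A (fun x => X x * e x) (fun x => X x * e x) =
      bl v A (fun x => F x + ((E1 x + E2 x) + (E3 x + E4 x)))
        (fun x => F x + ((E1 x + E2 x) + (E3 x + E4 x))) := bl_congr v A hdec
  have hFb : bl v A F F ≤ Rb := by
    have h1 : bl v A F F = bl v (A.filter (fun x => inn N m x)) (fun x => S x * ci M p m x ω)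
      (fun x => S x * ci M p m x ω) := bl_filter v A _ _
    rw [h1]
    exact hR T (Finset.mem_powerset.2 (Finset.filter_subset _ _))
  have h1b : bl v A E1 E1 ≤ 4 * ∑ x ∈ A, cnf M N L Rel ω x := by
    refine (en_le hv A E1).trans ?_
    rw [Finset.mul_sum]
    refine Finset.sum_le_sum fun x hx => ?_
    have hc0 : 0 ≤ cnf M N L Rel ω x := by unfold cnf; split_ifs <;> norm_num
    by_cases hp : ω ∈ Perc M x
    · have hex : ∃ y, y ∈ A ∧ cell N y = cell N x ∧ ω ∈ Perc M y := ⟨x, hx, rfl, hp⟩
      have hsx : s (cell N x) = X hex.choose := by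
        simp only [hs]; rw [dif_pos hex]
      obtain ⟨g1, g2, g3⟩ := hex.choose_spec
      by_cases hr : Rel x hex.choose
      · have : E1 x = 0 := by
          simp only [hE1, hS]
          rw [hTs x hx, hsx, hXc x _ hr, sub_self, zero_mul]
        rw [this]
        nlinarith
      · have hc1 : cnf M N L Rel ω x = 1 := by
          unfold cnf
          rw [if_pos ⟨hex.choose, g1, g2, hp, g3, hr⟩]
        rw [hc1, mul_one]
        simp only [hE1]
        rw [mul_pow]
        have h5 : e x ^ 2 ≤ 1 := by rcases he01 x with h | h <;> rw [h] <;> norm_num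
        have h6 : (X x - S x) ^ 2 ≤ 4 := by
          have h7 : S x = 1 ∨ S x = -1 := by
            simp only [hS]; rw [hTs x hx]; exact hs1 _
          rcases hX x with h | h <;> rcases h7 with h8 | h8 <;> rw [h, h8] <;> norm_num
        calc (X x - S x) ^ 2 * e x ^ 2 ≤ 4 * 1 := mul_le_mul h6 h5 (sq_nonneg _) (by norm_num)
          _ = 4 := by norm_num
    · have : E1 x = 0 := by
        simp only [hE1, he]
        rw [Set.indicator_of_notMem hp, mul_zero]
      rw [this]
      nlinarith
  have h2b : bl v A E2 E2 ≤ ∑ x ∈ A, (ea x - e x) := by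
    refine (en_le hv A E2).trans ?_
    refine Finset.sum_le_sum fun x _ => ?_
    simp only [hE2]
    rw [mul_pow, hSsq, one_mul]
    have h3 := hle x
    rcases he01 x with h | h <;> rcases hea01 x with h' | h' <;> rw [h, h'] at h3 ⊢ <;>
      first
        | (norm_num; done)
        | (exfalso; linarith)
  have h3b : bl v A E3 E3 ≤ nn d N 1 L := by
    have h1 := bl_smul v A π π S S
    have h2 : bl v A E3 E3 = π * π * bl v A S S := h1
    rw [h2]
    have h3 : bl v A S S ≤ nn d N 1 L :=
      (en_mono hv wt_Mu hvw A S).trans (en_cell hd hN (sgn T) (sgn_abs T))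
    have h4 : 0 ≤ bl v A S S := en_nonneg hv A S
    have h5 : π * π ≤ 1 := mul_le_one₀ hπ1 hπ0 hπ1
    exact (mul_le_of_le_one_left h4 h5).trans h3
  have h4b : bl v A E4 E4 ≤ nn d N m L := by
    refine (en_le hv A E4).trans ?_
    have : (nn d N m L : ℝ) = ∑ x ∈ A, (if ¬ inn N m x then (1 : ℝ) else 0) := by
      rw [← Finset.sum_filter, Finset.sum_const, nsmul_eq_mul, mul_one]
      rfl
    rw [this]
    refine Finset.sum_le_sum fun x _ => ?_
    by_cases hi : inn N m x
    · have h5 : E4 x = 0 := by simp [hE4, hi]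
      rw [h5, if_neg (not_not.2 hi)]
      norm_num
    · have h5 : E4 x = S x * ci M p m x ω := by simp [hE4, hi]
      rw [h5, if_pos hi, mul_pow, hSsq, one_mul, ← sq_abs]
      exact pow_le_one₀ (abs_nonneg _) (ci_abs M p m x ω)
  rw [hb]
  have k1 := en_add_le hv A F (fun x => (E1 x + E2 x) + (E3 x + E4 x)) ha
  have k2 := en_add_le_two hv A (fun x => E1 x + E2 x) (fun x => E3 x + E4 x)
  have k3 := en_add_le_two hv A E1 E2
  have k4 := en_add_le_two hv A E3 E4
  have hai : 0 < a⁻¹ := inv_pos.2 ha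
  have k5 : bl v A (fun x => (E1 x + E2 x) + (E3 x + E4 x)) (fun x => (E1 x + E2 x) + (E3 x + E4 x)) ≤
      4 * (4 * ∑ x ∈ A, cnf M N L Rel ω x + ∑ x ∈ A, (ea x - e x) + (nn d N 1 L + nn d N m L)) := by
    linarith
  have k6 : (1 + a) * bl v A F F ≤ (1 + a) * Rb := mul_le_mul_of_nonneg_left hFb (by linarith)
  have k7 := mul_le_mul_of_nonneg_left k5 (by linarith : (0 : ℝ) ≤ 1 + a⁻¹)
  exact k1.trans (add_le_add k6 k7)

open Classical in
/-- the average over the classes -/
theorem group (A : Finset (Z d)) (Rel : Z d → Z d → Prop) (hsymm : ∀ x y, Rel x y → Rel y x)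
    (htr : ∀ x y z, Rel x y → Rel y z → Rel x z) (hrf : ∀ x, Rel x x) (e f : Z d → ℝ)
    (he : ∀ x y, Rel x y → e x = e y) :
    ∑ x ∈ A, e x * ((∑ u ∈ A.filter (Rel x), f u) / (A.filter (Rel x)).card) =
      ∑ u ∈ A, e u * f u := by
  have h1 : ∀ x ∈ A, e x * ((∑ u ∈ A.filter (Rel x), f u) / (A.filter (Rel x)).card) =
      ∑ u ∈ A, if Rel u x then e u * f u / (A.filter (Rel u)).card else 0 := by
    intro x _
    rw [mul_div_assoc', Finset.sum_filter, Finset.mul_sum, Finset.sum_div]
    refine Finset.sum_congr rfl fun u _ => ?_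
    by_cases h : Rel x u
    · have h2 : A.filter (Rel x) = A.filter (Rel u) := by
        refine Finset.filter_congr fun w _ => ?_
        exact ⟨fun h3 => htr _ _ _ (hsymm _ _ h) h3, fun h3 => htr _ _ _ h h3⟩
      rw [if_pos h, if_pos (hsymm _ _ h), h2, he x u h]
    · rw [if_neg h, if_neg (fun h2 => h (hsymm _ _ h2))]
      simp
  rw [Finset.sum_congr rfl h1, Finset.sum_comm]
  refine Finset.sum_congr rfl fun u hu => ?_
  rw [← Finset.sum_filter, Finset.sum_const, nsmul_eq_mul]
  have h3 : ((A.filter (Rel u)).card : ℝ) ≠ 0 := by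
    have : 0 < (A.filter (Rel u)).card := Finset.card_pos.2 ⟨u, Finset.mem_filter.2 ⟨hu, hrf u⟩⟩
    positivity
  rw [mul_div_cancel₀ _ h3]

open Classical in
/-- **The energy of the clusters.** -/
theorem clus (A : Finset (Z d)) (v : (Fin d → ℝ) → ℝ) (Rel : Z d → Z d → Prop)
    (hsymm : ∀ x y, Rel x y → Rel y x)
    (htr : ∀ x y z, Rel x y → Rel y z → Rel x z) (hrf : ∀ x, Rel x x) (e : Z d → ℝ)
    (he : ∀ x y, Rel x y → e x = e y) (he1 : ∀ x, e x = 0 ∨ e x = 1) (K : ℝ)
    (hK : ∀ X : Z d → ℝ, (∀ x, X x = 1 ∨ X x = -1) → (∀ x y, Rel x y → X x = X y) →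
      bl v A (fun x => X x * e x) (fun x => X x * e x) ≤ K) :
    ∑ x ∈ A, e x * (bl v (A.filter (Rel x)) 1 1 / (A.filter (Rel x)).card) ≤ K := by
  have hcls : ∀ x y, {z | Rel x z} = {z | Rel y z} ↔ Rel x y := by
    intro x y
    constructor
    · intro h
      have : y ∈ {z | Rel x z} := by rw [h]; exact hrf y
      exact this
    · intro h
      ext z
      exact ⟨fun h3 => htr _ _ _ (hsymm _ _ h) h3, fun h3 => htr _ _ _ h h3⟩
  set J : Finset (Set (Z d)) := A.image (fun x => {z | Rel x z}) with hJ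
  have hn : (0 : ℝ) < J.powerset.card := by
    have hJ' : J.powerset.Nonempty := ⟨∅, Finset.empty_mem_powerset J⟩
    exact_mod_cast hJ'.card_pos
  -- the average over the signs
  have h1 : ∑ T ∈ J.powerset, bl v A (fun x => sgn T {z | Rel x z} * e x)
      (fun x => sgn T {z | Rel x z} * e x) = J.powerset.card *
      ∑ x ∈ A, ∑ y ∈ A, (if Rel x y then e x * e y * Kv v (y - x) else 0) := by
    unfold bl
    rw [Finset.sum_comm, Finset.mul_sum]
    refine Finset.sum_congr rfl fun x hx => ?_
    rw [Finset.sum_comm, Finset.mul_sum]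
    refine Finset.sum_congr rfl fun y _ => ?_
    have h2 : ∀ T : Finset (Set (Z d)), sgn T {z | Rel x z} * e x * (sgn T {z | Rel y z} * e y) *
        Kv v (y - x) = (e x * e y * Kv v (y - x)) * (sgn T {z | Rel x z} * sgn T {z | Rel y z}) := by
      intro T; ring
    simp_rw [h2]
    rw [← Finset.mul_sum, sum_sgn_mul J _ _ (Finset.mem_image_of_mem _ hx)]
    by_cases h : Rel x y
    · rw [if_pos ((hcls x y).2 h), if_pos h]; ring
    · rw [if_neg (fun h3 => h ((hcls x y).1 h3)), if_neg h]; ring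
  have h2 : ∑ T ∈ J.powerset, bl v A (fun x => sgn T {z | Rel x z} * e x)
      (fun x => sgn T {z | Rel x z} * e x) ≤ J.powerset.card * K := by
    refine (Finset.sum_le_card_nsmul _ _ K fun T _ => ?_).trans (le_of_eq (nsmul_eq_mul _ _))
    refine hK _ (fun x => ?_) fun x y h => ?_
    · unfold sgn; split_ifs
      · exact Or.inr rfl
      · exact Or.inl rfl
    · rw [(hcls x y).2 h]
  rw [h1] at h2
  have h3 := le_of_mul_le_mul_left h2 hn
  refine le_trans (le_of_eq ?_) h3
  set f : Z d → ℝ := fun u => ∑ w ∈ A, if Rel u w then Kv v (w - u) else 0 with hf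
  have h4 : ∀ x ∈ A, e x * (bl v (A.filter (Rel x)) 1 1 / (A.filter (Rel x)).card) =
      e x * ((∑ u ∈ A.filter (Rel x), f u) / (A.filter (Rel x)).card) := by
    intro x _
    congr 2
    unfold bl
    refine Finset.sum_congr rfl fun u hu => ?_
    simp only [hf]
    rw [Finset.sum_filter]
    refine Finset.sum_congr rfl fun w _ => ?_
    have hxu := (Finset.mem_filter.1 hu).2
    by_cases h : Rel x w
    · rw [if_pos h, if_pos (htr _ _ _ (hsymm _ _ hxu) h)]; simp
    · rw [if_neg h, if_neg (fun h5 => h (htr _ _ _ hxu h5))]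
  rw [Finset.sum_congr rfl h4, group A Rel hsymm htr hrf e f he]
  refine Finset.sum_congr rfl fun x _ => ?_
  simp only [hf]
  rw [Finset.mul_sum]
  refine Finset.sum_congr rfl fun y _ => ?_
  by_cases h : Rel x y
  · rw [if_pos h, if_pos h, ← he x y h]
    rcases he1 x with h5 | h5 <;> rw [h5] <;> ring
  · rw [if_neg h, if_neg h, mul_zero]

end

end Pool.Agent.J4.H90.Perc
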