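import Pool.Agent.J4.H90.Perc.Modu

/-!
The mass which escapes to the origin as the parameter increases to the critical point is the square of
the percolation probability.
-/

set_option autoImplicit false
set_option linter.deprecated false

open MeasureTheory Set Filter
open scoped Topology

namespace Pool.Agent.J4.H90.Perc

open Pool.Agent.Results.MP_54f242_pr.InfraredMean (opn P tau cube dot Dhat Dhat_le cube_meas cube_fin
  cos_mul_Dhat tau_mono tau_zero tau_nonneg tau_le_one)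
open Pool.Agent.J4.H67.PC (LU conf dens tauf tauf_eq fourier dens_meas dens_fin int_dens_le
  map_conf meas_conf reach_left conf_mono ps ps_eq ps_nonneg ps_cont cl cf meas_cf meas_fin mem_cf
  coe_cf cl_mono FF FF_meas FF_empty int_FF_le meas_joint')
open Pool.Agent.Y990.CB (Z Bo Bf mem_Bf card_Bf coe_Bf nm nm_le abs_le_nm exists_nm)

noncomputable section

variable {d : ℕ}

theorem theta_sq_le_Tw (hd : 1 ≤ d) (n : ℕ) :
    theta d (pcrit d) pcrit_le ^ 2 ≤ Tw^[n] (tau d (pcrit d) pcrit_le) 0 :=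
  Tw_iter_lower hd n 0 (fun x _ => theta_sq_le _ _ pcrit_pos x) 0 (fun i => by simp)

/-- lower bound for the mass near the origin as `p ↑ p_c` -/
theorem cond_lower (hd : 1 ≤ d) (r : ℝ) (hr : 0 < r) (ε : ℝ) (hε : 0 < ε) :
    ∃ p0 : NNReal, p0 < pcrit d ∧ ∀ (p : NNReal) (hp : p ≤ 1), p0 < p → p < pcrit d →
      theta d (pcrit d) pcrit_le ^ 2 - ε ≤ ∫ k in cube d ∩ sm d r, nd d p hp k := by
  have hd0 : (0 : ℝ) < d := by exact_mod_cast hd
  -- the number of steps
  have h1 : Tendsto (fun n : ℕ => Real.exp (-(n * r ^ 2 / (d * Real.pi ^ 2)))) atTop (𝓝 0) := by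
    refine Real.tendsto_exp_neg_atTop_nhds_zero.comp ?_
    have h2 : Tendsto (fun n : ℕ => (n : ℝ) * (r ^ 2 / (d * Real.pi ^ 2))) atTop atTop :=
      tendsto_natCast_atTop_atTop.atTop_mul_const (by positivity)
    refine h2.congr fun n => ?_
    ring
  obtain ⟨n, hn⟩ := (h1.eventually (gt_mem_nhds (show (0 : ℝ) < ε / 2 by linarith))).exists
  obtain ⟨u, hu, -, hlt, -, -, ht⟩ := tau_left (d := d) (pcrit d) pcrit_le pcrit_pos
  have h2 := Tw_iter_tendsto ht n 0
  have h3 := theta_sq_le_Tw hd n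
  obtain ⟨j, hj⟩ := (h2.eventually (lt_mem_nhds (show Tw^[n] (tau d (pcrit d) pcrit_le) 0 - ε / 2 <
    Tw^[n] (tau d (pcrit d) pcrit_le) 0 by linarith))).exists
  refine ⟨u j, hlt j, fun p hp h0 hpc => ?_⟩
  have h4 : Tw^[n] (tau d (u j) (hu j)) 0 ≤ Tw^[n] (tau d p hp) 0 :=
    Tw_iter_mono (fun x => tau_mono _ _ _ _ h0.le x) n 0
  set m := (∫⁻ k in cube d ∩ sm d r, dens d p hp k).toReal with hm
  have hfin : ∫⁻ k in cube d ∩ sm d r, dens d p hp k ≠ ⊤ :=
    ne_top_of_le_ne_top ENNReal.ofReal_ne_top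
      ((lintegral_mono_set inter_subset_left).trans (int_dens_le p hp))
  have h5 := Tw_tau_le p hp (fin_of_lt p hp hpc) n r m hr.le ENNReal.toReal_nonneg (by
    rw [hm, ENNReal.ofReal_toReal hfin])
  have h6 : m / (2 * Real.pi) ^ d = ∫ k in cube d ∩ sm d r, nd d p hp k := by
    unfold nd
    rw [integral_div, integral_toReal (dens_meas p hp).aemeasurable
      (ae_mono (Measure.restrict_mono inter_subset_left le_rfl) (dens_fin p hp))]
  rw [h6] at h5
  linarith

/-- the mean of the two-point function over pairs of points of a box -/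
theorem box_mean (hd : 1 ≤ d) (ε : ℝ) (hε : 0 < ε) : ∃ n : ℕ,
    (∑ x ∈ Bf (0 : Z d) n, ∑ y ∈ Bf (0 : Z d) n, tau d (pcrit d) pcrit_le (y - x)) /
      ((Bf (0 : Z d) n).card : ℝ) ^ 2 ≤ theta d (pcrit d) pcrit_le ^ 2 + ε := by
  classical
  obtain ⟨n0, h0⟩ := tau_limsup hd (pcrit d) pcrit_le (ε / 2) (by linarith)
  set θ2 := theta d (pcrit d) pcrit_le ^ 2 with hθ
  -- the size of the box
  have h1 : Tendsto (fun n : ℕ => ((2 * n0 + 1 : ℕ) : ℝ) ^ d / ((2 * n + 1 : ℕ) : ℝ) ^ d) atTop (𝓝 0) := by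
    refine Tendsto.div_atTop tendsto_const_nhds ?_
    refine (tendsto_pow_atTop (by omega)).comp ?_
    refine tendsto_natCast_atTop_atTop.comp ?_
    exact tendsto_atTop_mono (fun k => show k ≤ 2 * k + 1 by omega) tendsto_id
  obtain ⟨n, hn⟩ := (h1.eventually (gt_mem_nhds (show (0 : ℝ) < ε / 2 by linarith))).exists
  refine ⟨n, ?_⟩
  set B := Bf (0 : Z d) n with hB
  have hcard : (B.card : ℝ) = ((2 * n + 1 : ℕ) : ℝ) ^ d := by
    rw [hB, card_Bf]; push_cast; rfl
  have hc0 : (0 : ℝ) < B.card := by rw [hcard]; positivity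
  have h2 : ∀ x ∈ B, ∑ y ∈ B, tau d (pcrit d) pcrit_le (y - x) ≤
      B.card * (θ2 + ε / 2) + ((2 * n0 + 1 : ℕ) : ℝ) ^ d := by
    intro x _
    have h3 : ∀ y ∈ B, tau d (pcrit d) pcrit_le (y - x) ≤
        (θ2 + ε / 2) + (if y - x ∈ Bf (0 : Z d) n0 then 1 else 0) := by
      intro y _
      have hθ0 : 0 ≤ θ2 := sq_nonneg _
      split_ifs with hy
      · have := tau_le_one (pcrit d) pcrit_le (y - x)
        linarith
      · rw [add_zero]
        refine h0 (y - x) ?_
        by_contra hcon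
        apply hy
        rw [mem_Bf]
        intro i
        have h4 := abs_le_nm (y - x) i
        have h5 : (y - x) i - (0 : Z d) i = (y - x) i := by simp
        rw [h5]
        omega
    refine (Finset.sum_le_sum h3).trans ?_
    rw [Finset.sum_add_distrib, Finset.sum_const, nsmul_eq_mul]
    refine add_le_add le_rfl ?_
    rw [← Finset.sum_filter, Finset.sum_const, nsmul_eq_mul, mul_one]
    have h4 : (B.filter (fun y => y - x ∈ Bf (0 : Z d) n0)).card ≤ (Bf (0 : Z d) n0).card := by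
      refine Finset.card_le_card_of_injOn (fun y => y - x) (fun y hy => ?_) ?_
      · exact (Finset.mem_filter.1 hy).2
      · intro a _ b _ hab
        exact sub_left_injective hab
    rw [card_Bf] at h4
    exact_mod_cast h4
  rw [div_le_iff₀ (by positivity)]
  refine (Finset.sum_le_sum h2).trans ?_
  rw [Finset.sum_const, nsmul_eq_mul]
  have h3 : ((2 * n0 + 1 : ℕ) : ℝ) ^ d ≤ ε / 2 * B.card := by
    rw [hcard]
    rw [div_lt_iff₀ (by positivity)] at hn
    exact hn.le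
  calc (B.card : ℝ) * (B.card * (θ2 + ε / 2) + ((2 * n0 + 1 : ℕ) : ℝ) ^ d)
      ≤ (B.card : ℝ) * (B.card * (θ2 + ε / 2) + ε / 2 * B.card) := by gcongr
    _ = (θ2 + ε) * (B.card : ℝ) ^ 2 := by ring

/-- upper bound for the mass near the origin -/
theorem cond_upper (hd : 1 ≤ d) (ε : ℝ) (hε : 0 < ε) : ∃ r0 : ℝ, 0 < r0 ∧ r0 ≤ 1 ∧
    ∀ (p : NNReal) (hp : p ≤ 1), p < pcrit d →
      ∫ k in cube d ∩ sm d r0, nd d p hp k ≤ theta d (pcrit d) pcrit_le ^ 2 + ε := by
  obtain ⟨n, hn⟩ := box_mean hd (ε / 2) (by linarith)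
  set θ2 := theta d (pcrit d) pcrit_le ^ 2 with hθ
  -- the radius
  have h1 : Tendsto (fun r : ℝ => (2 * d * r * n) ^ 2 / 2) (𝓝[>] 0) (𝓝 0) := by
    have hc : Continuous fun r : ℝ => (2 * d * r * n) ^ 2 / 2 := by fun_prop
    have := (hc.tendsto 0).mono_left (nhdsWithin_le_nhds (s := Ioi (0 : ℝ)))
    simpa using this
  have h2 : ∀ᶠ r : ℝ in 𝓝[>] 0, (2 * d * r * n) ^ 2 / 2 < ε / 2 :=
    h1.eventually (gt_mem_nhds (by linarith))
  have h3 : ∀ᶠ r : ℝ in 𝓝[>] 0, r ≤ 1 := by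
    filter_upwards [Ioo_mem_nhdsGT (show (0 : ℝ) < 1 by norm_num)] with r hr
    exact hr.2.le
  obtain ⟨r, ⟨hr1, hr2⟩, hr0⟩ := ((h2.and h3).and self_mem_nhdsWithin).exists
  refine ⟨r, hr0, hr2, fun p hp hlt => ?_⟩
  have h4 := mass_le_box p hp (fin_of_lt p hp hlt) n r (le_of_lt hr0)
  have h5 : (∑ x ∈ Bf (0 : Z d) n, ∑ y ∈ Bf (0 : Z d) n, tau d p hp (y - x)) /
      ((Bf (0 : Z d) n).card : ℝ) ^ 2 ≤ θ2 + ε / 2 := by
    refine le_trans ?_ hn
    refine div_le_div_of_nonneg_right ?_ (by positivity)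
    exact Finset.sum_le_sum fun x _ => Finset.sum_le_sum fun y _ => tau_mono _ _ _ _ hlt.le _
  set I := ∫ k in cube d ∩ sm d r, nd d p hp k with hI
  have hI1 : I ≤ 1 := by
    rw [hI, ← int_nd p hp (fin_of_lt p hp hlt)]
    exact integral_mono_measure (Measure.restrict_mono inter_subset_left le_rfl)
      (Eventually.of_forall fun k => nd_nonneg p hp k) (nd_int p hp)
  have hI0 : 0 ≤ I := integral_nonneg fun k => nd_nonneg p hp k
  have h6 : (2 * d * r * n) ^ 2 / 2 * I ≤ ε / 2 := by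
    have h7 : 0 ≤ (2 * d * r * n) ^ 2 / 2 := by positivity
    nlinarith
  linarith

end

end Pool.Agent.J4.H90.Perc
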