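import Pool.Agent.J4.H90.Perc.Spec2

/-!
Criteria for the continuity of the percolation probability at the critical point.
-/

set_option autoImplicit false
set_option linter.deprecated false

open MeasureTheory Set Filter
open scoped Topology

namespace Pool.Agent.J4.H90.Perc

open Pool.Agent.Results.MP_54f242_pr.InfraredMean (opn P tau cube dot Dhat Dhat_le cube_meas cube_fin
  cos_mul_Dhat tau_mono tau_zero tau_nonneg tau_le_one integrable_of_cont)
open Pool.Agent.J4.H67.PC (dens tauf dens_meas int_dens_le)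
open Pool.Agent.Y990.CB (Z Bo Bf mem_Bf card_Bf coe_Bf nm nm_le abs_le_nm exists_nm)

noncomputable section

variable {d : ℕ}

/-- convergence in mean implies continuity -/
theorem theta_zero_of_conv (hd : 1 ≤ d) (g : (Fin d → ℝ) → ℝ)
    (hg : Integrable g (volume.restrict (cube d)))
    (h : ∀ (q : ℕ → NNReal) (hq : ∀ n, q n ≤ 1), (∀ n, q n < pcrit d) →
      Tendsto q atTop (𝓝 (pcrit d)) →
      Tendsto (fun n => ∫ k in cube d, |(dens d (q n) (hq n) k).toReal - g k|) atTop (𝓝 0)) :
    theta d (pcrit d) pcrit_le = 0 := by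
  obtain ⟨u, hu, -, hlt, -, hu2, ht⟩ := tau_left (d := d) (pcrit d) pcrit_le pcrit_pos
  have hL := h u hu hlt hu2
  have hpi : (0 : ℝ) < (2 * Real.pi) ^ d := by positivity
  have hmb : ∀ (n : ℕ) (k : Fin d → ℝ), ‖mlt k ^ n‖ ≤ 1 := fun n k => by
    rw [Real.norm_eq_abs, abs_of_nonneg (pow_nonneg (mlt_nonneg k) n)]
    exact pow_le_one₀ (mlt_nonneg k) (mlt_le_one k)
  -- the limit of the pairings
  have h1 : ∀ n : ℕ, theta d (pcrit d) pcrit_le ^ 2 ≤
      (∫ k in cube d, g k * mlt k ^ n) / (2 * Real.pi) ^ d := by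
    intro n
    have hmm : AEStronglyMeasurable (fun k : Fin d → ℝ => mlt k ^ n) (volume.restrict (cube d)) :=
      (mlt_cont.pow n).aestronglyMeasurable
    have i1 : ∀ j, Integrable (fun k => (dens d (u j) (hu j) k).toReal * mlt k ^ n)
        (volume.restrict (cube d)) := fun j =>
      (dens_int _ _).mul_bdd (c := 1) hmm (Eventually.of_forall (hmb n))
    have i2 : Integrable (fun k => g k * mlt k ^ n) (volume.restrict (cube d)) :=
      hg.mul_bdd (c := 1) hmm (Eventually.of_forall (hmb n))
    have h2 : Tendsto (fun j => ∫ k in cube d, (dens d (u j) (hu j) k).toReal * mlt k ^ n) atTop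
        (𝓝 (∫ k in cube d, g k * mlt k ^ n)) := by
      rw [tendsto_iff_norm_sub_tendsto_zero]
      refine squeeze_zero (fun m => norm_nonneg _) (fun j => ?_) hL
      rw [← integral_sub (i1 j) i2]
      refine (norm_integral_le_integral_norm _).trans ?_
      refine integral_mono ((i1 j).sub i2).norm ((dens_int _ _).sub hg).abs fun k => ?_
      show ‖(dens d (u j) (hu j) k).toReal * mlt k ^ n - g k * mlt k ^ n‖ ≤
        |(dens d (u j) (hu j) k).toReal - g k|
      rw [← sub_mul, norm_mul, Real.norm_eq_abs]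
      exact mul_le_of_le_one_right (abs_nonneg _) (hmb n k)
    have h3 : Tendsto (fun j => Tw^[n] (tau d (u j) (hu j)) 0) atTop
        (𝓝 ((∫ k in cube d, g k * mlt k ^ n) / (2 * Real.pi) ^ d)) := by
      refine (h2.div_const _).congr fun j => ?_
      rw [Tw_tau (u j) (hu j) (fin_of_lt _ _ (hlt j)), ← integral_div]
      refine integral_congr_ae (Eventually.of_forall fun k => ?_)
      show (dens d (u j) (hu j) k).toReal * mlt k ^ n / (2 * Real.pi) ^ d =
        nd d (u j) (hu j) k * mlt k ^ n
      unfold nd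
      ring
    have h4 := tendsto_nhds_unique h3 (Tw_iter_tendsto ht n 0)
    rw [h4]
    exact theta_sq_le_Tw hd n
  -- the pairings tend to zero
  have h2 : Tendsto (fun n : ℕ => ∫ k in cube d, g k * mlt k ^ n) atTop (𝓝 0) := by
    have e : (0 : ℝ) = ∫ _k in cube d, (0 : ℝ) := by simp
    rw [e]
    refine tendsto_integral_of_dominated_convergence (fun k => |g k|) (fun n => ?_) hg.abs
      (fun n => Eventually.of_forall fun k => ?_) ?_
    · exact hg.aestronglyMeasurable.mul (mlt_cont.pow n).aestronglyMeasurable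
    · rw [norm_mul, Real.norm_eq_abs]
      exact mul_le_of_le_one_right (abs_nonneg _) (hmb n k)
    · have hne : ∀ᵐ k : Fin d → ℝ ∂(volume.restrict (cube d)), k ≠ 0 := by
        have hzero : volume ({0} : Set (Fin d → ℝ)) = 0 := by
          have : Nonempty (Fin d) := ⟨⟨0, hd⟩⟩
          exact measure_singleton 0
        refine ae_restrict_of_ae ?_
        rw [ae_iff]
        simpa using hzero
      filter_upwards [hne, ae_restrict_mem cube_meas] with k hk hkc
      obtain ⟨i, hi⟩ : ∃ i, k i ≠ 0 := by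
        by_contra hc
        push Not at hc
        exact hk (funext hc)
      have hns : k ∉ sm d (|k i| / 2) := by
        intro hc
        have h3 := hc i
        have h4 := abs_pos.2 hi
        linarith
      have h3 := one_sub_Dhat_ge hkc (by positivity) hns
      have hd0 : (0 : ℝ) < d := by exact_mod_cast hd
      have h4 : 0 < 2 / (d * Real.pi ^ 2) * (|k i| / 2) ^ 2 := by
        have := abs_pos.2 hi
        positivity
      have h5 : mlt k < 1 := by unfold mlt; linarith
      have h6 : Tendsto (fun n : ℕ => g k * mlt k ^ n) atTop (𝓝 (g k * 0)) :=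
        (tendsto_pow_atTop_nhds_zero_of_lt_one (mlt_nonneg k) h5).const_mul _
      rwa [mul_zero] at h6
  have h3 : theta d (pcrit d) pcrit_le ^ 2 ≤ 0 := by
    have h4 : Tendsto (fun n : ℕ => (∫ k in cube d, g k * mlt k ^ n) / (2 * Real.pi) ^ d) atTop
        (𝓝 (0 / (2 * Real.pi) ^ d)) := h2.div_const _
    rw [zero_div] at h4
    exact ge_of_tendsto' h4 h1
  exact pow_eq_zero_iff (two_ne_zero) |>.1 (le_antisymm h3 (sq_nonneg _))

/-- the volume of the cluster and the percolation probability -/
theorem vol_tendsto (hd : 1 ≤ d) (h : theta d (pcrit d) pcrit_le = 0) :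
    Tendsto (vol d (pcrit d) pcrit_le) atTop (𝓝 0) := by
  have h1 := arm_tendsto hd (pcrit d) pcrit_le
  rw [h] at h1
  rw [Metric.tendsto_atTop] at h1 ⊢
  intro ε hε
  obtain ⟨N, hN⟩ := h1 ε hε
  refine ⟨2 ^ d * (N + 1) ^ d, fun n hn => ?_⟩
  have h2 := hN (N + 1) (by omega)
  rw [Real.dist_eq, sub_zero, abs_of_nonneg (arm_nonneg _ _ _)] at h2
  rw [Real.dist_eq, sub_zero, abs_of_nonneg (vol_nonneg _ _ _)]
  exact ((vol_anti _ _ hn).trans (vol_le_arm hd _ _ (by omega))).trans_lt h2

theorem UU_tendsto (hd : 1 ≤ d) (h : theta d (pcrit d) pcrit_le = 0) :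
    Tendsto (fun N : ℕ => UU d N) atTop (𝓝 0) := by
  have h1 : Tendsto (fun N : ℕ => ENNReal.ofReal (2 * (2 * Real.pi) ^ d *
      vol d (pcrit d) pcrit_le N)) atTop (𝓝 0) := by
    have h2 := (vol_tendsto hd h).const_mul (2 * (2 * Real.pi) ^ d)
    rw [mul_zero] at h2
    have h3 := (ENNReal.continuous_ofReal.tendsto 0).comp h2
    rw [ENNReal.ofReal_zero] at h3
    exact h3
  rw [ENNReal.tendsto_atTop_zero] at h1 ⊢
  intro ε hε
  obtain ⟨N, hN⟩ := h1 ε hε
  refine ⟨2 * N, fun n hn => ?_⟩
  have h2 : ((2 * N : ENNReal)) ≤ n := by exact_mod_cast hn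
  exact (UU_anti h2).trans ((UU_le_vol N).trans (hN N le_rfl))

end

end Pool.Agent.J4.H90.Perc
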