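import Pool.Agent.J4.H90.Perc.Ind

/-!
The exponential moments of the off-diagonal part of a quadratic form in blocks, and a bound for its maximum
over the choices of signs of the blocks.
-/

set_option autoImplicit false
set_option linter.deprecated false

open MeasureTheory Set Filter ProbabilityTheory
open scoped Topology

namespace Pool.Agent.J4.H90.Perc

open Pool.Agent.W783.PC (pm DepOn Inc bern)

noncomputable section

open Classical in
/-- the sign of an element given by a set -/
def sgn {β : Type} (T : Finset β) (j : β) : ℝ := if j ∈ T then -1 else 1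

theorem sgn_abs {β : Type} (T : Finset β) (j : β) : |sgn T j| ≤ 1 := by
  unfold sgn
  split_ifs <;> simp

theorem sgn_sq {β : Type} (T : Finset β) (j : β) : sgn T j * sgn T j = 1 := by
  unfold sgn
  split_ifs <;> simp

open Classical in
/-- a function which changes its sign when an element is moved has the sum zero -/
theorem sum_flip {β : Type} (J : Finset β) (a : β) (ha : a ∈ J) (f : Finset β → ℝ)
    (hf : ∀ T, f (symmDiff T {a}) = - f T) : ∑ T ∈ J.powerset, f T = 0 := by
  have hmem : ∀ T ∈ J.powerset, symmDiff T {a} ∈ J.powerset := by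
    intro T hT
    rw [Finset.mem_powerset] at hT ⊢
    intro x hx
    rw [Finset.mem_symmDiff] at hx
    rcases hx with ⟨h1, _⟩ | ⟨h1, _⟩
    · exact hT h1
    · rw [Finset.mem_singleton] at h1; rw [h1]; exact ha
  have hinv : ∀ T : Finset β, symmDiff (symmDiff T {a}) {a} = T := fun T =>
    symmDiff_symmDiff_cancel_right {a} T
  refine Finset.sum_involution (fun T _ => symmDiff T {a}) (fun T _ => by rw [hf]; ring)
    (fun T _ hne h => ?_) hmem (fun T _ => hinv T)
  have h2 := hf T
  rw [h] at h2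
  apply hne
  linarith

open Classical in
theorem sgn_flip {β : Type} (T : Finset β) (a : β) : sgn (symmDiff T {a}) a = - sgn T a := by
  unfold sgn
  simp only [Finset.mem_symmDiff, Finset.mem_singleton, not_true_eq_false, and_false, true_and,
    false_or]
  split_ifs <;> simp

open Classical in
theorem sgn_stay {β : Type} (T : Finset β) {a j : β} (h : j ≠ a) : sgn (symmDiff T {a}) j = sgn T j := by
  unfold sgn
  simp only [Finset.mem_symmDiff, Finset.mem_singleton, h, not_false_eq_true, and_true, false_and,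
    or_false]

open Classical in
theorem sum_sgn {β : Type} (J : Finset β) (a : β) (ha : a ∈ J) : ∑ T ∈ J.powerset, sgn T a = 0 :=
  sum_flip J a ha _ fun T => sgn_flip T a

open Classical in
theorem sum_sgn_mul {β : Type} (J : Finset β) (a b : β) (ha : a ∈ J) :
    ∑ T ∈ J.powerset, sgn T a * sgn T b = if a = b then (J.powerset.card : ℝ) else 0 := by
  split_ifs with h
  · subst h
    simp_rw [sgn_sq]
    rw [Finset.sum_const, nsmul_eq_mul, mul_one]
  · refine sum_flip J a ha _ fun T => ?_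
    rw [sgn_flip, sgn_stay T (Ne.symm h)]
    ring

open Classical in
theorem sum_cut {β : Type} (J : Finset β) (a b : β) (ha : a ∈ J) (hb : b ∈ J) :
    ∑ T ∈ J.powerset, (if a ∈ T ∧ b ∉ T then (1 : ℝ) else 0) =
      if a = b then 0 else (J.powerset.card : ℝ) / 4 := by
  have e : ∀ T : Finset β, (if a ∈ T ∧ b ∉ T then (1 : ℝ) else 0) =
      (1 - sgn T a + sgn T b - sgn T a * sgn T b) / 4 := by
    intro T
    unfold sgn
    by_cases h1 : a ∈ T <;> by_cases h2 : b ∈ T <;> simp [h1, h2] <;> norm_num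
  simp_rw [e]
  rw [← Finset.sum_div, Finset.sum_sub_distrib, Finset.sum_add_distrib, Finset.sum_sub_distrib,
    sum_sgn J a ha, sum_sgn J b hb, sum_sgn_mul J a b ha]
  split_ifs
  · rw [Finset.sum_const, nsmul_eq_mul]; ring
  · rw [Finset.sum_const, nsmul_eq_mul]; ring

variable {ι : Type} (r : ι → unitInterval)

open Classical in
/-- the off-diagonal part of the quadratic form -/
def Off {α β : Type} (S : Finset α) (c : α → β) (F : α → (ι → Bool) → ℝ) (M : α → α → ℝ)
    (s : β → ℝ) (ω : ι → Bool) : ℝ :=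
  ∑ x ∈ S, ∑ y ∈ S, if c x = c y then 0 else (s (c x) * F x ω) * (s (c y) * F y ω) * M x y

open Classical in
theorem off_avg {α β : Type} (S : Finset α) (J : Finset β) (c : α → β) (hc : ∀ x ∈ S, c x ∈ J)
    (F : α → (ι → Bool) → ℝ) (M : α → α → ℝ) (s : β → ℝ) (ω : ι → Bool) :
    Off S c F M s ω = (∑ T ∈ J.powerset, 4 * ∑ x ∈ S.filter (fun x => c x ∈ T),
      (s (c x) * F x ω) * ∑ y ∈ S.filter (fun y => c y ∉ T), (s (c y) * F y ω) * M x y) /
        J.powerset.card := by
  have hn : (J.powerset.card : ℝ) ≠ 0 := by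
    rw [Finset.card_powerset]; positivity
  rw [eq_div_iff hn]
  have e : ∀ T : Finset β, 4 * ∑ x ∈ S.filter (fun x => c x ∈ T),
      (s (c x) * F x ω) * ∑ y ∈ S.filter (fun y => c y ∉ T), (s (c y) * F y ω) * M x y =
      ∑ x ∈ S, ∑ y ∈ S, (4 * ((s (c x) * F x ω) * (s (c y) * F y ω) * M x y)) *
        (if c x ∈ T ∧ c y ∉ T then (1 : ℝ) else 0) := by
    intro T
    rw [Finset.mul_sum, Finset.sum_filter]
    refine Finset.sum_congr rfl fun x _ => ?_
    by_cases h1 : c x ∈ T
    · rw [if_pos h1, Finset.sum_filter, Finset.mul_sum, Finset.mul_sum]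
      refine Finset.sum_congr rfl fun y _ => ?_
      by_cases h2 : c y ∈ T
      · rw [if_neg (not_not.2 h2), if_neg (fun h => h.2 h2)]; ring
      · rw [if_pos h2, if_pos ⟨h1, h2⟩]; ring
    · rw [if_neg h1]
      symm
      refine Finset.sum_eq_zero fun y _ => ?_
      rw [if_neg (fun h => h1 h.1), mul_zero]
  simp_rw [e]
  rw [Finset.sum_comm]
  unfold Off
  rw [Finset.sum_mul]
  refine Finset.sum_congr rfl fun x hx => ?_
  rw [Finset.sum_comm, Finset.sum_mul]
  refine Finset.sum_congr rfl fun y hy => ?_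
  rw [← Finset.mul_sum, sum_cut J (c x) (c y) (hc x hx) (hc y hy)]
  split_ifs
  · ring
  · ring

open Classical in
/-- **The exponential moments of the off-diagonal part.** -/
theorem off_exp {α β γ : Type} (S : Finset α) (J : Finset β) (c : α → β) (hc : ∀ x ∈ S, c x ∈ J)
    (C : Finset γ) (cls : α → γ) (hcls : ∀ x ∈ S, cls x ∈ C) (hC : C.Nonempty)
    (F : α → (ι → Bool) → ℝ) (A : α → Finset ι) (hF : ∀ x ∈ S, FD (F x) (A x))
    (hA : ∀ x ∈ S, ∀ y ∈ S, x ≠ y → cls x = cls y → Disjoint (A x) (A y))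
    (hA2 : ∀ x ∈ S, ∀ y ∈ S, c x ≠ c y → Disjoint (A x) (A y))
    (hb : ∀ x ω, |F x ω| ≤ 1) (h0 : ∀ x ∈ S, ∫ ω, F x ω ∂(pm r) = 0) (M : α → α → ℝ)
    (hM : ∀ Y : α → ℝ, ∑ x ∈ S, (∑ y ∈ S, Y y * M x y) ^ 2 ≤ ∑ x ∈ S, Y x ^ 2)
    (s : β → ℝ) (hs : ∀ j, |s j| ≤ 1) (l : ℝ) :
    ∫ ω, Real.exp (l * Off S c F M s ω) ∂(pm r) ≤
      Real.exp (8 * (C.card : ℝ) ^ 2 * l ^ 2 * S.card) := by
  set K : ℝ := Real.exp (8 * (C.card : ℝ) ^ 2 * l ^ 2 * S.card) with hK
  have hJ : J.powerset.Nonempty := ⟨∅, Finset.empty_mem_powerset J⟩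
  have hn : (0 : ℝ) < J.powerset.card := by exact_mod_cast hJ.card_pos
  set B : Finset β → (ι → Bool) → (ι → Bool) → ℝ := fun T ω ω' =>
    4 * ∑ x ∈ S.filter (fun x => c x ∈ T),
      (s (c x) * F x ω) * ∑ y ∈ S.filter (fun y => c y ∉ T), (s (c y) * F y ω') * M x y with hB
  have hdep1 : ∀ (T : Finset β) (ω' : ι → Bool), FD (fun ω => Real.exp (l * B T ω ω'))
      ((S.filter (fun x => c x ∈ T)).biUnion A) := by
    intro T ω' a b h
    have e1 : B T a ω' = B T b ω' := by
      simp only [hB]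
      refine congrArg (fun t : ℝ => 4 * t) (Finset.sum_congr rfl fun x hx => ?_)
      rw [hF x (Finset.mem_filter.1 hx).1 a b fun e he => h e (Finset.mem_biUnion.2 ⟨x, hx, he⟩)]
    show Real.exp (l * B T a ω') = Real.exp (l * B T b ω')
    rw [e1]
  have hdep2 : ∀ (T : Finset β) (ω : ι → Bool), FD (fun ω' => Real.exp (l * B T ω ω'))
      ((S.filter (fun x => c x ∉ T)).biUnion A) := by
    intro T ω a b h
    have e1 : B T ω a = B T ω b := by
      simp only [hB]
      refine congrArg (fun t : ℝ => 4 * t) (Finset.sum_congr rfl fun x _ => ?_)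
      refine congrArg (fun t : ℝ => (s (c x) * F x ω) * t) (Finset.sum_congr rfl fun y hy => ?_)
      rw [hF y (Finset.mem_filter.1 hy).1 a b fun e he => h e (Finset.mem_biUnion.2 ⟨y, hy, he⟩)]
    show Real.exp (l * B T ω a) = Real.exp (l * B T ω b)
    rw [e1]
  have hdis : ∀ T : Finset β, Disjoint ((S.filter (fun x => c x ∈ T)).biUnion A)
      ((S.filter (fun x => c x ∉ T)).biUnion A) := by
    intro T
    rw [Finset.disjoint_biUnion_left]
    intro x hx
    rw [Finset.disjoint_biUnion_right]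
    intro y hy
    refine hA2 x (Finset.mem_filter.1 hx).1 y (Finset.mem_filter.1 hy).1 fun h => ?_
    exact (Finset.mem_filter.1 hy).2 (h ▸ (Finset.mem_filter.1 hx).2)
  have hT : ∀ T : Finset β, ∫ ω, Real.exp (l * B T ω ω) ∂(pm r) ≤ K := by
    intro T
    refine dec_le r (hdis T) (fun ω ω' => Real.exp (l * B T ω ω')) (hdep1 T) (hdep2 T)
      (Real.exp_pos _).le fun ω' => ?_
    set b : α → ℝ := fun x => ∑ y ∈ S.filter (fun y => c y ∉ T), (s (c y) * F y ω') * M x y with hb'
    have e : ∀ ω, l * B T ω ω' = ∑ x ∈ S.filter (fun x => c x ∈ T), (4 * l * s (c x) * b x) * F x ω := by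
      intro ω
      simp only [hB, hb']
      rw [Finset.mul_sum, Finset.mul_sum]
      exact Finset.sum_congr rfl fun x _ => by ring
    simp_rw [e]
    refine (sg r (S.filter (fun x => c x ∈ T)) C cls (fun x hx => hcls x (Finset.mem_filter.1 hx).1) hC
      F A (fun x hx => hF x (Finset.mem_filter.1 hx).1)
      (fun x hx y hy => hA x (Finset.mem_filter.1 hx).1 y (Finset.mem_filter.1 hy).1) hb
      (fun x hx => h0 x (Finset.mem_filter.1 hx).1) _).trans ?_
    refine Real.exp_le_exp.2 ?_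
    have h1 : ∑ x ∈ S.filter (fun x => c x ∈ T), (4 * l * s (c x) * b x) ^ 2 ≤
        16 * l ^ 2 * S.card := by
      have h2 : ∀ x, (4 * l * s (c x) * b x) ^ 2 ≤ 16 * l ^ 2 * b x ^ 2 := by
        intro x
        have h3 : s (c x) ^ 2 ≤ 1 := by
          rw [← sq_abs]; exact pow_le_one₀ (abs_nonneg _) (hs _)
        have h4 : (4 * l * s (c x) * b x) ^ 2 = (16 * l ^ 2 * b x ^ 2) * s (c x) ^ 2 := by ring
        rw [h4]
        exact mul_le_of_le_one_right (by positivity) h3
      have h5 : ∑ x ∈ S, b x ^ 2 ≤ S.card := by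
        set Y : α → ℝ := fun y => if c y ∉ T then s (c y) * F y ω' else 0 with hY
        have h6 : ∀ x, b x = ∑ y ∈ S, Y y * M x y := by
          intro x
          simp only [hb', hY]
          rw [Finset.sum_filter]
          refine Finset.sum_congr rfl fun y _ => ?_
          by_cases h : c y ∈ T
          · simp [h]
          · simp [h]
        simp_rw [h6]
        refine (hM Y).trans ?_
        refine (Finset.sum_le_card_nsmul _ _ 1 fun y _ => ?_).trans (le_of_eq ?_)
        · by_cases h : c y ∈ T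
          · simp [hY, h]
          · have h7 : Y y = s (c y) * F y ω' := by simp [hY, h]
            rw [h7, mul_pow, ← sq_abs (s (c y)), ← sq_abs (F y ω')]
            exact mul_le_one₀ (pow_le_one₀ (abs_nonneg _) (hs _)) (by positivity)
              (pow_le_one₀ (abs_nonneg _) (hb _ _))
        · rw [nsmul_eq_mul, mul_one]
      calc ∑ x ∈ S.filter (fun x => c x ∈ T), (4 * l * s (c x) * b x) ^ 2
          ≤ ∑ x ∈ S, (4 * l * s (c x) * b x) ^ 2 :=
            Finset.sum_le_sum_of_subset_of_nonneg (Finset.filter_subset _ _) fun _ _ _ => sq_nonneg _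
        _ ≤ ∑ x ∈ S, 16 * l ^ 2 * b x ^ 2 := Finset.sum_le_sum fun x _ => h2 x
        _ = 16 * l ^ 2 * ∑ x ∈ S, b x ^ 2 := by rw [Finset.mul_sum]
        _ ≤ 16 * l ^ 2 * S.card := mul_le_mul_of_nonneg_left h5 (by positivity)
    calc (C.card : ℝ) ^ 2 / 2 * ∑ x ∈ S.filter (fun x => c x ∈ T), (4 * l * s (c x) * b x) ^ 2
        ≤ (C.card : ℝ) ^ 2 / 2 * (16 * l ^ 2 * S.card) := mul_le_mul_of_nonneg_left h1 (by positivity)
      _ = 8 * (C.card : ℝ) ^ 2 * l ^ 2 * S.card := by ring
  have hint : ∀ T ∈ J.powerset, Integrable (fun ω => Real.exp (l * B T ω ω)) (pm r) := by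
    intro T _
    have hFD : FD (fun ω => Real.exp (l * B T ω ω)) (S.biUnion A) := by
      intro a b h
      show Real.exp (l * B T a a) = Real.exp (l * B T b b)
      have e1 := hdep1 T a a b fun e he => h e
        (Finset.biUnion_subset_biUnion_of_subset_left _ (Finset.filter_subset _ _) he)
      have e2 := hdep2 T b a b fun e he => h e
        (Finset.biUnion_subset_biUnion_of_subset_left _ (Finset.filter_subset _ _) he)
      exact e1.trans e2
    exact hFD.int (pm r)
  have hoff : FD (fun ω => Real.exp (l * Off S c F M s ω)) (S.biUnion A) := by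
    intro a b h
    show Real.exp (l * Off S c F M s a) = Real.exp (l * Off S c F M s b)
    congr 2
    unfold Off
    refine Finset.sum_congr rfl fun x hx => Finset.sum_congr rfl fun y hy => ?_
    rw [hF x hx a b fun e he => h e (Finset.mem_biUnion.2 ⟨x, hx, he⟩),
      hF y hy a b fun e he => h e (Finset.mem_biUnion.2 ⟨y, hy, he⟩)]
  have hpt : ∀ ω, Real.exp (l * Off S c F M s ω) ≤
      (∑ T ∈ J.powerset, Real.exp (l * B T ω ω)) / J.powerset.card := by
    intro ω
    have h1 := exp_avg J.powerset hJ (fun T => l * B T ω ω)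
    refine le_trans (le_of_eq ?_) h1
    congr 1
    have e2 : Off S c F M s ω = (∑ T ∈ J.powerset, B T ω ω) / J.powerset.card :=
      off_avg S J c hc F M s ω
    have e3 : ∑ T ∈ J.powerset, l * B T ω ω = l * ∑ T ∈ J.powerset, B T ω ω :=
      (Finset.mul_sum _ _ _).symm
    rw [e2, e3, mul_div_assoc]
  calc ∫ ω, Real.exp (l * Off S c F M s ω) ∂(pm r)
      ≤ ∫ ω, (∑ T ∈ J.powerset, Real.exp (l * B T ω ω)) / J.powerset.card ∂(pm r) :=
        integral_mono (hoff.int (pm r)) ((integrable_finset_sum _ hint).div_const _) hpt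
    _ = (∑ T ∈ J.powerset, ∫ ω, Real.exp (l * B T ω ω) ∂(pm r)) / J.powerset.card := by
        rw [integral_div, integral_finset_sum _ hint]
    _ ≤ (∑ T ∈ J.powerset, K) / J.powerset.card :=
        div_le_div_of_nonneg_right (Finset.sum_le_sum fun T _ => hT T) hn.le
    _ = K := by
        rw [Finset.sum_const, nsmul_eq_mul]
        field_simp

open Classical in
/-- **The maximum over the signs of the blocks.** -/
theorem off_max {α β γ : Type} (S : Finset α) (J : Finset β) (c : α → β) (hc : ∀ x ∈ S, c x ∈ J)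
    (C : Finset γ) (cls : α → γ) (hcls : ∀ x ∈ S, cls x ∈ C) (hC : C.Nonempty)
    (F : α → (ι → Bool) → ℝ) (A : α → Finset ι) (hF : ∀ x ∈ S, FD (F x) (A x))
    (hA : ∀ x ∈ S, ∀ y ∈ S, x ≠ y → cls x = cls y → Disjoint (A x) (A y))
    (hA2 : ∀ x ∈ S, ∀ y ∈ S, c x ≠ c y → Disjoint (A x) (A y))
    (hb : ∀ x ω, |F x ω| ≤ 1) (h0 : ∀ x ∈ S, ∫ ω, F x ω ∂(pm r) = 0) (M : α → α → ℝ)
    (hM : ∀ Y : α → ℝ, ∑ x ∈ S, (∑ y ∈ S, Y y * M x y) ^ 2 ≤ ∑ x ∈ S, Y x ^ 2)
    (l : ℝ) (hl : 0 < l) : ∃ H : (ι → Bool) → ℝ, FD H (S.biUnion A) ∧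
      ∫ ω, H ω ∂(pm r) ≤ (J.card * Real.log 2) / l + 8 * (C.card : ℝ) ^ 2 * l * S.card ∧
      ∀ T ∈ J.powerset, ∀ ω, Off S c F M (sgn T) ω ≤ H ω := by
  set a0 : ℝ := (J.card * Real.log 2) / l + 8 * (C.card : ℝ) ^ 2 * l * S.card with ha0
  have hoff : ∀ s : β → ℝ, FD (fun ω => Off S c F M s ω) (S.biUnion A) := by
    intro s a b h
    show Off S c F M s a = Off S c F M s b
    unfold Off
    refine Finset.sum_congr rfl fun x hx => Finset.sum_congr rfl fun y hy => ?_
    rw [hF x hx a b fun e he => h e (Finset.mem_biUnion.2 ⟨x, hx, he⟩),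
      hF y hy a b fun e he => h e (Finset.mem_biUnion.2 ⟨y, hy, he⟩)]
  have hE : ∀ T : Finset β, FD (fun ω => Real.exp (l * (Off S c F M (sgn T) ω - a0)))
      (S.biUnion A) := by
    intro T a b h
    show Real.exp (l * (Off S c F M (sgn T) a - a0)) = Real.exp (l * (Off S c F M (sgn T) b - a0))
    rw [show Off S c F M (sgn T) a = Off S c F M (sgn T) b from hoff (sgn T) a b h]
  refine ⟨fun ω => a0 - 1 / l + (∑ T ∈ J.powerset,
    Real.exp (l * (Off S c F M (sgn T) ω - a0))) / l, ?_, ?_, ?_⟩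
  · intro a b h
    show a0 - 1 / l + _ = a0 - 1 / l + _
    congr 2
    exact Finset.sum_congr rfl fun T _ => hE T a b h
  · have hint : ∀ T ∈ J.powerset, Integrable (fun ω => Real.exp (l * (Off S c F M (sgn T) ω - a0)))
        (pm r) := fun T _ => (hE T).int (pm r)
    have hone : ∀ T ∈ J.powerset, ∫ ω, Real.exp (l * (Off S c F M (sgn T) ω - a0)) ∂(pm r) ≤
        Real.exp (8 * (C.card : ℝ) ^ 2 * l ^ 2 * S.card) * Real.exp (-(l * a0)) := by
      intro T _
      have e : ∀ ω, Real.exp (l * (Off S c F M (sgn T) ω - a0)) =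
          Real.exp (l * Off S c F M (sgn T) ω) * Real.exp (-(l * a0)) := by
        intro ω; rw [← Real.exp_add]; congr 1; ring
      simp_rw [e]
      rw [integral_mul_const]
      refine mul_le_mul_of_nonneg_right ?_ (Real.exp_pos _).le
      exact off_exp r S J c hc C cls hcls hC F A hF hA hA2 hb h0 M hM (sgn T) (sgn_abs T) l
    rw [integral_add (integrable_const _) ((integrable_finset_sum _ hint).div_const _), integral_div,
      integral_finset_sum _ hint, integral_const]
    simp only [probReal_univ, smul_eq_mul, one_mul]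
    have hla0 : l * a0 = J.card * Real.log 2 + 8 * (C.card : ℝ) ^ 2 * l ^ 2 * S.card := by
      rw [ha0]; field_simp
    have hsum : ∑ T ∈ J.powerset, ∫ ω, Real.exp (l * (Off S c F M (sgn T) ω - a0)) ∂(pm r) ≤ 1 := by
      refine (Finset.sum_le_sum hone).trans (le_of_eq ?_)
      rw [Finset.sum_const, nsmul_eq_mul, Finset.card_powerset, ← Real.exp_add]
      have h2 : ((2 ^ J.card : ℕ) : ℝ) = Real.exp (J.card * Real.log 2) := by
        rw [mul_comm, Real.exp_mul, Real.exp_log two_pos]
        push_cast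
        rw [Real.rpow_natCast]
      rw [h2, ← Real.exp_add, hla0]
      rw [show (J.card * Real.log 2 + (8 * (C.card : ℝ) ^ 2 * l ^ 2 * S.card +
        -(J.card * Real.log 2 + 8 * (C.card : ℝ) ^ 2 * l ^ 2 * S.card))) = 0 by ring, Real.exp_zero]
    have h3 : (∑ T ∈ J.powerset, ∫ ω, Real.exp (l * (Off S c F M (sgn T) ω - a0)) ∂(pm r)) / l ≤
        1 / l := div_le_div_of_nonneg_right hsum hl.le
    linarith
  · intro T hT ω
    have h1 : l * (Off S c F M (sgn T) ω - a0) + 1 ≤ Real.exp (l * (Off S c F M (sgn T) ω - a0)) :=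
      Real.add_one_le_exp _
    have h2 : Real.exp (l * (Off S c F M (sgn T) ω - a0)) ≤
        ∑ T ∈ J.powerset, Real.exp (l * (Off S c F M (sgn T) ω - a0)) :=
      Finset.single_le_sum (f := fun T => Real.exp (l * (Off S c F M (sgn T) ω - a0)))
        (fun T _ => (Real.exp_pos _).le) hT
    have h3 : (l * (Off S c F M (sgn T) ω - a0) + 1) / l ≤
        (∑ T ∈ J.powerset, Real.exp (l * (Off S c F M (sgn T) ω - a0))) / l :=
      div_le_div_of_nonneg_right (h1.trans h2) hl.le
    have h4 : (l * (Off S c F M (sgn T) ω - a0) + 1) / l = Off S c F M (sgn T) ω - a0 + 1 / l := by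
      field_simp
    rw [h4] at h3
    show Off S c F M (sgn T) ω ≤ a0 - 1 / l + _
    linarith

end

end Pool.Agent.J4.H90.Perc
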