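import Pool.Agent.J4.H90.Perc.Conv

/-!
Energies of finitely supported functions on `ℤ^d` with a bounded multiplier.
-/

set_option autoImplicit false
set_option linter.deprecated false

open MeasureTheory Set Filter
open scoped Topology

namespace Pool.Agent.J4.H90.Perc

open Pool.Agent.Results.MP_54f242_pr.InfraredMean (opn P tau cube dot Dhat Dhat_le cube_meas cube_fin
  cube_vol cos_mul_Dhat box box_card dot_sub integrable_of_cont int_cos int_cos_mul_cos int_term)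
open Pool.Agent.J4.H67.PC (cS sS ps)

noncomputable section

variable {d : ℕ}

/-- a multiplier with values in the unit interval -/
structure Mu (v : (Fin d → ℝ) → ℝ) : Prop where
  meas : Measurable v
  nn : ∀ k, 0 ≤ v k
  le : ∀ k, v k ≤ 1

/-- the kernel of a multiplier -/
def Kv (v : (Fin d → ℝ) → ℝ) (z : Fin d → ℤ) : ℝ :=
  (∫ k in cube d, v k * Real.cos (dot k z)) / (2 * Real.pi) ^ d

theorem Mu.int {v : (Fin d → ℝ) → ℝ} (hv : Mu v) {f : (Fin d → ℝ) → ℝ}
    (hf : Integrable f (volume.restrict (cube d))) :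
    Integrable (fun k => v k * f k) (volume.restrict (cube d)) := by
  refine hf.bdd_mul (c := 1) hv.meas.aestronglyMeasurable (Eventually.of_forall fun k => ?_)
  rw [Real.norm_eq_abs, abs_of_nonneg (hv.nn k)]
  exact hv.le k

theorem two_pi_pos : 0 < (2 * Real.pi) ^ d := by positivity

theorem cos_int' (z : Fin d → ℤ) : Integrable (fun k : Fin d → ℝ => Real.cos (dot k z))
    (volume.restrict (cube d)) := integrable_of_cont (Real.continuous_cos.comp (dot_cont z))

theorem vol_cube_toReal : (volume (cube d)).toReal = (2 * Real.pi) ^ d := by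
  rw [cube_vol, ENNReal.toReal_ofReal (by positivity)]

theorem Kv_abs_le {v : (Fin d → ℝ) → ℝ} (hv : Mu v) (z : Fin d → ℤ) : |Kv v z| ≤ 1 := by
  unfold Kv
  rw [abs_div, abs_of_pos (two_pi_pos (d := d)), div_le_one two_pi_pos]
  have h1 : |∫ k in cube d, v k * Real.cos (dot k z)| ≤ ∫ _k in cube d, (1 : ℝ) := by
    rw [← Real.norm_eq_abs]
    refine (norm_integral_le_integral_norm _).trans ?_
    refine integral_mono (hv.int (cos_int' z)).norm (integrable_of_cont continuous_const) fun k => ?_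
    show ‖v k * Real.cos (dot k z)‖ ≤ 1
    rw [norm_mul, Real.norm_eq_abs, Real.norm_eq_abs, abs_of_nonneg (hv.nn k)]
    exact mul_le_one₀ (hv.le k) (abs_nonneg _) (Real.abs_cos_le_one _)
  refine h1.trans (le_of_eq ?_)
  rw [integral_const, smul_eq_mul, mul_one, measureReal_restrict_apply_univ, Measure.real,
    vol_cube_toReal]

/-- the bilinear form of a multiplier -/
def bl (v : (Fin d → ℝ) → ℝ) (A : Finset (Fin d → ℤ)) (X Y : (Fin d → ℤ) → ℝ) : ℝ :=
  ∑ x ∈ A, ∑ y ∈ A, X x * Y y * Kv v (y - x)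

/-- the cosine sum of a function -/
def cX (A : Finset (Fin d → ℤ)) (X : (Fin d → ℤ) → ℝ) (k : Fin d → ℝ) : ℝ :=
  ∑ x ∈ A, X x * Real.cos (dot k x)

/-- the sine sum of a function -/
def sX (A : Finset (Fin d → ℤ)) (X : (Fin d → ℤ) → ℝ) (k : Fin d → ℝ) : ℝ :=
  ∑ x ∈ A, X x * Real.sin (dot k x)

theorem cX_cont (A : Finset (Fin d → ℤ)) (X : (Fin d → ℤ) → ℝ) : Continuous (cX A X) := by
  unfold cX dot; fun_prop

theorem sX_cont (A : Finset (Fin d → ℤ)) (X : (Fin d → ℤ) → ℝ) : Continuous (sX A X) := by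
  unfold sX dot; fun_prop

theorem cs_sum (A : Finset (Fin d → ℤ)) (X Y : (Fin d → ℤ) → ℝ) (k : Fin d → ℝ) :
    cX A X k * cX A Y k + sX A X k * sX A Y k =
      ∑ x ∈ A, ∑ y ∈ A, X x * Y y * Real.cos (dot k (y - x)) := by
  unfold cX sX
  rw [Finset.sum_mul_sum, Finset.sum_mul_sum, ← Finset.sum_add_distrib]
  refine Finset.sum_congr rfl fun x _ => ?_
  rw [← Finset.sum_add_distrib]
  refine Finset.sum_congr rfl fun y _ => ?_
  rw [dot_sub, Real.cos_sub]
  ring

theorem bl_eq {v : (Fin d → ℝ) → ℝ} (hv : Mu v) (A : Finset (Fin d → ℤ)) (X Y : (Fin d → ℤ) → ℝ) :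
    bl v A X Y = (∫ k in cube d, v k * (cX A X k * cX A Y k + sX A X k * sX A Y k)) /
      (2 * Real.pi) ^ d := by
  simp_rw [cs_sum]
  unfold bl Kv
  simp_rw [Finset.mul_sum]
  have hi : ∀ x y : Fin d → ℤ, Integrable (fun k => v k * (X x * Y y * Real.cos (dot k (y - x))))
      (volume.restrict (cube d)) := fun x y => hv.int ((cos_int' _).const_mul _)
  rw [integral_finset_sum _ (fun x _ => integrable_finset_sum _ fun y _ => hi x y),
    Finset.sum_div]
  refine Finset.sum_congr rfl fun x _ => ?_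
  rw [integral_finset_sum _ (fun y _ => hi x y), Finset.sum_div]
  refine Finset.sum_congr rfl fun y _ => ?_
  have e : ∀ k : Fin d → ℝ, v k * (X x * Y y * Real.cos (dot k (y - x))) =
      (X x * Y y) * (v k * Real.cos (dot k (y - x))) := fun k => by ring
  simp_rw [e]
  rw [integral_const_mul, mul_div_assoc]

theorem one_Mu : Mu (fun _ : Fin d → ℝ => (1 : ℝ)) :=
  ⟨measurable_const, fun _ => zero_le_one, fun _ => le_rfl⟩

theorem Kv_one (z : Fin d → ℤ) : Kv (fun _ : Fin d → ℝ => (1 : ℝ)) z = if z = 0 then 1 else 0 := by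
  unfold Kv
  simp_rw [one_mul]
  rw [int_cos]
  split_ifs
  · exact div_self two_pi_pos.ne'
  · exact zero_div _

theorem en_one (A : Finset (Fin d → ℤ)) (X : (Fin d → ℤ) → ℝ) :
    bl (fun _ => 1) A X X = ∑ x ∈ A, X x ^ 2 := by
  unfold bl
  refine Finset.sum_congr rfl fun x hx => ?_
  rw [Finset.sum_eq_single x]
  · rw [sub_self, Kv_one, if_pos rfl, mul_one, sq]
  · intro y _ hy
    rw [Kv_one, if_neg (sub_ne_zero.2 hy), mul_zero]
  · exact fun h => absurd hx h

theorem sq_int (A : Finset (Fin d → ℤ)) (X : (Fin d → ℤ) → ℝ) :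
    Integrable (fun k => cX A X k * cX A X k + sX A X k * sX A X k) (volume.restrict (cube d)) :=
  integrable_of_cont (((cX_cont A X).mul (cX_cont A X)).add ((sX_cont A X).mul (sX_cont A X)))

/-- monotonicity in the multiplier -/
theorem en_mono {v u : (Fin d → ℝ) → ℝ} (hv : Mu v) (hu : Mu u) (h : ∀ k, v k ≤ u k)
    (A : Finset (Fin d → ℤ)) (X : (Fin d → ℤ) → ℝ) : bl v A X X ≤ bl u A X X := by
  rw [bl_eq hv, bl_eq hu]
  refine div_le_div_of_nonneg_right ?_ two_pi_pos.le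
  refine integral_mono (hv.int (sq_int A X)) (hu.int (sq_int A X)) fun k => ?_
  exact mul_le_mul_of_nonneg_right (h k) (add_nonneg (mul_self_nonneg _) (mul_self_nonneg _))

theorem en_nonneg {v : (Fin d → ℝ) → ℝ} (hv : Mu v) (A : Finset (Fin d → ℤ))
    (X : (Fin d → ℤ) → ℝ) : 0 ≤ bl v A X X := by
  rw [bl_eq hv]
  refine div_nonneg (integral_nonneg fun k => ?_) two_pi_pos.le
  exact mul_nonneg (hv.nn k) (add_nonneg (mul_self_nonneg _) (mul_self_nonneg _))

theorem en_le {v : (Fin d → ℝ) → ℝ} (hv : Mu v) (A : Finset (Fin d → ℤ))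
    (X : (Fin d → ℤ) → ℝ) : bl v A X X ≤ ∑ x ∈ A, X x ^ 2 := by
  rw [← en_one]
  exact en_mono hv one_Mu hv.le A X

theorem Kv_neg (v : (Fin d → ℝ) → ℝ) (z : Fin d → ℤ) : Kv v (-z) = Kv v z := by
  unfold Kv
  have h : ∀ k : Fin d → ℝ, dot k (-z) = - dot k z := by
    intro k
    unfold dot
    rw [← Finset.sum_neg_distrib]
    refine Finset.sum_congr rfl fun i _ => ?_
    simp
  simp_rw [h, Real.cos_neg]

theorem bl_symm (v : (Fin d → ℝ) → ℝ) (A : Finset (Fin d → ℤ)) (X Y : (Fin d → ℤ) → ℝ) :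
    bl v A X Y = bl v A Y X := by
  unfold bl
  rw [Finset.sum_comm]
  refine Finset.sum_congr rfl fun x _ => Finset.sum_congr rfl fun y _ => ?_
  rw [← Kv_neg v (y - x), neg_sub]
  ring

theorem bl_add_left (v : (Fin d → ℝ) → ℝ) (A : Finset (Fin d → ℤ)) (X X' Y : (Fin d → ℤ) → ℝ) :
    bl v A (fun x => X x + X' x) Y = bl v A X Y + bl v A X' Y := by
  unfold bl
  rw [← Finset.sum_add_distrib]
  refine Finset.sum_congr rfl fun x _ => ?_
  rw [← Finset.sum_add_distrib]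
  exact Finset.sum_congr rfl fun y _ => by ring

theorem bl_smul (v : (Fin d → ℝ) → ℝ) (A : Finset (Fin d → ℤ)) (a b : ℝ)
    (X Y : (Fin d → ℤ) → ℝ) :
    bl v A (fun x => a * X x) (fun x => b * Y x) = a * b * bl v A X Y := by
  unfold bl
  rw [Finset.mul_sum]
  refine Finset.sum_congr rfl fun x _ => ?_
  rw [Finset.mul_sum]
  exact Finset.sum_congr rfl fun y _ => by ring

theorem en_add (v : (Fin d → ℝ) → ℝ) (A : Finset (Fin d → ℤ)) (X Y : (Fin d → ℤ) → ℝ) :
    bl v A (fun x => X x + Y x) (fun x => X x + Y x) = bl v A X X + 2 * bl v A X Y + bl v A Y Y := by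
  rw [bl_add_left, bl_symm v A X, bl_symm v A Y, bl_add_left, bl_add_left, bl_symm v A Y X]
  ring

/-- the inequality of Cauchy and Schwarz -/
theorem bl_le {v : (Fin d → ℝ) → ℝ} (hv : Mu v) (A : Finset (Fin d → ℤ)) (X Y : (Fin d → ℤ) → ℝ)
    {a : ℝ} (ha : 0 < a) : 2 * bl v A X Y ≤ a * bl v A X X + a⁻¹ * bl v A Y Y := by
  have h := en_nonneg hv A (fun x => √a * X x + (-(√a)⁻¹) * Y x)
  rw [en_add, bl_smul, bl_smul, bl_smul] at h
  have h1 : √a * √a = a := Real.mul_self_sqrt ha.le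
  have h2 : √a * (√a)⁻¹ = 1 := mul_inv_cancel₀ (Real.sqrt_pos.2 ha).ne'
  have h3 : (√a)⁻¹ * (√a)⁻¹ = a⁻¹ := by rw [← mul_inv, h1]
  have h4 : √a * -(√a)⁻¹ = -1 := by rw [mul_neg, h2]
  have h5 : -(√a)⁻¹ * -(√a)⁻¹ = a⁻¹ := by rw [neg_mul_neg, h3]
  rw [h1, h4, h5] at h
  linarith

theorem en_add_le {v : (Fin d → ℝ) → ℝ} (hv : Mu v) (A : Finset (Fin d → ℤ))
    (X Y : (Fin d → ℤ) → ℝ) {a : ℝ} (ha : 0 < a) :
    bl v A (fun x => X x + Y x) (fun x => X x + Y x) ≤
      (1 + a) * bl v A X X + (1 + a⁻¹) * bl v A Y Y := by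
  rw [en_add]
  have := bl_le hv A X Y ha
  linarith

theorem en_add_le_two {v : (Fin d → ℝ) → ℝ} (hv : Mu v) (A : Finset (Fin d → ℤ))
    (X Y : (Fin d → ℤ) → ℝ) :
    bl v A (fun x => X x + Y x) (fun x => X x + Y x) ≤ 2 * (bl v A X X + bl v A Y Y) := by
  have := en_add_le hv A X Y one_pos
  rw [inv_one] at this
  linarith

/-- the image of a function under the multiplier -/
def Wv (v : (Fin d → ℝ) → ℝ) (A : Finset (Fin d → ℤ)) (Y : (Fin d → ℤ) → ℝ) (x : Fin d → ℤ) : ℝ :=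
  ∑ y ∈ A, Y y * Kv v (y - x)

theorem bl_Wv (v : (Fin d → ℝ) → ℝ) (A : Finset (Fin d → ℤ)) (X Y : (Fin d → ℤ) → ℝ) :
    bl v A X Y = ∑ x ∈ A, X x * Wv v A Y x := by
  unfold bl Wv
  refine Finset.sum_congr rfl fun x _ => ?_
  rw [Finset.mul_sum]
  exact Finset.sum_congr rfl fun y _ => by ring

theorem Wv_sq {v : (Fin d → ℝ) → ℝ} (hv : Mu v) (A : Finset (Fin d → ℤ)) (Y : (Fin d → ℤ) → ℝ) :
    ∑ x ∈ A, Wv v A Y x ^ 2 ≤ ∑ x ∈ A, Y x ^ 2 := by
  have h1 : ∑ x ∈ A, Wv v A Y x ^ 2 = bl v A (Wv v A Y) Y := by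
    rw [bl_Wv]
    exact Finset.sum_congr rfl fun x _ => sq _
  have h2 := bl_le hv A (Wv v A Y) Y one_pos
  have h3 := en_le hv A (Wv v A Y)
  have h4 := en_le hv A Y
  rw [inv_one] at h2
  linarith

/-- the multiplier of the infrared bound -/
def wt (k : Fin d → ℝ) : ℝ := (1 - Dhat k) / 2

theorem Dhat_cont : Continuous (Dhat (d := d)) := by
  unfold Dhat; fun_prop

theorem wt_cont : Continuous (wt (d := d)) := by
  unfold wt
  exact (continuous_const.sub Dhat_cont).div_const _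

theorem wt_Mu : Mu (wt (d := d)) := by
  refine ⟨wt_cont.measurable, fun k => ?_, fun k => ?_⟩
  · have := abs_le.1 (Dhat_le k); unfold wt; linarith [this.2]
  · have := abs_le.1 (Dhat_le k); unfold wt; linarith [this.1]

theorem ind_Mu {v : (Fin d → ℝ) → ℝ} (hv : Mu v) {E : Set (Fin d → ℝ)} (hE : MeasurableSet E) :
    Mu (E.indicator v) := by
  refine ⟨hv.meas.indicator hE, fun k => Set.indicator_nonneg (fun k _ => hv.nn k) k, fun k => ?_⟩
  exact Set.indicator_le' (fun k _ => hv.le k) (fun _ _ => zero_le_one) k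

theorem Kv_wt (z : Fin d → ℤ) : Kv (wt (d := d)) z =
    ((if z = 0 then (1 : ℝ) else 0) - (1 / (2 * (d : ℝ))) * ∑ i : Fin d,
      ((if z = -Pi.single i 1 then (1 : ℝ) else 0) + (if z = Pi.single i 1 then (1 : ℝ) else 0))) / 2 := by
  unfold Kv
  have e : ∀ k : Fin d → ℝ, wt k * Real.cos (dot k z) = (Real.cos (dot k z) * (1 - Dhat k)) / 2 := by
    intro k; unfold wt; ring
  simp_rw [e]
  rw [integral_div, int_term]
  have h1 : ∀ i : Fin d, (z + Pi.single i 1 = 0) ↔ (z = -Pi.single i 1) := fun i => by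
    rw [add_eq_zero_iff_eq_neg]
  have h2 : ∀ i : Fin d, (z - Pi.single i 1 = 0) ↔ (z = Pi.single i 1) := fun i => sub_eq_zero
  simp_rw [h1, h2]
  have hpi := (two_pi_pos (d := d)).ne'
  have h3 : ∀ (c : Prop) [Decidable c], (if c then (2 * Real.pi) ^ d else (0 : ℝ)) =
      (2 * Real.pi) ^ d * (if c then 1 else 0) := by
    intro c _; split_ifs <;> simp
  simp_rw [h3]
  simp_rw [← mul_add]
  rw [← Finset.mul_sum]
  field_simp

end

end Pool.Agent.J4.H90.Perc
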