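import Pool.Agent.J4.H90.Perc.Path

/-!
The inequality between the energies in a finite box.
-/

set_option autoImplicit false
set_option linter.deprecated false

open MeasureTheory Set Filter
open scoped Topology

namespace Pool.Agent.J4.H90.Perc

open Pool.Agent.Results.MP_54f242_pr.InfraredMean (opn P tau cube dot Dhat Dhat_le cube_meas cube_fin
  cube_vol cos_mul_Dhat box box_card dot_sub integrable_of_cont int_cos int_cos_mul_cos int_term sh
  meas_reach)
open Pool.Agent.Y990.CB (Z Bo Bf mem_Bf card_Bf coe_Bf Perc Perc_meas bondM Mod mu G th Perc_shift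
  dep_mono Am_dep)
open Pool.Agent.W783.PC (pm DepOn Inc bern)
open Pool.Agent.J4.H67.PC (LU conf meas_conf map_conf conf_mono shift shift_reach cl cf mem_cf meas_cf
  meas_cl meas_fin)
open Pool.Agent.Helper401_FP (E ex ex_ed ed Ed exists_ed ex_meas map_restr Perc_dep In_sub_Ed)

noncomputable section

variable {d : ℕ}

theorem ind_zt (c : NNReal) (hc : c ≤ 1) {S : Set ((bondM d).ι → Bool)} (hS : MeasurableSet S)
    (hd : DepOn S (Ed d)) :
    Integrable (fun U => S.indicator (1 : ((bondM d).ι → Bool) → ℝ) (zt c U)) (LU d) ∧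
      ∫ U, S.indicator (1 : ((bondM d).ι → Bool) → ℝ) (zt c U) ∂(LU d) =
        (mu (bondM d) (uI c hc)).real S := by
  have hm : Measurable (S.indicator (1 : ((bondM d).ι → Bool) → ℝ)) := measurable_one.indicator hS
  constructor
  · refine Integrable.of_bound (hm.comp (zt_meas c)).aestronglyMeasurable 1
      (Eventually.of_forall fun U => ?_)
    show ‖S.indicator (1 : ((bondM d).ι → Bool) → ℝ) (zt c U)‖ ≤ 1
    by_cases h : zt (c : ℝ) U ∈ S <;> simp [h]
  · rw [int_zt c hc hm, integral_indicator_one hS]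
    intro ω ω' h
    have h1 := hd ω ω' h
    by_cases h2 : ω ∈ S
    · rw [Set.indicator_of_mem h2, Set.indicator_of_mem (h1.1 h2)]; rfl
    · rw [Set.indicator_of_notMem h2, Set.indicator_of_notMem (fun h3 => h2 (h1.2 h3))]

theorem FD_zt (c : NNReal) (hc : c ≤ 1) {R : ((bondM d).ι → Bool) → ℝ}
    {B : Finset (bondM d).ι} (hR : FD R B) (hB : ∀ s ∈ B, s ∈ Ed d) :
    Integrable (fun U => R (zt c U)) (LU d) ∧
      ∫ U, R (zt c U) ∂(LU d) = ∫ ω, R ω ∂(mu (bondM d) (uI c hc)) := by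
  constructor
  · have : IsProbabilityMeasure ((LU d).map (zt (c : ℝ))) :=
      Measure.isProbabilityMeasure_map (zt_meas c).aemeasurable
    exact (hR.int ((LU d).map (zt (c : ℝ)))).comp_measurable (zt_meas c)
  · exact int_zt c hc hR.meas fun ω ω' h => hR ω ω' fun s hs => h s (hB s hs)

theorem e_const (p c : ℝ) (hpc : p ≤ c) (U : Lab d) (x y : Z d) (h : Rl p U x y) :
    (Perc (bondM d) x).indicator (1 : ((bondM d).ι → Bool) → ℝ) (zt c U) =
      (Perc (bondM d) y).indicator (1 : ((bondM d).ι → Bool) → ℝ) (zt c U) := by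
  have h1 : (opn (conf c U)).Reachable x y := SimpleGraph.Reachable.mono (conf_mono hpc U) h
  have h2 : zt c U ∈ Perc (bondM d) x ↔ zt c U ∈ Perc (bondM d) y := by
    rw [Perc_zt, Perc_zt]
    have : {z | (opn (conf c U)).Reachable x z} = {z | (opn (conf c U)).Reachable y z} := by
      ext z
      exact ⟨fun h3 => h1.symm.trans h3, fun h3 => h1.trans h3⟩
    rw [this]
  by_cases h3 : zt c U ∈ Perc (bondM d) x
  · rw [Set.indicator_of_mem h3, Set.indicator_of_mem (h2.1 h3)]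
  · rw [Set.indicator_of_notMem h3, Set.indicator_of_notMem (fun h4 => h3 (h2.2 h4))]

open Classical in
/-- the vertices of the box at distance at least `ρ` from its boundary -/
def In1 (d n ρ : ℕ) : Finset (Z d) :=
  (box d n).filter (fun x => ∀ z ∈ Bf (0 : Z d) ρ, z + x ∈ box d n)

open Classical in
theorem main_ineq (hd : 1 ≤ d) (p c : NNReal) (hc : c ≤ 1) (hpc : p ≤ c) {N m L : ℕ} (hN : 0 < N)
    {v : (Fin d → ℝ) → ℝ} (hv : Mu v) (hvw : ∀ k, v k ≤ wt k) {a l : ℝ} (ha : 0 < a) (hl : 0 < l)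
    (ρ : ℕ) :
    ((In1 d (N * L) ρ).card : ℝ) * ∫ U, GG v p c ρ U ∂(LU d) ≤
      (1 + a) * (((N * L : ℕ) : ℝ) ^ d * Av (bondM d) (uI c hc) m v +
        ((8 * m + 1 : ℕ) : ℝ) ^ d * nn d N (5 * m) L +
        ((L : ℝ) ^ d * Real.log 2 / l + 8 * (((2 * m + 1 : ℕ) : ℝ) ^ d) ^ 2 * l *
          ((N * L : ℕ) : ℝ) ^ d)) +
      (1 + a⁻¹) * (4 * (4 * (((N * L : ℕ) : ℝ) ^ d * Bp d p c N) +
        ((N * L : ℕ) : ℝ) ^ d * (pr (bondM d) (uI c hc) m - th (bondM d) (uI c hc)) +
        (nn d N 1 L + nn d N m L))) := by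
  obtain ⟨R, hR1, hR2, hR3⟩ := fluct (bondM d) (uI c hc) (m := m) (L := L) hN hv l hl
  set A := box d (N * L) with hA
  have hcard : (A.card : ℝ) = ((N * L : ℕ) : ℝ) ^ d := box_card d (N * L)
  set I0 : Z d → Lab d → ℝ := fun z => {U : Lab d | zt c U ∈ Perc (bondM d) 0 ∧
    zt c U ∈ Perc (bondM d) z ∧ ¬ Rl p U 0 z}.indicator 1 with hI0
  have hI : ∀ z x, Integrable (fun U => I0 z (shU x U)) (LU d) ∧
      ∫ U, I0 z (shU x U) ∂(LU d) = (LU d).real {U : Lab d | zt c U ∈ Perc (bondM d) 0 ∧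
        zt c U ∈ Perc (bondM d) z ∧ ¬ Rl p U 0 z} := fun z x => int_shU (Bs_meas p c 0 z) x
  have hea : ∀ x, Integrable (fun U => (Ae (bondM d) m x).indicator
      (1 : ((bondM d).ι → Bool) → ℝ) (zt c U)) (LU d) ∧
      ∫ U, (Ae (bondM d) m x).indicator (1 : ((bondM d).ι → Bool) → ℝ) (zt c U) ∂(LU d) =
        (mu (bondM d) (uI c hc)).real (Ae (bondM d) m x) := fun x =>
    ind_zt c hc (Ae_meas (bondM d) m x) (dep_mono (Am_dep (bondM d) x m x) (In_sub_Ed _))
  have he : ∀ x, Integrable (fun U => (Perc (bondM d) x).indicator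
      (1 : ((bondM d).ι → Bool) → ℝ) (zt c U)) (LU d) ∧
      ∫ U, (Perc (bondM d) x).indicator (1 : ((bondM d).ι → Bool) → ℝ) (zt c U) ∂(LU d) =
        (mu (bondM d) (uI c hc)).real (Perc (bondM d) x) := fun x =>
    ind_zt c hc (Perc_meas (bondM d) x) (Perc_dep x)
  have hsb : ∀ x, Integrable (fun U => (Ae (bondM d) m x).indicator
      (1 : ((bondM d).ι → Bool) → ℝ) (zt c U) -
      (Perc (bondM d) x).indicator (1 : ((bondM d).ι → Bool) → ℝ) (zt c U)) (LU d) := fun x =>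
    (hea x).1.sub (he x).1
  have hRz := FD_zt c hc hR1 (fun s hs => by
    obtain ⟨x, _, hx⟩ := Finset.mem_biUnion.1 hs
    exact In_sub_Ed _ ((mem_Af (bondM d)).1 hx))
  -- the pointwise bound
  have hpt : ∀ U : Lab d, ∑ x ∈ In1 d (N * L) ρ, GG v p c ρ (shU x U) ≤
      (1 + a) * R (zt c U) + (1 + a⁻¹) * (4 * (4 * (∑ x ∈ A, ∑ z ∈ Bf (0 : Z d) N, I0 z (shU x U)) +
        ∑ x ∈ A, ((Ae (bondM d) m x).indicator (1 : ((bondM d).ι → Bool) → ℝ) (zt c U) -
          (Perc (bondM d) x).indicator (1 : ((bondM d).ι → Bool) → ℝ) (zt c U)) +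
        (nn d N 1 L + nn d N m L))) := by
    intro U
    have h1 : ∑ x ∈ In1 d (N * L) ρ, GG v p c ρ (shU x U) ≤ ∑ x ∈ In1 d (N * L) ρ,
        (Perc (bondM d) x).indicator (1 : ((bondM d).ι → Bool) → ℝ) (zt c U) *
          Gf v (A.filter (Rl p U x)) := by
      refine Finset.sum_le_sum fun x hx => ?_
      exact GG_shU hv p c ρ U A x (Finset.mem_filter.1 hx).2
    have h2 : ∑ x ∈ In1 d (N * L) ρ,
        (Perc (bondM d) x).indicator (1 : ((bondM d).ι → Bool) → ℝ) (zt c U) *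
          Gf v (A.filter (Rl p U x)) ≤ ∑ x ∈ A,
        (Perc (bondM d) x).indicator (1 : ((bondM d).ι → Bool) → ℝ) (zt c U) *
          Gf v (A.filter (Rl p U x)) := by
      refine Finset.sum_le_sum_of_subset_of_nonneg (Finset.filter_subset _ _) fun x _ _ => ?_
      exact mul_nonneg (Set.indicator_nonneg (fun _ _ => zero_le_one) _) (Gf_nonneg hv _)
    have h3 := clus A v (Rl p U) (fun x y h => SimpleGraph.Reachable.symm h)
      (fun x y z h h' => SimpleGraph.Reachable.trans h h') (fun x => SimpleGraph.Reachable.refl x)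
      (fun x => (Perc (bondM d) x).indicator (1 : ((bondM d).ι → Bool) → ℝ) (zt c U))
      (fun x y h => e_const p c (by exact_mod_cast hpc) U x y h)
      (fun x => by
        by_cases h : zt c U ∈ Perc (bondM d) x
        · right; show (Perc (bondM d) x).indicator _ _ = _; rw [Set.indicator_of_mem h]; rfl
        · left; show (Perc (bondM d) x).indicator _ _ = _; rw [Set.indicator_of_notMem h]) _
      (fun X hX hXc => comb (bondM d) (uI c hc) hd hN hv hvw (Rl p U) (zt c U) (R (zt c U))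
        (fun T hT => hR2 T hT _) X hX hXc ha)
    refine (h1.trans h2).trans (h3.trans ?_)
    have h4 : ∑ x ∈ A, cnf (bondM d) N L (Rl p U) (zt c U) x ≤
        ∑ x ∈ A, ∑ z ∈ Bf (0 : Z d) N, I0 z (shU x U) :=
      Finset.sum_le_sum fun x _ => cnf_le p c hN L U x
    have hai : 0 < a⁻¹ := inv_pos.2 ha
    gcongr
  -- integration
  have hint1 : Integrable (fun U => ∑ x ∈ In1 d (N * L) ρ, GG v p c ρ (shU x U)) (LU d) :=
    integrable_finset_sum _ fun x _ => GG_shU_int hv p c ρ x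
  have hA1 : Integrable (fun U => ∑ x ∈ A, ∑ z ∈ Bf (0 : Z d) N, I0 z (shU x U)) (LU d) :=
    integrable_finset_sum _ fun x _ => integrable_finset_sum _ fun z _ => (hI z x).1
  have hA2 : Integrable (fun U => ∑ x ∈ A,
      ((Ae (bondM d) m x).indicator (1 : ((bondM d).ι → Bool) → ℝ) (zt c U) -
        (Perc (bondM d) x).indicator (1 : ((bondM d).ι → Bool) → ℝ) (zt c U))) (LU d) :=
    integrable_finset_sum _ fun x _ => (hea x).1.sub (he x).1
  have hA12 : Integrable (fun U => 4 * (∑ x ∈ A, ∑ z ∈ Bf (0 : Z d) N, I0 z (shU x U)) +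
      ∑ x ∈ A, ((Ae (bondM d) m x).indicator (1 : ((bondM d).ι → Bool) → ℝ) (zt c U) -
        (Perc (bondM d) x).indicator (1 : ((bondM d).ι → Bool) → ℝ) (zt c U))) (LU d) :=
    (hA1.const_mul 4).add hA2
  have hA3 : Integrable (fun U => 4 * (∑ x ∈ A, ∑ z ∈ Bf (0 : Z d) N, I0 z (shU x U)) +
      ∑ x ∈ A, ((Ae (bondM d) m x).indicator (1 : ((bondM d).ι → Bool) → ℝ) (zt c U) -
        (Perc (bondM d) x).indicator (1 : ((bondM d).ι → Bool) → ℝ) (zt c U)) +
      ((nn d N 1 L : ℝ) + nn d N m L)) (LU d) := hA12.add (integrable_const _)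
  have hRi : Integrable (fun U => (1 + a) * R (zt c U)) (LU d) := hRz.1.const_mul _
  have hBi : Integrable (fun U => (1 + a⁻¹) * (4 * (4 * (∑ x ∈ A, ∑ z ∈ Bf (0 : Z d) N,
      I0 z (shU x U)) +
      ∑ x ∈ A, ((Ae (bondM d) m x).indicator (1 : ((bondM d).ι → Bool) → ℝ) (zt c U) -
        (Perc (bondM d) x).indicator (1 : ((bondM d).ι → Bool) → ℝ) (zt c U)) +
      ((nn d N 1 L : ℝ) + nn d N m L)))) (LU d) := (hA3.const_mul 4).const_mul _
  have key := integral_mono hint1 (hRi.add hBi) hpt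
  have hL : ∫ U, ∑ x ∈ In1 d (N * L) ρ, GG v p c ρ (shU x U) ∂(LU d) =
      ((In1 d (N * L) ρ).card : ℝ) * ∫ U, GG v p c ρ U ∂(LU d) := by
    rw [integral_finset_sum _ fun x _ => GG_shU_int hv p c ρ x]
    simp_rw [int_GG_shU]
    rw [Finset.sum_const, nsmul_eq_mul]
  have hS1 : ∫ U, ∑ x ∈ A, ∑ z ∈ Bf (0 : Z d) N, I0 z (shU x U) ∂(LU d) =
      ((N * L : ℕ) : ℝ) ^ d * Bp d p c N := by
    rw [integral_finset_sum _ fun x _ => integrable_finset_sum _ fun z _ => (hI z x).1]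
    have h1 : ∀ x ∈ A, ∫ U, ∑ z ∈ Bf (0 : Z d) N, I0 z (shU x U) ∂(LU d) = Bp d p c N := by
      intro x _
      rw [integral_finset_sum _ fun z _ => (hI z x).1]
      unfold Bp
      exact Finset.sum_congr rfl fun z _ => (hI z x).2
    rw [Finset.sum_congr rfl h1, Finset.sum_const, nsmul_eq_mul, hcard]
  have hS2 : ∫ U, ∑ x ∈ A, ((Ae (bondM d) m x).indicator (1 : ((bondM d).ι → Bool) → ℝ) (zt c U) -
      (Perc (bondM d) x).indicator (1 : ((bondM d).ι → Bool) → ℝ) (zt c U)) ∂(LU d) =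
      ((N * L : ℕ) : ℝ) ^ d * (pr (bondM d) (uI c hc) m - th (bondM d) (uI c hc)) := by
    rw [integral_finset_sum _ fun x _ => hsb x]
    have h1 : ∀ x ∈ A, ∫ U, ((Ae (bondM d) m x).indicator (1 : ((bondM d).ι → Bool) → ℝ) (zt c U) -
        (Perc (bondM d) x).indicator (1 : ((bondM d).ι → Bool) → ℝ) (zt c U)) ∂(LU d) =
        pr (bondM d) (uI c hc) m - th (bondM d) (uI c hc) := by
      intro x _
      rw [integral_sub (hea x).1 (he x).1, (hea x).2, (he x).2, Ae_real, Perc_shift]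
    rw [Finset.sum_congr rfl h1, Finset.sum_const, nsmul_eq_mul, hcard]
  have hRHS : ∫ U, ((1 + a) * R (zt c U) + (1 + a⁻¹) * (4 * (4 * (∑ x ∈ A, ∑ z ∈ Bf (0 : Z d) N,
      I0 z (shU x U)) +
      ∑ x ∈ A, ((Ae (bondM d) m x).indicator (1 : ((bondM d).ι → Bool) → ℝ) (zt c U) -
        (Perc (bondM d) x).indicator (1 : ((bondM d).ι → Bool) → ℝ) (zt c U)) +
      ((nn d N 1 L : ℝ) + nn d N m L)))) ∂(LU d) =
      (1 + a) * (∫ ω, R ω ∂(mu (bondM d) (uI c hc))) +
      (1 + a⁻¹) * (4 * (4 * (((N * L : ℕ) : ℝ) ^ d * Bp d p c N) +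
        ((N * L : ℕ) : ℝ) ^ d * (pr (bondM d) (uI c hc) m - th (bondM d) (uI c hc)) +
        (nn d N 1 L + nn d N m L))) := by
    rw [integral_add hRi hBi, integral_const_mul, hRz.2, integral_const_mul, integral_const_mul,
      integral_add hA12 (integrable_const _), integral_add (hA1.const_mul 4) hA2,
      integral_const_mul, hS1, hS2, integral_const]
    simp
  have key2 : ((In1 d (N * L) ρ).card : ℝ) * ∫ U, GG v p c ρ U ∂(LU d) ≤
      (1 + a) * (∫ ω, R ω ∂(mu (bondM d) (uI c hc))) +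
      (1 + a⁻¹) * (4 * (4 * (((N * L : ℕ) : ℝ) ^ d * Bp d p c N) +
        ((N * L : ℕ) : ℝ) ^ d * (pr (bondM d) (uI c hc) m - th (bondM d) (uI c hc)) +
        (nn d N 1 L + nn d N m L))) := by
    rw [← hL, ← hRHS]
    exact key
  refine key2.trans (add_le_add ?_ le_rfl)
  exact mul_le_mul_of_nonneg_left hR3 (by linarith)

end

end Pool.Agent.J4.H90.Perc
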