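import Pool.Agent.J4.H90.Perc.Fin1

/-!
The inequality between the energies in infinite volume.
-/

set_option autoImplicit false
set_option linter.deprecated false

open MeasureTheory Set Filter
open scoped Topology

namespace Pool.Agent.J4.H90.Perc

open Pool.Agent.Results.MP_54f242_pr.InfraredMean (opn P tau cube dot Dhat Dhat_le cube_meas cube_fin
  cube_vol cos_mul_Dhat box box_card dot_sub integrable_of_cont int_cos int_cos_mul_cos int_term sh
  meas_reach)
open Pool.Agent.Y990.CB (Z Bo Bf mem_Bf card_Bf coe_Bf Perc Perc_meas bondM Mod mu G th Perc_shift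
  dep_mono Am_dep Cn Cn_meas Cn_dep)
open Pool.Agent.W783.PC (pm DepOn Inc bern)
open Pool.Agent.J4.H67.PC (LU conf meas_conf map_conf conf_mono shift shift_reach cl cf mem_cf meas_cf
  meas_cl meas_fin FF FF_meas FF_empty meas_joint int_FF_le reach_left ps ps_cont ps_eq ps_nonneg)
open Pool.Agent.Helper401_FP (E ex ex_ed ed Ed exists_ed ex_meas map_restr Perc_dep In_sub_Ed Nu Nu_meas)

noncomputable section

variable {d : ℕ}

/-- the energy of the cluster of the origin inside the infinite cluster -/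
def GI (v : (Fin d → ℝ) → ℝ) (p c : ℝ) (U : Lab d) : ℝ :=
  {U : Lab d | (cl (conf c U)).Infinite}.indicator (fun U => Gf v (cf (conf p U))) U

open Classical in
theorem GG_tendsto {v : (Fin d → ℝ) → ℝ} (hv : Mu v) (p c : ℝ) :
    Tendsto (fun ρ : ℕ => ∫ U, GG v p c ρ U ∂(LU d)) atTop (𝓝 (∫ U, GI v p c U ∂(LU d))) := by
  refine tendsto_integral_of_dominated_convergence (fun _ => (1 : ℝ))
    (fun ρ => (GG_meas v p c ρ).aestronglyMeasurable) (integrable_const _)
    (fun ρ => Eventually.of_forall fun U => ?_) (Eventually.of_forall fun U => ?_)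
  · rw [Real.norm_eq_abs, abs_of_nonneg (GG_nonneg hv p c ρ U)]
    exact GG_le hv p c ρ U
  · refine tendsto_const_nhds.congr' ?_
    obtain ⟨B, hB⟩ := ((cf (conf p U)).image Pool.Agent.Y990.CB.nm).bddAbove
    filter_upwards [eventually_ge_atTop B] with ρ hρ
    have h : cf (conf p U) ⊆ Bf 0 ρ := by
      intro x hx
      rw [mem_Bf]
      intro i
      have h1 : Pool.Agent.Y990.CB.nm x ≤ B := hB (Finset.mem_coe.2 (Finset.mem_image_of_mem _ hx))
      have h2 := Pool.Agent.Y990.CB.abs_le_nm x i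
      simp only [Pi.zero_apply, sub_zero]
      have h3 : ((Pool.Agent.Y990.CB.nm x : ℕ) : ℤ) ≤ ρ := by exact_mod_cast h1.trans hρ
      exact h2.trans h3
    unfold GG GI
    by_cases h1 : U ∈ {U : Lab d | (cl (conf c U)).Infinite}
    · rw [Set.indicator_of_mem h1, Set.indicator_of_mem h1, if_pos h]
    · rw [Set.indicator_of_notMem h1, Set.indicator_of_notMem h1]

/-- the density of the vertices close to the boundaries of the cells -/
def nu (d N r : ℕ) : ℝ := 1 - (((N : ℝ) - 2 * r) / N) ^ d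

theorem nn_le_nu {N r L : ℕ} (hN : 0 < N) (h : 2 * r ≤ N) :
    (nn d N r L : ℝ) ≤ ((N * L : ℕ) : ℝ) ^ d * nu d N r := by
  refine (nn_le N r L h).trans (le_of_eq ?_)
  unfold nu
  have hN' : (N : ℝ) ≠ 0 := by positivity
  push_cast
  have e : (L : ℝ) * (N - 2 * r) = (N * L) * (((N : ℝ) - 2 * r) / N) := by field_simp
  rw [e, mul_pow (N * L : ℝ) (((N : ℝ) - 2 * r) / N)]
  ring

theorem nu_tendsto (r : ℕ) : Tendsto (fun N : ℕ => nu d N r) atTop (𝓝 0) := by
  have h1 : Tendsto (fun N : ℕ => ((N : ℝ) - 2 * r) / N) atTop (𝓝 1) := by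
    have h2 : Tendsto (fun N : ℕ => 1 - (2 * r : ℝ) / N) atTop (𝓝 (1 - 0)) :=
      tendsto_const_nhds.sub (tendsto_const_div_atTop_nhds_zero_nat _)
    rw [sub_zero] at h2
    refine h2.congr' ?_
    filter_upwards [eventually_gt_atTop 0] with N hN
    have hN' : (N : ℝ) ≠ 0 := by positivity
    field_simp
  have h2 : Tendsto (fun N : ℕ => nu d N r) atTop (𝓝 (1 - 1 ^ d)) :=
    tendsto_const_nhds.sub (h1.pow d)
  simpa using h2

open Classical in
theorem In1_card {n ρ : ℕ} (h : 2 * ρ ≤ n) : ((n : ℝ) - 2 * ρ) ^ d ≤ (In1 d n ρ).card := by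
  have h1 : Fintype.piFinset (fun _ : Fin d => Finset.Ico (ρ : ℤ) ((n : ℤ) - ρ)) ⊆ In1 d n ρ := by
    intro x hx
    rw [Fintype.mem_piFinset] at hx
    unfold In1 box
    rw [Finset.mem_filter, Fintype.mem_piFinset]
    constructor
    · intro i
      have := Finset.mem_Ico.1 (hx i)
      rw [Finset.mem_Ico]
      constructor <;> omega
    · intro z hz
      rw [Fintype.mem_piFinset]
      intro i
      have h2 := Finset.mem_Ico.1 (hx i)
      have h3 := (mem_Bf.1 hz) i
      simp only [Pi.zero_apply, sub_zero] at h3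
      have h4 := abs_le.1 h3
      rw [Finset.mem_Ico, Pi.add_apply]
      constructor <;> omega
  have h2 := Finset.card_le_card h1
  rw [Fintype.card_piFinset, Finset.prod_const, Finset.card_univ, Fintype.card_fin, Int.card_Ico] at h2
  have h3 : ((n : ℤ) - ρ - ρ).toNat = n - 2 * ρ := by omega
  rw [h3] at h2
  have h4 : (((n - 2 * ρ : ℕ) : ℝ)) = (n : ℝ) - 2 * ρ := by
    rw [Nat.cast_sub h]; push_cast; ring
  rw [← h4]
  exact_mod_cast h2

/-- **The inequality of the energies in infinite volume.** -/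
theorem GI_le (hd : 1 ≤ d) (p c : NNReal) (hc : c ≤ 1) (hpc : p ≤ c) {N m : ℕ} (hN : 0 < N)
    (h1N : 2 ≤ N) (hmN : 2 * (5 * m) ≤ N)
    {v : (Fin d → ℝ) → ℝ} (hv : Mu v) (hvw : ∀ k, v k ≤ wt k) {a l : ℝ} (ha : 0 < a) (hl : 0 < l) :
    ∫ U, GI v p c U ∂(LU d) ≤
      (1 + a) * (Av (bondM d) (uI c hc) m v + ((8 * m + 1 : ℕ) : ℝ) ^ d * nu d N (5 * m) +
        (Real.log 2 / (l * (N : ℝ) ^ d) + 8 * (((2 * m + 1 : ℕ) : ℝ) ^ d) ^ 2 * l)) +
      (1 + a⁻¹) * (4 * (4 * Bp d p c N + (pr (bondM d) (uI c hc) m - th (bondM d) (uI c hc)) +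
        (nu d N 1 + nu d N m))) := by
  set K : ℝ := (1 + a) * (Av (bondM d) (uI c hc) m v + ((8 * m + 1 : ℕ) : ℝ) ^ d * nu d N (5 * m) +
        (Real.log 2 / (l * (N : ℝ) ^ d) + 8 * (((2 * m + 1 : ℕ) : ℝ) ^ d) ^ 2 * l)) +
      (1 + a⁻¹) * (4 * (4 * Bp d p c N + (pr (bondM d) (uI c hc) m - th (bondM d) (uI c hc)) +
        (nu d N 1 + nu d N m))) with hK
  have hNr : (0 : ℝ) < N := by exact_mod_cast hN
  -- the finite volume inequality, divided by the volume
  have h1 : ∀ ρ L : ℕ, 0 < L → ((In1 d (N * L) ρ).card : ℝ) * ∫ U, GG v p c ρ U ∂(LU d) ≤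
      ((N * L : ℕ) : ℝ) ^ d * K := by
    intro ρ L hL
    refine (main_ineq hd p c hc hpc hN hv hvw ha hl ρ (m := m) (L := L)).trans ?_
    have hLr : (0 : ℝ) < L := by exact_mod_cast hL
    have n1 := nn_le_nu (d := d) (L := L) hN (by omega : 2 * 1 ≤ N)
    have n2 := nn_le_nu (d := d) (L := L) hN (by omega : 2 * m ≤ N)
    have n3 := nn_le_nu (d := d) (L := L) hN hmN
    have hlog : (L : ℝ) ^ d * Real.log 2 / l = ((N * L : ℕ) : ℝ) ^ d *
        (Real.log 2 / (l * (N : ℝ) ^ d)) := by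
      push_cast
      rw [mul_pow]
      field_simp
    rw [hlog, hK]
    have hai : 0 < a⁻¹ := inv_pos.2 ha
    set V : ℝ := ((N * L : ℕ) : ℝ) ^ d with hV
    have e1 : V * Av (bondM d) (uI c hc) m v + ((8 * m + 1 : ℕ) : ℝ) ^ d * nn d N (5 * m) L +
        (V * (Real.log 2 / (l * (N : ℝ) ^ d)) + 8 * (((2 * m + 1 : ℕ) : ℝ) ^ d) ^ 2 * l * V) ≤
        V * (Av (bondM d) (uI c hc) m v + ((8 * m + 1 : ℕ) : ℝ) ^ d * nu d N (5 * m) +
        (Real.log 2 / (l * (N : ℝ) ^ d) + 8 * (((2 * m + 1 : ℕ) : ℝ) ^ d) ^ 2 * l)) := by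
      have := mul_le_mul_of_nonneg_left n3 (show (0 : ℝ) ≤ ((8 * m + 1 : ℕ) : ℝ) ^ d by positivity)
      linarith
    have e2 : 4 * (V * Bp d p c N) + V * (pr (bondM d) (uI c hc) m - th (bondM d) (uI c hc)) +
        ((nn d N 1 L : ℝ) + nn d N m L) ≤
        V * (4 * Bp d p c N + (pr (bondM d) (uI c hc) m - th (bondM d) (uI c hc)) +
        (nu d N 1 + nu d N m)) := by linarith
    have e3 := mul_le_mul_of_nonneg_left e1 (show (0 : ℝ) ≤ 1 + a by linarith)
    have e4 := mul_le_mul_of_nonneg_left e2 (show (0 : ℝ) ≤ (1 + a⁻¹) * 4 by positivity)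
    linarith
  -- the limit of the boxes
  have h2 : ∀ ρ : ℕ, ∫ U, GG v p c ρ U ∂(LU d) ≤ K := by
    intro ρ
    set I : ℝ := ∫ U, GG v p c ρ U ∂(LU d) with hI
    have hI0 : 0 ≤ I := integral_nonneg fun U => GG_nonneg hv p c ρ U
    have h3 : ∀ᶠ L : ℕ in atTop, (((N * L : ℕ) : ℝ) - 2 * ρ) ^ d / ((N * L : ℕ) : ℝ) ^ d * I ≤ K := by
      filter_upwards [eventually_ge_atTop (2 * ρ + 1)] with L hL
      have hL0 : 0 < L := by omega
      have h4 : 2 * ρ ≤ N * L := by nlinarith
      have hV : (0 : ℝ) < ((N * L : ℕ) : ℝ) ^ d := by positivity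
      have h5 := h1 ρ L hL0
      have h6 := In1_card (d := d) h4
      rw [div_mul_eq_mul_div, div_le_iff₀ hV, mul_comm K]
      exact (mul_le_mul_of_nonneg_right h6 hI0).trans h5
    have h4 : Tendsto (fun L : ℕ => (((N * L : ℕ) : ℝ) - 2 * ρ) ^ d / ((N * L : ℕ) : ℝ) ^ d * I) atTop
        (𝓝 (1 * I)) := by
      refine Tendsto.mul_const I ?_
      have h5 : Tendsto (fun L : ℕ => N * L) atTop atTop :=
        tendsto_id.const_mul_atTop' hN
      have h6 : Tendsto (fun n : ℕ => ((n : ℝ) - 2 * ρ) / n) atTop (𝓝 1) := by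
        have h2 : Tendsto (fun n : ℕ => 1 - (2 * ρ : ℝ) / n) atTop (𝓝 (1 - 0)) :=
          tendsto_const_nhds.sub (tendsto_const_div_atTop_nhds_zero_nat _)
        rw [sub_zero] at h2
        refine h2.congr' ?_
        filter_upwards [eventually_gt_atTop 0] with n hn
        have hn' : (n : ℝ) ≠ 0 := by positivity
        field_simp
      have h7 := ((h6.comp h5).pow d)
      rw [one_pow] at h7
      refine h7.congr fun L => ?_
      simp only [Function.comp_apply]
      rw [div_pow]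
    rw [one_mul] at h4
    exact le_of_tendsto h4 h3
  exact le_of_tendsto' (GG_tendsto hv p c) h2

/-- the density of the clusters inside the infinite cluster -/
def hp (d : ℕ) (p c : ℝ) (k : Fin d → ℝ) : ENNReal :=
  ∫⁻ U, {U : Lab d | (cl (conf c U)).Infinite}.indicator (fun U => FF (cf (conf p U)) k) U ∂(LU d)

theorem Gf_lint {v : (Fin d → ℝ) → ℝ} (hv : Mu v) (A : Finset (Z d)) :
    ∫⁻ k in cube d, ENNReal.ofReal (v k) * FF A k = ENNReal.ofReal ((2 * Real.pi) ^ d * Gf v A) := by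
  have h1 : ∀ k, ENNReal.ofReal (v k) * FF A k = ENNReal.ofReal (v k * (ps A k / A.card)) := by
    intro k
    unfold FF
    rw [ENNReal.ofReal_mul (hv.nn k)]
  simp_rw [h1]
  have hint : Integrable (fun k => v k * (ps A k / A.card)) (volume.restrict (cube d)) :=
    hv.int ((integrable_of_cont (ps_cont A)).div_const _)
  rw [← ofReal_integral_eq_lintegral_ofReal hint (Eventually.of_forall fun k =>
    mul_nonneg (hv.nn k) (div_nonneg (ps_nonneg A k) (Nat.cast_nonneg _)))]
  congr 1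
  unfold Gf
  rw [bl_eq hv]
  have h2 : ∀ k, cX A 1 k * cX A 1 k + sX A 1 k * sX A 1 k = ps A k := by
    intro k
    unfold cX sX ps Pool.Agent.J4.H67.PC.cS Pool.Agent.J4.H67.PC.sS
    simp only [Pi.one_apply, one_mul]
    ring
  simp_rw [h2]
  have h3 : ∀ k, v k * (ps A k / A.card) = v k * ps A k / A.card := fun k => by ring
  simp_rw [h3]
  rw [integral_div]
  have hpi := (two_pi_pos (d := d)).ne'
  field_simp

theorem hp_joint (p c : ℝ) : Measurable (fun z : Lab d × (Fin d → ℝ) =>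
    {U : Lab d | (cl (conf c U)).Infinite}.indicator (fun U => FF (cf (conf p U)) z.2) z.1) := by
  have h1 := meas_joint (d := d) p
  have h2 : MeasurableSet {z : Lab d × (Fin d → ℝ) | (cl (conf c z.1)).Infinite} :=
    measurable_fst (inf_meas c)
  exact h1.indicator h2

theorem hp_meas (p c : ℝ) : Measurable (hp d p c) := by
  unfold hp
  exact (hp_joint (d := d) p c).lintegral_prod_left'

/-- the pairing with the density -/
theorem hp_pair {v : (Fin d → ℝ) → ℝ} (hv : Mu v) (p c : ℝ) :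
    ∫⁻ k in cube d, ENNReal.ofReal (v k) * hp d p c k =
      ENNReal.ofReal ((2 * Real.pi) ^ d * ∫ U, GI v p c U ∂(LU d)) := by
  have hvm : Measurable fun k => ENNReal.ofReal (v k) := hv.meas.ennreal_ofReal
  have h1 : ∀ k, ENNReal.ofReal (v k) * hp d p c k = ∫⁻ U, ENNReal.ofReal (v k) *
      {U : Lab d | (cl (conf c U)).Infinite}.indicator (fun U => FF (cf (conf p U)) k) U ∂(LU d) := by
    intro k
    unfold hp
    rw [lintegral_const_mul]
    exact (hp_joint (d := d) p c).comp measurable_prodMk_right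
  simp_rw [h1]
  have hsw : ∫⁻ k in cube d, ∫⁻ U, ENNReal.ofReal (v k) *
      {U : Lab d | (cl (conf c U)).Infinite}.indicator (fun U => FF (cf (conf p U)) k) U ∂(LU d) =
      ∫⁻ U, (∫⁻ k in cube d, ENNReal.ofReal (v k) *
      {U : Lab d | (cl (conf c U)).Infinite}.indicator (fun U => FF (cf (conf p U)) k) U) ∂(LU d) := by
    refine lintegral_lintegral_swap (f := fun (k : Fin d → ℝ) (U : Lab d) => ENNReal.ofReal (v k) *
      {U : Lab d | (cl (conf c U)).Infinite}.indicator (fun U => FF (cf (conf p U)) k) U) ?_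
    exact ((hvm.comp measurable_fst).mul
      ((hp_joint (d := d) p c).comp measurable_swap)).aemeasurable
  rw [hsw]
  have h2 : ∀ U : Lab d, ∫⁻ k in cube d, ENNReal.ofReal (v k) *
      {U : Lab d | (cl (conf c U)).Infinite}.indicator (fun U => FF (cf (conf p U)) k) U =
      ENNReal.ofReal ((2 * Real.pi) ^ d * GI v p c U) := by
    intro U
    unfold GI
    by_cases h : U ∈ {U : Lab d | (cl (conf c U)).Infinite}
    · simp_rw [Set.indicator_of_mem h]
      exact Gf_lint hv _
    · simp_rw [Set.indicator_of_notMem h]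
      simp
  simp_rw [h2]
  have hGI0 : ∀ U, 0 ≤ GI v p c U := fun U => Set.indicator_nonneg (fun U _ => Gf_nonneg hv _) U
  have hGI1 : ∀ U, GI v p c U ≤ 1 := fun U =>
    Set.indicator_le' (fun U _ => Gf_le hv _) (fun _ _ => zero_le_one) U
  have hGIm : Measurable (GI v p c) := by
    unfold GI
    exact ((measurable_of_countable (fun A : Finset (Z d) => Gf v A)).comp
      (meas_cf.comp (meas_conf p))).indicator (inf_meas c)
  have hGIi : Integrable (fun U => (2 * Real.pi) ^ d * GI v p c U) (LU d) := by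
    refine Integrable.const_mul ?_ _
    refine Integrable.of_bound hGIm.aestronglyMeasurable 1 (Eventually.of_forall fun U => ?_)
    rw [Real.norm_eq_abs, abs_of_nonneg (hGI0 U)]
    exact hGI1 U
  rw [← integral_const_mul, ofReal_integral_eq_lintegral_ofReal hGIi
    (Eventually.of_forall fun U => mul_nonneg two_pi_pos.le (hGI0 U))]

end

end Pool.Agent.J4.H90.Perc
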