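import Pool.Agent.J4.H90.Perc.Fin2

/-!
The uniform comparison of the spectral densities.
-/

set_option autoImplicit false
set_option linter.deprecated false

open MeasureTheory Set Filter
open scoped Topology

namespace Pool.Agent.J4.H90.Perc

open Pool.Agent.Results.MP_54f242_pr.InfraredMean (opn P tau cube dot Dhat Dhat_le cube_meas cube_fin
  cube_vol cos_mul_Dhat box box_card dot_sub integrable_of_cont int_cos int_cos_mul_cos int_term sh
  meas_reach)
open Pool.Agent.Y990.CB (Z Bo Bf mem_Bf card_Bf coe_Bf Perc Perc_meas bondM Mod mu G th Perc_shift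
  dep_mono Am_dep Cn Cn_meas Cn_dep graph_congr)
open Pool.Agent.W783.PC (pm DepOn Inc bern)
open Pool.Agent.J4.H67.PC (LU conf meas_conf map_conf conf_mono shift shift_reach cl cf mem_cf meas_cf
  meas_cl meas_fin FF FF_meas FF_empty meas_joint int_FF_le reach_left ps ps_cont ps_eq ps_nonneg)
open Pool.Agent.Helper401_FP (E ex ex_ed ed Ed exists_ed ex_meas map_restr Perc_dep In_sub_Ed Nu Nu_meas)

noncomputable section

variable {d : ℕ}

/-- the event of two vertices of the infinite cluster not connected at the level `p` -/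
def Bs (p c : ℝ) (z : Z d) : Set (Lab d) :=
  {U : Lab d | zt c U ∈ Perc (bondM d) 0 ∧ zt c U ∈ Perc (bondM d) z ∧ ¬ Rl p U 0 z}

theorem Bs_anti {p p' c : ℝ} (h : p ≤ p') (z : Z d) : Bs p' c z ⊆ Bs p c z := by
  rintro U ⟨h1, h2, h3⟩
  exact ⟨h1, h2, fun h4 => h3 (SimpleGraph.Reachable.mono (conf_mono h U) h4)⟩

theorem Bp_anti {p p' c : ℝ} (h : p ≤ p') (N : ℕ) : Bp d p' c N ≤ Bp d p c N := by
  unfold Bp
  exact Finset.sum_le_sum fun z _ => measureReal_mono (Bs_anti h z) (measure_ne_top _ _)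

theorem Nu_dep (u v : Z d) : DepOn (Nu (bondM d) u v) (Ed d) := by
  intro ω ω' h
  have hg : G (bondM d) ω univ = G (bondM d) ω' univ :=
    graph_congr fun c hc => h c (In_sub_Ed _ hc)
  show (Pool.Agent.Y990.CB.cl (bondM d) ω univ u).Infinite ∧
    (Pool.Agent.Y990.CB.cl (bondM d) ω univ v).Infinite ∧
    v ∉ Pool.Agent.Y990.CB.cl (bondM d) ω univ u ↔
    (Pool.Agent.Y990.CB.cl (bondM d) ω' univ u).Infinite ∧
    (Pool.Agent.Y990.CB.cl (bondM d) ω' univ v).Infinite ∧
    v ∉ Pool.Agent.Y990.CB.cl (bondM d) ω' univ u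
  unfold Pool.Agent.Y990.CB.cl
  rw [hg]

theorem Bs_crit (c : NNReal) (hc : c ≤ 1) (h0 : 0 < c) (z : Z d) :
    (LU d) (Bs (c : ℝ) c z) = 0 := by
  have h1 := ind_zt c hc (Nu_meas (bondM d) 0 z) (Nu_dep 0 z)
  have hpI : (0 : unitInterval) < uI c hc := by
    show (0 : ℝ) < (c : ℝ)
    exact_mod_cast h0
  rw [Nu_null (bondM d) (uI c hc) hpI 0 z] at h1
  have h2 : Bs (c : ℝ) c z = {U : Lab d | zt c U ∈ Nu (bondM d) 0 z} := by
    ext U
    have h3 : (z ∈ Pool.Agent.Y990.CB.cl (bondM d) (ex (conf c U)) univ 0) ↔ Rl c U 0 z := by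
      show (G (bondM d) (ex (conf c U)) univ).Reachable 0 z ↔ _
      rw [G_eq]
      rfl
    show (zt c U ∈ Perc (bondM d) 0 ∧ zt c U ∈ Perc (bondM d) z ∧ ¬ Rl c U 0 z) ↔ _
    rw [← h3]
    rfl
  have hm : MeasurableSet {U : Lab d | zt (c : ℝ) U ∈ Nu (bondM d) 0 z} :=
    (Nu_meas (bondM d) 0 z).preimage (zt_meas c)
  have h3 : ∫ U, (Nu (bondM d) 0 z).indicator (1 : ((bondM d).ι → Bool) → ℝ) (zt c U) ∂(LU d) =
      (LU d).real {U : Lab d | zt (c : ℝ) U ∈ Nu (bondM d) 0 z} := by
    rw [← integral_indicator_one hm]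
    rfl
  rw [h3] at h1
  have h4 := h1.2
  rw [measureReal_eq_zero_iff] at h4
  rw [h2]
  exact h4

theorem Bp_small (c : NNReal) (hc : c ≤ 1) (h0 : 0 < c) (N : ℕ) (ε : ℝ) (hε : 0 < ε) :
    ∃ p0 : NNReal, p0 < c ∧ ∀ p : NNReal, p0 < p → p < c → Bp d p c N ≤ ε := by
  obtain ⟨u, hu1, hu2, hu3⟩ := exists_seq_strictMono_tendsto' h0
  have hz : ∀ z : Z d, Tendsto (fun n => (LU d).real (Bs (u n : ℝ) c z)) atTop (𝓝 0) := by
    intro z
    have hanti : Antitone fun n : ℕ => Bs (d := d) (u n : ℝ) c z := fun a b hab =>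
      Bs_anti (by exact_mod_cast hu1.monotone hab) z
    have h1 := tendsto_measure_iInter_atTop (μ := LU d) (s := fun n : ℕ => Bs (u n : ℝ) c z)
      (fun n => (Bs_meas (u n : ℝ) c 0 z).nullMeasurableSet) hanti ⟨0, measure_ne_top _ _⟩
    have h2 : ⋂ n, Bs (d := d) (u n : ℝ) c z ⊆ Bs (c : ℝ) c z := by
      intro U hU
      rw [mem_iInter] at hU
      refine ⟨(hU 0).1, (hU 0).2.1, fun h => ?_⟩
      have h3 := reach_left h
      have h4 : Tendsto (fun n => (u n : ℝ)) atTop (𝓝[<] (c : ℝ)) := by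
        refine tendsto_nhdsWithin_iff.2 ⟨NNReal.tendsto_coe.2 hu3, Eventually.of_forall fun n => ?_⟩
        exact_mod_cast (hu2 n).2
      obtain ⟨n, hn⟩ := (h4.eventually h3).exists
      exact (hU n).2.2 hn
    have h3 : (LU d) (⋂ n, Bs (d := d) (u n : ℝ) c z) = 0 :=
      measure_mono_null h2 (Bs_crit c hc h0 z)
    rw [h3] at h1
    have h4 := (ENNReal.tendsto_toReal ENNReal.zero_ne_top).comp h1
    rw [ENNReal.toReal_zero] at h4
    exact h4
  have hs : Tendsto (fun n => Bp d (u n : ℝ) c N) atTop (𝓝 0) := by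
    have h1 : Tendsto (fun n => ∑ z ∈ Bf (0 : Z d) N, (LU d).real (Bs (u n : ℝ) c z)) atTop
        (𝓝 (∑ z ∈ Bf (0 : Z d) N, (0 : ℝ))) := tendsto_finset_sum _ fun z _ => hz z
    rw [Finset.sum_const_zero] at h1
    exact h1
  obtain ⟨n, hn⟩ := (hs.eventually (gt_mem_nhds hε)).exists
  refine ⟨u n, (hu2 n).2, fun p hp _ => ?_⟩
  exact (Bp_anti (by exact_mod_cast hp.le) N).trans hn.le

/-- the spectral density of the infinite cluster as a limit in mean -/
theorem spec_inf2 (M : Mod d) (p : unitInterval) : ∃ g : (Fin d → ℝ) → ℝ, Measurable g ∧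
    (∀ k, 0 ≤ g k) ∧ Integrable g (volume.restrict (cube d)) ∧
    Tendsto (fun m => ∫ k in cube d, |gg M p m m k - g k|) atTop (𝓝 0) ∧ ∀ x : Z d,
      ∫ k in cube d, g k * Real.cos (dot k x) =
        (2 * Real.pi) ^ d * ((mu M p).real (Perc M 0 ∩ Perc M x) - th M p ^ 2) := by
  have hG : ∀ m, Integrable (gg M p m m) (volume.restrict (cube d)) := fun m =>
    integrable_of_cont (gg_cont M p m m)
  have hpi : 0 < (2 * Real.pi) ^ d := by positivity
  have hC : ∀ ε : ℝ, 0 < ε → ∃ N : ℕ, ∀ m, N ≤ m → ∀ l, m ≤ l →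
      ∫ k in cube d, |gg M p m m k - gg M p l l k| < ε := by
    intro ε hε
    set c : ℝ := ε / (4 * (2 * Real.pi) ^ d) with hc
    have hc0 : 0 < c := by positivity
    have h1 := pr_tendsto M p
    have h2 : ∀ᶠ m in atTop, pr M p m < th M p + c * c := h1.eventually (gt_mem_nhds (by
      have : 0 < c * c := by positivity
      linarith))
    obtain ⟨N, hN⟩ := eventually_atTop.1 h2
    refine ⟨N, fun m hm l hml => ?_⟩
    have h3 := gg_cauchy M p hml c hc0
    have h4 : th M p ≤ pr M p l := by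
      have h5 : Antitone (pr M p) := fun a b hab =>
        measureReal_mono (Ae_anti M hab 0) (measure_ne_top _ _)
      exact h5.le_of_tendsto h1 l
    have h5 : c⁻¹ * (pr M p m - pr M p l) ≤ c := by
      rw [inv_mul_le_iff₀ hc0]
      have := hN m hm
      linarith
    calc ∫ k in cube d, |gg M p m m k - gg M p l l k| ≤ _ := h3
      _ ≤ (2 * Real.pi) ^ d * ((4 * c + c) / 2) := by gcongr
      _ < ε := by
          have e : (2 * Real.pi) ^ d * c = ε / 4 := by rw [hc]; field_simp
          have e2 : (2 * Real.pi) ^ d * ((4 * c + c) / 2) = 5 / 2 * ((2 * Real.pi) ^ d * c) := by ring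
          rw [e2, e]
          linarith
  obtain ⟨g0, hg0, hlim0⟩ := L1_limit hG hC
  set g := hg0.aestronglyMeasurable.mk g0 with hgdef
  have hgm : Measurable g := hg0.aestronglyMeasurable.stronglyMeasurable_mk.measurable
  have hge : g0 =ᵐ[volume.restrict (cube d)] g := hg0.aestronglyMeasurable.ae_eq_mk
  have hg : Integrable g (volume.restrict (cube d)) := hg0.congr hge
  have hlim : Tendsto (fun m => ∫ k in cube d, |gg M p m m k - g k|) atTop (𝓝 0) := by
    refine hlim0.congr fun m => ?_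
    refine integral_congr_ae ?_
    filter_upwards [hge] with k hk
    rw [hk]
  have hlim2 : Tendsto (fun m => ∫ k in cube d, |gg M p m m k - max (g k) 0|) atTop (𝓝 0) := by
    refine squeeze_zero (fun m => integral_nonneg fun k => abs_nonneg _) (fun m => ?_) hlim
    refine integral_mono ((hG m).sub hg.pos_part).abs ((hG m).sub hg).abs fun k => ?_
    have h0 := gg_nonneg M p m k
    show |gg M p m m k - max (g k) 0| ≤ |gg M p m m k - g k|
    rcases le_total (g k) 0 with h | h
    · rw [max_eq_right h, sub_zero, abs_of_nonneg h0, abs_of_nonneg (by linarith)]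
      linarith
    · rw [max_eq_left h]
  refine ⟨fun k => max (g k) 0, hgm.max measurable_const, fun k => le_max_right _ _, hg.pos_part,
    hlim2, fun x => ?_⟩
  have hcos : Tendsto (fun m => ∫ k in cube d, gg M p m m k * Real.cos (dot k x)) atTop
      (𝓝 (∫ k in cube d, max (g k) 0 * Real.cos (dot k x))) := by
    have hcc : AEStronglyMeasurable (fun k : Fin d → ℝ => Real.cos (dot k x))
        (volume.restrict (cube d)) :=
      (Real.continuous_cos.comp (dot_cont x)).aestronglyMeasurable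
    have hb : ∀ k : Fin d → ℝ, ‖Real.cos (dot k x)‖ ≤ 1 := fun k => by
      rw [Real.norm_eq_abs]; exact Real.abs_cos_le_one _
    have i1 : ∀ m, Integrable (fun k => gg M p m m k * Real.cos (dot k x))
        (volume.restrict (cube d)) := fun m => (hG m).mul_bdd (c := 1) hcc (Eventually.of_forall hb)
    have i2 : Integrable (fun k => max (g k) 0 * Real.cos (dot k x)) (volume.restrict (cube d)) :=
      hg.pos_part.mul_bdd (c := 1) hcc (Eventually.of_forall hb)
    rw [tendsto_iff_norm_sub_tendsto_zero]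
    refine squeeze_zero (fun m => norm_nonneg _) (fun m => ?_) hlim2
    rw [← integral_sub (i1 m) i2]
    refine (norm_integral_le_integral_norm _).trans ?_
    refine integral_mono ((i1 m).sub i2).norm ((hG m).sub hg.pos_part).abs fun k => ?_
    show ‖gg M p m m k * Real.cos (dot k x) - max (g k) 0 * Real.cos (dot k x)‖ ≤
      |gg M p m m k - max (g k) 0|
    rw [← sub_mul, norm_mul, Real.norm_eq_abs]
    exact mul_le_of_le_one_right (abs_nonneg _) (hb k)
  simp_rw [int_gg_cos] at hcos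
  exact tendsto_nhds_unique hcos ((cc_tendsto M p x).const_mul _)

theorem Av_le_one (M : Mod d) (p : unitInterval) (m : ℕ) {v : (Fin d → ℝ) → ℝ} (hv : Mu v) :
    Av M p m v ≤ 1 := by
  rw [Av_eq M p m hv, div_le_one two_pi_pos]
  have h1 : ∫ k in cube d, v k * gg M p m m k ≤ ∫ k in cube d, gg M p m m k := by
    refine integral_mono (hv.int (integrable_of_cont (gg_cont M p m m)))
      (integrable_of_cont (gg_cont M p m m)) fun k => ?_
    exact mul_le_of_le_one_left (gg_nonneg M p m k) (hv.le k)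
  refine h1.trans ?_
  rw [int_gg]
  exact mul_le_of_le_one_right two_pi_pos.le (cc_le_one M p m m 0)

/-- **The uniform comparison.** -/
theorem unif (hd : 1 ≤ d) (c : NNReal) (hc : c ≤ 1) (h0 : 0 < c) {g : (Fin d → ℝ) → ℝ}
    (hgi : Integrable g (volume.restrict (cube d)))
    (hlim : Tendsto (fun m => ∫ k in cube d, |gg (bondM d) (uI c hc) m m k - g k|) atTop (𝓝 0))
    (ε : ℝ) (hε : 0 < ε) :
    ∃ p0 : NNReal, p0 < c ∧ ∀ p : NNReal, p0 < p → p < c → ∀ v : (Fin d → ℝ) → ℝ, Mu v →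
      (∀ k, v k ≤ wt k) →
      ∫ U, GI v p c U ∂(LU d) ≤ (∫ k in cube d, v k * g k) / (2 * Real.pi) ^ d + ε := by
  set a : ℝ := min 1 (ε / 8) with ha
  have ha0 : 0 < a := by positivity
  have ha1 : a ≤ 1 := min_le_left _ _
  have ha2 : a ≤ ε / 8 := min_le_right _ _
  set b : ℝ := (1 + a⁻¹) * 4 with hb
  have hb0 : 0 < b := by positivity
  -- the choice of m
  have hpr := pr_tendsto (bondM d) (uI c hc)
  have e1 : ∀ᶠ m in atTop, pr (bondM d) (uI c hc) m < th (bondM d) (uI c hc) + ε / 8 / b :=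
    hpr.eventually (gt_mem_nhds (by
      have : 0 < ε / 8 / b := by positivity
      linarith))
  have e2 : ∀ᶠ m : ℕ in atTop, ∫ k in cube d, |gg (bondM d) (uI c hc) m m k - g k| <
      (2 * Real.pi) ^ d * (ε / 8) := hlim.eventually (gt_mem_nhds (by positivity))
  obtain ⟨m, hm1, hm2⟩ := (e1.and e2).exists
  -- the choice of l
  set κ : ℝ := ((2 * m + 1 : ℕ) : ℝ) ^ d with hκ
  have hκ0 : 0 < κ := by positivity
  set l : ℝ := ε / 8 / (16 * κ ^ 2) with hl
  have hl0 : 0 < l := by positivity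
  -- the choice of N
  have f1 : Tendsto (fun N : ℕ => 2 * (((8 * m + 1 : ℕ) : ℝ) ^ d * nu d N (5 * m))) atTop (𝓝 0) := by
    have := ((nu_tendsto (d := d) (5 * m)).const_mul (((8 * m + 1 : ℕ) : ℝ) ^ d)).const_mul 2
    simpa using this
  have f2 : Tendsto (fun N : ℕ => 2 * (Real.log 2 / (l * (N : ℝ) ^ d))) atTop (𝓝 0) := by
    have h1 : Tendsto (fun N : ℕ => l * (N : ℝ) ^ d) atTop atTop :=
      Tendsto.const_mul_atTop hl0 ((tendsto_pow_atTop (by omega)).comp tendsto_natCast_atTop_atTop)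
    have h2 := (tendsto_const_nhds (x := Real.log 2)).div_atTop h1
    have := h2.const_mul 2
    simpa using this
  have f3 : Tendsto (fun N : ℕ => b * (nu d N 1 + nu d N m)) atTop (𝓝 0) := by
    have := ((nu_tendsto (d := d) 1).add (nu_tendsto (d := d) m)).const_mul b
    simpa using this
  have hε8 : (0 : ℝ) < ε / 8 := by positivity
  obtain ⟨N, hN1, hN2, hN3, hN4⟩ := (((f1.eventually (gt_mem_nhds hε8)).and
    ((f2.eventually (gt_mem_nhds hε8)).and ((f3.eventually (gt_mem_nhds hε8)).and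
    (eventually_ge_atTop (2 + 10 * m)))))).exists
  obtain ⟨p0, hp1, hp2⟩ := Bp_small (d := d) c hc h0 N (ε / 8 / (4 * b)) (by positivity)
  refine ⟨p0, hp1, fun p hp hpc v hv hvw => ?_⟩
  have hmain := GI_le hd p c hc hpc.le (N := N) (m := m) (by omega) (by omega) (by omega) hv hvw ha0 hl0
  refine hmain.trans ?_
  have hB := hp2 p hp hpc
  have hA1 := Av_le_one (bondM d) (uI c hc) m hv
  have hA0 := Av_nonneg (bondM d) (uI c hc) m hv
  have hA2 : Av (bondM d) (uI c hc) m v ≤ (∫ k in cube d, v k * g k) / (2 * Real.pi) ^ d + ε / 8 := by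
    rw [Av_eq (bondM d) (uI c hc) m hv]
    have h1 : ∫ k in cube d, v k * gg (bondM d) (uI c hc) m m k ≤
        (∫ k in cube d, v k * g k) + ∫ k in cube d, |gg (bondM d) (uI c hc) m m k - g k| := by
      have i0 := integrable_of_cont (gg_cont (bondM d) (uI c hc) m m)
      have i1 : Integrable (fun k => |gg (bondM d) (uI c hc) m m k - g k|)
        (volume.restrict (cube d)) := (i0.sub hgi).abs
      rw [← integral_add (hv.int hgi) i1]
      refine integral_mono (hv.int i0) ((hv.int hgi).add i1) fun k => ?_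
      show v k * gg (bondM d) (uI c hc) m m k ≤ v k * g k + |gg (bondM d) (uI c hc) m m k - g k|
      have h2 : v k * (gg (bondM d) (uI c hc) m m k - g k) ≤
          |gg (bondM d) (uI c hc) m m k - g k| := by
        refine (le_abs_self _).trans ?_
        rw [abs_mul, abs_of_nonneg (hv.nn k)]
        exact mul_le_of_le_one_left (abs_nonneg _) (hv.le k)
      linarith
    rw [div_add' _ _ _ two_pi_pos.ne']
    refine div_le_div_of_nonneg_right (h1.trans ?_) two_pi_pos.le
    linarith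
  -- the final estimate
  have g1 : (1 + a) * (((8 * m + 1 : ℕ) : ℝ) ^ d * nu d N (5 * m)) ≤ ε / 8 := by
    rcases le_total 0 (((8 * m + 1 : ℕ) : ℝ) ^ d * nu d N (5 * m)) with h | h
    · have := mul_le_mul_of_nonneg_right (show 1 + a ≤ 2 by linarith) h
      linarith
    · have := mul_nonpos_of_nonneg_of_nonpos (show 0 ≤ 1 + a by linarith) h
      linarith
  have g2 : (1 + a) * (Real.log 2 / (l * (N : ℝ) ^ d)) ≤ ε / 8 := by
    have h : 0 ≤ Real.log 2 / (l * (N : ℝ) ^ d) := by
      have := Real.log_nonneg (show (1 : ℝ) ≤ 2 by norm_num)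
      positivity
    have := mul_le_mul_of_nonneg_right (show 1 + a ≤ 2 by linarith) h
    linarith
  have g3 : (1 + a) * (8 * κ ^ 2 * l) ≤ ε / 8 := by
    have h1 : 8 * κ ^ 2 * l = ε / 8 / 2 := by rw [hl]; field_simp; norm_num
    rw [h1]
    nlinarith
  have g4 : b * (4 * Bp d p c N) ≤ ε / 8 := by
    have h1 := mul_le_mul_of_nonneg_left hB (show 0 ≤ 4 * b by positivity)
    rw [mul_div_cancel₀ _ (by positivity : 4 * b ≠ 0)] at h1
    linarith
  have g5 : b * (pr (bondM d) (uI c hc) m - th (bondM d) (uI c hc)) ≤ ε / 8 := by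
    have h1 : pr (bondM d) (uI c hc) m - th (bondM d) (uI c hc) ≤ ε / 8 / b := by linarith
    have h2 := mul_le_mul_of_nonneg_left h1 hb0.le
    rw [mul_div_cancel₀ _ hb0.ne'] at h2
    exact h2
  have g6 : a * Av (bondM d) (uI c hc) m v ≤ ε / 8 :=
    (mul_le_of_le_one_right ha0.le hA1).trans ha2
  have hbe : (1 + a⁻¹) * (4 * (4 * Bp d p c N + (pr (bondM d) (uI c hc) m - th (bondM d) (uI c hc)) +
        (nu d N 1 + nu d N m))) = b * (4 * Bp d p c N) +
        b * (pr (bondM d) (uI c hc) m - th (bondM d) (uI c hc)) + b * (nu d N 1 + nu d N m) := by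
    rw [hb]; ring
  rw [hbe]
  nlinarith

end

end Pool.Agent.J4.H90.Perc
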