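import Pool.Agent.J4.H90.Perc.Fin3

/-!
Convergence in mean of the functions `(1 - D̂) τ̂_p` as `p ↑ p_c`.
-/

set_option autoImplicit false
set_option linter.deprecated false

open MeasureTheory Set Filter
open scoped Topology

namespace Pool.Agent.J4.H90.Perc

open Pool.Agent.Results.MP_54f242_pr.InfraredMean (opn P tau cube dot Dhat Dhat_le cube_meas cube_fin
  cube_vol cos_mul_Dhat box box_card dot_sub integrable_of_cont int_cos int_cos_mul_cos int_term sh
  meas_reach tau_mono tau_zero)
open Pool.Agent.Y990.CB (Z Bo Bf mem_Bf card_Bf coe_Bf Perc Perc_meas bondM Mod mu G th Perc_shift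
  dep_mono Am_dep Cn Cn_meas Cn_dep graph_congr)
open Pool.Agent.W783.PC (pm DepOn Inc bern)
open Pool.Agent.J4.H67.PC (LU conf meas_conf map_conf conf_mono shift shift_reach cl cf mem_cf meas_cf
  meas_cl meas_fin FF FF_meas FF_empty meas_joint int_FF_le reach_left ps ps_cont ps_eq ps_nonneg
  dens dens_U dens_meas dens_fin tauf tauf_eq fourier cl_mono cl_left cf_congr chg_meas)
open Pool.Agent.Helper401_FP (E ex ex_ed ed Ed exists_ed ex_meas map_restr Perc_dep In_sub_Ed Nu Nu_meas)

noncomputable section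

variable {d : ℕ}

/-- the density of the clusters outside of the infinite cluster -/
def ap (d : ℕ) (p c : ℝ) (k : Fin d → ℝ) : ENNReal :=
  ∫⁻ U, {U : Lab d | (cl (conf c U)).Finite}.indicator (fun U => FF (cf (conf p U)) k) U ∂(LU d)

theorem fin_measU (c : ℝ) : MeasurableSet {U : Lab d | (cl (conf c U)).Finite} :=
  meas_fin.preimage (meas_conf c)

theorem ap_joint (p c : ℝ) : Measurable (fun z : Lab d × (Fin d → ℝ) =>
    {U : Lab d | (cl (conf c U)).Finite}.indicator (fun U => FF (cf (conf p U)) z.2) z.1) := by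
  have h1 := meas_joint (d := d) p
  have h2 : MeasurableSet {z : Lab d × (Fin d → ℝ) | (cl (conf c z.1)).Finite} :=
    measurable_fst (fin_measU c)
  exact h1.indicator h2

theorem ap_meas (p c : ℝ) : Measurable (ap d p c) := by
  unfold ap
  exact (ap_joint (d := d) p c).lintegral_prod_left'

theorem FFU_meas (p : ℝ) (k : Fin d → ℝ) : Measurable fun U : Lab d => FF (cf (conf p U)) k := by
  exact (measurable_of_countable (fun A : Finset (Fin d → ℤ) => FF A k)).comp
    (meas_cf.comp (meas_conf p))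

theorem dens_split (p : NNReal) (hp1 : p ≤ 1) (c : ℝ) (k : Fin d → ℝ) :
    dens d p hp1 k = ap d p c k + hp d p c k := by
  rw [dens_U]
  unfold ap hp
  rw [← lintegral_add_left ((FFU_meas p k).indicator (fin_measU c))]
  refine lintegral_congr fun U => ?_
  by_cases h : (cl (conf c U)).Finite
  · rw [Set.indicator_of_mem (show U ∈ {U : Lab d | (cl (conf c U)).Finite} from h),
      Set.indicator_of_notMem (show U ∉ {U : Lab d | (cl (conf c U)).Infinite} from
        fun h2 => h2 h), add_zero]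
  · rw [Set.indicator_of_notMem (show U ∉ {U : Lab d | (cl (conf c U)).Finite} from h),
      Set.indicator_of_mem (show U ∈ {U : Lab d | (cl (conf c U)).Infinite} from h), zero_add]

theorem hp_crit (c : ℝ) (k : Fin d → ℝ) : hp d c c k = 0 := by
  unfold hp
  rw [← lintegral_zero (μ := LU d)]
  refine lintegral_congr fun U => ?_
  by_cases h : (cl (conf c U)).Infinite
  · rw [Set.indicator_of_mem (show U ∈ {U : Lab d | (cl (conf c U)).Infinite} from h)]
    have h1 : cf (conf c U) = ∅ := by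
      rw [Finset.eq_empty_iff_forall_notMem]
      intro x hx
      exact h ((mem_cf _ _).1 hx).1
    rw [h1, FF_empty]
  · rw [Set.indicator_of_notMem (show U ∉ {U : Lab d | (cl (conf c U)).Infinite} from h)]

/-- the labels at which a finite cluster changes -/
def Bc (p c : ℝ) : Set (Lab d) :=
  {U | (cl (conf c U)).Finite ∧ cl (conf p U) ≠ cl (conf c U)}

theorem Bc_meas (p c : ℝ) : MeasurableSet (Bc (d := d) p c) :=
  (fin_measU c).inter (chg_meas p c)

theorem Bc_anti {p p' c : ℝ} (h : p ≤ p') (h' : p' ≤ c) : Bc (d := d) p' c ⊆ Bc p c := by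
  rintro U ⟨h1, h2⟩
  refine ⟨h1, fun h3 => h2 ?_⟩
  refine Set.Subset.antisymm (cl_mono h' U) ?_
  rw [← h3]
  exact cl_mono h U

theorem Bc_small (c : NNReal) (h0 : 0 < c) (ε : ℝ) (hε : 0 < ε) :
    ∃ p0 : NNReal, p0 < c ∧ ∀ p : NNReal, p0 < p → p < c → (LU d).real (Bc (p : ℝ) c) ≤ ε := by
  obtain ⟨u, hu1, hu2, hu3⟩ := exists_seq_strictMono_tendsto' h0
  have hanti : Antitone fun n : ℕ => Bc (d := d) (u n : ℝ) c := fun a b hab =>
    Bc_anti (by exact_mod_cast hu1.monotone hab) (by exact_mod_cast (hu2 b).2.le)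
  have h1 := tendsto_measure_iInter_atTop (μ := LU d) (s := fun n : ℕ => Bc (u n : ℝ) c)
    (fun n => (Bc_meas (u n : ℝ) c).nullMeasurableSet) hanti ⟨0, measure_ne_top _ _⟩
  have h2 : ⋂ n, Bc (d := d) (u n : ℝ) c = ∅ := by
    rw [Set.eq_empty_iff_forall_notMem]
    intro U hU
    rw [mem_iInter] at hU
    have h3 := cl_left (hU 0).1
    have h4 : Tendsto (fun n => (u n : ℝ)) atTop (𝓝[<] (c : ℝ)) := by
      refine tendsto_nhdsWithin_iff.2 ⟨NNReal.tendsto_coe.2 hu3, Eventually.of_forall fun n => ?_⟩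
      exact_mod_cast (hu2 n).2
    obtain ⟨n, hn⟩ := (h4.eventually h3).exists
    exact (hU n).2 hn
  rw [h2, measure_empty] at h1
  have h4 := (ENNReal.tendsto_toReal ENNReal.zero_ne_top).comp h1
  rw [ENNReal.toReal_zero] at h4
  obtain ⟨n, hn⟩ := (h4.eventually (gt_mem_nhds hε)).exists
  refine ⟨u n, (hu2 n).2, fun p hp hpc => ?_⟩
  refine le_trans (measureReal_mono ?_ (measure_ne_top _ _)) (le_of_lt hn)
  exact Bc_anti (by exact_mod_cast hp.le) (by exact_mod_cast hpc.le)

/-- the error term -/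
def Er (p c : ℝ) (U : Lab d) (k : Fin d → ℝ) : ENNReal :=
  (Bc p c).indicator (fun _ => (1 : ENNReal)) U * (FF (cf (conf p U)) k + FF (cf (conf c U)) k)

theorem Er_meas (p c : ℝ) : Measurable (fun z : Lab d × (Fin d → ℝ) => Er p c z.1 z.2) := by
  unfold Er
  refine Measurable.mul ?_ ((meas_joint p).add (meas_joint c))
  exact (measurable_const.indicator (Bc_meas p c)).comp measurable_fst

theorem ap_Er (p c : ℝ) (U : Lab d) (k : Fin d → ℝ) :
    {U : Lab d | (cl (conf c U)).Finite}.indicator (fun U => FF (cf (conf p U)) k) U ≤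
      {U : Lab d | (cl (conf c U)).Finite}.indicator (fun U => FF (cf (conf c U)) k) U + Er p c U k ∧
    {U : Lab d | (cl (conf c U)).Finite}.indicator (fun U => FF (cf (conf c U)) k) U ≤
      {U : Lab d | (cl (conf c U)).Finite}.indicator (fun U => FF (cf (conf p U)) k) U +
        Er p c U k := by
  by_cases h : (cl (conf c U)).Finite
  · rw [Set.indicator_of_mem (show U ∈ {U : Lab d | (cl (conf c U)).Finite} from h),
      Set.indicator_of_mem (show U ∈ {U : Lab d | (cl (conf c U)).Finite} from h)]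
    unfold Er
    by_cases h2 : U ∈ Bc p c
    · rw [Set.indicator_of_mem h2, one_mul]
      exact ⟨le_trans le_self_add le_add_self, le_trans le_add_self le_add_self⟩
    · have h1 : cl (conf p U) = cl (conf c U) := by
        by_contra hc; exact h2 ⟨h, hc⟩
      rw [Set.indicator_of_notMem h2, zero_mul, add_zero, add_zero, cf_congr h1]
      exact ⟨le_rfl, le_rfl⟩
  · rw [Set.indicator_of_notMem (show U ∉ {U : Lab d | (cl (conf c U)).Finite} from h),
      Set.indicator_of_notMem (show U ∉ {U : Lab d | (cl (conf c U)).Finite} from h)]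
    exact ⟨zero_le, zero_le⟩

theorem int_Er (p c : ℝ) : ∫⁻ k in cube d, ∫⁻ U, Er p c U k ∂(LU d) ≤
    ENNReal.ofReal (2 * (2 * Real.pi) ^ d) * LU d (Bc p c) := by
  have hsw : ∫⁻ k in cube d, ∫⁻ U, Er p c U k ∂(LU d) =
      ∫⁻ U, (∫⁻ k in cube d, Er p c U k) ∂(LU d) := by
    refine lintegral_lintegral_swap (f := fun (k : Fin d → ℝ) (U : Lab d) => Er p c U k) ?_
    exact ((Er_meas (d := d) p c).comp measurable_swap).aemeasurable
  rw [hsw]
  have hm : ∀ (s : ℝ) (U : Lab d), Measurable (FF (cf (conf s U))) := fun s U => FF_meas _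
  have h1 : ∀ U : Lab d, ∫⁻ k in cube d, Er p c U k ≤
      ENNReal.ofReal (2 * (2 * Real.pi) ^ d) * (Bc p c).indicator (fun _ => (1 : ENNReal)) U := by
    intro U
    unfold Er
    have hadd : Measurable fun k => FF (cf (conf p U)) k + FF (cf (conf c U)) k :=
      (hm p U).add (hm c U)
    rw [lintegral_const_mul _ hadd, mul_comm]
    refine mul_le_mul_left ?_ _
    rw [lintegral_add_left (hm p U)]
    refine (add_le_add (int_FF_le _) (int_FF_le _)).trans (le_of_eq ?_)
    rw [← ENNReal.ofReal_add (by positivity) (by positivity)]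
    congr 1; ring
  refine (lintegral_mono h1).trans (le_of_eq ?_)
  rw [lintegral_const_mul _ (measurable_const.indicator (Bc_meas p c)),
    lintegral_indicator (Bc_meas p c)]
  simp

theorem ap_le_dens (p : NNReal) (hp1 : p ≤ 1) (c : ℝ) (k : Fin d → ℝ) :
    ap d p c k ≤ dens d p hp1 k := by
  rw [dens_split p hp1 c k]; exact le_self_add

theorem hp_le_dens (p : NNReal) (hp1 : p ≤ 1) (c : ℝ) (k : Fin d → ℝ) :
    hp d p c k ≤ dens d p hp1 k := by
  rw [dens_split p hp1 c k]; exact le_add_self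

theorem ap_fin (p : NNReal) (hp1 : p ≤ 1) (c : ℝ) :
    ∀ᵐ k ∂(volume.restrict (cube d)), ap d p c k < ⊤ := by
  filter_upwards [dens_fin (d := d) p hp1] with k hk
  exact (ap_le_dens p hp1 c k).trans_lt hk

theorem hp_fin (p : NNReal) (hp1 : p ≤ 1) (c : ℝ) :
    ∀ᵐ k ∂(volume.restrict (cube d)), hp d p c k < ⊤ := by
  filter_upwards [dens_fin (d := d) p hp1] with k hk
  exact (hp_le_dens p hp1 c k).trans_lt hk

theorem ap_int (p : NNReal) (hp1 : p ≤ 1) (c : ℝ) :
    Integrable (fun k => (ap d p c k).toReal) (volume.restrict (cube d)) := by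
  refine (dens_int p hp1).mono' (ap_meas _ _).ennreal_toReal.aestronglyMeasurable ?_
  filter_upwards [dens_fin (d := d) p hp1] with k hk
  rw [Real.norm_eq_abs, abs_of_nonneg ENNReal.toReal_nonneg]
  exact ENNReal.toReal_mono hk.ne (ap_le_dens p hp1 c k)

theorem hp_int (p : NNReal) (hp1 : p ≤ 1) (c : ℝ) :
    Integrable (fun k => (hp d p c k).toReal) (volume.restrict (cube d)) := by
  refine (dens_int p hp1).mono' (hp_meas _ _).ennreal_toReal.aestronglyMeasurable ?_
  filter_upwards [dens_fin (d := d) p hp1] with k hk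
  rw [Real.norm_eq_abs, abs_of_nonneg ENNReal.toReal_nonneg]
  exact ENNReal.toReal_mono hk.ne (hp_le_dens p hp1 c k)

theorem ap_conv (p c : NNReal) (hp1 : p ≤ 1) (hc : c ≤ 1) :
    ∫ k in cube d, |(ap d p c k).toReal - (dens d c hc k).toReal| ≤
      2 * (2 * Real.pi) ^ d * (LU d).real (Bc (p : ℝ) c) := by
  have hfin : ENNReal.ofReal (2 * (2 * Real.pi) ^ d) * LU d (Bc (p : ℝ) c) ≠ ⊤ :=
    ENNReal.mul_ne_top ENNReal.ofReal_ne_top (measure_ne_top _ _)
  have hEm : Measurable fun k : Fin d → ℝ => ∫⁻ U, Er (p : ℝ) c U k ∂(LU d) :=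
    (Er_meas (d := d) p c).lintegral_prod_left'
  have hEfin := ae_lt_top hEm (ne_top_of_le_ne_top hfin (int_Er (d := d) p c))
  have hcc : ∀ k, dens d c hc k = ap d c c k := by
    intro k
    rw [dens_split c hc c k, hp_crit, add_zero]
  have hsm : AEStronglyMeasurable (fun k => |(ap d p c k).toReal - (dens d c hc k).toReal|)
      (volume.restrict (cube d)) := by
    have h1 : Measurable fun k => (ap d p c k).toReal - (dens d c hc k).toReal :=
      (ap_meas _ _).ennreal_toReal.sub (dens_meas _ _).ennreal_toReal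
    exact (continuous_abs.measurable.comp h1).aestronglyMeasurable
  have hR : 2 * (2 * Real.pi) ^ d * (LU d).real (Bc (p : ℝ) c) =
      (ENNReal.ofReal (2 * (2 * Real.pi) ^ d) * LU d (Bc (p : ℝ) c)).toReal := by
    rw [ENNReal.toReal_mul, ENNReal.toReal_ofReal (by positivity)]
    rfl
  rw [hR, integral_eq_lintegral_of_nonneg_ae (Eventually.of_forall fun k => abs_nonneg _) hsm]
  refine ENNReal.toReal_mono hfin (le_trans (lintegral_mono_ae ?_) (int_Er (d := d) p c))
  filter_upwards [hEfin, dens_fin (d := d) c hc, ap_fin (d := d) p hp1 c] with k h1 h2 h3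
  have h4 : ap d p c k ≤ dens d c hc k + ∫⁻ U, Er (p : ℝ) c U k ∂(LU d) := by
    rw [hcc]
    unfold ap
    rw [← lintegral_add_left ((FFU_meas c k).indicator (fin_measU c))]
    exact lintegral_mono fun U => (ap_Er _ _ U k).1
  have h5 : dens d c hc k ≤ ap d p c k + ∫⁻ U, Er (p : ℝ) c U k ∂(LU d) := by
    rw [hcc]
    unfold ap
    rw [← lintegral_add_left ((FFU_meas p k).indicator (fin_measU c))]
    exact lintegral_mono fun U => (ap_Er _ _ U k).2
  have h6 := ENNReal.toReal_mono (ENNReal.add_ne_top.2 ⟨h2.ne, h1.ne⟩) h4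
  have h7 := ENNReal.toReal_mono (ENNReal.add_ne_top.2 ⟨h3.ne, h1.ne⟩) h5
  rw [ENNReal.toReal_add h2.ne h1.ne] at h6
  rw [ENNReal.toReal_add h3.ne h1.ne] at h7
  rw [ENNReal.ofReal_le_iff_le_toReal h1.ne, abs_le]
  constructor <;> linarith

theorem hp_pair_real (p : NNReal) (hp1 : p ≤ 1) (c : ℝ) {v : (Fin d → ℝ) → ℝ} (hv : Mu v) :
    ∫ k in cube d, v k * (hp d p c k).toReal = (2 * Real.pi) ^ d * ∫ U, GI v p c U ∂(LU d) := by
  have h := hp_pair hv (p : ℝ) c
  have hGI0 : 0 ≤ ∫ U, GI v (p : ℝ) c U ∂(LU d) := integral_nonneg fun U =>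
    Set.indicator_nonneg (fun U _ => Gf_nonneg hv _) U
  have hm : Measurable fun k => ENNReal.ofReal (v k) * hp d p c k :=
    hv.meas.ennreal_ofReal.mul (hp_meas _ _)
  have hae : ∀ᵐ k ∂(volume.restrict (cube d)), ENNReal.ofReal (v k) * hp d p c k < ⊤ := by
    filter_upwards [hp_fin (d := d) p hp1 c] with k hk
    exact ENNReal.mul_lt_top ENNReal.ofReal_lt_top hk
  have h2 := integral_toReal hm.aemeasurable hae
  rw [h, ENNReal.toReal_ofReal (by positivity)] at h2
  rw [← h2]
  refine integral_congr_ae (Eventually.of_forall fun k => ?_)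
  show v k * (hp d p c k).toReal = (ENNReal.ofReal (v k) * hp d p c k).toReal
  rw [ENNReal.toReal_mul, ENNReal.toReal_ofReal (hv.nn k)]

/-- the pairing with the multiplier of the infrared bound -/
theorem wt_pair {G : (Fin d → ℝ) → ℝ} (hG : Integrable G (volume.restrict (cube d)))
    (β : (Fin d → ℤ) → ℝ)
    (h : ∀ x, ∫ k in cube d, G k * Real.cos (dot k x) = (2 * Real.pi) ^ d * β x) :
    ∫ k in cube d, wt k * G k = (2 * Real.pi) ^ d * ((β 0 - (1 / (2 * (d : ℝ))) * ∑ i : Fin d,
      (β (0 + Pi.single i 1) + β (0 - Pi.single i 1))) / 2) := by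
  have hi : ∀ x : Fin d → ℤ, Integrable (fun k => G k * Real.cos (dot k x))
      (volume.restrict (cube d)) := fun x =>
    hG.mul_bdd (c := 1) (Real.continuous_cos.comp (dot_cont x)).aestronglyMeasurable
      (Eventually.of_forall fun k => by rw [Real.norm_eq_abs]; exact Real.abs_cos_le_one _)
  have e : ∀ k : Fin d → ℝ, wt k * G k = (G k * Real.cos (dot k 0) - (1 / (2 * (d : ℝ))) *
      ∑ i : Fin d, (G k * Real.cos (dot k (0 + Pi.single i 1)) +
        G k * Real.cos (dot k (0 - Pi.single i 1)))) / 2 := by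
    intro k
    have h1 := cos_mul_Dhat k 0
    have h2 : dot k 0 = 0 := by simp [dot]
    simp_rw [← mul_add]
    rw [← Finset.mul_sum]
    unfold wt
    rw [h2, Real.cos_zero, one_mul] at h1
    rw [h1, h2, Real.cos_zero]
    ring
  simp_rw [e]
  have hadd : ∀ i : Fin d, Integrable (fun k => G k * Real.cos (dot k (0 + Pi.single i 1)) +
      G k * Real.cos (dot k (0 - Pi.single i 1))) (volume.restrict (cube d)) := fun i =>
    (hi _).add (hi _)
  have hs : Integrable (fun k => ∑ i : Fin d, (G k * Real.cos (dot k (0 + Pi.single i 1)) +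
      G k * Real.cos (dot k (0 - Pi.single i 1)))) (volume.restrict (cube d)) :=
    integrable_finset_sum _ fun i _ => hadd i
  rw [integral_div, integral_sub (hi 0) (hs.const_mul _), integral_const_mul,
    integral_finset_sum _ fun i _ => hadd i, h]
  have h3 : ∀ i : Fin d, ∫ k in cube d, (G k * Real.cos (dot k (0 + Pi.single i 1)) +
      G k * Real.cos (dot k (0 - Pi.single i 1))) = (2 * Real.pi) ^ d *
        (β (0 + Pi.single i 1) + β (0 - Pi.single i 1)) := by
    intro i
    rw [integral_add (hi _) (hi _), h, h]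
    ring
  simp_rw [h3]
  rw [← Finset.mul_sum]
  ring

end

end Pool.Agent.J4.H90.Perc
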