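import Pool.Agent.J4.H90.Perc.Fin4

/-!
The limit of the functions `(1 - D̂) τ̂_p` as `p ↑ p_c`.
-/

set_option autoImplicit false
set_option linter.deprecated false

open MeasureTheory Set Filter
open scoped Topology

namespace Pool.Agent.J4.H90.Perc

open Pool.Agent.Results.MP_54f242_pr.InfraredMean (opn P tau cube dot Dhat Dhat_le cube_meas cube_fin
  cube_vol cos_mul_Dhat box box_card dot_sub integrable_of_cont int_cos int_cos_mul_cos int_term sh
  meas_reach tau_mono tau_zero)
open Pool.Agent.Y990.CB (Z Bo Bf mem_Bf card_Bf coe_Bf Perc Perc_meas bondM Mod mu G th Perc_shift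
  dep_mono Am_dep Cn Cn_meas Cn_dep graph_congr)
open Pool.Agent.W783.PC (pm DepOn Inc bern)
open Pool.Agent.J4.H67.PC (LU dens dens_U dens_meas dens_fin tauf tauf_eq fourier)

noncomputable section

variable {d : ℕ}

theorem tauf_mu (p : NNReal) (hp : p ≤ 1) (x : Z d) :
    tauf d p hp x = (mu (bondM d) (uI p hp)).real
        (Cn (bondM d) univ 0 x ∩ (Perc (bondM d) 0)ᶜ) := by
  unfold tauf
  rw [← real_eq p hp ((Cn_meas (bondM d) univ 0 x).inter (Perc_meas (bondM d) 0).compl)]
  · congr 2
    ext η
    show (Pool.Agent.J4.H67.PC.cl η).Finite ∧ (opn η).Reachable 0 x ↔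
      (G (bondM d) (Pool.Agent.Helper401_FP.ex η) univ).Reachable 0 x ∧
        ¬ (Pool.Agent.Y990.CB.cl (bondM d) (Pool.Agent.Helper401_FP.ex η) univ 0).Infinite
    unfold Pool.Agent.Y990.CB.cl
    rw [G_eq, Set.not_infinite]
    exact and_comm
  · intro ω ω' h
    have e1 := (dep_mono (Cn_dep (bondM d) univ 0 x) (Pool.Agent.Helper401_FP.In_sub_Ed _)) ω ω' h
    have e2 := Pool.Agent.Helper401_FP.Perc_dep 0 ω ω' h
    exact and_congr e1 (not_congr e2)

/-- the two-point function and the two-point function of the infinite cluster -/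
theorem tau_split (p : NNReal) (hp : p ≤ 1) (h0 : 0 < p) (x : Z d) :
    tau d p hp x = tauf d p hp x + (mu (bondM d) (uI p hp)).real
      (Perc (bondM d) 0 ∩ Perc (bondM d) x) := by
  have hpI : (0 : unitInterval) < uI p hp := by
    show (0 : ℝ) < (p : ℝ)
    exact_mod_cast h0
  have h2 : tau d p hp x = (mu (bondM d) (uI p hp)).real (Cn (bondM d) univ 0 x) := by
    unfold tau
    rw [tau_mu]
  have h3 := measureReal_inter_add_sdiff (μ := mu (bondM d) (uI p hp))
    (s := Cn (bondM d) univ 0 x) (Perc_meas (bondM d) 0)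
  rw [sdiff_eq] at h3
  rw [tauf_mu, perc_inter (bondM d) (uI p hp) hpI x, h2, ← h3]
  ring

/-- **The limit of the functions `(1 - D̂) τ̂_p` in mean.** -/
theorem wconv (hd : 1 ≤ d) : ∃ g : (Fin d → ℝ) → ℝ, Measurable g ∧
    Integrable g (volume.restrict (cube d)) ∧
    (∀ k, (dens d (pcrit d) pcrit_le k).toReal ≤ g k) ∧
    (∀ x : Fin d → ℤ, ∫ k in cube d, g k * Real.cos (dot k x) =
      (2 * Real.pi) ^ d * (tau d (pcrit d) pcrit_le x - theta d (pcrit d) pcrit_le ^ 2)) ∧
    ∀ ε : ℝ, 0 < ε → ∃ p0 : NNReal, p0 < pcrit d ∧ ∀ (p : NNReal) (hp : p ≤ 1), p0 < p →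
      p < pcrit d → ∫ k in cube d, (1 - Dhat k) * |(dens d p hp k).toReal - g k| ≤ ε := by
  have hc := pcrit_le (d := d)
  have h0 := pcrit_pos (d := d)
  obtain ⟨gi, hgm, hg0, hgi, hlim, hgc⟩ := spec_inf2 (bondM d) (uI (pcrit d) hc)
  set g : (Fin d → ℝ) → ℝ := fun k => (dens d (pcrit d) hc k).toReal + gi k with hg
  have hgI : Integrable g (volume.restrict (cube d)) := (dens_int _ _).add hgi
  have hcoef : ∀ x : Fin d → ℤ, ∫ k in cube d, g k * Real.cos (dot k x) =
      (2 * Real.pi) ^ d * (tau d (pcrit d) hc x - theta d (pcrit d) hc ^ 2) := by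
    intro x
    have hcc : AEStronglyMeasurable (fun k : Fin d → ℝ => Real.cos (dot k x))
        (volume.restrict (cube d)) :=
      (Real.continuous_cos.comp (dot_cont x)).aestronglyMeasurable
    have hb : ∀ k : Fin d → ℝ, ‖Real.cos (dot k x)‖ ≤ 1 := fun k => by
      rw [Real.norm_eq_abs]; exact Real.abs_cos_le_one _
    have i1 : Integrable (fun k => (dens d (pcrit d) hc k).toReal * Real.cos (dot k x))
        (volume.restrict (cube d)) := (dens_int _ _).mul_bdd (c := 1) hcc (Eventually.of_forall hb)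
    have i2 : Integrable (fun k => gi k * Real.cos (dot k x)) (volume.restrict (cube d)) :=
      hgi.mul_bdd (c := 1) hcc (Eventually.of_forall hb)
    simp only [hg, add_mul]
    rw [integral_add i1 i2, Pool.Agent.J4.H67.PC.fourier, hgc x, ← theta_mu, tau_split _ hc h0]
    ring
  refine ⟨g, (dens_meas _ _).ennreal_toReal.add hgm, hgI,
    fun k => le_add_of_nonneg_right (hg0 k), hcoef, fun ε hε => ?_⟩
  set Q : ℝ := (2 * Real.pi) ^ d with hQ
  have hQ0 : 0 < Q := two_pi_pos
  obtain ⟨p1, hp1, hp1'⟩ := unif hd (pcrit d) hc h0 hgi hlim (ε / (8 * Q)) (by positivity)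
  obtain ⟨p2, hp2, hp2'⟩ := Bc_small (d := d) (pcrit d) h0 (ε / (16 * Q)) (by positivity)
  refine ⟨max p1 p2, max_lt hp1 hp2, fun p hp hlt hltc => ?_⟩
  have hu := hp1' p ((le_max_left _ _).trans_lt hlt) hltc
  have hB := hp2' p ((le_max_right _ _).trans_lt hlt) hltc
  set F : (Fin d → ℝ) → ℝ := fun k => (dens d p hp k).toReal with hF
  set A : (Fin d → ℝ) → ℝ := fun k => (ap d p (pcrit d) k).toReal with hA
  set C : (Fin d → ℝ) → ℝ := fun k => (dens d (pcrit d) hc k).toReal with hC
  set H : (Fin d → ℝ) → ℝ := fun k => (Pool.Agent.J4.H90.Perc.hp d p (pcrit d) k).toReal with hH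
  have iF : Integrable F (volume.restrict (cube d)) := dens_int p hp
  have iA : Integrable A (volume.restrict (cube d)) := ap_int p hp _
  have iC : Integrable C (volume.restrict (cube d)) := dens_int _ _
  have iH : Integrable H (volume.restrict (cube d)) := hp_int p hp _
  have hFAH : ∀ᵐ k ∂(volume.restrict (cube d)), F k = A k + H k := by
    filter_upwards [ap_fin (d := d) p hp (pcrit d), hp_fin (d := d) p hp (pcrit d)] with k h1 h2
    simp only [hF, hA, hH]
    rw [dens_split p hp (pcrit d) k, ENNReal.toReal_add h1.ne h2.ne]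
  -- the part outside of the infinite cluster
  have hAC : ∫ k in cube d, |A k - C k| ≤ ε / 8 := by
    refine (ap_conv p (pcrit d) hp hc).trans ?_
    have h1 := mul_le_mul_of_nonneg_left hB (show 0 ≤ 2 * Q by positivity)
    refine h1.trans (le_of_eq ?_)
    field_simp
    ring
  have iAC : Integrable (fun k => |A k - C k|) (volume.restrict (cube d)) := (iA.sub iC).abs
  -- the positive part
  set S : Set (Fin d → ℝ) := {k | gi k < H k} with hS
  have hSm : MeasurableSet S := measurableSet_lt hgm (hp_meas _ _).ennreal_toReal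
  have hvS := ind_Mu (d := d) wt_Mu hSm
  have hpos : ∫ k in cube d, (S.indicator wt k) * (H k - gi k) ≤ ε / 8 := by
    have h1 := hu (S.indicator wt) hvS (fun k => Set.indicator_le_self' (fun k _ => wt_Mu.nn k) k)
    have h2 := hp_pair_real p hp (pcrit d) hvS
    have h3 : ∫ k in cube d, (S.indicator wt k) * (H k - gi k) =
        (∫ k in cube d, (S.indicator wt k) * H k) - ∫ k in cube d, (S.indicator wt k) * gi k := by
      rw [← integral_sub (hvS.int iH) (hvS.int hgi)]
      refine integral_congr_ae (Eventually.of_forall fun k => ?_)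
      show S.indicator wt k * (H k - gi k) = S.indicator wt k * H k - S.indicator wt k * gi k
      ring
    rw [h3]
    have h4 : ∫ k in cube d, (S.indicator wt k) * H k = Q * ∫ U, GI (S.indicator wt) p (pcrit d) U
      ∂(LU d) := h2
    rw [h4]
    have h5 := mul_le_mul_of_nonneg_left h1 hQ0.le
    have h6 : Q * ((∫ k in cube d, S.indicator wt k * gi k) / Q + ε / (8 * Q)) =
        (∫ k in cube d, S.indicator wt k * gi k) + ε / 8 := by field_simp
    rw [h6] at h5
    linarith
  -- the total mass
  have hmass : 0 ≤ ∫ k in cube d, wt k * (F k - g k) := by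
    have h1 := wt_pair iF (fun x => tau d p hp x) (fun x => by
      have := Pool.Agent.J4.H67.PC.fourier p hp x
      rw [tauf_eq p hp (fin_of_lt p hp hltc)] at this
      exact this)
    have h2 := wt_pair hgI (fun x => tau d (pcrit d) hc x - theta d (pcrit d) hc ^ 2) hcoef
    have h3 : ∫ k in cube d, wt k * (F k - g k) =
        (∫ k in cube d, wt k * F k) - ∫ k in cube d, wt k * g k := by
      rw [← integral_sub (wt_Mu.int iF) (wt_Mu.int hgI)]
      refine integral_congr_ae (Eventually.of_forall fun k => ?_)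
      show wt k * (F k - g k) = wt k * F k - wt k * g k
      ring
    rw [h3, h1, h2, ← mul_sub]
    refine mul_nonneg hQ0.le ?_
    simp only [tau_zero]
    have h4 : ∑ i : Fin d, (tau d p hp (0 + Pi.single i 1) + tau d p hp (0 - Pi.single i 1)) ≤
        ∑ i : Fin d, (tau d (pcrit d) hc (0 + Pi.single i 1) +
          tau d (pcrit d) hc (0 - Pi.single i 1)) := by
      refine Finset.sum_le_sum fun i _ => ?_
      exact add_le_add (tau_mono _ _ hp hc hltc.le _) (tau_mono _ _ hp hc hltc.le _)
    have h5 : ∑ i : Fin d, (tau d (pcrit d) hc (0 + Pi.single i 1) - theta d (pcrit d) hc ^ 2 +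
        (tau d (pcrit d) hc (0 - Pi.single i 1) - theta d (pcrit d) hc ^ 2)) =
        ∑ i : Fin d, (tau d (pcrit d) hc (0 + Pi.single i 1) +
          tau d (pcrit d) hc (0 - Pi.single i 1)) - 2 * d * theta d (pcrit d) hc ^ 2 := by
      rw [← Finset.sum_congr rfl (fun i _ => (by ring :
        tau d (pcrit d) hc (0 + Pi.single i 1) + tau d (pcrit d) hc (0 - Pi.single i 1) -
          2 * theta d (pcrit d) hc ^ 2 = _)), Finset.sum_sub_distrib, Finset.sum_const,
        Finset.card_univ, Fintype.card_fin, nsmul_eq_mul]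
      ring
    rw [h5]
    have hd0 : (0 : ℝ) < d := by exact_mod_cast hd
    have h6 : (1 / (2 * (d : ℝ))) * (2 * d * theta d (pcrit d) hc ^ 2) =
        theta d (pcrit d) hc ^ 2 := by field_simp
    rw [mul_sub (1 / (2 * (d : ℝ))), h6]
    have h7 := mul_le_mul_of_nonneg_left h4 (show 0 ≤ 1 / (2 * (d : ℝ)) by positivity)
    linarith
  -- the combination
  have iwF : Integrable (fun k => wt k * |F k - g k|) (volume.restrict (cube d)) :=
    wt_Mu.int (iF.sub hgI).abs
  have hD : ∀ k, (1 - Dhat k) * |F k - g k| = 2 * (wt k * |F k - g k|) := by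
    intro k; unfold wt; ring
  show ∫ k in cube d, (1 - Dhat k) * |F k - g k| ≤ ε
  simp_rw [hD]
  rw [integral_const_mul]
  have hcomb : ∀ᵐ k ∂(volume.restrict (cube d)), wt k * |F k - g k| ≤
      2 * |A k - C k| + 2 * ((S.indicator wt k) * (H k - gi k)) - wt k * (F k - g k) := by
    filter_upwards [hFAH] with k hk
    have hw0 := (wt_Mu (d := d)).nn k
    have hw1 := (wt_Mu (d := d)).le k
    have hgk : g k = C k + gi k := rfl
    have e1 : F k - g k = (A k - C k) + (H k - gi k) := by rw [hk, hgk]; ring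
    have e2 : wt k * |H k - gi k| = 2 * ((S.indicator wt k) * (H k - gi k)) - wt k * (H k - gi k) := by
      by_cases h : k ∈ S
      · rw [Set.indicator_of_mem h, abs_of_pos (sub_pos.2 h)]; ring
      · rw [Set.indicator_of_notMem h]
        have h' : H k ≤ gi k := not_lt.1 h
        rw [abs_of_nonpos (sub_nonpos.2 h')]; ring
    have e3 : wt k * |F k - g k| ≤ wt k * |A k - C k| + wt k * |H k - gi k| := by
      rw [e1, ← mul_add]
      exact mul_le_mul_of_nonneg_left (abs_add_le _ _) hw0
    have e4 : wt k * |A k - C k| ≤ |A k - C k| := mul_le_of_le_one_left (abs_nonneg _) hw1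
    have e5 : wt k * (A k - C k) ≤ |A k - C k| := by
      refine (le_abs_self _).trans ?_
      rw [abs_mul, abs_of_nonneg hw0]
      exact e4
    have e6 : wt k * (H k - gi k) = wt k * (F k - g k) - wt k * (A k - C k) := by rw [e1]; ring
    linarith
  have i1 : Integrable (fun k => 2 * |A k - C k|) (volume.restrict (cube d)) := iAC.const_mul 2
  have i2 : Integrable (fun k => 2 * ((S.indicator wt k) * (H k - gi k)))
      (volume.restrict (cube d)) := (hvS.int (iH.sub hgi)).const_mul 2
  have i3 : Integrable (fun k => wt k * (F k - g k)) (volume.restrict (cube d)) :=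
    wt_Mu.int (iF.sub hgI)
  have i12 : Integrable (fun k => 2 * |A k - C k| + 2 * ((S.indicator wt k) * (H k - gi k)))
      (volume.restrict (cube d)) := i1.add i2
  have hfin : ∫ k in cube d, wt k * |F k - g k| ≤ ∫ k in cube d,
      (2 * |A k - C k| + 2 * ((S.indicator wt k) * (H k - gi k)) - wt k * (F k - g k)) :=
    integral_mono_ae iwF (i12.sub i3) hcomb
  rw [integral_sub i12 i3, integral_add i1 i2, integral_const_mul, integral_const_mul] at hfin
  linarith

end

end Pool.Agent.J4.H90.Perc
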