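import Pool.Agent.W783.Perc.Defs

/-!
Functions of finitely many independent bits: independence, exponential moments, and the decoupling of
bilinear forms in blocks.
-/

set_option autoImplicit false
set_option linter.deprecated false

open MeasureTheory Set Filter ProbabilityTheory
open scoped Topology

namespace Pool.Agent.J4.H90.Perc

open Pool.Agent.W783.PC (pm DepOn Inc bern)

noncomputable section

variable {ι : Type}

/-- the function depends only on the bits in `A` -/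
def FD (F : (ι → Bool) → ℝ) (A : Finset ι) : Prop :=
  ∀ ω ω' : ι → Bool, (∀ c ∈ A, ω c = ω' c) → F ω = F ω'

/-- the restriction to a finite set of bits -/
def rs (A : Finset ι) (ω : ι → Bool) : A → Bool := fun c => ω c

open Classical in
/-- an extension of a finite set of bits -/
def xt (A : Finset ι) (τ : A → Bool) : ι → Bool := fun c => if h : c ∈ A then τ ⟨c, h⟩ else false

theorem xt_rs (A : Finset ι) (ω : ι → Bool) : ∀ c ∈ A, xt A (rs A ω) c = ω c := by
  intro c hc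
  unfold xt rs
  rw [dif_pos hc]

theorem rs_meas (A : Finset ι) : Measurable (rs A) :=
  measurable_pi_iff.2 fun c => measurable_pi_apply (c : ι)

theorem FD.eq {F : (ι → Bool) → ℝ} {A : Finset ι} (h : FD F A) (ω : ι → Bool) :
    F ω = F (xt A (rs A ω)) := (h _ _ (xt_rs A ω)).symm

theorem FD.meas {F : (ι → Bool) → ℝ} {A : Finset ι} (h : FD F A) : Measurable F := by
  have e : F = (fun τ : A → Bool => F (xt A τ)) ∘ rs A := funext fun ω => h.eq ω
  rw [e]
  exact (measurable_of_countable _).comp (rs_meas A)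

variable (r : ι → unitInterval)

theorem FD.int {F : (ι → Bool) → ℝ} {A : Finset ι} (h : FD F A) (μ : Measure (ι → Bool))
    [IsFiniteMeasure μ] : Integrable F μ := by
  have e : F = (fun τ : A → Bool => F (xt A τ)) ∘ rs A := funext fun ω => h.eq ω
  rw [e]
  have h1 : Integrable (fun τ : A → Bool => F (xt A τ)) (μ.map (rs A)) := Integrable.of_finite
  exact h1.comp_measurable (rs_meas A)

theorem FD.mono {F : (ι → Bool) → ℝ} {A B : Finset ι} (h : FD F A) (hAB : A ⊆ B) : FD F B :=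
  fun ω ω' hω => h ω ω' fun c hc => hω c (hAB hc)

theorem indep_rs {A B : Finset ι} (hAB : Disjoint A B) : IndepFun (rs A) (rs B) (pm r) := by
  have h1 : iIndepFun (fun (i : ι) (ω : ι → Bool) => ω i) (pm r) :=
    iIndepFun_infinitePi (P := fun c => bern (r c)) (X := fun _ b => b) (fun _ => measurable_id)
  exact h1.indepFun_finset A B hAB (fun i => measurable_pi_apply i)

/-- decoupling of independent sets of bits -/
theorem dec {A B : Finset ι} (hAB : Disjoint A B) (Φ : (ι → Bool) → (ι → Bool) → ℝ)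
    (h1 : ∀ ω', FD (fun ω => Φ ω ω') A) (h2 : ∀ ω, FD (fun ω' => Φ ω ω') B) :
    ∫ ω, Φ ω ω ∂(pm r) = ∫ ω', ∫ ω, Φ ω ω' ∂(pm r) ∂(pm r) := by
  set Ψ : (A → Bool) × (B → Bool) → ℝ := fun q => Φ (xt A q.1) (xt B q.2) with hΨ
  have e : ∀ ω ω', Φ ω ω' = Ψ (rs A ω, rs B ω') := by
    intro ω ω'
    rw [(h1 ω').eq ω]
    show Φ (xt A (rs A ω)) ω' = Φ (xt A (rs A ω)) (xt B (rs B ω'))
    exact (h2 (xt A (rs A ω))).eq ω'
  have hm : AEMeasurable (fun ω => (rs A ω, rs B ω)) (pm r) :=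
    ((rs_meas A).prodMk (rs_meas B)).aemeasurable
  have hind := (indep_rs r hAB).map_prod_eq_prod_map_map (rs_meas A).aemeasurable
    (rs_meas B).aemeasurable
  have hPA : IsProbabilityMeasure ((pm r).map (rs A)) :=
    Measure.isProbabilityMeasure_map (rs_meas A).aemeasurable
  have hPB : IsProbabilityMeasure ((pm r).map (rs B)) :=
    Measure.isProbabilityMeasure_map (rs_meas B).aemeasurable
  have hsm : ∀ (α : Type) [Finite α] [MeasurableSpace α] [MeasurableSingletonClass α]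
      (f : α → ℝ) (ν : Measure α), AEStronglyMeasurable f ν := fun α _ _ _ f ν =>
    (measurable_of_countable f).aestronglyMeasurable
  calc ∫ ω, Φ ω ω ∂(pm r) = ∫ ω, Ψ (rs A ω, rs B ω) ∂(pm r) := by simp_rw [e]
    _ = ∫ q, Ψ q ∂((pm r).map (fun ω => (rs A ω, rs B ω))) :=
        (integral_map hm (hsm _ Ψ _)).symm
    _ = ∫ q, Ψ q ∂(((pm r).map (rs A)).prod ((pm r).map (rs B))) := by rw [hind]
    _ = ∫ b, ∫ a, Ψ (a, b) ∂((pm r).map (rs A)) ∂((pm r).map (rs B)) :=
        integral_prod_symm _ Integrable.of_finite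
    _ = ∫ ω', ∫ a, Ψ (a, rs B ω') ∂((pm r).map (rs A)) ∂(pm r) :=
        integral_map (rs_meas B).aemeasurable (hsm _ _ _)
    _ = ∫ ω', ∫ ω, Φ ω ω' ∂(pm r) ∂(pm r) := by
        refine integral_congr_ae (Eventually.of_forall fun ω' => ?_)
        show ∫ a, Ψ (a, rs B ω') ∂((pm r).map (rs A)) = ∫ ω, Φ ω ω' ∂(pm r)
        rw [integral_map (rs_meas A).aemeasurable (hsm _ _ _)]
        simp_rw [e]

theorem dec_le {A B : Finset ι} (hAB : Disjoint A B) (Φ : (ι → Bool) → (ι → Bool) → ℝ)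
    (h1 : ∀ ω', FD (fun ω => Φ ω ω') A) (h2 : ∀ ω, FD (fun ω' => Φ ω ω') B) {C : ℝ} (hC : 0 ≤ C)
    (h : ∀ ω', ∫ ω, Φ ω ω' ∂(pm r) ≤ C) : ∫ ω, Φ ω ω ∂(pm r) ≤ C := by
  rw [dec r hAB Φ h1 h2]
  by_cases hi : Integrable (fun ω' => ∫ ω, Φ ω ω' ∂(pm r)) (pm r)
  · calc _ ≤ ∫ _ω', C ∂(pm r) := integral_mono hi (integrable_const _) h
      _ = C := by simp
  · rw [integral_undef hi]; exact hC

theorem mul_int {A B : Finset ι} (hAB : Disjoint A B) {F G : (ι → Bool) → ℝ} (hF : FD F A)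
    (hG : FD G B) : ∫ ω, F ω * G ω ∂(pm r) = (∫ ω, F ω ∂(pm r)) * ∫ ω, G ω ∂(pm r) := by
  rw [dec r hAB (fun ω ω' => F ω * G ω')
    (fun ω' a b hab => by show F a * G ω' = F b * G ω'; rw [hF a b hab])
    (fun ω a b hab => by show F ω * G a = F ω * G b; rw [hG a b hab])]
  simp_rw [integral_mul_const]
  rw [integral_const_mul]

open Classical in
theorem prod_int {α : Type} (s : Finset α) (F : α → (ι → Bool) → ℝ) (A : α → Finset ι)
    (hF : ∀ x ∈ s, FD (F x) (A x)) (hA : ∀ x ∈ s, ∀ y ∈ s, x ≠ y → Disjoint (A x) (A y)) :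
    FD (fun ω => ∏ x ∈ s, F x ω) (s.biUnion A) ∧
      ∫ ω, ∏ x ∈ s, F x ω ∂(pm r) = ∏ x ∈ s, ∫ ω, F x ω ∂(pm r) := by
  induction s using Finset.induction_on with
  | empty =>
    refine ⟨fun ω ω' _ => by simp, by simp⟩
  | insert a s ha ih =>
    obtain ⟨ih1, ih2⟩ := ih (fun x hx => hF x (Finset.mem_insert_of_mem hx))
      (fun x hx y hy => hA x (Finset.mem_insert_of_mem hx) y (Finset.mem_insert_of_mem hy))
    have h1 := hF a (Finset.mem_insert_self a s)
    have hdis : Disjoint (A a) (s.biUnion A) := by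
      rw [Finset.disjoint_biUnion_right]
      intro y hy
      exact hA a (Finset.mem_insert_self a s) y (Finset.mem_insert_of_mem hy)
        (fun h => ha (h ▸ hy))
    constructor
    · intro ω ω' h
      show ∏ x ∈ insert a s, F x ω = ∏ x ∈ insert a s, F x ω'
      rw [Finset.prod_insert ha, Finset.prod_insert ha]
      rw [Finset.biUnion_insert] at h
      rw [h1 ω ω' fun c hc => h c (Finset.mem_union_left _ hc)]
      congr 1
      exact ih1 ω ω' fun c hc => h c (Finset.mem_union_right _ hc)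
    · simp_rw [Finset.prod_insert ha]
      rw [mul_int r hdis h1 ih1, ih2]

/-- the inequality of Hoeffding for one variable -/
theorem hoeff {F : (ι → Bool) → ℝ} {A : Finset ι} (hF : FD F A) (hb : ∀ ω, |F ω| ≤ 1)
    (h0 : ∫ ω, F ω ∂(pm r) = 0) (t : ℝ) :
    ∫ ω, Real.exp (t * F ω) ∂(pm r) ≤ Real.exp (t ^ 2 / 2) := by
  have h := hasSubgaussianMGF_of_mem_Icc_of_integral_eq_zero (μ := pm r) (X := F) (a := -1) (b := 1)
    hF.meas.aemeasurable (Eventually.of_forall fun ω => ⟨(abs_le.1 (hb ω)).1, (abs_le.1 (hb ω)).2⟩) h0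
  have h1 := h.mgf_le t
  unfold mgf at h1
  refine h1.trans (le_of_eq ?_)
  congr 1
  have : ((‖(1 : ℝ) - (-1)‖₊ / 2 : NNReal) : ℝ) = 1 := by
    rw [NNReal.coe_div, coe_nnnorm, Real.norm_eq_abs]
    norm_num
  push_cast at this ⊢
  rw [this]
  ring

/-- the inequality of Jensen for the exponential and a finite mean -/
theorem exp_avg {γ : Type} (C : Finset γ) (hC : C.Nonempty) (y : γ → ℝ) :
    Real.exp ((∑ c ∈ C, y c) / C.card) ≤ (∑ c ∈ C, Real.exp (y c)) / C.card := by
  have hc : (0 : ℝ) < C.card := by exact_mod_cast hC.card_pos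
  have h := convexOn_exp.map_sum_le (t := C) (w := fun _ => (1 : ℝ) / C.card) (p := y)
    (fun _ _ => by positivity) (by
      rw [Finset.sum_const, nsmul_eq_mul]; field_simp) (fun _ _ => Set.mem_univ _)
  simp only [smul_eq_mul] at h
  rw [← Finset.mul_sum, ← Finset.mul_sum] at h
  rw [div_eq_mul_one_div, mul_comm, div_eq_mul_one_div (∑ c ∈ C, Real.exp (y c)), mul_comm (∑ c ∈ C, _)]
  exact h

open Classical in
/-- the exponential moments of the linear forms -/
theorem sg {α γ : Type} (S : Finset α) (C : Finset γ) (cls : α → γ) (hcls : ∀ x ∈ S, cls x ∈ C)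
    (hC : C.Nonempty) (F : α → (ι → Bool) → ℝ) (A : α → Finset ι) (hF : ∀ x ∈ S, FD (F x) (A x))
    (hA : ∀ x ∈ S, ∀ y ∈ S, x ≠ y → cls x = cls y → Disjoint (A x) (A y))
    (hb : ∀ x ω, |F x ω| ≤ 1) (h0 : ∀ x ∈ S, ∫ ω, F x ω ∂(pm r) = 0) (a : α → ℝ) :
    ∫ ω, Real.exp (∑ x ∈ S, a x * F x ω) ∂(pm r) ≤
      Real.exp ((C.card : ℝ) ^ 2 / 2 * ∑ x ∈ S, a x ^ 2) := by
  set κ : ℝ := (C.card : ℝ) with hκ
  have hκ0 : 0 < κ := by rw [hκ]; exact_mod_cast hC.card_pos
  have h1 : ∀ ω, Real.exp (∑ x ∈ S, a x * F x ω) ≤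
      (∑ c ∈ C, Real.exp (∑ x ∈ S.filter (fun x => cls x = c), κ * a x * F x ω)) / κ := by
    intro ω
    have h2 := exp_avg C hC (fun c => ∑ x ∈ S.filter (fun x => cls x = c), κ * a x * F x ω)
    refine le_trans (le_of_eq ?_) h2
    congr 1
    rw [Finset.sum_fiberwise_of_maps_to hcls (fun x => κ * a x * F x ω), eq_div_iff hκ0.ne']
    rw [Finset.sum_mul]
    exact Finset.sum_congr rfl fun x _ => by ring
  have hprod : ∀ c ∈ C, FD (fun ω => Real.exp (∑ x ∈ S.filter (fun x => cls x = c), κ * a x * F x ω))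
      ((S.filter (fun x => cls x = c)).biUnion A) ∧
      ∫ ω, Real.exp (∑ x ∈ S.filter (fun x => cls x = c), κ * a x * F x ω) ∂(pm r) ≤
        Real.exp (κ ^ 2 / 2 * ∑ x ∈ S, a x ^ 2) := by
    intro c _
    obtain ⟨p1, p2⟩ := prod_int r (S.filter (fun x => cls x = c))
      (fun x ω => Real.exp (κ * a x * F x ω)) A
      (fun x hx ω ω' h => by
        show Real.exp (κ * a x * F x ω) = Real.exp (κ * a x * F x ω')
        rw [hF x (Finset.mem_filter.1 hx).1 ω ω' h])
      (fun x hx y hy hne => hA x (Finset.mem_filter.1 hx).1 y (Finset.mem_filter.1 hy).1 hne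
        ((Finset.mem_filter.1 hx).2.trans (Finset.mem_filter.1 hy).2.symm))
    have e : ∀ ω, Real.exp (∑ x ∈ S.filter (fun x => cls x = c), κ * a x * F x ω) =
        ∏ x ∈ S.filter (fun x => cls x = c), Real.exp (κ * a x * F x ω) := fun ω =>
      Real.exp_sum _ _
    simp_rw [e]
    refine ⟨p1, ?_⟩
    rw [p2]
    calc ∏ x ∈ S.filter (fun x => cls x = c), ∫ ω, Real.exp (κ * a x * F x ω) ∂(pm r)
        ≤ ∏ x ∈ S.filter (fun x => cls x = c), Real.exp ((κ * a x) ^ 2 / 2) := by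
          refine Finset.prod_le_prod (fun x _ => integral_nonneg fun ω => (Real.exp_pos _).le)
            fun x hx => ?_
          exact hoeff r (hF x (Finset.mem_filter.1 hx).1) (hb x) (h0 x (Finset.mem_filter.1 hx).1) _
      _ = Real.exp (∑ x ∈ S.filter (fun x => cls x = c), (κ * a x) ^ 2 / 2) :=
          (Real.exp_sum _ _).symm
      _ ≤ Real.exp (κ ^ 2 / 2 * ∑ x ∈ S, a x ^ 2) := by
          refine Real.exp_le_exp.2 ?_
          rw [Finset.mul_sum]
          refine (Finset.sum_le_sum_of_subset_of_nonneg (Finset.filter_subset _ _)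
            (fun x _ _ => by positivity)).trans (le_of_eq ?_)
          exact Finset.sum_congr rfl fun x _ => by ring
  have hFD : FD (fun ω => Real.exp (∑ x ∈ S, a x * F x ω)) (S.biUnion A) := by
    intro ω ω' h
    show Real.exp (∑ x ∈ S, a x * F x ω) = Real.exp (∑ x ∈ S, a x * F x ω')
    congr 1
    refine Finset.sum_congr rfl fun x hx => ?_
    rw [hF x hx ω ω' fun c hc => h c (Finset.mem_biUnion.2 ⟨x, hx, hc⟩)]
  have hint : ∀ c ∈ C, Integrable
      (fun ω => Real.exp (∑ x ∈ S.filter (fun x => cls x = c), κ * a x * F x ω)) (pm r) :=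
    fun c hc => (hprod c hc).1.int (pm r)
  calc ∫ ω, Real.exp (∑ x ∈ S, a x * F x ω) ∂(pm r)
      ≤ ∫ ω, (∑ c ∈ C, Real.exp (∑ x ∈ S.filter (fun x => cls x = c), κ * a x * F x ω)) / κ
          ∂(pm r) := integral_mono (hFD.int (pm r)) ((integrable_finset_sum _ hint).div_const _) h1
    _ = (∑ c ∈ C, ∫ ω, Real.exp (∑ x ∈ S.filter (fun x => cls x = c), κ * a x * F x ω)
          ∂(pm r)) / κ := by rw [integral_div, integral_finset_sum _ hint]
    _ ≤ (∑ c ∈ C, Real.exp (κ ^ 2 / 2 * ∑ x ∈ S, a x ^ 2)) / κ :=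
        div_le_div_of_nonneg_right (Finset.sum_le_sum fun c hc => (hprod c hc).2) hκ0.le
    _ = Real.exp (κ ^ 2 / 2 * ∑ x ∈ S, a x ^ 2) := by
        rw [Finset.sum_const, nsmul_eq_mul, ← hκ]
        field_simp

end

end Pool.Agent.J4.H90.Perc
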