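import Pool.Agent.J4.H90.Perc.Tr

/-!
The inequality between the one-arm probability and the two-point function, monotonicity and left
continuity in the parameter.
-/

set_option autoImplicit false
set_option linter.deprecated false

open MeasureTheory Set Filter
open scoped Topology

namespace Pool.Agent.J4.H90.Perc

open Pool.Agent.Results.MP_54f242_pr.InfraredMean (opn P tau)
open Pool.Agent.J4.H67.PC (LU conf)
open Pool.Agent.Y990.CB
open Pool.Agent.W783.PC (pm DepOn Inc bern)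
open Pool.Agent.Helper401_FP (E ex ex_ed ed Ed exists_ed)

noncomputable section

variable {d : ℕ}

lemma arm_ge (M : Mod d) (p : unitInterval) {k L : ℕ} {x : Z d} (hkL : k ≤ L)
    (hx : x ∈ Bo (0 : Z d) k) :
    (mu M p).real {ω | Am M ω 0 (L + k) 0} ≤ (mu M p).real {ω | Am M ω 0 L x} := by
  have h := Am_shift M p 0 x 0 (L + k)
  rw [← h]
  refine measureReal_mono ?_ (measure_ne_top _ _)
  rintro ω ⟨x', ⟨hx', i, hi⟩, hr⟩
  simp only [zero_add] at hx' hi hr
  refine exit_Am (Bo_mono 0 hkL hx) ?_ hr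
  have hxi : |x i| ≤ k := by simpa using hx i
  have h2 : (L : ℤ) ≤ |x' i| := by
    have h3 : |x' i - x i| ≤ |x' i| + |x i| := abs_sub _ _
    rw [hi] at h3
    push_cast at h3
    omega
  by_cases hb : x' ∈ Bo (0 : Z d) L
  · right
    refine ⟨hb, i, le_antisymm (hb i) ?_⟩
    simpa using h2
  · exact Or.inl hb

/-- two arms of the same cluster, or two crossing clusters -/
theorem arm_two (M : Mod d) (p : unitInterval) {k L : ℕ} {x y : Z d} (hkL : k ≤ L)
    (hx : x ∈ Bo (0 : Z d) k) (hy : y ∈ Bo (0 : Z d) k) :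
    (mu M p).real {ω | Am M ω 0 (L + k) 0} ^ 2 ≤
      (mu M p).real (Ta M 0 k L) + (mu M p).real (Cn M univ x y) := by
  obtain ⟨F, hF⟩ := Pool.Agent.Y809.CB.In_finset M L
  have h := Pool.Agent.W333.PC.s_harris M.ι (fun _ => p) F {ω | Am M ω 0 L x} {ω | Am M ω 0 L y}
    (by rw [hF]; exact Am_dep M 0 L x) (by rw [hF]; exact Am_dep M 0 L y)
    (Am_inc M 0 L x) (Am_inc M 0 L y)
  have h1 : {ω : M.ι → Bool | Am M ω 0 L x} ∩ {ω | Am M ω 0 L y} ⊆
      Ta M 0 k L ∪ Cn M univ x y := by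
    rintro ω ⟨ha, hb⟩
    by_cases hc : (G M ω (Bo 0 L)).Reachable x y
    · exact Or.inr (reach_mono (subset_univ _) hc)
    · exact Or.inl ⟨x, hx, y, hy, ha, hb, hc⟩
  have h2 : (mu M p).real ({ω : M.ι → Bool | Am M ω 0 L x} ∩ {ω | Am M ω 0 L y}) ≤
      (mu M p).real (Ta M 0 k L) + (mu M p).real (Cn M univ x y) :=
    (measureReal_mono h1 (measure_ne_top _ _)).trans (measureReal_union_le _ _)
  have h3 := arm_ge M p hkL hx
  have h4 := arm_ge M p hkL hy
  have h6 : (mu M p).real {ω | Am M ω 0 (L + k) 0} ^ 2 ≤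
      (mu M p).real {ω | Am M ω 0 L x} * (mu M p).real {ω | Am M ω 0 L y} := by
    rw [sq]
    exact mul_le_mul h3 h4 measureReal_nonneg measureReal_nonneg
  exact h6.trans (h.trans h2)

/-- **The one-arm probability is controlled by the two-point function at the critical point.** -/
theorem arm_sq (hd : 1 ≤ d) : ∃ C : ℝ, 1 ≤ C ∧ ∀ (k L : ℕ) (x : Z d), 1 ≤ L → k ≤ L →
    (∀ i, |x i| ≤ k) → arm d (pcrit d) pcrit_le (L + k) ^ 2 ≤
      tau d (pcrit d) pcrit_le x + C * ((k : ℝ) + 1) ^ (2 * d ^ 2 + 3 * d) / √(L : ℝ) := by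
  obtain ⟨C, hC, h⟩ := s_two2 d (bondM d) hd nd_bond (Pool.Agent.Y448.CB2.qm_bond d)
  refine ⟨C, hC, fun k L x hL hkL hx => ?_⟩
  have h1 := arm_two (bondM d) (pc (bondM d)) hkL (self_mem_Bo (0 : Z d) k)
    (show x ∈ Bo (0 : Z d) k from fun i => by simpa using hx i)
  have h2 := h 0 k L hL
  rw [arm_mu, pc_eq]
  have h3 : tau d (pcrit d) pcrit_le x =
      (mu (bondM d) (pc (bondM d))).real (Cn (bondM d) univ 0 x) := by
    unfold tau
    rw [tau_mu, pc_eq]
  rw [h3]
  linarith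

/-- the percolation probability and the two-point function -/
theorem theta_sq_le (p : NNReal) (hp : p ≤ 1) (h0 : 0 < p) (x : Z d) :
    theta d p hp ^ 2 ≤ tau d p hp x := by
  have h := Pool.Agent.Y809.CB.fkg s_two d (bondM d) (uI p hp) x (by
    show (0 : ℝ) < (p : ℝ)
    exact_mod_cast h0)
  rw [theta_mu]
  unfold tau
  rw [tau_mu]
  exact h

theorem arm_tendsto (hd : 1 ≤ d) (p : NNReal) (hp : p ≤ 1) :
    Tendsto (arm d p hp) atTop (𝓝 (theta d p hp)) := by
  have h := Pool.Agent.Y504.CB.arm d (bondM d) (uI p hp) hd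
  rw [theta_mu]
  refine h.congr fun n => ?_
  rw [arm_mu]

theorem arm_nonneg (p : NNReal) (hp : p ≤ 1) (n : ℕ) : 0 ≤ arm d p hp n := ENNReal.toReal_nonneg

theorem arm_le_one (p : NNReal) (hp : p ≤ 1) (n : ℕ) : arm d p hp n ≤ 1 := by
  unfold arm
  exact measureReal_le_one

theorem arm_anti (p : NNReal) (hp : p ≤ 1) : Antitone (arm d p hp) := by
  intro m n hmn
  unfold arm
  refine ENNReal.toReal_mono (measure_ne_top _ _) (measure_mono ?_)
  rintro ω ⟨x, ⟨i, hi⟩, h⟩
  exact ⟨x, ⟨i, le_trans (by exact_mod_cast hmn) hi⟩, h⟩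

theorem tau_le_arm (p : NNReal) (hp : p ≤ 1) {n : ℕ} {x : Z d} (hx : ∃ i, (n : ℤ) ≤ |x i|) :
    tau d p hp x ≤ arm d p hp n := by
  unfold tau arm
  exact ENNReal.toReal_mono (measure_ne_top _ _) (measure_mono fun ω h => ⟨x, hx, h⟩)

/-- far away the two-point function is close to the square of the one-arm probability -/
theorem tau_le_lln (p : NNReal) (hp : p ≤ 1) (m k : ℕ) (x : Z d) (hx : 2 * m + 2 * k + 2 < nm x) :
    tau d p hp x ≤ arm d p hp m ^ 2 + √((4 * m + 1 : ℕ) ^ d / (2 * k + 1 : ℕ) ^ d) := by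
  have h : ∀ ρ : ℕ, (mu (bondM d) (uI p hp)).real (Cn (bondM d) (Bo 0 ρ) 0 x) ≤
      arm d p hp m ^ 2 + √((4 * m + 1 : ℕ) ^ d / (2 * k + 1 : ℕ) ^ d) := by
    intro ρ
    refine (Pool.Agent.Y508.CB.lln d (bondM d) (uI p hp) m k ρ x hx).trans ?_
    rw [arm_mu]
    have h1 : (mu (bondM d) (uI p hp)).real
        (Lk (bondM d) (Bo 0 (ρ + k)) (Bo 0 k) (Bo x k)) ≤ 1 := measureReal_le_one
    have h2 := mul_le_of_le_one_right (sq_nonneg
      ((mu (bondM d) (uI p hp)).real {ω | Am (bondM d) ω 0 m 0})) h1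
    linarith
  have hU : Cn (bondM d) univ 0 x = ⋃ ρ : ℕ, Cn (bondM d) (Bo 0 ρ) 0 x := by
    ext ω
    rw [mem_iUnion]
    constructor
    · intro h1
      by_contra hc
      push Not at hc
      -- the walk stays in a box
      have h2 : (G (bondM d) ω univ).Reachable 0 x := h1
      obtain ⟨W⟩ := h2
      have : ∀ {a b : Z d} (W : (G (bondM d) ω univ).Walk a b), ∃ ρ : ℕ,
          (G (bondM d) ω (Bo 0 ρ)).Reachable a b := by
        intro a b W
        induction W with
        | nil => exact ⟨0, SimpleGraph.Reachable.refl _⟩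
        | @cons u v w hadj _ ih =>
          obtain ⟨ρ, hρ⟩ := ih
          refine ⟨max ρ (max (nm u) (nm v)), ?_⟩
          have hu : u ∈ Bo (0 : Z d) (nm u) := by
            have := mem_Bo_nm (0 : Z d) u
            rwa [zero_add] at this
          have hv : v ∈ Bo (0 : Z d) (nm v) := by
            have := mem_Bo_nm (0 : Z d) v
            rwa [zero_add] at this
          refine SimpleGraph.Reachable.trans (SimpleGraph.Adj.reachable ?_)
            (reach_mono (Bo_mono 0 (le_max_left _ _)) hρ)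
          exact ⟨hadj.1, Bo_mono 0 (le_trans (le_max_left _ _) (le_max_right _ _)) hu,
            Bo_mono 0 (le_trans (le_max_right _ _) (le_max_right _ _)) hv, hadj.2.2.2⟩
      obtain ⟨ρ, hρ⟩ := this W
      exact hc ρ hρ
    · rintro ⟨ρ, hρ⟩
      exact reach_mono (subset_univ _) hρ
  have hmono : Monotone fun ρ : ℕ => Cn (bondM d) (Bo (0 : Z d) ρ) 0 x := by
    intro a b hab ω hω
    exact reach_mono (Bo_mono 0 hab) hω
  have ht := tendsto_measure_iUnion_atTop (μ := mu (bondM d) (uI p hp)) hmono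
  rw [← hU] at ht
  have ht2 := (ENNReal.tendsto_toReal (measure_ne_top (mu (bondM d) (uI p hp))
    (Cn (bondM d) univ 0 x))).comp ht
  unfold tau
  rw [tau_mu]
  exact le_of_tendsto ht2 (Eventually.of_forall h)

/-- the two-point function tends to the square of the percolation probability -/
theorem tau_limsup (hd : 1 ≤ d) (p : NNReal) (hp : p ≤ 1) (ε : ℝ) (hε : 0 < ε) :
    ∃ n : ℕ, ∀ x : Z d, n < nm x → tau d p hp x ≤ theta d p hp ^ 2 + ε := by
  have h1 : Tendsto (fun m => arm d p hp m ^ 2) atTop (𝓝 (theta d p hp ^ 2)) :=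
    (arm_tendsto hd p hp).pow 2
  obtain ⟨m, hm⟩ := (h1.eventually (gt_mem_nhds (show theta d p hp ^ 2 < theta d p hp ^ 2 + ε / 2 by
    linarith))).exists
  have h2 : Tendsto (fun k : ℕ => √(((4 * m + 1 : ℕ) : ℝ) ^ d / ((2 * k + 1 : ℕ) : ℝ) ^ d)) atTop
      (𝓝 0) := by
    rw [← Real.sqrt_zero]
    refine (Real.continuous_sqrt.tendsto 0).comp ?_
    refine Tendsto.div_atTop tendsto_const_nhds ?_
    refine (tendsto_pow_atTop (by omega)).comp ?_
    refine tendsto_natCast_atTop_atTop.comp ?_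
    exact tendsto_atTop_mono (fun k => show k ≤ 2 * k + 1 by omega) tendsto_id
  obtain ⟨k, hk⟩ := (h2.eventually (gt_mem_nhds (show (0 : ℝ) < ε / 2 by linarith))).exists
  refine ⟨2 * m + 2 * k + 2, fun x hx => ?_⟩
  have := tau_le_lln p hp m k x hx
  linarith

end

end Pool.Agent.J4.H90.Perc
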