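import Pool.Agent.J4.H90.Perc.Maj

/-!
Bounds for the mass of the spectral density near the origin.
-/

set_option autoImplicit false
set_option linter.deprecated false

open MeasureTheory Set Filter
open scoped Topology

namespace Pool.Agent.J4.H90.Perc

open Pool.Agent.Results.MP_54f242_pr.InfraredMean (opn P tau cube dot Dhat Dhat_le cube_meas cube_fin
  cos_mul_Dhat tau_mono tau_zero tau_nonneg tau_le_one)
open Pool.Agent.J4.H67.PC (LU conf dens tauf tauf_eq fourier dens_meas dens_fin int_dens_le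
  map_conf meas_conf reach_left conf_mono ps ps_eq ps_nonneg ps_cont)
open Pool.Agent.Y990.CB (Z Bo Bf mem_Bf card_Bf coe_Bf nm nm_le abs_le_nm exists_nm)

noncomputable section

variable {d : ℕ}

theorem sm_vol (r : ℝ) (hr : 0 ≤ r) : volume (sm d r) = ENNReal.ofReal ((2 * r) ^ d) := by
  have h : sm d r = Set.pi univ (fun _ : Fin d => Icc (-r) r) := by
    ext k
    simp only [sm, mem_ofPred_eq, mem_univ_pi, mem_Icc, abs_le]
  rw [h, volume_pi_pi]
  simp only [Real.volume_Icc, sub_neg_eq_add, Finset.prod_const, Finset.card_univ, Fintype.card_fin]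
  rw [← ENNReal.ofReal_pow (by linarith)]
  congr 1
  ring

/-- Hölder's inequality on the small cube -/
theorem mass_of_moment (δ : ℝ) (hδ : 0 < δ) (f : (Fin d → ℝ) → ENNReal) (hf : Measurable f)
    (M : ℝ) (hM : 0 ≤ M) (h : ∫⁻ k in cube d, f k ^ (1 + δ) ≤ ENNReal.ofReal M) (r : ℝ) (hr : 0 < r) :
    ∫⁻ k in cube d ∩ sm d r, f k ≤
      ENNReal.ofReal (M ^ (1 / (1 + δ)) * (2 ^ d : ℝ) ^ (δ / (1 + δ)) * r ^ (d * δ / (1 + δ))) := by
  have hc : (1 + δ).HolderConjugate (Real.conjExponent (1 + δ)) :=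
    Real.HolderConjugate.conjExponent (by linarith)
  have h1 := ENNReal.lintegral_mul_le_Lp_mul_Lq (volume.restrict (cube d ∩ sm d r)) hc
    hf.aemeasurable (aemeasurable_const (b := (1 : ENNReal)))
  simp only [Pi.mul_apply, mul_one, ENNReal.one_rpow, lintegral_const, one_mul,
    Measure.restrict_apply MeasurableSet.univ, univ_inter] at h1
  refine h1.trans ?_
  have e1 : 1 / Real.conjExponent (1 + δ) = δ / (1 + δ) := by
    unfold Real.conjExponent
    field_simp
    ring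
  rw [e1]
  have h2 : (∫⁻ k in cube d ∩ sm d r, f k ^ (1 + δ)) ^ (1 / (1 + δ)) ≤
      ENNReal.ofReal (M ^ (1 / (1 + δ))) := by
    rw [← ENNReal.ofReal_rpow_of_nonneg hM (by positivity)]
    refine ENNReal.rpow_le_rpow ?_ (by positivity)
    exact (lintegral_mono_set inter_subset_left).trans h
  have h3 : volume (cube d ∩ sm d r) ^ (δ / (1 + δ)) ≤
      ENNReal.ofReal ((2 ^ d : ℝ) ^ (δ / (1 + δ)) * r ^ (d * δ / (1 + δ))) := by
    have h4 : volume (cube d ∩ sm d r) ≤ ENNReal.ofReal ((2 * r) ^ d) := by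
      rw [← sm_vol r hr.le]
      exact measure_mono inter_subset_right
    refine (ENNReal.rpow_le_rpow h4 (by positivity)).trans (le_of_eq ?_)
    rw [ENNReal.ofReal_rpow_of_nonneg (by positivity) (by positivity), mul_pow,
      Real.mul_rpow (by positivity) (by positivity)]
    congr 2
    rw [← Real.rpow_natCast, ← Real.rpow_mul hr.le]
    congr 1
    ring
  refine (mul_le_mul' h2 h3).trans (le_of_eq ?_)
  rw [← ENNReal.ofReal_mul (by positivity), mul_assoc]

theorem abs_dot_le (k : Fin d → ℝ) (x : Fin d → ℤ) (r : ℝ) (n : ℕ) (hk : ∀ i, |k i| ≤ r)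
    (hx : ∀ i, |x i| ≤ (n : ℤ)) : |dot k x| ≤ d * (r * n) := by
  unfold dot
  refine (Finset.abs_sum_le_sum_abs _ _).trans ?_
  have h : ∀ i ∈ (Finset.univ : Finset (Fin d)), |k i * (x i : ℝ)| ≤ r * n := by
    intro i _
    rw [abs_mul]
    have h1 : |(x i : ℝ)| ≤ n := by
      have := hx i
      exact_mod_cast this
    exact mul_le_mul (hk i) h1 (abs_nonneg _) ((abs_nonneg _).trans (hk i))
  refine (Finset.sum_le_sum h).trans (le_of_eq ?_)
  simp

/-- lower bound of the kernel on the small cube -/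
theorem ps_lower (n : ℕ) (r : ℝ) (hr : 0 ≤ r) {k : Fin d → ℝ} (hk : k ∈ sm d r) :
    (1 - (2 * d * r * n) ^ 2 / 2) * ((Bf (0 : Z d) n).card : ℝ) ^ 2 ≤ ps (Bf (0 : Z d) n) k := by
  rw [ps_eq]
  have h : ∀ x ∈ Bf (0 : Z d) n, ∀ y ∈ Bf (0 : Z d) n,
      1 - (2 * d * r * n) ^ 2 / 2 ≤ Real.cos (dot k (y - x)) := by
    intro x hx y hy
    rw [mem_Bf] at hx hy
    have h1 := abs_dot_le k (y - x) r (2 * n) hk (fun i => by
      have h2 : |x i| ≤ n := by simpa using hx i
      have h3 : |y i| ≤ n := by simpa using hy i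
      have h4 := abs_sub (y i) (x i)
      rw [Pi.sub_apply]
      push_cast
      linarith)
    have h2 := Real.one_sub_sq_div_two_le_cos (x := dot k (y - x))
    have h3 : (dot k (y - x)) ^ 2 ≤ (2 * d * r * n) ^ 2 := by
      rw [← sq_abs]
      refine pow_le_pow_left₀ (abs_nonneg _) (h1.trans (le_of_eq ?_)) 2
      push_cast
      ring
    linarith
  calc (1 - (2 * d * r * n) ^ 2 / 2) * ((Bf (0 : Z d) n).card : ℝ) ^ 2
      = ∑ _x ∈ Bf (0 : Z d) n, ∑ _y ∈ Bf (0 : Z d) n, (1 - (2 * d * r * n) ^ 2 / 2) := by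
        simp only [Finset.sum_const, nsmul_eq_mul]
        ring
    _ ≤ _ := Finset.sum_le_sum fun x hx => Finset.sum_le_sum fun y hy => h x hx y hy

/-- the pairing with the kernel of the box -/
theorem int_nd_ps (p : NNReal) (hp : p ≤ 1)
    (hf : ∀ᵐ ω ∂(P d p hp), (Pool.Agent.J4.H67.PC.cl ω).Finite) (A : Finset (Fin d → ℤ)) :
    ∫ k in cube d, nd d p hp k * ps A k = ∑ x ∈ A, ∑ y ∈ A, tau d p hp (y - x) := by
  have hi : ∀ x : Fin d → ℤ, Integrable (fun k => nd d p hp k * Real.cos (dot k x))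
      (volume.restrict (cube d)) := by
    intro x
    refine (nd_int p hp).mul_bdd (c := 1) ?_ (Eventually.of_forall fun k => ?_)
    · exact (Real.continuous_cos.comp (dot_cont x)).aestronglyMeasurable
    · rw [Real.norm_eq_abs]; exact Real.abs_cos_le_one _
  simp_rw [ps_eq, Finset.mul_sum]
  rw [integral_finset_sum _ (fun x _ => integrable_finset_sum _ (fun y _ => hi _))]
  refine Finset.sum_congr rfl fun x _ => ?_
  rw [integral_finset_sum _ (fun y _ => hi _)]
  exact Finset.sum_congr rfl fun y _ => (tau_fourier p hp hf _).symm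

/-- the mass of the small cube, from the two-point function in boxes -/
theorem mass_le_box (p : NNReal) (hp : p ≤ 1)
    (hf : ∀ᵐ ω ∂(P d p hp), (Pool.Agent.J4.H67.PC.cl ω).Finite) (n : ℕ) (r : ℝ) (hr : 0 ≤ r) :
    (1 - (2 * d * r * n) ^ 2 / 2) * ∫ k in cube d ∩ sm d r, nd d p hp k ≤
      (∑ x ∈ Bf (0 : Z d) n, ∑ y ∈ Bf (0 : Z d) n, tau d p hp (y - x)) /
        ((Bf (0 : Z d) n).card : ℝ) ^ 2 := by
  set B := Bf (0 : Z d) n with hB
  have hcard : (0 : ℝ) < (B.card : ℝ) := by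
    rw [hB, card_Bf]; positivity
  rw [le_div_iff₀ (by positivity), ← int_nd_ps p hp hf B]
  have hi : Integrable (fun k => nd d p hp k * ps B k) (volume.restrict (cube d)) := by
    refine (nd_int p hp).mul_bdd (c := (B.card : ℝ) ^ 2) (ps_cont B).aestronglyMeasurable
      (Eventually.of_forall fun k => ?_)
    rw [Real.norm_eq_abs, abs_of_nonneg (ps_nonneg B k), ps_eq]
    calc ∑ x ∈ B, ∑ y ∈ B, Real.cos (dot k (y - x)) ≤ ∑ x ∈ B, ∑ y ∈ B, (1 : ℝ) :=
          Finset.sum_le_sum fun x _ => Finset.sum_le_sum fun y _ => Real.cos_le_one _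
      _ = (B.card : ℝ) ^ 2 := by simp [sq]
  calc (1 - (2 * d * r * n) ^ 2 / 2) * (∫ k in cube d ∩ sm d r, nd d p hp k) * (B.card : ℝ) ^ 2
      = ∫ k in cube d ∩ sm d r, nd d p hp k * ((1 - (2 * d * r * n) ^ 2 / 2) * (B.card : ℝ) ^ 2) := by
        rw [integral_mul_const]; ring
    _ ≤ ∫ k in cube d ∩ sm d r, nd d p hp k * ps B k := by
        refine setIntegral_mono_on
          (((nd_int p hp).mul_const _).mono_measure (Measure.restrict_mono inter_subset_left le_rfl))
          (hi.mono_measure (Measure.restrict_mono inter_subset_left le_rfl))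
          (cube_meas.inter (sm_meas r)) fun k hk => ?_
        exact mul_le_mul_of_nonneg_left (ps_lower n r hr hk.2) (nd_nonneg p hp k)
    _ ≤ ∫ k in cube d, nd d p hp k * ps B k :=
        integral_mono_measure (Measure.restrict_mono inter_subset_left le_rfl)
          (Eventually.of_forall fun k => mul_nonneg (nd_nonneg p hp k) (ps_nonneg B k)) hi

/-- double sums over a box -/
theorem box_double (g : (Fin d → ℤ) → ℝ) (hg : ∀ x, 0 ≤ g x) (n : ℕ) :
    ∑ x ∈ Bf (0 : Z d) n, ∑ y ∈ Bf (0 : Z d) n, g (y - x) ≤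
      ((Bf (0 : Z d) n).card : ℝ) * ∑ z ∈ Bf (0 : Z d) (2 * n), g z := by
  rw [← nsmul_eq_mul, ← Finset.sum_const]
  refine Finset.sum_le_sum fun x hx => ?_
  have h1 : ∑ y ∈ Bf (0 : Z d) n, g (y - x) = ∑ z ∈ (Bf (0 : Z d) n).image (fun y => y - x), g z := by
    rw [Finset.sum_image]
    intro a _ b _ hab
    exact sub_left_injective hab
  rw [h1]
  refine Finset.sum_le_sum_of_subset_of_nonneg ?_ fun z _ _ => hg z
  intro z hz
  rw [Finset.mem_image] at hz
  obtain ⟨y, hy, rfl⟩ := hz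
  rw [mem_Bf] at hx hy ⊢
  intro i
  have h2 : |x i| ≤ n := by simpa using hx i
  have h3 : |y i| ≤ n := by simpa using hy i
  have h4 := abs_sub (y i) (x i)
  have h5 : (y - x) i - (0 : Z d) i = y i - x i := by simp
  rw [h5]
  push_cast
  linarith

theorem lint_eq (p : NNReal) (hp : p ≤ 1) (S : Set (Fin d → ℝ)) :
    ∫⁻ k in cube d ∩ S, dens d p hp k =
      ENNReal.ofReal ((2 * Real.pi) ^ d * ∫ k in cube d ∩ S, nd d p hp k) := by
  unfold nd
  rw [integral_div, mul_div_cancel₀ _ (by positivity)]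
  have hae : ∀ᵐ k ∂(volume.restrict (cube d ∩ S)), dens d p hp k < ⊤ :=
    ae_mono (Measure.restrict_mono inter_subset_left le_rfl) (dens_fin p hp)
  rw [integral_toReal (dens_meas p hp).aemeasurable hae, ENNReal.ofReal_toReal]
  exact ne_top_of_le_ne_top ENNReal.ofReal_ne_top
    ((lintegral_mono_set inter_subset_left).trans (int_dens_le p hp))

/-- from the two-point function in boxes to the mass near the origin -/
theorem mass_of_sum (hd : 1 ≤ d) (a C : ℝ) (ha : 0 < a) (hC : 0 ≤ C)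
    (p : NNReal) (hp : p ≤ 1) (hf : ∀ᵐ ω ∂(P d p hp), (Pool.Agent.J4.H67.PC.cl ω).Finite)
    (h : ∀ n : ℕ, 1 ≤ n → ∑ x ∈ Bf (0 : Z d) n, tau d p hp x ≤ C * (n : ℝ) ^ ((d : ℝ) - a))
    (r : ℝ) (hr : 0 < r) (hr1 : r ≤ 1) :
    ∫⁻ k in cube d ∩ sm d r, dens d p hp k ≤
      ENNReal.ofReal ((2 * Real.pi) ^ d * ((2 * C * 2 ^ ((d : ℝ) - a) + 1) * (4 * d) ^ a) * r ^ a) := by
  have hd0 : (0 : ℝ) < d := by exact_mod_cast hd
  rw [lint_eq]
  refine ENNReal.ofReal_le_ofReal ?_
  rw [mul_assoc]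
  refine mul_le_mul_of_nonneg_left ?_ (by positivity)
  set I := ∫ k in cube d ∩ sm d r, nd d p hp k with hI
  have hI1 : I ≤ 1 := by
    rw [hI, ← int_nd p hp hf]
    exact integral_mono_measure (Measure.restrict_mono inter_subset_left le_rfl)
      (Eventually.of_forall fun k => nd_nonneg p hp k) (nd_int p hp)
  set D : ℝ := 2 * C * 2 ^ ((d : ℝ) - a) with hD
  have hD0 : 0 ≤ D := by positivity
  have e1 : (D + 1) * (4 * (d : ℝ)) ^ a * r ^ a = (D + 1) * (4 * d * r) ^ a := by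
    rw [mul_assoc, ← Real.mul_rpow (by positivity) hr.le]
  rw [e1]
  by_cases hcase : 1 ≤ 2 * d * r
  · have h1 : 1 ≤ (4 * d * r) ^ a := Real.one_le_rpow (by linarith) ha.le
    nlinarith
  · push Not at hcase
    set n : ℕ := ⌊1 / (2 * d * r)⌋₊ with hn
    have hpos : 0 < 2 * d * r := by positivity
    have hone : 1 ≤ 1 / (2 * d * r) := by
      rw [le_div_iff₀ hpos, one_mul]; exact hcase.le
    have hn1 : 1 ≤ n := Nat.le_floor (by exact_mod_cast hone)
    have hn1' : (1 : ℝ) ≤ n := by exact_mod_cast hn1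
    have hn0 : (0 : ℝ) < n := by linarith
    have hle : (n : ℝ) ≤ 1 / (2 * d * r) := Nat.floor_le (by positivity)
    have hle2 : 2 * d * r * n ≤ 1 := by
      rw [le_div_iff₀ hpos] at hle
      linarith
    have hge : 1 / (4 * d * r) ≤ n := by
      have h1 : 1 / (2 * d * r) < n + 1 := Nat.lt_floor_add_one _
      have h2 : 1 / (4 * d * r) = (1 / (2 * d * r)) / 2 := by field_simp; ring
      rw [h2]
      linarith
    have h1 := mass_le_box p hp hf n r hr.le
    rw [← hI] at h1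
    have hI0 : 0 ≤ I := integral_nonneg fun k => nd_nonneg p hp k
    have h2 : I / 2 ≤ (1 - (2 * d * r * n) ^ 2 / 2) * I := by
      have h3 : (2 * d * r * n) ^ 2 ≤ 1 := pow_le_one₀ (by positivity) hle2
      nlinarith
    have hcard : ((Bf (0 : Z d) n).card : ℝ) = (2 * n + 1) ^ d := by
      rw [card_Bf]; push_cast; rfl
    have hcard0 : (0 : ℝ) < ((Bf (0 : Z d) n).card : ℝ) := by rw [hcard]; positivity
    have h3 := box_double (tau d p hp) (tau_nonneg p hp) n
    have h4 := h (2 * n) (by omega)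
    have h5 : (∑ x ∈ Bf (0 : Z d) n, ∑ y ∈ Bf (0 : Z d) n, tau d p hp (y - x)) /
        ((Bf (0 : Z d) n).card : ℝ) ^ 2 ≤ C * ((2 * n : ℕ) : ℝ) ^ ((d : ℝ) - a) / (n : ℝ) ^ d := by
      rw [div_le_div_iff₀ (by positivity) (by positivity)]
      have h6 : (n : ℝ) ^ d ≤ ((Bf (0 : Z d) n).card : ℝ) := by
        rw [hcard]
        exact pow_le_pow_left₀ hn0.le (by linarith) d
      have h7 : 0 ≤ ∑ x ∈ Bf (0 : Z d) n, ∑ y ∈ Bf (0 : Z d) n, tau d p hp (y - x) :=
        Finset.sum_nonneg fun x _ => Finset.sum_nonneg fun y _ => tau_nonneg p hp _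
      have h8 : 0 ≤ C * ((2 * n : ℕ) : ℝ) ^ ((d : ℝ) - a) := by positivity
      calc (∑ x ∈ Bf (0 : Z d) n, ∑ y ∈ Bf (0 : Z d) n, tau d p hp (y - x)) * (n : ℝ) ^ d
          ≤ (((Bf (0 : Z d) n).card : ℝ) * (C * ((2 * n : ℕ) : ℝ) ^ ((d : ℝ) - a))) *
              ((Bf (0 : Z d) n).card : ℝ) := by
            refine mul_le_mul (h3.trans ?_) h6 (by positivity) (by positivity)
            exact mul_le_mul_of_nonneg_left h4 hcard0.le
        _ = _ := by ring
    have h6 : C * ((2 * n : ℕ) : ℝ) ^ ((d : ℝ) - a) / (n : ℝ) ^ d = D / 2 * (n : ℝ) ^ (-a) := by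
      push_cast
      rw [Real.mul_rpow (by norm_num) hn0.le, Real.rpow_sub hn0, Real.rpow_natCast,
        Real.rpow_neg hn0.le, hD]
      field_simp
    have h7 : (n : ℝ) ^ (-a) ≤ (4 * d * r) ^ a := by
      have h8 : (n : ℝ) ^ (-a) ≤ (1 / (4 * d * r)) ^ (-a) :=
        Real.rpow_le_rpow_of_nonpos (by positivity) hge (by linarith)
      refine h8.trans (le_of_eq ?_)
      rw [one_div, Real.inv_rpow (by positivity), Real.rpow_neg (by positivity), inv_inv]
    have h8 : I ≤ D * (n : ℝ) ^ (-a) := by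
      rw [h6] at h5
      linarith
    calc I ≤ D * (n : ℝ) ^ (-a) := h8
      _ ≤ D * (4 * d * r) ^ a := mul_le_mul_of_nonneg_left h7 hD0
      _ ≤ (D + 1) * (4 * d * r) ^ a := by
          have : (0 : ℝ) ≤ (4 * d * r) ^ a := by positivity
          nlinarith

end

end Pool.Agent.J4.H90.Perc
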