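import Pool.Agent.J4.H90.Perc.Pow

/-!
Polynomial decay of the volume of the cluster implies an integrable majorant with a power of
integrability.
-/

set_option autoImplicit false
set_option linter.deprecated false

open MeasureTheory Set Filter
open scoped Topology

namespace Pool.Agent.J4.H90.Perc

open Pool.Agent.Results.MP_54f242_pr.InfraredMean (opn P tau cube dot Dhat Dhat_le cube_meas cube_fin
  cos_mul_Dhat tau_mono tau_zero tau_nonneg)
open Pool.Agent.J4.H67.PC (LU conf dens tauf tauf_eq fourier dens_meas dens_fin int_dens_le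
  map_conf meas_conf reach_left conf_mono cl cf meas_cf meas_fin mem_cf coe_cf cf_mono lg lg_meas SM
  SM_meas MM MM_meas FF int_SM dens_le_MM FF_empty cl_mono zero_mem_cl ps_div_le)

noncomputable section

variable {d : ℕ}

open Classical in
/-- the weight -/
def Wt (δ : ℝ) (ω : (Fin d → ℤ) × Fin d → Bool) : ENNReal :=
  if (cl ω).Finite then ((cf ω).card : ENNReal) ^ δ * lg ω ^ 3 else ⊤

theorem Wt_meas (δ : ℝ) : Measurable (Wt (d := d) δ) := by
  classical
  unfold Wt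
  refine Measurable.ite meas_fin ?_ measurable_const
  refine Measurable.mul ?_ (lg_meas.pow_const 3)
  exact (measurable_of_countable (fun A : Finset (Fin d → ℤ) => (A.card : ENNReal) ^ δ)).comp meas_cf

theorem FF_le_card (A : Finset (Fin d → ℤ)) (k : Fin d → ℝ) : FF A k ≤ A.card := by
  unfold FF
  rw [← ENNReal.ofReal_natCast]
  exact ENNReal.ofReal_le_ofReal (ps_div_le A k)

theorem SM_le_card (p : ℝ) (U : (Fin d → ℤ) × Fin d → unitInterval) (k : Fin d → ℝ)
    (hf : (cl (conf p U)).Finite) : SM p U k ≤ (cf (conf p U)).card := by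
  unfold SM
  refine iSup₂_le fun r hr => (FF_le_card _ k).trans ?_
  exact_mod_cast Finset.card_le_card (cf_mono hr U hf)

theorem int_SM_pow (p δ : ℝ) (hδ : 0 ≤ δ) (U : (Fin d → ℤ) × Fin d → unitInterval) :
    ∫⁻ k in cube d, SM p U k ^ (1 + δ) ≤
      ENNReal.ofReal (2 * (2 * Real.pi) ^ d) * Wt δ (conf p U) := by
  by_cases hf : (cl (conf p U)).Finite
  · have h1 : ∀ k, SM p U k ^ (1 + δ) ≤ ((cf (conf p U)).card : ENNReal) ^ δ * SM p U k := by
      intro k
      rw [add_comm, ENNReal.rpow_add_of_nonneg _ _ hδ zero_le_one, ENNReal.rpow_one]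
      gcongr
      exact SM_le_card p U k hf
    refine (lintegral_mono h1).trans ?_
    rw [lintegral_const_mul' _ _ (ENNReal.rpow_ne_top_of_nonneg hδ (ENNReal.natCast_ne_top _))]
    refine (mul_le_mul_right (int_SM p U) _).trans ?_
    unfold Wt
    rw [if_pos hf]
    exact le_of_eq (by ring)
  · unfold Wt
    rw [if_neg hf, ENNReal.mul_top]
    · exact le_top
    · rw [Ne, ENNReal.ofReal_eq_zero, not_le]
      positivity

/-- Jensen's inequality for powers -/
theorem jensen {α : Type*} [MeasurableSpace α] (μ : Measure α) [IsProbabilityMeasure μ]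
    {f : α → ENNReal} (hf : AEMeasurable f μ) {s : ℝ} (hs : 1 < s) :
    (∫⁻ a, f a ∂μ) ^ s ≤ ∫⁻ a, f a ^ s ∂μ := by
  have hc : s.HolderConjugate (Real.conjExponent s) := Real.HolderConjugate.conjExponent hs
  have h := ENNReal.lintegral_mul_le_Lp_mul_Lq μ hc hf (aemeasurable_const (b := (1 : ENNReal)))
  simp only [Pi.mul_apply, mul_one, ENNReal.one_rpow, lintegral_const, measure_univ] at h
  have h2 := ENNReal.rpow_le_rpow h (by linarith : (0 : ℝ) ≤ s)
  rwa [← ENNReal.rpow_mul, one_div, inv_mul_cancel₀ (by linarith), ENNReal.rpow_one] at h2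

theorem int_MM_pow (p : NNReal) (hp : p ≤ 1) (δ : ℝ) (hδ : 0 < δ) :
    ∫⁻ k in cube d, MM d p k ^ (1 + δ) ≤
      ENNReal.ofReal (2 * (2 * Real.pi) ^ d) * ∫⁻ ω, Wt δ ω ∂(P d p hp) := by
  have h1 : ∀ k, MM d p k ^ (1 + δ) ≤ ∫⁻ U, SM (p : ℝ) U k ^ (1 + δ) ∂(LU d) := by
    intro k
    unfold MM
    refine jensen (LU d) ?_ (by linarith)
    exact ((SM_meas (d := d) p).comp measurable_prodMk_right).aemeasurable
  refine (lintegral_mono h1).trans ?_
  rw [lintegral_lintegral_swap]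
  · refine (lintegral_mono fun U => int_SM_pow p δ hδ.le U).trans ?_
    have hm : Measurable fun U : (Fin d → ℤ) × Fin d → unitInterval => Wt δ (conf p U) :=
      (Wt_meas δ).comp (meas_conf p)
    rw [lintegral_const_mul _ hm, ← map_conf p hp, lintegral_map (Wt_meas δ) (meas_conf p)]
  · exact (((SM_meas p).comp measurable_swap).pow_const _).aemeasurable

theorem vol_meas (n : ℕ) : MeasurableSet {ω : (Fin d → ℤ) × Fin d → Bool |
    (n : ℕ∞) ≤ (cl ω).encard} := by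
  have : {ω : (Fin d → ℤ) × Fin d → Bool | (n : ℕ∞) ≤ (cl ω).encard} =
      {ω | (cl ω).Finite ∧ n ≤ (cf ω).card} ∪ {ω | (cl ω).Finite}ᶜ := by
    ext ω
    simp only [mem_ofPred_eq, mem_union, mem_compl_iff]
    by_cases hf : (cl ω).Finite
    · have h1 : (cl ω).encard = ((cf ω).card : ℕ∞) := by
        rw [← coe_cf hf, Set.encard_coe_eq_coe_finsetCard]
      rw [h1]
      simp [hf]
    · simp [hf, Set.encard_eq_top_iff.2 hf]
  rw [this]
  refine MeasurableSet.union ?_ meas_fin.compl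
  refine meas_fin.inter ?_
  have : Measurable fun ω : (Fin d → ℤ) × Fin d → Bool => (cf ω).card :=
    (measurable_of_countable (fun A : Finset (Fin d → ℤ) => A.card)).comp meas_cf
  exact measurableSet_le measurable_const this

/-- the coefficients of the dyadic bound -/
def aj (δ : ℝ) (j : ℕ) : ℝ := (2 : ℝ) ^ (δ * (j + 1)) * ((j : ℝ) + 1) ^ 3

theorem aj_ge (δ : ℝ) (hδ : 0 ≤ δ) (j : ℕ) : 1 ≤ aj δ j := by
  unfold aj
  have h1 : (1 : ℝ) ≤ (2 : ℝ) ^ (δ * (j + 1)) := Real.one_le_rpow (by norm_num) (by positivity)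
  have h2 : (1 : ℝ) ≤ ((j : ℝ) + 1) ^ 3 := one_le_pow₀ (by
    have : (0 : ℝ) ≤ j := Nat.cast_nonneg j
    linarith)
  exact one_le_mul_of_one_le_of_one_le h1 h2

theorem Wt_le (δ : ℝ) (hδ : 0 ≤ δ) (ω : (Fin d → ℤ) × Fin d → Bool) :
    Wt δ ω ≤ ∑' j : ℕ, ENNReal.ofReal (aj δ j) *
      indicator {ω | ((2 ^ j : ℕ) : ℕ∞) ≤ (cl ω).encard} (fun _ => (1 : ENNReal)) ω := by
  by_cases hf : (cl ω).Finite
  · have hc : (cl ω).encard = ((cf ω).card : ℕ∞) := by
      rw [← coe_cf hf, Set.encard_coe_eq_coe_finsetCard]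
    have hpos : (cf ω).card ≠ 0 := by
      rw [Finset.card_ne_zero]
      exact ⟨0, (mem_cf ω 0).2 ⟨hf, zero_mem_cl ω⟩⟩
    set n := (cf ω).card with hn
    set J := Nat.log 2 n with hJ
    refine le_trans ?_ (ENNReal.le_tsum J)
    have hmem : ω ∈ {ω : (Fin d → ℤ) × Fin d → Bool | ((2 ^ J : ℕ) : ℕ∞) ≤ (cl ω).encard} := by
      show ((2 ^ J : ℕ) : ℕ∞) ≤ (cl ω).encard
      rw [hc]
      exact_mod_cast Nat.pow_log_le_self 2 hpos
    rw [indicator_of_mem hmem, mul_one]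
    unfold Wt lg
    rw [if_pos hf, if_pos hf, ← hn, ← hJ]
    unfold aj
    rw [ENNReal.ofReal_mul (by positivity)]
    refine mul_le_mul' ?_ (le_of_eq ?_)
    · have h1 : n < 2 ^ (J + 1) := Nat.lt_pow_succ_log_self (by norm_num) n
      have h2 : (n : ENNReal) ≤ ENNReal.ofReal ((2 : ℝ) ^ ((J : ℝ) + 1)) := by
        rw [← ENNReal.ofReal_natCast]
        refine ENNReal.ofReal_le_ofReal ?_
        have h3 : (n : ℝ) ≤ (2 : ℝ) ^ (J + 1) := by exact_mod_cast h1.le
        refine h3.trans (le_of_eq ?_)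
        rw [← Real.rpow_natCast]
        push_cast
        rfl
      refine (ENNReal.rpow_le_rpow h2 hδ).trans (le_of_eq ?_)
      rw [ENNReal.ofReal_rpow_of_nonneg (by positivity) hδ, ← Real.rpow_mul (by norm_num)]
      congr 2
      ring
    · rw [← ENNReal.ofReal_natCast, ← ENNReal.ofReal_pow (Nat.cast_nonneg _)]
      congr 2
      push_cast
      ring
  · have hc : (cl ω).encard = ⊤ := Set.encard_eq_top_iff.2 hf
    have h1 : ∀ j : ℕ, (1 : ENNReal) ≤ ENNReal.ofReal (aj δ j) *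
      indicator {ω | ((2 ^ j : ℕ) : ℕ∞) ≤ (cl ω).encard} (fun _ => (1 : ENNReal)) ω := by
      intro j
      rw [indicator_of_mem (show ω ∈ {ω : (Fin d → ℤ) × Fin d → Bool |
        ((2 ^ j : ℕ) : ℕ∞) ≤ (cl ω).encard} by show _ ≤ (cl ω).encard; rw [hc]; exact le_top),
        mul_one]
      exact ENNReal.one_le_ofReal.2 (aj_ge δ hδ j)
    have h2 : (⊤ : ENNReal) = ∑' _ : ℕ, (1 : ENNReal) := by
      rw [ENNReal.tsum_const_eq_top_of_ne_zero one_ne_zero]
    refine le_top.trans ?_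
    rw [h2]
    exact ENNReal.tsum_le_tsum h1

theorem int_Wt (p : NNReal) (hp : p ≤ 1) (c C δ : ℝ) (hδ : 0 ≤ δ) (hδc : δ < c) (hC : 0 ≤ C)
    (h : ∀ N : ℕ, 1 ≤ N → vol d p hp N ≤ C * (N : ℝ) ^ (-c)) :
    ∫⁻ ω, Wt δ ω ∂(P d p hp) ≠ ⊤ := by
  have h1 : ∫⁻ ω, Wt δ ω ∂(P d p hp) ≤ ∑' j : ℕ, ENNReal.ofReal (aj δ j * (C * ((2 : ℝ) ^ j) ^ (-c))) := by
    refine (lintegral_mono fun ω => Wt_le δ hδ ω).trans ?_
    rw [lintegral_tsum (fun j => ((measurable_const.indicator (vol_meas _)).const_mul _).aemeasurable)]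
    refine ENNReal.tsum_le_tsum fun j => ?_
    rw [lintegral_const_mul _ (measurable_const.indicator (vol_meas _)),
      lintegral_indicator (vol_meas _), ENNReal.ofReal_mul (by
        have := aj_ge δ hδ j
        linarith)]
    refine mul_le_mul_right ?_ _
    simp only [lintegral_const, MeasurableSet.univ, Measure.restrict_apply, univ_inter, one_mul]
    rw [← ENNReal.ofReal_toReal (measure_ne_top (P d p hp) _)]
    refine ENNReal.ofReal_le_ofReal ?_
    have h2 := h (2 ^ j) Nat.one_le_two_pow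
    unfold vol at h2
    push_cast at h2
    exact h2
  refine ne_top_of_le_ne_top ?_ h1
  have hsum : Summable fun j : ℕ => aj δ j * (C * ((2 : ℝ) ^ j) ^ (-c)) := by
    set ρ : ℝ := (2 : ℝ) ^ (δ - c) with hρ
    have hρ0 : 0 < ρ := by positivity
    have hρ1 : ρ < 1 := Real.rpow_lt_one_of_one_lt_of_neg (by norm_num) (by linarith)
    have h2 : Summable fun j : ℕ => ((j : ℝ) ^ 3 * ρ ^ j) :=
      summable_pow_mul_geometric_of_norm_lt_one 3 (by rwa [Real.norm_eq_abs, abs_of_pos hρ0])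
    have h3 : Summable fun j : ℕ => (((j + 1 : ℕ) : ℝ) ^ 3 * ρ ^ (j + 1)) :=
      (summable_nat_add_iff (f := fun j : ℕ => ((j : ℝ) ^ 3 * ρ ^ j)) 1).2 h2
    refine (h3.mul_left (C * 2 ^ c)).congr fun j => ?_
    unfold aj
    have e1 : ((2 : ℝ) ^ j) ^ (-c) = (2 : ℝ) ^ (-(c * j)) := by
      rw [← Real.rpow_natCast, ← Real.rpow_mul (by norm_num)]
      congr 1
      ring
    have e2 : ρ ^ (j + 1) = (2 : ℝ) ^ ((δ - c) * (j + 1)) := by
      rw [hρ, ← Real.rpow_natCast, ← Real.rpow_mul (by norm_num)]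
      push_cast
      rfl
    rw [e1, e2]
    have e3 : (2 : ℝ) ^ c * (2 : ℝ) ^ ((δ - c) * (j + 1)) =
        (2 : ℝ) ^ (δ * (j + 1)) * (2 : ℝ) ^ (-(c * j)) := by
      rw [← Real.rpow_add (by norm_num), ← Real.rpow_add (by norm_num)]
      congr 1
      ring
    push_cast
    calc C * 2 ^ c * (((j : ℝ) + 1) ^ 3 * 2 ^ ((δ - c) * (j + 1)))
        = C * ((j : ℝ) + 1) ^ 3 * (2 ^ c * 2 ^ ((δ - c) * (j + 1))) := by ring
      _ = _ := by rw [e3]; ring
  rw [← ENNReal.ofReal_tsum_of_nonneg (fun j => by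
    have := aj_ge δ hδ j
    positivity) hsum]
  exact ENNReal.ofReal_ne_top

/-- an integrable majorant -/
theorem majorant (c C δ : ℝ) (hδ : 0 < δ) (hδc : δ < c) (hC : 0 ≤ C)
    (h : ∀ N : ℕ, 1 ≤ N → vol d (pcrit d) pcrit_le N ≤ C * (N : ℝ) ^ (-c)) :
    ∃ M : (Fin d → ℝ) → ENNReal, Measurable M ∧ ∫⁻ k in cube d, M k ^ (1 + δ) ≠ ⊤ ∧
      ∀ (p : NNReal) (hp : p ≤ 1), p < pcrit d → ∀ k, dens d p hp k ≤ M k := by
  refine ⟨MM d (pcrit d), MM_meas _, ?_, fun p hp hlt k => dens_le_MM p hp _ (by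
    exact_mod_cast hlt.le) k⟩
  refine ne_top_of_le_ne_top (ENNReal.mul_ne_top ENNReal.ofReal_ne_top
    (int_Wt (pcrit d) pcrit_le c C δ hδ.le hδc hC h)) (int_MM_pow (pcrit d) pcrit_le δ hδ)

end

end Pool.Agent.J4.H90.Perc
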