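import Pool.Agent.J4.H90.Perc.Walk

/-!
The mass of the spectral density near the origin controls the one-arm probability.
-/

set_option autoImplicit false
set_option linter.deprecated false

open MeasureTheory Set Filter
open scoped Topology

namespace Pool.Agent.J4.H90.Perc

open Pool.Agent.Results.MP_54f242_pr.InfraredMean (opn P tau cube dot Dhat Dhat_le cube_meas cube_fin
  cos_mul_Dhat tau_mono tau_zero tau_nonneg)
open Pool.Agent.J4.H67.PC (LU conf dens tauf tauf_eq fourier dens_meas dens_fin int_dens_le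
  map_conf meas_conf reach_left conf_mono)

noncomputable section

variable {d : ℕ}

/-- the two-point function in the coupling -/
theorem tau_U (p : NNReal) (hp : p ≤ 1) (x : Fin d → ℤ) :
    tau d p hp x = (LU d {U | (opn (conf (p : ℝ) U)).Reachable 0 x}).toReal := by
  unfold tau
  rw [← map_conf p hp, Measure.map_apply (meas_conf _)
    (Pool.Agent.Results.MP_54f242_pr.InfraredMean.meas_reach 0 x)]
  rfl

/-- left continuity of the two-point function -/
theorem tau_left (p : NNReal) (hp : p ≤ 1) (h0 : 0 < p) : ∃ u : ℕ → NNReal, ∃ hu : ∀ n, u n ≤ 1,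
    StrictMono u ∧ (∀ n, u n < p) ∧ (∀ n, 0 < u n) ∧ Tendsto u atTop (𝓝 p) ∧
    ∀ x : Fin d → ℤ, Tendsto (fun n => tau d (u n) (hu n) x) atTop (𝓝 (tau d p hp x)) := by
  obtain ⟨u, hu1, hu2, hu3⟩ := exists_seq_strictMono_tendsto' h0
  refine ⟨u, fun n => (hu2 n).2.le.trans hp, hu1, fun n => (hu2 n).2, fun n => (hu2 n).1, hu3,
    fun x => ?_⟩
  have hU : {U : (Fin d → ℤ) × Fin d → unitInterval | (opn (conf (p : ℝ) U)).Reachable 0 x} =
      ⋃ n, {U | (opn (conf (u n : ℝ) U)).Reachable 0 x} := by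
    ext U
    rw [mem_iUnion]
    constructor
    · intro h
      have h2 := reach_left h
      have h3 : Tendsto (fun n => (u n : ℝ)) atTop (𝓝[<] (p : ℝ)) := by
        refine tendsto_nhdsWithin_iff.2 ⟨NNReal.tendsto_coe.2 hu3, Eventually.of_forall fun n => ?_⟩
        exact_mod_cast (hu2 n).2
      exact (h3.eventually h2).exists
    · rintro ⟨n, hn⟩
      exact SimpleGraph.Reachable.mono (conf_mono (by exact_mod_cast (hu2 n).2.le) U) hn
  have hm : Monotone fun n => {U : (Fin d → ℤ) × Fin d → unitInterval |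
      (opn (conf (u n : ℝ) U)).Reachable 0 x} := by
    intro a b hab U hU
    exact SimpleGraph.Reachable.mono (conf_mono (by exact_mod_cast hu1.monotone hab) U) hU
  have ht := tendsto_measure_iUnion_atTop (μ := LU d) hm
  rw [← hU] at ht
  have ht2 := (ENNReal.tendsto_toReal (measure_ne_top (LU d) _)).comp ht
  rw [tau_U]
  refine ht2.congr fun n => ?_
  rw [tau_U]
  rfl

theorem dens_int (p : NNReal) (hp : p ≤ 1) :
    Integrable (fun k => (dens d p hp k).toReal) (volume.restrict (cube d)) :=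
  integrable_toReal_of_lintegral_ne_top (dens_meas p hp).aemeasurable
    (ne_top_of_le_ne_top ENNReal.ofReal_ne_top (int_dens_le p hp))

/-- the normalised density -/
def nd (d : ℕ) (p : NNReal) (hp : p ≤ 1) (k : Fin d → ℝ) : ℝ :=
  (dens d p hp k).toReal / (2 * Real.pi) ^ d

theorem nd_nonneg (p : NNReal) (hp : p ≤ 1) (k : Fin d → ℝ) : 0 ≤ nd d p hp k := by
  unfold nd
  have : 0 ≤ (dens d p hp k).toReal := ENNReal.toReal_nonneg
  positivity

theorem nd_int (p : NNReal) (hp : p ≤ 1) : Integrable (nd d p hp) (volume.restrict (cube d)) :=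
  (dens_int p hp).div_const _

theorem tau_fourier (p : NNReal) (hp : p ≤ 1)
    (hf : ∀ᵐ ω ∂(P d p hp), (Pool.Agent.J4.H67.PC.cl ω).Finite) (x : Fin d → ℤ) :
    tau d p hp x = ∫ k in cube d, nd d p hp k * Real.cos (dot k x) := by
  have h := fourier p hp x
  rw [tauf_eq p hp hf x] at h
  have h2 : ∀ k, nd d p hp k * Real.cos (dot k x) =
      ((dens d p hp k).toReal * Real.cos (dot k x)) / (2 * Real.pi) ^ d := by
    intro k; unfold nd; ring
  simp_rw [h2]
  rw [integral_div, h, mul_div_cancel_left₀ _ (by positivity)]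

theorem int_nd (p : NNReal) (hp : p ≤ 1)
    (hf : ∀ᵐ ω ∂(P d p hp), (Pool.Agent.J4.H67.PC.cl ω).Finite) :
    ∫ k in cube d, nd d p hp k = 1 := by
  have h := tau_fourier p hp hf 0
  rw [tau_zero] at h
  rw [h]
  refine integral_congr_ae (Eventually.of_forall fun k => ?_)
  show nd d p hp k = nd d p hp k * Real.cos (dot k 0)
  have : dot k 0 = 0 := by simp [dot]
  rw [this, Real.cos_zero, mul_one]

theorem Tw_tau (p : NNReal) (hp : p ≤ 1)
    (hf : ∀ᵐ ω ∂(P d p hp), (Pool.Agent.J4.H67.PC.cl ω).Finite) (n : ℕ) :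
    Tw^[n] (tau d p hp) 0 = ∫ k in cube d, nd d p hp k * mlt k ^ n := by
  have h : tau d p hp = fun x => ∫ k in cube d, nd d p hp k * Real.cos (dot k x) :=
    funext (tau_fourier p hp hf)
  rw [h, Tw_iter (nd_int p hp)]
  refine integral_congr_ae (Eventually.of_forall fun k => ?_)
  show nd d p hp k * mlt k ^ n * Real.cos (dot k 0) = nd d p hp k * mlt k ^ n
  have : dot k 0 = 0 := by simp [dot]
  rw [this, Real.cos_zero, mul_one]

theorem int_nd_sm (p : NNReal) (hp : p ≤ 1) (S : Set (Fin d → ℝ)) (m : ℝ) (hm : 0 ≤ m)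
    (h : ∫⁻ k in cube d ∩ S, dens d p hp k ≤ ENNReal.ofReal m) :
    ∫ k in cube d ∩ S, nd d p hp k ≤ m / (2 * Real.pi) ^ d := by
  unfold nd
  rw [integral_div]
  refine div_le_div_of_nonneg_right ?_ (by positivity)
  rw [integral_toReal (dens_meas p hp).aemeasurable
    (ae_mono (Measure.restrict_mono inter_subset_left le_rfl) (dens_fin p hp))]
  exact ENNReal.toReal_le_of_le_ofReal hm h

theorem Tw_tau_le (p : NNReal) (hp : p ≤ 1)
    (hf : ∀ᵐ ω ∂(P d p hp), (Pool.Agent.J4.H67.PC.cl ω).Finite) (n : ℕ) (r m : ℝ) (hr : 0 ≤ r)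
    (hm : 0 ≤ m) (h : ∫⁻ k in cube d ∩ sm d r, dens d p hp k ≤ ENNReal.ofReal m) :
    Tw^[n] (tau d p hp) 0 ≤ m / (2 * Real.pi) ^ d + Real.exp (-(n * r ^ 2 / (d * Real.pi ^ 2))) := by
  rw [Tw_tau p hp hf]
  have hi : Integrable (fun k => nd d p hp k * mlt k ^ n) (volume.restrict (cube d)) := by
    refine (nd_int p hp).mul_bdd (c := 1) ((mlt_cont.pow n).aestronglyMeasurable)
      (Eventually.of_forall fun k => ?_)
    rw [Real.norm_eq_abs, abs_of_nonneg (pow_nonneg (mlt_nonneg k) n)]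
    exact pow_le_one₀ (mlt_nonneg k) (mlt_le_one k)
  have hsplit : ∫ k in cube d, nd d p hp k * mlt k ^ n =
      (∫ k in cube d ∩ sm d r, nd d p hp k * mlt k ^ n) +
      ∫ k in cube d \ sm d r, nd d p hp k * mlt k ^ n :=
    (integral_inter_add_sdiff (sm_meas r) hi).symm
  rw [hsplit]
  refine add_le_add ?_ ?_
  · refine le_trans (integral_mono (hi.mono_measure (Measure.restrict_mono inter_subset_left le_rfl))
      ((nd_int p hp).mono_measure (Measure.restrict_mono inter_subset_left le_rfl)) fun k => ?_)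
      (int_nd_sm p hp (sm d r) m hm h)
    exact mul_le_of_le_one_right (nd_nonneg p hp k) (pow_le_one₀ (mlt_nonneg k) (mlt_le_one k))
  · set c := Real.exp (-(n * r ^ 2 / (d * Real.pi ^ 2))) with hc
    calc ∫ k in cube d \ sm d r, nd d p hp k * mlt k ^ n
        ≤ ∫ k in cube d \ sm d r, nd d p hp k * c := by
          refine setIntegral_mono_on (hi.mono_measure (Measure.restrict_mono sdiff_subset le_rfl))
            (((nd_int p hp).mul_const c).mono_measure (Measure.restrict_mono sdiff_subset le_rfl))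
            (cube_meas.diff (sm_meas r)) fun k hk => ?_
          exact mul_le_mul_of_nonneg_left (mlt_pow_le hk.1 hr hk.2 n) (nd_nonneg p hp k)
      _ ≤ ∫ k in cube d, nd d p hp k * c := by
          refine integral_mono_measure (Measure.restrict_mono sdiff_subset le_rfl)
            (Eventually.of_forall fun k => mul_nonneg (nd_nonneg p hp k) (Real.exp_nonneg _))
            ((nd_int p hp).mul_const c)
      _ = c := by rw [integral_mul_const, int_nd p hp hf, one_mul]

/-- at the critical point -/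
theorem Tw_crit_le (n : ℕ) (r m : ℝ) (hr : 0 ≤ r) (hm : 0 ≤ m)
    (h : ∀ (p : NNReal) (hp : p ≤ 1), p < pcrit d →
      ∫⁻ k in cube d ∩ sm d r, dens d p hp k ≤ ENNReal.ofReal m) :
    Tw^[n] (tau d (pcrit d) pcrit_le) 0 ≤
      m / (2 * Real.pi) ^ d + Real.exp (-(n * r ^ 2 / (d * Real.pi ^ 2))) := by
  obtain ⟨u, hu, -, hlt, -, -, ht⟩ := tau_left (d := d) (pcrit d) pcrit_le pcrit_pos
  refine le_of_tendsto (Tw_iter_tendsto ht n 0) (Eventually.of_forall fun j => ?_)
  exact Tw_tau_le (u j) (hu j) (fin_of_lt (u j) (hu j) (hlt j)) n r m hr hm (h _ _ (hlt j))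

/-- **The one-arm probability at the critical point and the mass near the origin.** -/
theorem arm_mass (hd : 1 ≤ d) : ∃ C : ℝ, 1 ≤ C ∧ ∀ (n L : ℕ) (r m : ℝ), 1 ≤ L → n ≤ L → 0 ≤ r →
    0 ≤ m → (∀ (p : NNReal) (hp : p ≤ 1), p < pcrit d →
      ∫⁻ k in cube d ∩ sm d r, dens d p hp k ≤ ENNReal.ofReal m) →
    arm d (pcrit d) pcrit_le (L + n) ^ 2 ≤ m / (2 * Real.pi) ^ d +
      Real.exp (-(n * r ^ 2 / (d * Real.pi ^ 2))) +
      C * ((n : ℝ) + 1) ^ (2 * d ^ 2 + 3 * d) / √(L : ℝ) := by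
  obtain ⟨C, hC, h⟩ := arm_sq hd
  refine ⟨C, hC, fun n L r m hL hnL hr hm hmass => ?_⟩
  have h1 := Tw_iter_lower hd (g := tau d (pcrit d) pcrit_le)
    (c := arm d (pcrit d) pcrit_le (L + n) ^ 2 -
      C * ((n : ℝ) + 1) ^ (2 * d ^ 2 + 3 * d) / √(L : ℝ)) n 0 (fun x hx => by
        have := h n L x hL hnL (fun i => by simpa using hx i)
        linarith) 0 (fun i => by simp)
  have h2 := Tw_crit_le n r m hr hm hmass
  linarith

end

end Pool.Agent.J4.H90.Perc
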