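import Pool.Agent.J4.H90.Perc.Shell

/-!
The modulus of uniform integrability of the spectral densities below the critical point, and the tail
of the volume of the cluster at the critical point.
-/

set_option autoImplicit false
set_option linter.deprecated false

open MeasureTheory Set Filter
open scoped Topology

namespace Pool.Agent.J4.H90.Perc

open Pool.Agent.Results.MP_54f242_pr.InfraredMean (opn P tau cube dot Dhat Dhat_le cube_meas cube_fin
  cos_mul_Dhat tau_mono tau_zero tau_nonneg tau_le_one)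
open Pool.Agent.J4.H67.PC (LU conf dens tauf tauf_eq fourier dens_meas dens_fin int_dens_le
  map_conf meas_conf reach_left conf_mono ps ps_eq ps_nonneg ps_cont cl cf meas_cf meas_fin mem_cf
  coe_cf cl_mono FF FF_meas FF_empty int_FF_le meas_joint')

noncomputable section

variable {d : ℕ}

/-- the volume in the coupling -/
theorem vol_mono (p q : NNReal) (hp : p ≤ 1) (hq : q ≤ 1) (h : p ≤ q) (n : ℕ) :
    vol d p hp n ≤ vol d q hq n := by
  unfold vol
  rw [← map_conf p hp, ← map_conf q hq, Measure.map_apply (meas_conf _) (vol_meas n),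
    Measure.map_apply (meas_conf _) (vol_meas n)]
  refine ENNReal.toReal_mono (measure_ne_top _ _) (measure_mono fun U hU => ?_)
  have hU' : (n : ℕ∞) ≤ (cl (conf (p : ℝ) U)).encard := hU
  exact hU'.trans (Set.encard_le_encard (cl_mono (by exact_mod_cast h) U))

/-- the part of the density from the large clusters -/
def big (d : ℕ) (p : NNReal) (hp : p ≤ 1) (N : ℕ) (k : Fin d → ℝ) : ENNReal :=
  ∫⁻ ω, indicator {ω | N < (cf ω).card} (fun ω => FF (cf ω) k) ω ∂(P d p hp)

theorem card_set_meas (N : ℕ) : MeasurableSet {ω : (Fin d → ℤ) × Fin d → Bool | N < (cf ω).card} := by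
  have : Measurable fun ω : (Fin d → ℤ) × Fin d → Bool => (cf ω).card :=
    (measurable_of_countable (fun A : Finset (Fin d → ℤ) => A.card)).comp meas_cf
  exact measurableSet_lt measurable_const this

theorem big_joint (N : ℕ) : Measurable (fun z : ((Fin d → ℤ) × Fin d → Bool) × (Fin d → ℝ) =>
    indicator {ω : (Fin d → ℤ) × Fin d → Bool | N < (cf ω).card} (fun ω => FF (cf ω) z.2) z.1) := by
  have h : (fun z : ((Fin d → ℤ) × Fin d → Bool) × (Fin d → ℝ) =>
    indicator {ω : (Fin d → ℤ) × Fin d → Bool | N < (cf ω).card} (fun ω => FF (cf ω) z.2) z.1) =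
      indicator (Prod.fst ⁻¹' {ω : (Fin d → ℤ) × Fin d → Bool | N < (cf ω).card})
        (fun z => FF (cf z.1) z.2) := by
    funext z
    by_cases hz : N < (cf z.1).card
    · rw [indicator_of_mem (show z.1 ∈ {ω : (Fin d → ℤ) × Fin d → Bool | N < (cf ω).card} from hz),
        indicator_of_mem (show z ∈ Prod.fst ⁻¹' {ω : (Fin d → ℤ) × Fin d → Bool |
          N < (cf ω).card} from hz)]
    · rw [indicator_of_notMem (show z.1 ∉ {ω : (Fin d → ℤ) × Fin d → Bool | N < (cf ω).card} from hz),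
        indicator_of_notMem (show z ∉ Prod.fst ⁻¹' {ω : (Fin d → ℤ) × Fin d → Bool |
          N < (cf ω).card} from hz)]
  rw [h]
  exact meas_joint'.indicator (measurable_fst (card_set_meas N))

theorem dens_le_big (p : NNReal) (hp : p ≤ 1) (N : ℕ) (k : Fin d → ℝ) :
    dens d p hp k ≤ N + big d p hp N k := by
  have h1 : dens d p hp k = ∫⁻ ω, FF (cf ω) k ∂(P d p hp) := rfl
  have h2 : ∀ ω : (Fin d → ℤ) × Fin d → Bool, FF (cf ω) k ≤
      N + indicator {ω | N < (cf ω).card} (fun ω => FF (cf ω) k) ω := by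
    intro ω
    by_cases h : N < (cf ω).card
    · rw [indicator_of_mem (show ω ∈ {ω : (Fin d → ℤ) × Fin d → Bool | N < (cf ω).card} from h)]
      exact le_add_self
    · refine (FF_le_card _ k).trans (le_add_right ?_)
      push Not at h
      exact_mod_cast h
  rw [h1]
  refine (lintegral_mono h2).trans ?_
  rw [lintegral_add_left measurable_const]
  simp only [lintegral_const, measure_univ, mul_one]
  exact le_rfl

theorem dens_le_two_big (p : NNReal) (hp : p ≤ 1) (N : ℕ) (k : Fin d → ℝ)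
    (h : (2 * N : ENNReal) < dens d p hp k) : dens d p hp k ≤ 2 * big d p hp N k := by
  have h1 := dens_le_big p hp N k
  by_cases ht : dens d p hp k = ⊤
  · rw [ht] at h1 ⊢
    have h2 : big d p hp N k = ⊤ := by
      rcases ENNReal.add_eq_top.1 (top_le_iff.1 h1) with h3 | h3
      · exact absurd h3 (ENNReal.natCast_ne_top N)
      · exact h3
    rw [h2]; simp
  · have h2 : dens d p hp k + dens d p hp k ≤ dens d p hp k + 2 * big d p hp N k := by
      calc dens d p hp k + dens d p hp k = 2 * dens d p hp k := (two_mul _).symm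
        _ ≤ 2 * (N + big d p hp N k) := mul_le_mul_right h1 _
        _ = 2 * N + 2 * big d p hp N k := mul_add _ _ _
        _ ≤ dens d p hp k + 2 * big d p hp N k := add_le_add h.le le_rfl
    exact (ENNReal.add_le_add_iff_left ht).1 h2

theorem int_big (p : NNReal) (hp : p ≤ 1) (N : ℕ) :
    ∫⁻ k in cube d, big d p hp N k ≤ ENNReal.ofReal ((2 * Real.pi) ^ d * vol d p hp N) := by
  unfold big
  rw [lintegral_lintegral_swap]
  · have h1 : ∀ ω : (Fin d → ℤ) × Fin d → Bool,
        ∫⁻ k in cube d, indicator {ω | N < (cf ω).card} (fun ω => FF (cf ω) k) ω ≤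
        indicator {ω | (N : ℕ∞) ≤ (cl ω).encard} (fun _ => ENNReal.ofReal ((2 * Real.pi) ^ d)) ω := by
      intro ω
      by_cases h : N < (cf ω).card
      · have hf : (cl ω).Finite := by
          by_contra hc
          have : cf ω = ∅ := by
            ext x; rw [mem_cf]; simp [hc]
          rw [this] at h
          simp at h
        have hmem : ω ∈ {ω : (Fin d → ℤ) × Fin d → Bool | (N : ℕ∞) ≤ (cl ω).encard} := by
          show (N : ℕ∞) ≤ (cl ω).encard
          rw [← coe_cf hf, Set.encard_coe_eq_coe_finsetCard]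
          exact_mod_cast h.le
        rw [indicator_of_mem hmem]
        refine le_trans (lintegral_mono fun k => ?_) (int_FF_le (cf ω))
        exact indicator_le_self' (fun _ _ => zero_le) ω
      · have h0 : ∀ k : Fin d → ℝ, indicator {ω : (Fin d → ℤ) × Fin d → Bool | N < (cf ω).card}
            (fun ω => FF (cf ω) k) ω = 0 := fun k => indicator_of_notMem
              (show ω ∉ {ω : (Fin d → ℤ) × Fin d → Bool | N < (cf ω).card} from h) _
        simp_rw [h0]
        simp
    refine (lintegral_mono h1).trans ?_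
    rw [lintegral_indicator (vol_meas N), setLIntegral_const, ENNReal.ofReal_mul (by positivity)]
    refine mul_le_mul_right (le_of_eq ?_) _
    unfold vol
    rw [ENNReal.ofReal_toReal (measure_ne_top _ _)]
  · exact ((big_joint (d := d) N).comp measurable_swap).aemeasurable

/-- **The part of the density above `2 N` is controlled by the clusters of volume at least `N`.** -/
theorem tail_le (p : NNReal) (hp : p ≤ 1) (N : ℕ) :
    ∫⁻ k in cube d ∩ {k | (2 * N : ENNReal) < dens d p hp k}, dens d p hp k ≤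
      ENNReal.ofReal (2 * (2 * Real.pi) ^ d * vol d p hp N) := by
  have hm : MeasurableSet {k | (2 * N : ENNReal) < dens d p hp k} :=
    measurableSet_lt measurable_const (dens_meas p hp)
  have hbm : Measurable (big d p hp N) := (big_joint (d := d) N).lintegral_prod_left'
  calc ∫⁻ k in cube d ∩ {k | (2 * N : ENNReal) < dens d p hp k}, dens d p hp k
      ≤ ∫⁻ k in cube d ∩ {k | (2 * N : ENNReal) < dens d p hp k}, 2 * big d p hp N k :=
        setLIntegral_mono' (cube_meas.inter hm) fun k hk => dens_le_two_big p hp N k hk.2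
    _ ≤ ∫⁻ k in cube d, 2 * big d p hp N k := lintegral_mono_set inter_subset_left
    _ = 2 * ∫⁻ k in cube d, big d p hp N k := lintegral_const_mul _ hbm
    _ ≤ 2 * ENNReal.ofReal ((2 * Real.pi) ^ d * vol d p hp N) := mul_le_mul_right (int_big p hp N) _
    _ = _ := by
        rw [show (2 : ENNReal) = ENNReal.ofReal 2 by simp, ← ENNReal.ofReal_mul (by norm_num)]
        congr 1
        ring

/-- the modulus of uniform integrability of the densities below the critical point -/
def UU (d : ℕ) (T : ENNReal) : ENNReal :=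
  ⨆ (p : NNReal) (hp : p ≤ 1) (_ : p < pcrit d),
    ∫⁻ k in cube d ∩ {k | T < dens d p hp k}, dens d p hp k

theorem le_UU (T : ENNReal) (p : NNReal) (hp : p ≤ 1) (h : p < pcrit d) :
    ∫⁻ k in cube d ∩ {k | T < dens d p hp k}, dens d p hp k ≤ UU d T := by
  unfold UU
  exact le_iSup_of_le p (le_iSup_of_le hp (le_iSup_of_le h le_rfl))

theorem UU_anti : Antitone (UU d) := by
  intro S T hST
  unfold UU
  refine iSup_le fun p => iSup_le fun hp => iSup_le fun h => ?_
  refine le_iSup_of_le p (le_iSup_of_le hp (le_iSup_of_le h ?_))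
  exact lintegral_mono_set (inter_subset_inter_right _ fun k hk => lt_of_le_of_lt hST hk)

theorem UU_le (T : ENNReal) : UU d T ≤ ENNReal.ofReal ((2 * Real.pi) ^ d) := by
  unfold UU
  refine iSup_le fun p => iSup_le fun hp => iSup_le fun _ => ?_
  exact (lintegral_mono_set inter_subset_left).trans (int_dens_le p hp)

theorem UU_ne_top (T : ENNReal) : UU d T ≠ ⊤ := ne_top_of_le_ne_top ENNReal.ofReal_ne_top (UU_le T)

theorem UU_le_vol (N : ℕ) : UU d (2 * N) ≤
    ENNReal.ofReal (2 * (2 * Real.pi) ^ d * vol d (pcrit d) pcrit_le N) := by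
  unfold UU
  refine iSup_le fun p => iSup_le fun hp => iSup_le fun h => ?_
  refine (tail_le p hp N).trans (ENNReal.ofReal_le_ofReal ?_)
  exact mul_le_mul_of_nonneg_left (vol_mono p _ hp pcrit_le h.le N) (by positivity)

/-- the mass of a set -/
theorem set_le (T : ℝ) (S : Set (Fin d → ℝ)) (p : NNReal) (hp : p ≤ 1)
    (h : p < pcrit d) : ∫⁻ k in cube d ∩ S, dens d p hp k ≤
      ENNReal.ofReal T * volume (cube d ∩ S) + UU d (ENNReal.ofReal T) := by
  set D := {k | ENNReal.ofReal T < dens d p hp k} with hD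
  have hDm : MeasurableSet D := measurableSet_lt measurable_const (dens_meas p hp)
  have h1 : cube d ∩ S ⊆ ((cube d ∩ S) ∩ Dᶜ) ∪ (cube d ∩ D) := by
    intro k hk
    by_cases hkD : k ∈ D
    · exact Or.inr ⟨hk.1, hkD⟩
    · exact Or.inl ⟨hk, hkD⟩
  refine (lintegral_mono_set h1).trans ((lintegral_union_le _ _ _).trans ?_)
  refine add_le_add ?_ (le_UU _ p hp h)
  rw [← setLIntegral_const]
  rw [inter_comm, ← Measure.restrict_restrict hDm.compl]
  refine (setLIntegral_mono' hDm.compl fun k hk => ?_).trans (setLIntegral_le_lintegral _ _)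
  exact not_lt.1 hk

/-- **The tail of the volume at the critical point is controlled by the modulus.** -/
theorem vol_sq_le (hd : 1 ≤ d) : ∃ C : ℝ, 0 ≤ C ∧ ∀ N : ℕ, 1 ≤ N →
    vol d (pcrit d) pcrit_le N ^ 2 ≤
      (UU d (ENNReal.ofReal ((N : ℝ) ^ (1 / (32 * d * (2 * (d : ℝ) ^ 2 + 3 * d + 1)))))).toReal /
        (2 * Real.pi) ^ d + C * (N : ℝ) ^ (-(1 / (32 * d * (2 * (d : ℝ) ^ 2 + 3 * d + 1)))) := by
  obtain ⟨C1, hC1, h1⟩ := arm_mass hd
  set K := 2 * d ^ 2 + 3 * d with hK
  set A := 2 * K + 2 with hA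
  have hd0 : (0 : ℝ) < d := by exact_mod_cast hd
  have hd1 : (1 : ℝ) ≤ d := by exact_mod_cast hd
  set κ : ℝ := 1 / (32 * d * (2 * (d : ℝ) ^ 2 + 3 * d + 1)) with hκ
  have hκ0 : 0 < κ := by positivity
  have hκA : κ = 1 / (16 * (A : ℝ) * d) := by
    rw [hκ, hA, hK]; push_cast; congr 1; ring
  set C2 : ℝ := 2 ^ d / (2 * Real.pi) ^ d + 2 * (d * Real.pi ^ 2) ^ 2 + C1 * 2 ^ K with hC2
  have hC2n : 0 ≤ C2 := by positivity
  have key : ∀ t : ℕ, 1 ≤ t → arm d (pcrit d) pcrit_le (2 * t ^ A) ^ 2 ≤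
      (UU d (ENNReal.ofReal ((t : ℝ) ^ (1 / 8 : ℝ)))).toReal / (2 * Real.pi) ^ d +
        C2 * (t : ℝ) ^ (-(1 / 8 : ℝ)) := by
    intro t ht
    have ht0 : (0 : ℝ) < t := by exact_mod_cast ht
    have ht1 : (1 : ℝ) ≤ t := by exact_mod_cast ht
    have htA : t ≤ t ^ A := Nat.le_self_pow (by omega) t
    set r : ℝ := (t : ℝ) ^ (-(1 / 4 : ℝ)) with hr
    have hr0 : 0 < r := Real.rpow_pos_of_pos ht0 _
    have hr1 : r ≤ 1 := Real.rpow_le_one_of_one_le_of_nonpos ht1 (by norm_num)
    set T : ℝ := (t : ℝ) ^ (1 / 8 : ℝ) with hT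
    have hT0 : 0 < T := Real.rpow_pos_of_pos ht0 _
    set m : ℝ := T * (2 * r) ^ d + (UU d (ENNReal.ofReal T)).toReal with hm
    have hm0 : 0 ≤ m := by
      have : 0 ≤ (UU d (ENNReal.ofReal T)).toReal := ENNReal.toReal_nonneg
      positivity
    have h2 := h1 t (t ^ A) r m (Nat.one_le_pow _ _ ht) htA hr0.le hm0
      (fun p hp hlt => by
        refine (set_le T (sm d r) p hp hlt).trans ?_
        rw [hm, ENNReal.ofReal_add (by positivity) ENNReal.toReal_nonneg,
          ENNReal.ofReal_toReal (UU_ne_top _), ENNReal.ofReal_mul hT0.le]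
        refine add_le_add (mul_le_mul_right ?_ _) le_rfl
        rw [← sm_vol r hr0.le]
        exact measure_mono inter_subset_right)
    -- the exponents
    have e2 : r ^ 2 = (t : ℝ) ^ (-(1 / 2 : ℝ)) := by
      rw [hr, ← Real.rpow_natCast, ← Real.rpow_mul ht0.le]; congr 1; norm_num
    have hle : (t : ℝ)⁻¹ ≤ (t : ℝ) ^ (-(1 / 8 : ℝ)) := by
      rw [← Real.rpow_neg_one]
      exact Real.rpow_le_rpow_of_exponent_le ht1 (by norm_num)
    have e1 : T * (2 * r) ^ d ≤ 2 ^ d * (t : ℝ) ^ (-(1 / 8 : ℝ)) := by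
      have h3 : r ^ d ≤ r := pow_le_of_le_one hr0.le hr1 (by omega)
      have h4 : T * r = (t : ℝ) ^ (-(1 / 8 : ℝ)) := by
        rw [hT, hr, ← Real.rpow_add ht0]; congr 1; norm_num
      calc T * (2 * r) ^ d = 2 ^ d * (T * r ^ d) := by rw [mul_pow]; ring
        _ ≤ 2 ^ d * (T * r) := by gcongr
        _ = _ := by rw [h4]
    have e3 : Real.exp (-((t : ℝ) * r ^ 2 / (d * Real.pi ^ 2))) ≤
        2 * (d * Real.pi ^ 2) ^ 2 * (t : ℝ)⁻¹ := by
      set z : ℝ := (t : ℝ) * r ^ 2 / (d * Real.pi ^ 2) with hz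
      have hz0 : 0 < z := by positivity
      have h3 : z ^ 2 / 2 ≤ Real.exp z := by
        have := Real.quadratic_le_exp_of_nonneg hz0.le
        nlinarith
      have h4 : z ^ 2 = t / (d * Real.pi ^ 2) ^ 2 := by
        rw [hz, div_pow, mul_pow, e2, ← Real.rpow_natCast, ← Real.rpow_natCast,
          ← Real.rpow_mul ht0.le, ← Real.rpow_add ht0]
        congr 1
        norm_num
      rw [Real.exp_neg]
      calc (Real.exp z)⁻¹ ≤ (z ^ 2 / 2)⁻¹ := inv_anti₀ (by positivity) h3
        _ = _ := by rw [h4]; field_simp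
    have e4 : C1 * ((t : ℝ) + 1) ^ K / √((t ^ A : ℕ) : ℝ) ≤ C1 * 2 ^ K * (t : ℝ)⁻¹ := by
      have h3 : √((t ^ A : ℕ) : ℝ) = (t : ℝ) ^ (K + 1) := by
        push_cast
        rw [hA, show 2 * K + 2 = (K + 1) * 2 by ring, pow_mul, Real.sqrt_sq (by positivity)]
      rw [h3]
      have h4 : ((t : ℝ) + 1) ^ K ≤ (2 * t) ^ K := pow_le_pow_left₀ (by positivity) (by linarith) K
      calc C1 * ((t : ℝ) + 1) ^ K / (t : ℝ) ^ (K + 1) ≤ C1 * (2 * t) ^ K / (t : ℝ) ^ (K + 1) := by
            gcongr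
        _ = C1 * 2 ^ K * (t : ℝ)⁻¹ := by
            rw [mul_pow, pow_succ]; field_simp
    have h4 : arm d (pcrit d) pcrit_le (2 * t ^ A) ≤ arm d (pcrit d) pcrit_le (t ^ A + t) :=
      arm_anti _ _ (by omega)
    refine (pow_le_pow_left₀ (arm_nonneg _ _ _) h4 2).trans (h2.trans ?_)
    have h5 : m / (2 * Real.pi) ^ d ≤ 2 ^ d / (2 * Real.pi) ^ d * (t : ℝ) ^ (-(1 / 8 : ℝ)) +
        (UU d (ENNReal.ofReal T)).toReal / (2 * Real.pi) ^ d := by
      rw [hm, add_div]
      refine add_le_add ?_ le_rfl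
      rw [div_mul_eq_mul_div]
      exact div_le_div_of_nonneg_right e1 (by positivity)
    have h6 : 2 * (d * Real.pi ^ 2) ^ 2 * (t : ℝ)⁻¹ ≤
        2 * (d * Real.pi ^ 2) ^ 2 * (t : ℝ) ^ (-(1 / 8 : ℝ)) :=
      mul_le_mul_of_nonneg_left hle (by positivity)
    have h7 : C1 * 2 ^ K * (t : ℝ)⁻¹ ≤ C1 * 2 ^ K * (t : ℝ) ^ (-(1 / 8 : ℝ)) :=
      mul_le_mul_of_nonneg_left hle (by positivity)
    rw [hC2, add_mul, add_mul]
    linarith
  -- all volumes
  have hA1 : (1 : ℝ) ≤ A := by
    have : 1 ≤ A := by omega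
    exact_mod_cast this
  have hA0 : (0 : ℝ) < A := by linarith
  set N0 : ℝ := (8 : ℝ) ^ (2 * (A : ℝ) * d) with hN0
  have hN0p : 0 < N0 := by positivity
  refine ⟨C2 + N0 ^ κ, by positivity, fun N hN => ?_⟩
  have hN1 : (1 : ℝ) ≤ N := by exact_mod_cast hN
  have hNp : (0 : ℝ) < N := by linarith
  have hNκ : 0 < (N : ℝ) ^ (-κ) := by positivity
  have hU0 : 0 ≤ (UU d (ENNReal.ofReal ((N : ℝ) ^ κ))).toReal / (2 * Real.pi) ^ d := by
    have : 0 ≤ (UU d (ENNReal.ofReal ((N : ℝ) ^ κ))).toReal := ENNReal.toReal_nonneg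
    positivity
  by_cases hcase : (N : ℝ) < N0
  · have h2 : vol d (pcrit d) pcrit_le N ^ 2 ≤ 1 := pow_le_one₀ (vol_nonneg _ _ _) (vol_le_one _ _ _)
    have h3 : 1 ≤ N0 ^ κ * (N : ℝ) ^ (-κ) := by
      rw [Real.rpow_neg hNp.le, ← div_eq_mul_inv, one_le_div (by positivity)]
      exact Real.rpow_le_rpow hNp.le hcase.le hκ0.le
    have h4 : 0 ≤ C2 * (N : ℝ) ^ (-κ) := by positivity
    nlinarith
  · push Not at hcase
    set y : ℝ := ((N : ℝ) / 4 ^ d) ^ (1 / ((A : ℝ) * d)) with hy
    have hy0 : 0 < y := by positivity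
    set t : ℕ := ⌊y⌋₊ with ht
    -- a lower bound for y
    have hyl : 2 * (N : ℝ) ^ (1 / (2 * (A : ℝ) * d)) ≤ y := by
      have h2 : (8 : ℝ) ≤ (N : ℝ) ^ (1 / (2 * (A : ℝ) * d)) := by
        have h3 : (8 : ℝ) = N0 ^ (1 / (2 * (A : ℝ) * d)) := by
          rw [hN0, ← Real.rpow_mul (by norm_num), mul_one_div, div_self (by positivity),
            Real.rpow_one]
        rw [h3]
        exact Real.rpow_le_rpow hN0p.le hcase (by positivity)
      have h3 : y = (N : ℝ) ^ (1 / (2 * (A : ℝ) * d)) * (N : ℝ) ^ (1 / (2 * (A : ℝ) * d)) *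
          ((4 : ℝ) ^ (1 / (A : ℝ)))⁻¹ := by
        rw [hy, Real.div_rpow hNp.le (by positivity), ← Real.rpow_add hNp, div_eq_mul_inv]
        congr 2
        · congr 1
          field_simp
          ring
        · rw [← Real.rpow_natCast, ← Real.rpow_mul (by norm_num)]
          congr 1
          field_simp
      have h4 : (4 : ℝ) ^ (1 / (A : ℝ)) ≤ 4 := by
        calc (4 : ℝ) ^ (1 / (A : ℝ)) ≤ (4 : ℝ) ^ (1 : ℝ) :=
              Real.rpow_le_rpow_of_exponent_le (by norm_num) (by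
                rw [div_le_one hA0]; exact hA1)
          _ = 4 := Real.rpow_one 4
      have h5 : (4 : ℝ)⁻¹ ≤ ((4 : ℝ) ^ (1 / (A : ℝ)))⁻¹ := inv_anti₀ (by positivity) h4
      rw [h3]
      set w := (N : ℝ) ^ (1 / (2 * (A : ℝ) * d)) with hw
      have h6 : w * w * (4 : ℝ)⁻¹ ≤ w * w * ((4 : ℝ) ^ (1 / (A : ℝ)))⁻¹ :=
        mul_le_mul_of_nonneg_left h5 (by positivity)
      nlinarith
    have hNw : (1 : ℝ) ≤ (N : ℝ) ^ (1 / (2 * (A : ℝ) * d)) := Real.one_le_rpow hN1 (by positivity)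
    have ht1 : 1 ≤ t := Nat.le_floor (by push_cast; linarith)
    have ht1' : (1 : ℝ) ≤ t := by exact_mod_cast ht1
    have hty : (t : ℝ) ≤ y := Nat.floor_le hy0.le
    have htl : (N : ℝ) ^ (1 / (2 * (A : ℝ) * d)) ≤ t := by
      have h4 : y < t + 1 := Nat.lt_floor_add_one y
      linarith
    have hvol : 2 ^ d * (2 * t ^ A) ^ d ≤ N := by
      have h2 : ((t : ℝ)) ^ (A * d) ≤ (N : ℝ) / 4 ^ d := by
        calc ((t : ℝ)) ^ (A * d) ≤ y ^ (A * d) := pow_le_pow_left₀ (by positivity) hty _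
          _ = (N : ℝ) / 4 ^ d := by
            rw [hy, ← Real.rpow_natCast, ← Real.rpow_mul (by positivity)]
            push_cast
            rw [one_div, inv_mul_cancel₀ (by positivity), Real.rpow_one]
      rw [le_div_iff₀ (by positivity)] at h2
      have h3 : (2 : ℝ) ^ d * (2 * (t : ℝ) ^ A) ^ d ≤ N := by
        calc (2 : ℝ) ^ d * (2 * (t : ℝ) ^ A) ^ d = (t : ℝ) ^ (A * d) * 4 ^ d := by
              rw [mul_pow, ← pow_mul, ← mul_assoc, ← mul_pow, mul_comm]; norm_num
          _ ≤ N := h2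
      exact_mod_cast h3
    have h2 : vol d (pcrit d) pcrit_le N ≤ arm d (pcrit d) pcrit_le (2 * t ^ A) :=
      (vol_anti _ _ hvol).trans (vol_le_arm hd _ _ (by
        have := Nat.one_le_pow A t ht1
        omega))
    have hTκ : (N : ℝ) ^ κ ≤ (t : ℝ) ^ (1 / 8 : ℝ) := by
      calc (N : ℝ) ^ κ = ((N : ℝ) ^ (1 / (2 * (A : ℝ) * d))) ^ (1 / 8 : ℝ) := by
            rw [← Real.rpow_mul hNp.le, hκA]
            congr 1
            field_simp
            ring
        _ ≤ (t : ℝ) ^ (1 / 8 : ℝ) := Real.rpow_le_rpow (by positivity) htl (by norm_num)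
    have h3 : (UU d (ENNReal.ofReal ((t : ℝ) ^ (1 / 8 : ℝ)))).toReal ≤
        (UU d (ENNReal.ofReal ((N : ℝ) ^ κ))).toReal :=
      ENNReal.toReal_mono (UU_ne_top _) (UU_anti (ENNReal.ofReal_le_ofReal hTκ))
    have h4 : (t : ℝ) ^ (-(1 / 8 : ℝ)) ≤ (N : ℝ) ^ (-κ) := by
      rw [Real.rpow_neg (by positivity), Real.rpow_neg hNp.le]
      exact inv_anti₀ (by positivity) hTκ
    calc vol d (pcrit d) pcrit_le N ^ 2 ≤ arm d (pcrit d) pcrit_le (2 * t ^ A) ^ 2 :=
          pow_le_pow_left₀ (vol_nonneg _ _ _) h2 2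
      _ ≤ _ := key t ht1
      _ ≤ (UU d (ENNReal.ofReal ((N : ℝ) ^ κ))).toReal / (2 * Real.pi) ^ d +
          C2 * (N : ℝ) ^ (-κ) := by
          refine add_le_add (div_le_div_of_nonneg_right h3 (by positivity)) ?_
          exact mul_le_mul_of_nonneg_left h4 hC2n
      _ ≤ _ := by
          refine add_le_add le_rfl ?_
          refine mul_le_mul_of_nonneg_right ?_ hNκ.le
          have : 0 ≤ N0 ^ κ := by positivity
          linarith

end

end Pool.Agent.J4.H90.Perc
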