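import Pool.Agent.J4.H90.Perc.Comb

/-!
The energy of the subcritical clusters inside the infinite cluster.
-/

set_option autoImplicit false
set_option linter.deprecated false

open MeasureTheory Set Filter
open scoped Topology

namespace Pool.Agent.J4.H90.Perc

open Pool.Agent.Results.MP_54f242_pr.InfraredMean (opn P tau cube dot Dhat Dhat_le cube_meas cube_fin
  cube_vol cos_mul_Dhat box box_card dot_sub integrable_of_cont int_cos int_cos_mul_cos int_term sh
  meas_reach)
open Pool.Agent.Y990.CB (Z Bo Bf mem_Bf card_Bf coe_Bf Perc Perc_meas bondM Mod mu G th)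
open Pool.Agent.W783.PC (pm DepOn Inc bern)
open Pool.Agent.J4.H67.PC (LU conf meas_conf map_conf conf_mono shift shift_reach cl cf mem_cf meas_cf
  meas_cl meas_fin)
open Pool.Agent.Helper401_FP (E ex ex_ed ed Ed exists_ed ex_meas map_restr)

noncomputable section

variable {d : ℕ}

/-- the labels -/
abbrev Lab (d : ℕ) : Type := (Fin d → ℤ) × Fin d → unitInterval

/-- the configuration of the general model at the level `c` -/
def zt (c : ℝ) (U : Lab d) : (bondM d).ι → Bool := ex (conf c U)

theorem zt_meas (c : ℝ) : Measurable (zt (d := d) c) := ex_meas.comp (meas_conf c)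

/-- the shift of the labels -/
def shU (u : Z d) (U : Lab d) : Lab d := fun e => U (sh u e)

theorem shU_meas (u : Z d) : Measurable (shU u) := measurable_pi_iff.2 fun _ => measurable_pi_apply _

theorem map_shU (u : Z d) : (LU d).map (shU u) = LU d :=
  MeasureTheory.Measure.map_infinitePi_infinitePi_of_inj (sh u).injective

theorem reach_shU (q : ℝ) (u : Z d) (U : Lab d) (a b : Z d) :
    (opn (conf q (shU u U))).Reachable a b ↔ (opn (conf q U)).Reachable (a + u) (b + u) :=
  shift_reach u (conf q U) a b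

theorem Perc_zt (c : ℝ) (U : Lab d) (x : Z d) :
    zt c U ∈ Perc (bondM d) x ↔ {y | (opn (conf c U)).Reachable x y}.Infinite := by
  show (Pool.Agent.Y990.CB.cl (bondM d) (ex (conf c U)) univ x).Infinite ↔ _
  unfold Pool.Agent.Y990.CB.cl
  rw [G_eq]

theorem inf_shU (c : ℝ) (U : Lab d) (x : Z d) :
    (cl (conf c (shU x U))).Infinite ↔ zt c U ∈ Perc (bondM d) x := by
  rw [Perc_zt]
  have h : {y | (opn (conf c U)).Reachable x y} = (fun y => y + x) '' (cl (conf c (shU x U))) := by
    ext y
    constructor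
    · intro hy
      refine ⟨y - x, ?_, sub_add_cancel y x⟩
      show (opn (conf c (shU x U))).Reachable 0 (y - x)
      rw [reach_shU, zero_add, sub_add_cancel]
      exact hy
    · rintro ⟨z, hz, rfl⟩
      have hz' : (opn (conf c (shU x U))).Reachable 0 z := hz
      rw [reach_shU, zero_add] at hz'
      exact hz'
  rw [h]
  exact (Set.infinite_image_iff (add_left_injective x).injOn).symm

theorem Perc_zt_shU (c : ℝ) (U : Lab d) (x y : Z d) :
    zt c (shU x U) ∈ Perc (bondM d) y ↔ zt c U ∈ Perc (bondM d) (y + x) := by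
  rw [Perc_zt, Perc_zt]
  have h : {z | (opn (conf c U)).Reachable (y + x) z} =
      (fun z => z + x) '' {z | (opn (conf c (shU x U))).Reachable y z} := by
    ext z
    constructor
    · intro hz
      refine ⟨z - x, ?_, sub_add_cancel z x⟩
      show (opn (conf c (shU x U))).Reachable y (z - x)
      rw [reach_shU, sub_add_cancel]
      exact hz
    · rintro ⟨w, hw, rfl⟩
      have hw' : (opn (conf c (shU x U))).Reachable y w := hw
      rw [reach_shU] at hw'
      exact hw'
  rw [h]
  exact (Set.infinite_image_iff (add_left_injective x).injOn).symm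

/-- transfer of the integrals -/
theorem int_zt (c : NNReal) (hc : c ≤ 1) {Φ : ((bondM d).ι → Bool) → ℝ} (hm : Measurable Φ)
    (hd : ∀ ω ω' : (bondM d).ι → Bool, (∀ s ∈ Ed d, ω s = ω' s) → Φ ω = Φ ω') :
    ∫ U, Φ (zt c U) ∂(LU d) = ∫ ω, Φ ω ∂(mu (bondM d) (uI c hc)) := by
  have hme : Measurable (fun η : E d → Bool => Φ (ex η)) := hm.comp ex_meas
  have h1 : ∫ U, Φ (zt c U) ∂(LU d) = ∫ η, Φ (ex η) ∂(P d c hc) := by
    rw [← map_conf c hc]
    exact (integral_map (μ := LU d) (meas_conf _).aemeasurable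
      (f := fun η => Φ (ex η)) hme.aestronglyMeasurable).symm
  have hr : Measurable (fun (ω : Sym2 (Z d) → Bool) (e : E d) => ω (ed e)) := by fun_prop
  have h2 : ∫ ω, Φ ω ∂(mu (bondM d) (uI c hc)) = ∫ ω, Φ ω ∂(pm (fun _ : Sym2 (Z d) => uI c hc)) := rfl
  have h3 := integral_map (μ := pm (fun _ : Sym2 (Z d) => uI c hc)) hr.aemeasurable
    (f := fun η => Φ (ex η)) hme.aestronglyMeasurable
  rw [map_restr (uI c hc)] at h3
  rw [h1, P_eq, h2, h3]
  refine integral_congr_ae (Eventually.of_forall fun ω => ?_)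
  show Φ (ex fun e => ω (ed e)) = Φ ω
  refine hd _ _ ?_
  rintro _ ⟨e, rfl⟩
  exact ex_ed _ e

/-- the energy of a finite set per vertex -/
def Gf (v : (Fin d → ℝ) → ℝ) (A : Finset (Z d)) : ℝ := bl v A 1 1 / A.card

theorem Gf_nonneg {v : (Fin d → ℝ) → ℝ} (hv : Mu v) (A : Finset (Z d)) : 0 ≤ Gf v A :=
  div_nonneg (en_nonneg hv A 1) (Nat.cast_nonneg _)

theorem Gf_le {v : (Fin d → ℝ) → ℝ} (hv : Mu v) (A : Finset (Z d)) : Gf v A ≤ 1 := by
  unfold Gf
  refine div_le_one_of_le₀ ((en_le hv A 1).trans (le_of_eq ?_)) (Nat.cast_nonneg _)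
  simp

theorem Gf_map (v : (Fin d → ℝ) → ℝ) (A : Finset (Z d)) (x : Z d) :
    Gf v (A.map (addRightEmbedding x)) = Gf v A := by
  unfold Gf bl
  rw [Finset.card_map, Finset.sum_map]
  congr 1
  refine Finset.sum_congr rfl fun u _ => ?_
  rw [Finset.sum_map]
  refine Finset.sum_congr rfl fun w _ => ?_
  simp only [addRightEmbedding_apply, Pi.one_apply]
  rw [add_sub_add_right_eq_sub]

open Classical in
/-- the energy of the small cluster of the origin inside the infinite cluster -/
def GG (v : (Fin d → ℝ) → ℝ) (p c : ℝ) (ρ : ℕ) (U : Lab d) : ℝ :=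
  {U : Lab d | (cl (conf c U)).Infinite}.indicator
    (fun U => if cf (conf p U) ⊆ Bf 0 ρ then Gf v (cf (conf p U)) else 0) U

theorem inf_meas (c : ℝ) : MeasurableSet {U : Lab d | (cl (conf c U)).Infinite} :=
  (meas_fin.compl).preimage (meas_conf c)

open Classical in
theorem GG_meas (v : (Fin d → ℝ) → ℝ) (p c : ℝ) (ρ : ℕ) : Measurable (GG (d := d) v p c ρ) := by
  unfold GG
  refine Measurable.indicator ?_ (inf_meas c)
  exact (measurable_of_countable (fun A : Finset (Z d) => if A ⊆ Bf 0 ρ then Gf v A else 0)).comp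
    (meas_cf.comp (meas_conf p))

theorem GG_nonneg {v : (Fin d → ℝ) → ℝ} (hv : Mu v) (p c : ℝ) (ρ : ℕ) (U : Lab d) :
    0 ≤ GG v p c ρ U := by
  unfold GG
  refine Set.indicator_nonneg (fun U _ => ?_) U
  split_ifs
  · exact Gf_nonneg hv _
  · exact le_rfl

theorem GG_le {v : (Fin d → ℝ) → ℝ} (hv : Mu v) (p c : ℝ) (ρ : ℕ) (U : Lab d) :
    GG v p c ρ U ≤ 1 := by
  unfold GG
  refine Set.indicator_le' (fun U _ => ?_) (fun _ _ => zero_le_one) U
  split_ifs
  · exact Gf_le hv _
  · exact zero_le_one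

theorem GG_int {v : (Fin d → ℝ) → ℝ} (hv : Mu v) (p c : ℝ) (ρ : ℕ) :
    Integrable (GG (d := d) v p c ρ) (LU d) :=
  Integrable.of_bound (GG_meas v p c ρ).aestronglyMeasurable 1 (Eventually.of_forall fun U => by
    rw [Real.norm_eq_abs, abs_of_nonneg (GG_nonneg hv p c ρ U)]
    exact GG_le hv p c ρ U)

/-- the relation given by the clusters at the level `p` -/
def Rl (p : ℝ) (U : Lab d) (x y : Z d) : Prop := (opn (conf p U)).Reachable x y

open Classical in
theorem GG_shU {v : (Fin d → ℝ) → ℝ} (hv : Mu v) (p c : ℝ) (ρ : ℕ) (U : Lab d)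
    (A : Finset (Z d)) (x : Z d) (hx : ∀ z ∈ Bf (0 : Z d) ρ, z + x ∈ A) :
    GG v p c ρ (shU x U) ≤ (Perc (bondM d) x).indicator 1 (zt c U) * Gf v (A.filter (Rl p U x)) := by
  have h0 : 0 ≤ (Perc (bondM d) x).indicator 1 (zt c U) * Gf v (A.filter (Rl p U x)) :=
    mul_nonneg (Set.indicator_nonneg (fun _ _ => zero_le_one) _) (Gf_nonneg hv _)
  unfold GG
  by_cases h1 : (cl (conf c (shU x U))).Infinite
  · rw [Set.indicator_of_mem (show shU x U ∈ {U : Lab d | (cl (conf c U)).Infinite} from h1)]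
    split_ifs with h2
    · have h3 : zt c U ∈ Perc (bondM d) x := (inf_shU c U x).1 h1
      rw [Set.indicator_of_mem h3, Pi.one_apply, one_mul]
      rcases (cf (conf p (shU x U))).eq_empty_or_nonempty with h4 | ⟨w, hw⟩
      · rw [h4]
        have : Gf v ∅ = 0 := by unfold Gf; simp
        rw [this]
        exact Gf_nonneg hv _
      · have hfin := ((mem_cf _ _).1 hw).1
        have h5 : A.filter (Rl p U x) = (cf (conf p (shU x U))).map (addRightEmbedding x) := by
          ext y
          rw [Finset.mem_filter, Finset.mem_map]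
          constructor
          · rintro ⟨_, h6⟩
            refine ⟨y - x, ?_, by simp⟩
            rw [mem_cf]
            refine ⟨hfin, ?_⟩
            show (opn (conf p (shU x U))).Reachable 0 (y - x)
            rw [reach_shU, zero_add, sub_add_cancel]
            exact h6
          · rintro ⟨z, hz, rfl⟩
            have h6 := (mem_cf _ _).1 hz
            have h7 : (opn (conf p (shU x U))).Reachable 0 z := h6.2
            rw [reach_shU, zero_add] at h7
            exact ⟨hx z (h2 hz), h7⟩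
        rw [h5, Gf_map]
    · exact h0
  · rw [Set.indicator_of_notMem (show shU x U ∉ {U : Lab d | (cl (conf c U)).Infinite} from h1)]
    exact h0

/-- the probability of two vertices of the infinite cluster not connected at the level `p` -/
def Bp (d : ℕ) (p c : ℝ) (N : ℕ) : ℝ := ∑ z ∈ Bf (0 : Z d) N, (LU d).real
  {U : Lab d | zt c U ∈ Perc (bondM d) 0 ∧ zt c U ∈ Perc (bondM d) z ∧ ¬ Rl p U 0 z}

theorem Bs_meas (p c : ℝ) (x y : Z d) : MeasurableSet
    {U : Lab d | zt c U ∈ Perc (bondM d) x ∧ zt c U ∈ Perc (bondM d) y ∧ ¬ Rl p U x y} := by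
  refine MeasurableSet.inter ((Perc_meas (bondM d) x).preimage (zt_meas c))
    (MeasurableSet.inter ((Perc_meas (bondM d) y).preimage (zt_meas c)) ?_)
  exact ((meas_reach x y).preimage (meas_conf p)).compl

open Classical in
theorem cnf_le (p c : ℝ) {N : ℕ} (hN : 0 < N) (L : ℕ) (U : Lab d) (x : Z d) :
    cnf (bondM d) N L (Rl p U) (zt c U) x ≤ ∑ z ∈ Bf (0 : Z d) N,
      {U : Lab d | zt c U ∈ Perc (bondM d) 0 ∧ zt c U ∈ Perc (bondM d) z ∧
        ¬ Rl p U 0 z}.indicator 1 (shU x U) := by
  unfold cnf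
  split_ifs with h
  · obtain ⟨y, _, h2, h3, h4, h5⟩ := h
    have hz : y - x ∈ Bf (0 : Z d) N := by
      rw [mem_Bf]
      intro i
      have h6 := congrFun h2 i
      unfold cell at h6
      have h7 := Int.mul_ediv_add_emod (x i) (N : ℤ)
      have h8 := Int.mul_ediv_add_emod (y i) (N : ℤ)
      have hN' : (0 : ℤ) < N := by exact_mod_cast hN
      have h9 := Int.emod_nonneg (x i) hN'.ne'
      have h10 := Int.emod_lt_of_pos (x i) hN'
      have h11 := Int.emod_nonneg (y i) hN'.ne'
      have h12 := Int.emod_lt_of_pos (y i) hN'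
      rw [h6] at h8
      simp only [Pi.sub_apply, Pi.zero_apply, sub_zero]
      rw [abs_le]
      constructor <;> linarith
    refine le_trans (le_of_eq ?_) (Finset.single_le_sum (f := fun z =>
      {U : Lab d | zt c U ∈ Perc (bondM d) 0 ∧ zt c U ∈ Perc (bondM d) z ∧
        ¬ Rl p U 0 z}.indicator (1 : Lab d → ℝ) (shU x U))
      (fun z _ => Set.indicator_nonneg (fun _ _ => zero_le_one) _) hz)
    have hm : shU x U ∈ {U : Lab d | zt c U ∈ Perc (bondM d) 0 ∧ zt c U ∈ Perc (bondM d) (y - x) ∧
        ¬ Rl p U 0 (y - x)} := by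
      refine ⟨?_, ?_, ?_⟩
      · rw [Perc_zt_shU, zero_add]; exact h3
      · rw [Perc_zt_shU, sub_add_cancel]; exact h4
      · intro h7
        have h8 : (opn (conf p (shU x U))).Reachable 0 (y - x) := h7
        rw [reach_shU, zero_add, sub_add_cancel] at h8
        exact h5 h8
    show (1 : ℝ) = _
    rw [Set.indicator_of_mem hm]
    rfl
  · exact Finset.sum_nonneg fun z _ => Set.indicator_nonneg (fun _ _ => zero_le_one) _

/-- the integral of a shifted indicator -/
theorem int_shU {S : Set (Lab d)} (hS : MeasurableSet S) (x : Z d) :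
    Integrable (fun U => S.indicator (1 : Lab d → ℝ) (shU x U)) (LU d) ∧
      ∫ U, S.indicator (1 : Lab d → ℝ) (shU x U) ∂(LU d) = (LU d).real S := by
  have hm : Measurable (S.indicator (1 : Lab d → ℝ)) := measurable_one.indicator hS
  constructor
  · refine Integrable.of_bound (hm.comp (shU_meas x)).aestronglyMeasurable 1
      (Eventually.of_forall fun U => ?_)
    show ‖S.indicator (1 : Lab d → ℝ) (shU x U)‖ ≤ 1
    by_cases h : shU x U ∈ S <;> simp [h]
  · have h := integral_map (μ := LU d) (shU_meas x).aemeasurable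
      (f := S.indicator (1 : Lab d → ℝ)) hm.aestronglyMeasurable
    rw [map_shU] at h
    rw [← h, integral_indicator_one hS]

theorem int_GG_shU (v : (Fin d → ℝ) → ℝ) (p c : ℝ) (ρ : ℕ) (x : Z d) :
    ∫ U, GG v p c ρ (shU x U) ∂(LU d) = ∫ U, GG v p c ρ U ∂(LU d) := by
  have h := integral_map (μ := LU d) (shU_meas x).aemeasurable
    (f := GG v p c ρ) (GG_meas v p c ρ).aestronglyMeasurable
  rw [map_shU] at h
  exact h.symm

theorem GG_shU_int {v : (Fin d → ℝ) → ℝ} (hv : Mu v) (p c : ℝ) (ρ : ℕ) (x : Z d) :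
    Integrable (fun U => GG v p c ρ (shU x U)) (LU d) :=
  Integrable.of_bound ((GG_meas v p c ρ).comp (shU_meas x)).aestronglyMeasurable 1
    (Eventually.of_forall fun U => by
      rw [Real.norm_eq_abs, abs_of_nonneg (GG_nonneg hv p c ρ _)]
      exact GG_le hv p c ρ _)

end

end Pool.Agent.J4.H90.Perc
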