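import Pool.Agent.J4.H90.Perc.Mass

/-!
Polynomial decay: from the mass near the origin to the one-arm probability, and from there to the
volume of the cluster.
-/

set_option autoImplicit false
set_option linter.deprecated false

open MeasureTheory Set Filter
open scoped Topology

namespace Pool.Agent.J4.H90.Perc

open Pool.Agent.Results.MP_54f242_pr.InfraredMean (opn P tau cube dot Dhat Dhat_le cube_meas cube_fin
  cos_mul_Dhat tau_mono tau_zero tau_nonneg)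
open Pool.Agent.J4.H67.PC (LU conf dens tauf tauf_eq fourier dens_meas dens_fin int_dens_le
  map_conf meas_conf reach_left conf_mono)
open Pool.Agent.Y990.CB (Z Bo Bf mem_Bf card_Bf coe_Bf nm)

noncomputable section

variable {d : ℕ}

/-- interpolation of a polynomial bound along a subsequence -/
theorem interp (f : ℕ → ℝ) (hf : Antitone f) (h1 : ∀ n, f n ≤ 1) (B A : ℕ) (hB : 1 ≤ B)
    (hA : 1 ≤ A) (b C : ℝ) (hb : 0 < b) (hC : 0 ≤ C)
    (h : ∀ t : ℕ, 1 ≤ t → f (B * t ^ A) ≤ C * (t : ℝ) ^ (-b)) :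
    ∀ N : ℕ, 1 ≤ N → f N ≤ ((C * 2 ^ b + 1) * (B : ℝ) ^ (b / A)) * (N : ℝ) ^ (-(b / A)) := by
  intro N hN
  have hB' : (0 : ℝ) < B := by exact_mod_cast hB
  have hN' : (0 : ℝ) < N := by exact_mod_cast hN
  have hA' : (0 : ℝ) < A := by exact_mod_cast hA
  have hbA : 0 < b / A := by positivity
  have e1 : (B : ℝ) ^ (b / A) * (N : ℝ) ^ (-(b / A)) = (N / B : ℝ) ^ (-(b / A)) := by
    rw [Real.div_rpow hN'.le hB'.le, Real.rpow_neg hB'.le, div_inv_eq_mul, mul_comm]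
  rw [mul_assoc, e1]
  by_cases hNB : N < B
  · have h2 : (1 : ℝ) ≤ (N / B : ℝ) ^ (-(b / A)) := by
      have h3 : (N / B : ℝ) ≤ 1 := by
        rw [div_le_one hB']; exact_mod_cast hNB.le
      exact Real.one_le_rpow_of_pos_of_le_one_of_nonpos (by positivity) h3 (by linarith)
    have h4 : (1 : ℝ) ≤ C * 2 ^ b + 1 := by
      have : (0 : ℝ) ≤ C * 2 ^ b := by positivity
      linarith
    calc f N ≤ 1 := h1 N
      _ ≤ (C * 2 ^ b + 1) * (N / B : ℝ) ^ (-(b / A)) := one_le_mul_of_one_le_of_one_le h4 h2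
  · push Not at hNB
    set x : ℝ := (N / B : ℝ) with hx
    have hx1 : 1 ≤ x := by rw [hx, le_div_iff₀ hB', one_mul]; exact_mod_cast hNB
    have hx0 : 0 < x := by linarith
    set y : ℝ := x ^ (1 / (A : ℝ)) with hy
    have hy1 : 1 ≤ y := Real.one_le_rpow hx1 (by positivity)
    set t : ℕ := ⌊y⌋₊ with ht
    have ht1 : 1 ≤ t := Nat.le_floor (by exact_mod_cast hy1)
    have hty : (t : ℝ) ≤ y := Nat.floor_le (by linarith)
    have hyA : y ^ A = x := by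
      rw [hy, ← Real.rpow_natCast, ← Real.rpow_mul hx0.le, one_div, inv_mul_cancel₀ hA'.ne',
        Real.rpow_one]
    have h2 : B * t ^ A ≤ N := by
      have h3 : ((t : ℝ)) ^ A ≤ x := by
        rw [← hyA]; exact pow_le_pow_left₀ (Nat.cast_nonneg _) hty A
      have h4 : (B : ℝ) * (t : ℝ) ^ A ≤ N := by
        have := mul_le_mul_of_nonneg_left h3 hB'.le
        rwa [hx, mul_div_cancel₀ _ hB'.ne'] at this
      exact_mod_cast h4
    have h3 : y / 2 ≤ t := by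
      have h4 : y < t + 1 := Nat.lt_floor_add_one y
      have h5 : (1 : ℝ) ≤ t := by exact_mod_cast ht1
      linarith
    have h4 : (t : ℝ) ^ (-b) ≤ (y / 2) ^ (-b) :=
      Real.rpow_le_rpow_of_nonpos (by positivity) h3 (by linarith)
    have h5 : (y / 2) ^ (-b) = 2 ^ b * x ^ (-(b / A)) := by
      rw [Real.div_rpow (by linarith) (by norm_num), Real.rpow_neg (by norm_num : (0 : ℝ) ≤ 2),
        div_inv_eq_mul, mul_comm, hy, ← Real.rpow_mul hx0.le]
      congr 2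
      ring
    calc f N ≤ f (B * t ^ A) := hf h2
      _ ≤ C * (t : ℝ) ^ (-b) := h t ht1
      _ ≤ C * (2 ^ b * x ^ (-(b / A))) := by
          rw [← h5]; exact mul_le_mul_of_nonneg_left h4 hC
      _ ≤ (C * 2 ^ b + 1) * x ^ (-(b / A)) := by
          have : 0 ≤ x ^ (-(b / A)) := Real.rpow_nonneg hx0.le _
          nlinarith

/-- from the mass near the origin to the one-arm probability -/
theorem arm_of_mass (hd : 1 ≤ d) (a C0 : ℝ) (ha : 0 < a) (ha4 : a ≤ 4) (hC0 : 0 ≤ C0)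
    (h : ∀ (p : NNReal) (hp : p ≤ 1), p < pcrit d → ∀ r : ℝ, 0 < r → r ≤ 1 →
      ∫⁻ k in cube d ∩ sm d r, dens d p hp k ≤ ENNReal.ofReal (C0 * r ^ a)) :
    ∃ C : ℝ, 0 ≤ C ∧ ∀ N : ℕ, 1 ≤ N → arm d (pcrit d) pcrit_le N ≤
      C * (N : ℝ) ^ (-(a / (16 * (2 * d ^ 2 + 3 * d + 1)))) := by
  obtain ⟨C1, hC1, h1⟩ := arm_mass hd
  set K := 2 * d ^ 2 + 3 * d with hK
  set A := 2 * K + 2 with hA
  have hd0 : (0 : ℝ) < d := by exact_mod_cast hd
  set C2 : ℝ := C0 / (2 * Real.pi) ^ d + 2 * (d * Real.pi ^ 2) ^ 2 + C1 * 2 ^ K with hC2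
  have hC2n : 0 ≤ C2 := by positivity
  have key : ∀ t : ℕ, 1 ≤ t → arm d (pcrit d) pcrit_le (2 * t ^ A) ≤ √C2 * (t : ℝ) ^ (-(a / 8)) := by
    intro t ht
    have ht0 : (0 : ℝ) < t := by exact_mod_cast ht
    have ht1 : (1 : ℝ) ≤ t := by exact_mod_cast ht
    have htA : t ≤ t ^ A := Nat.le_self_pow (by omega) t
    set r : ℝ := (t : ℝ) ^ (-(1 / 4 : ℝ)) with hr
    have hr0 : 0 < r := Real.rpow_pos_of_pos ht0 _
    have hr1 : r ≤ 1 := Real.rpow_le_one_of_one_le_of_nonpos ht1 (by norm_num)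
    have h2 := h1 t (t ^ A) r (C0 * r ^ a) (Nat.one_le_pow _ _ ht) htA hr0.le (by positivity)
      (fun p hp hlt => h p hp hlt r hr0 hr1)
    -- the exponents
    have e1 : r ^ a = (t : ℝ) ^ (-(a / 4)) := by
      rw [hr, ← Real.rpow_mul ht0.le]; congr 1; ring
    have e2 : r ^ 2 = (t : ℝ) ^ (-(1 / 2 : ℝ)) := by
      rw [hr, ← Real.rpow_natCast, ← Real.rpow_mul ht0.le]; congr 1; norm_num
    have hle : (t : ℝ)⁻¹ ≤ (t : ℝ) ^ (-(a / 4)) := by
      rw [← Real.rpow_neg_one]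
      exact Real.rpow_le_rpow_of_exponent_le ht1 (by linarith)
    have e3 : Real.exp (-((t : ℝ) * r ^ 2 / (d * Real.pi ^ 2))) ≤
        2 * (d * Real.pi ^ 2) ^ 2 * (t : ℝ)⁻¹ := by
      set z : ℝ := (t : ℝ) * r ^ 2 / (d * Real.pi ^ 2) with hz
      have hz0 : 0 < z := by positivity
      have h3 : z ^ 2 / 2 ≤ Real.exp z := by
        have := Real.quadratic_le_exp_of_nonneg hz0.le
        nlinarith
      have h4 : z ^ 2 = t / (d * Real.pi ^ 2) ^ 2 := by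
        rw [hz, div_pow, mul_pow, e2, ← Real.rpow_natCast, ← Real.rpow_natCast,
          ← Real.rpow_mul ht0.le, ← Real.rpow_add ht0]
        congr 1
        norm_num
      rw [Real.exp_neg]
      calc (Real.exp z)⁻¹ ≤ (z ^ 2 / 2)⁻¹ := inv_anti₀ (by positivity) h3
        _ = _ := by rw [h4]; field_simp
    have e4 : C1 * ((t : ℝ) + 1) ^ K / √((t ^ A : ℕ) : ℝ) ≤ C1 * 2 ^ K * (t : ℝ)⁻¹ := by
      have h3 : √((t ^ A : ℕ) : ℝ) = (t : ℝ) ^ (K + 1) := by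
        push_cast
        rw [hA, show 2 * K + 2 = (K + 1) * 2 by ring, pow_mul, Real.sqrt_sq (by positivity)]
      rw [h3]
      have h4 : ((t : ℝ) + 1) ^ K ≤ (2 * t) ^ K := pow_le_pow_left₀ (by positivity) (by linarith) K
      calc C1 * ((t : ℝ) + 1) ^ K / (t : ℝ) ^ (K + 1) ≤ C1 * (2 * t) ^ K / (t : ℝ) ^ (K + 1) := by
            gcongr
        _ = C1 * 2 ^ K * (t : ℝ)⁻¹ := by
            rw [mul_pow, pow_succ]; field_simp
    have h3 : arm d (pcrit d) pcrit_le (t ^ A + t) ^ 2 ≤ C2 * (t : ℝ) ^ (-(a / 4)) := by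
      refine h2.trans ?_
      have h4 : C0 * r ^ a / (2 * Real.pi) ^ d = C0 / (2 * Real.pi) ^ d * (t : ℝ) ^ (-(a / 4)) := by
        rw [e1]; ring
      have h5 : 2 * (d * Real.pi ^ 2) ^ 2 * (t : ℝ)⁻¹ ≤
          2 * (d * Real.pi ^ 2) ^ 2 * (t : ℝ) ^ (-(a / 4)) :=
        mul_le_mul_of_nonneg_left hle (by positivity)
      have h6 : C1 * 2 ^ K * (t : ℝ)⁻¹ ≤ C1 * 2 ^ K * (t : ℝ) ^ (-(a / 4)) :=
        mul_le_mul_of_nonneg_left hle (by positivity)
      rw [h4, hC2, add_mul, add_mul]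
      linarith
    have h4 : arm d (pcrit d) pcrit_le (2 * t ^ A) ≤ arm d (pcrit d) pcrit_le (t ^ A + t) :=
      arm_anti _ _ (by omega)
    refine h4.trans ?_
    refine ((le_abs_self _).trans (Real.abs_le_sqrt h3)).trans (le_of_eq ?_)
    rw [Real.sqrt_mul hC2n, Real.sqrt_eq_rpow ((t : ℝ) ^ (-(a / 4))), ← Real.rpow_mul ht0.le]
    congr 2
    ring
  have h2 := interp (arm d (pcrit d) pcrit_le) (arm_anti _ _) (arm_le_one _ _) 2 A (by norm_num)
    (by omega) (a / 8) (√C2) (by positivity) (Real.sqrt_nonneg _) key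
  have hA0 : (A : ℝ) = 2 * (2 * d ^ 2 + 3 * d + 1) := by
    rw [hA, hK]; push_cast; ring
  refine ⟨(√C2 * 2 ^ (a / 8) + 1) * ((2 : ℕ) : ℝ) ^ (a / 8 / (A : ℝ)), by positivity,
    fun N hN => (h2 N hN).trans (le_of_eq ?_)⟩
  congr 2
  rw [hA0]
  field_simp
  ring

/-- the probability that the cluster of the origin has at least `n` points -/
def vol (d : ℕ) (p : NNReal) (hp : p ≤ 1) (n : ℕ) : ℝ :=
  (P d p hp {ω | (n : ℕ∞) ≤ (Pool.Agent.J4.H67.PC.cl ω).encard}).toReal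

theorem vol_nonneg (p : NNReal) (hp : p ≤ 1) (n : ℕ) : 0 ≤ vol d p hp n := ENNReal.toReal_nonneg

theorem vol_le_one (p : NNReal) (hp : p ≤ 1) (n : ℕ) : vol d p hp n ≤ 1 := by
  unfold vol
  exact measureReal_le_one

theorem vol_anti (p : NNReal) (hp : p ≤ 1) : Antitone (vol d p hp) := by
  intro m n hmn
  unfold vol
  refine ENNReal.toReal_mono (measure_ne_top _ _) (measure_mono ?_)
  intro ω h
  have h' : (n : ℕ∞) ≤ (Pool.Agent.J4.H67.PC.cl ω).encard := h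
  exact le_trans (by exact_mod_cast hmn) h'

theorem vol_le_arm (hd : 1 ≤ d) (p : NNReal) (hp : p ≤ 1) {m : ℕ} (hm : 1 ≤ m) :
    vol d p hp (2 ^ d * m ^ d) ≤ arm d p hp m := by
  unfold vol arm
  refine ENNReal.toReal_mono (measure_ne_top _ _) (measure_mono ?_)
  intro ω h
  have h' : ((2 ^ d * m ^ d : ℕ) : ℕ∞) ≤ (Pool.Agent.J4.H67.PC.cl ω).encard := h
  by_contra hc
  have hsub : Pool.Agent.J4.H67.PC.cl ω ⊆ ((Bf (0 : Z d) (m - 1) : Finset (Z d)) : Set (Z d)) := by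
    intro x hx
    rw [coe_Bf]
    intro i
    by_contra hi
    apply hc
    refine ⟨x, ⟨i, ?_⟩, hx⟩
    have h2 : x i - (0 : Z d) i = x i := by simp
    rw [h2] at hi
    omega
  have h2 := Set.encard_le_encard hsub
  rw [Set.encard_coe_eq_coe_finsetCard, card_Bf] at h2
  have h3 := h'.trans h2
  have h4 : 2 ^ d * m ^ d ≤ (2 * (m - 1) + 1) ^ d := by exact_mod_cast h3
  rw [← mul_pow] at h4
  have h5 : (2 * (m - 1) + 1) ^ d < (2 * m) ^ d := Nat.pow_lt_pow_left (by omega) (by omega)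
  omega

theorem vol_of_arm (hd : 1 ≤ d) (p : NNReal) (hp : p ≤ 1) (c C : ℝ) (hc : 0 < c) (hC : 0 ≤ C)
    (h : ∀ N : ℕ, 1 ≤ N → arm d p hp N ≤ C * (N : ℝ) ^ (-c)) :
    ∃ C' : ℝ, 0 ≤ C' ∧ ∀ N : ℕ, 1 ≤ N → vol d p hp N ≤ C' * (N : ℝ) ^ (-(c / d)) := by
  exact ⟨(C * 2 ^ c + 1) * ((2 ^ d : ℕ) : ℝ) ^ (c / d), by positivity,
    interp (vol d p hp) (vol_anti _ _) (vol_le_one _ _) (2 ^ d) d
    (Nat.one_le_two_pow) hd c C hc hC fun t ht => (vol_le_arm hd p hp ht).trans (h t ht)⟩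

end

end Pool.Agent.J4.H90.Perc
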