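import Pool.Agent.J4.H90.Perc.Fin2
import Pool.Agent.J4.H90.Perc.Maj

/-!
The energy of the large clusters at a single parameter: deterministic comparison.
-/

set_option autoImplicit false
set_option linter.deprecated false

open MeasureTheory Set Filter
open scoped Topology

namespace Pool.Agent.J4.H90.Perc

open Pool.Agent.Results.MP_54f242_pr.InfraredMean (opn P tau cube dot Dhat Dhat_le cube_meas cube_fin
  cube_vol cos_mul_Dhat box box_card dot_sub integrable_of_cont int_cos int_cos_mul_cos int_term)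
open Pool.Agent.Y990.CB
open Pool.Agent.W783.PC (pm DepOn Inc bern)

noncomputable section

variable {d : ℕ} (M : Mod d) (p : unitInterval)

open Classical in
/-- two vertices of the cell with the property `q` which are not related -/
def cnq (d : ℕ) (N L : ℕ) (Rel : Z d → Z d → Prop) (q : Z d → Prop) (x : Z d) : ℝ :=
  if ∃ y ∈ box d (N * L), cell N y = cell N x ∧ q x ∧ q y ∧ ¬ Rel x y then 1 else 0

open Classical in
/-- the indicator of a property -/
def iq (q : Z d → Prop) (x : Z d) : ℝ := if q x then 1 else 0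

open Classical in
/-- **The energy of signs of the clusters with a given property.** -/
theorem combq (hd : 1 ≤ d) {N m L : ℕ} (hN : 0 < N) {v : (Fin d → ℝ) → ℝ} (hv : Mu v)
    (hvw : ∀ k, v k ≤ wt k) (Rel : Z d → Z d → Prop) (ω : M.ι → Bool) (Rb : ℝ)
    (hR : ∀ T ∈ (box d L).powerset, bl v (SS d N m L) (fun x => sgn T (cell N x) * ci M p m x ω)
      (fun x => sgn T (cell N x) * ci M p m x ω) ≤ Rb)
    (q : Z d → Prop) (hq : ∀ x, q x → ω ∈ Ae M m x)
    (X : Z d → ℝ) (hX : ∀ x, X x = 1 ∨ X x = -1) (hXc : ∀ x y, Rel x y → X x = X y)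
    {a : ℝ} (ha : 0 < a) :
    bl v (box d (N * L)) (fun x => X x * iq q x) (fun x => X x * iq q x) ≤
      (1 + a) * Rb + (1 + a⁻¹) * (4 * (4 * ∑ x ∈ box d (N * L), cnq d N L Rel q x +
        ∑ x ∈ box d (N * L), ((Ae M m x).indicator 1 ω - iq q x) +
        (nn d N 1 L + nn d N m L))) := by
  set A := box d (N * L) with hA
  set e : Z d → ℝ := fun x => iq q x with he
  set ea : Z d → ℝ := fun x => (Ae M m x).indicator 1 ω with hea
  set π := pr M p m with hπ
  have hπ0 : 0 ≤ π := pr_nonneg M p m
  have hπ1 : π ≤ 1 := pr_le_one M p m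
  set s : Z d → ℝ := fun j => if h : ∃ x, x ∈ A ∧ cell N x = j ∧ q x then X h.choose else 1
    with hs
  have hs1 : ∀ j, s j = 1 ∨ s j = -1 := by
    intro j
    simp only [hs]
    split_ifs with h
    · exact hX _
    · exact Or.inl rfl
  set T : Finset (Z d) := (box d L).filter (fun j => s j = -1) with hT
  have hTs : ∀ x ∈ A, sgn T (cell N x) = s (cell N x) := by
    intro x hx
    have h1 := (mem_box_cell hN x).1 hx
    unfold sgn
    rcases hs1 (cell N x) with h | h
    · rw [if_neg, h]
      rw [hT, Finset.mem_filter]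
      rintro ⟨_, h2⟩
      rw [h] at h2; norm_num at h2
    · rw [if_pos, h]
      rw [hT, Finset.mem_filter]
      exact ⟨h1, h⟩
  set S : Z d → ℝ := fun x => sgn T (cell N x) with hS
  have hSsq : ∀ x, S x ^ 2 = 1 := fun x => by rw [sq]; exact sgn_sq T _
  have he01 : ∀ x, e x = 0 ∨ e x = 1 := by
    intro x
    simp only [he, iq]
    split_ifs
    · exact Or.inr rfl
    · exact Or.inl rfl
  have hea01 : ∀ x, ea x = 0 ∨ ea x = 1 := by
    intro x
    by_cases h : ω ∈ Ae M m x
    · right; simp only [hea]; rw [Set.indicator_of_mem h]; rfl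
    · left; simp only [hea]; rw [Set.indicator_of_notMem h]
  have hle : ∀ x, e x ≤ ea x := by
    intro x
    by_cases h : q x
    · have h1 : ea x = 1 := by simp only [hea]; rw [Set.indicator_of_mem (hq x h)]; rfl
      rw [h1]
      simp only [he, iq]
      rw [if_pos h]
    · have h1 : e x = 0 := by simp only [he, iq]; rw [if_neg h]
      rw [h1]
      rcases hea01 x with h2 | h2 <;> rw [h2]
      norm_num
  have hci : ∀ x, ci M p m x ω = ea x - π := fun x => rfl
  set E1 : Z d → ℝ := fun x => (X x - S x) * e x with hE1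
  set E2 : Z d → ℝ := fun x => S x * (e x - ea x) with hE2
  set E3 : Z d → ℝ := fun x => π * S x with hE3
  set E4 : Z d → ℝ := fun x => if ¬ inn N m x then S x * ci M p m x ω else 0 with hE4
  set F : Z d → ℝ := fun x => if inn N m x then S x * ci M p m x ω else 0 with hF
  have hdec : ∀ x ∈ A, X x * e x = F x + ((E1 x + E2 x) + (E3 x + E4 x)) := by
    intro x _
    simp only [hF, hE1, hE2, hE3, hE4, hci]
    by_cases hi : inn N m x
    · rw [if_pos hi, if_neg (not_not.2 hi)]; ring
    · rw [if_neg hi, if_pos hi]; ring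
  have hb : bl v A (fun x => X x * e x) (fun x => X x * e x) =
      bl v A (fun x => F x + ((E1 x + E2 x) + (E3 x + E4 x)))
        (fun x => F x + ((E1 x + E2 x) + (E3 x + E4 x))) := bl_congr v A hdec
  have hFb : bl v A F F ≤ Rb := by
    have h1 : bl v A F F = bl v (A.filter (fun x => inn N m x)) (fun x => S x * ci M p m x ω)
      (fun x => S x * ci M p m x ω) := bl_filter v A _ _
    rw [h1]
    exact hR T (Finset.mem_powerset.2 (Finset.filter_subset _ _))
  have h1b : bl v A E1 E1 ≤ 4 * ∑ x ∈ A, cnq d N L Rel q x := by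
    refine (en_le hv A E1).trans ?_
    rw [Finset.mul_sum]
    refine Finset.sum_le_sum fun x hx => ?_
    have hc0 : 0 ≤ cnq d N L Rel q x := by unfold cnq; split_ifs <;> norm_num
    by_cases hp : q x
    · have hex : ∃ y, y ∈ A ∧ cell N y = cell N x ∧ q y := ⟨x, hx, rfl, hp⟩
      have hsx : s (cell N x) = X hex.choose := by
        simp only [hs]; rw [dif_pos hex]
      obtain ⟨g1, g2, g3⟩ := hex.choose_spec
      by_cases hr : Rel x hex.choose
      · have : E1 x = 0 := by
          simp only [hE1, hS]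
          rw [hTs x hx, hsx, hXc x _ hr, sub_self, zero_mul]
        rw [this]
        nlinarith
      · have hc1 : cnq d N L Rel q x = 1 := by
          unfold cnq
          rw [if_pos ⟨hex.choose, g1, g2, hp, g3, hr⟩]
        rw [hc1, mul_one]
        simp only [hE1]
        rw [mul_pow]
        have h5 : e x ^ 2 ≤ 1 := by rcases he01 x with h | h <;> rw [h] <;> norm_num
        have h6 : (X x - S x) ^ 2 ≤ 4 := by
          have h7 : S x = 1 ∨ S x = -1 := by
            simp only [hS]; rw [hTs x hx]; exact hs1 _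
          rcases hX x with h | h <;> rcases h7 with h8 | h8 <;> rw [h, h8] <;> norm_num
        calc (X x - S x) ^ 2 * e x ^ 2 ≤ 4 * 1 := mul_le_mul h6 h5 (sq_nonneg _) (by norm_num)
          _ = 4 := by norm_num
    · have : E1 x = 0 := by
        simp only [hE1, he, iq]
        rw [if_neg hp, mul_zero]
      rw [this]
      nlinarith
  have h2b : bl v A E2 E2 ≤ ∑ x ∈ A, (ea x - e x) := by
    refine (en_le hv A E2).trans ?_
    refine Finset.sum_le_sum fun x _ => ?_
    simp only [hE2]
    rw [mul_pow, hSsq, one_mul]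
    have h3 := hle x
    rcases he01 x with h | h <;> rcases hea01 x with h' | h' <;> rw [h, h'] at h3 ⊢ <;>
      first
        | (norm_num; done)
        | (exfalso; linarith)
  have h3b : bl v A E3 E3 ≤ nn d N 1 L := by
    have h1 := bl_smul v A π π S S
    have h2 : bl v A E3 E3 = π * π * bl v A S S := h1
    rw [h2]
    have h3 : bl v A S S ≤ nn d N 1 L :=
      (en_mono hv wt_Mu hvw A S).trans (en_cell hd hN (sgn T) (sgn_abs T))
    have h4 : 0 ≤ bl v A S S := en_nonneg hv A S
    have h5 : π * π ≤ 1 := mul_le_one₀ hπ1 hπ0 hπ1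
    exact (mul_le_of_le_one_left h4 h5).trans h3
  have h4b : bl v A E4 E4 ≤ nn d N m L := by
    refine (en_le hv A E4).trans ?_
    have : (nn d N m L : ℝ) = ∑ x ∈ A, (if ¬ inn N m x then (1 : ℝ) else 0) := by
      rw [← Finset.sum_filter, Finset.sum_const, nsmul_eq_mul, mul_one]
      rfl
    rw [this]
    refine Finset.sum_le_sum fun x _ => ?_
    by_cases hi : inn N m x
    · have h5 : E4 x = 0 := by simp [hE4, hi]
      rw [h5, if_neg (not_not.2 hi)]
      norm_num
    · have h5 : E4 x = S x * ci M p m x ω := by simp [hE4, hi]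
      rw [h5, if_pos hi, mul_pow, hSsq, one_mul, ← sq_abs]
      exact pow_le_one₀ (abs_nonneg _) (ci_abs M p m x ω)
  have hb' : bl v A (fun x => X x * iq q x) (fun x => X x * iq q x) =
      bl v A (fun x => X x * e x) (fun x => X x * e x) := rfl
  rw [hb', hb]
  have k1 := en_add_le hv A F (fun x => (E1 x + E2 x) + (E3 x + E4 x)) ha
  have k2 := en_add_le_two hv A (fun x => E1 x + E2 x) (fun x => E3 x + E4 x)
  have k3 := en_add_le_two hv A E1 E2
  have k4 := en_add_le_two hv A E3 E4
  have hai : 0 < a⁻¹ := inv_pos.2 ha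
  have k5 : bl v A (fun x => (E1 x + E2 x) + (E3 x + E4 x)) (fun x => (E1 x + E2 x) + (E3 x + E4 x)) ≤
      4 * (4 * ∑ x ∈ A, cnq d N L Rel q x + ∑ x ∈ A, (ea x - e x) + (nn d N 1 L + nn d N m L)) := by
    linarith
  have k6 : (1 + a) * bl v A F F ≤ (1 + a) * Rb := mul_le_mul_of_nonneg_left hFb (by linarith)
  have k7 := mul_le_mul_of_nonneg_left k5 (by linarith : (0 : ℝ) ≤ 1 + a⁻¹)
  exact k1.trans (add_le_add k6 k7)

end

end Pool.Agent.J4.H90.Perc
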