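import Pool.Agent.J4.H90.Perc.Q1

/-!
The energy of the large clusters at a single parameter: the world of labels.
-/

set_option autoImplicit false
set_option linter.deprecated false

open MeasureTheory Set Filter
open scoped Topology

namespace Pool.Agent.J4.H90.Perc

open Pool.Agent.Results.MP_54f242_pr.InfraredMean (opn P tau cube dot Dhat Dhat_le cube_meas cube_fin
  cube_vol cos_mul_Dhat box box_card dot_sub integrable_of_cont int_cos int_cos_mul_cos int_term sh
  meas_reach)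
open Pool.Agent.Y990.CB (Z Bo Bf mem_Bf card_Bf coe_Bf Perc Perc_meas bondM Mod mu G th Perc_shift
  dep_mono Am_dep Am Ta Ta_meas Ta_dep Ta_shift self_mem_Bo Cn Cn_meas Cn_dep reach_mono)
open Pool.Agent.W783.PC (pm DepOn Inc bern)
open Pool.Agent.J4.H67.PC (LU conf meas_conf map_conf conf_mono shift shift_reach cl cf mem_cf meas_cf
  meas_cl meas_fin FF FF_meas FF_empty meas_joint int_FF_le reach_left ps ps_cont ps_eq ps_nonneg)
open Pool.Agent.Helper401_FP (E ex ex_ed ed Ed exists_ed ex_meas map_restr Perc_dep In_sub_Ed)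

noncomputable section

variable {d : ℕ}

/-- the cluster of the origin has at least `B` points -/
def VB (d : ℕ) (p : ℝ) (B : ℕ) : Set (Lab d) := {U | (B : ℕ∞) ≤ (cl (conf p U)).encard}

theorem VB_meas (p : ℝ) (B : ℕ) : MeasurableSet (VB d p B) := (vol_meas B).preimage (meas_conf p)

/-- the cluster of `x` has at least `B` points -/
def qU (p : ℝ) (B : ℕ) (U : Lab d) (x : Z d) : Prop := (B : ℕ∞) ≤ {y | Rl p U x y}.encard

theorem VB_shU (p : ℝ) (B : ℕ) (U : Lab d) (x : Z d) : shU x U ∈ VB d p B ↔ qU p B U x := by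
  have h : {y | Rl p U x y} = (fun y => y + x) '' (cl (conf p (shU x U))) := by
    ext y
    constructor
    · intro hy
      refine ⟨y - x, ?_, sub_add_cancel y x⟩
      show (opn (conf p (shU x U))).Reachable 0 (y - x)
      rw [reach_shU, zero_add, sub_add_cancel]
      exact hy
    · rintro ⟨z, hz, rfl⟩
      have hz' : (opn (conf p (shU x U))).Reachable 0 z := hz
      rw [reach_shU, zero_add] at hz'
      exact hz'
  unfold qU VB
  rw [h, (add_left_injective x).encard_image]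
  rfl

theorem qU_const (p : ℝ) (B : ℕ) (U : Lab d) {x y : Z d} (h : Rl p U x y) :
    qU p B U x ↔ qU p B U y := by
  have h' : {z | Rl p U x z} = {z | Rl p U y z} := by
    ext z
    exact ⟨fun h3 => (SimpleGraph.Reachable.symm h).trans h3, fun h3 => SimpleGraph.Reachable.trans h h3⟩
  unfold qU
  rw [h']

theorem qU_Am {p : ℝ} {B n : ℕ} (hB : (2 * n + 1) ^ d < B) (U : Lab d) {x y : Z d}
    (hy : y ∈ Bo x n) (h : qU p B U y) : Am (bondM d) (zt p U) x n y := by
  have h1 : ∃ z, Rl p U y z ∧ z ∉ Bo x n := by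
    by_contra hc
    push Not at hc
    have h2 : {z | Rl p U y z} ⊆ ((Bf x n : Finset (Z d)) : Set (Z d)) := by
      intro z hz
      rw [coe_Bf]
      exact hc z hz
    have h3 := Set.encard_le_encard h2
    rw [Set.encard_coe_eq_coe_finsetCard, card_Bf] at h3
    have h4 : (B : ℕ∞) ≤ (((2 * n + 1) ^ d : ℕ) : ℕ∞) := h.trans h3
    have h5 : B ≤ (2 * n + 1) ^ d := by exact_mod_cast h4
    omega
  obtain ⟨z, hz, hz'⟩ := h1
  have h6 : (G (bondM d) (zt p U) univ).Reachable y z := by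
    unfold zt
    rw [G_eq]
    exact hz
  exact Pool.Agent.Y990.CB.exit_Am hy (Or.inl hz') h6

open Classical in
theorem cnq_le {p : ℝ} {B n N : ℕ} (hN : 0 < N) (hNn : N ≤ n) (hB : (2 * n + 1) ^ d < B) (L : ℕ)
    (U : Lab d) (x : Z d) :
    cnq d N L (Rl p U) (qU p B U) x ≤ (Ta (bondM d) x N n).indicator 1 (zt p U) := by
  unfold cnq
  split_ifs with h
  · obtain ⟨y, _, h2, h3, h4, h5⟩ := h
    have hz : y ∈ Bo x N := by
      intro i
      have h6 := congrFun h2 i
      unfold cell at h6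
      have h7 := Int.mul_ediv_add_emod (x i) (N : ℤ)
      have h8 := Int.mul_ediv_add_emod (y i) (N : ℤ)
      have hN' : (0 : ℤ) < N := by exact_mod_cast hN
      have h9 := Int.emod_nonneg (x i) hN'.ne'
      have h10 := Int.emod_lt_of_pos (x i) hN'
      have h11 := Int.emod_nonneg (y i) hN'.ne'
      have h12 := Int.emod_lt_of_pos (y i) hN'
      rw [h6] at h8
      rw [abs_le]
      constructor <;> linarith
    have hm : zt p U ∈ Ta (bondM d) x N n := by
      refine ⟨x, self_mem_Bo x N, y, hz, ?_, ?_, ?_⟩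
      · exact qU_Am hB U (self_mem_Bo x n) h3
      · exact qU_Am hB U (Pool.Agent.Y990.CB.Bo_mono x hNn hz) h4
      · intro h6
        have h7 := reach_mono (subset_univ _) h6
        unfold zt at h7
        rw [G_eq] at h7
        exact h5 h7
    rw [Set.indicator_of_mem hm]
    rfl
  · exact Set.indicator_nonneg (fun _ _ => zero_le_one) _

open Classical in
/-- the energy of the large finite cluster of the origin -/
def GQ (v : (Fin d → ℝ) → ℝ) (p : ℝ) (B ρ : ℕ) (U : Lab d) : ℝ :=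
  (VB d p B).indicator
    (fun U => if cf (conf p U) ⊆ Bf 0 ρ then Gf v (cf (conf p U)) else 0) U

open Classical in
theorem GQ_meas (v : (Fin d → ℝ) → ℝ) (p : ℝ) (B ρ : ℕ) : Measurable (GQ (d := d) v p B ρ) := by
  unfold GQ
  refine Measurable.indicator ?_ (VB_meas p B)
  exact (measurable_of_countable (fun A : Finset (Z d) => if A ⊆ Bf 0 ρ then Gf v A else 0)).comp
    (meas_cf.comp (meas_conf p))

theorem GQ_nonneg {v : (Fin d → ℝ) → ℝ} (hv : Mu v) (p : ℝ) (B ρ : ℕ) (U : Lab d) :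
    0 ≤ GQ v p B ρ U := by
  unfold GQ
  refine Set.indicator_nonneg (fun U _ => ?_) U
  split_ifs
  · exact Gf_nonneg hv _
  · exact le_rfl

theorem GQ_le {v : (Fin d → ℝ) → ℝ} (hv : Mu v) (p : ℝ) (B ρ : ℕ) (U : Lab d) :
    GQ v p B ρ U ≤ 1 := by
  unfold GQ
  refine Set.indicator_le' (fun U _ => ?_) (fun _ _ => zero_le_one) U
  split_ifs
  · exact Gf_le hv _
  · exact zero_le_one

theorem int_GQ_shU (v : (Fin d → ℝ) → ℝ) (p : ℝ) (B ρ : ℕ) (x : Z d) :
    ∫ U, GQ v p B ρ (shU x U) ∂(LU d) = ∫ U, GQ v p B ρ U ∂(LU d) := by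
  have h := integral_map (μ := LU d) (shU_meas x).aemeasurable
    (f := GQ v p B ρ) (GQ_meas v p B ρ).aestronglyMeasurable
  rw [map_shU] at h
  exact h.symm

theorem GQ_shU_int {v : (Fin d → ℝ) → ℝ} (hv : Mu v) (p : ℝ) (B ρ : ℕ) (x : Z d) :
    Integrable (fun U => GQ v p B ρ (shU x U)) (LU d) :=
  Integrable.of_bound ((GQ_meas v p B ρ).comp (shU_meas x)).aestronglyMeasurable 1
    (Eventually.of_forall fun U => by
      rw [Real.norm_eq_abs, abs_of_nonneg (GQ_nonneg hv p B ρ _)]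
      exact GQ_le hv p B ρ _)

open Classical in
theorem GQ_shU {v : (Fin d → ℝ) → ℝ} (hv : Mu v) (p : ℝ) (B ρ : ℕ) (U : Lab d)
    (A : Finset (Z d)) (x : Z d) (hx : ∀ z ∈ Bf (0 : Z d) ρ, z + x ∈ A) :
    GQ v p B ρ (shU x U) ≤ iq (qU p B U) x * Gf v (A.filter (Rl p U x)) := by
  have h0 : 0 ≤ iq (qU p B U) x * Gf v (A.filter (Rl p U x)) := by
    refine mul_nonneg ?_ (Gf_nonneg hv _)
    unfold iq
    split_ifs <;> norm_num
  unfold GQ
  by_cases h1 : shU x U ∈ VB d p B
  · rw [Set.indicator_of_mem h1]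
    split_ifs with h2
    · have h3 : qU p B U x := (VB_shU p B U x).1 h1
      unfold iq
      rw [if_pos h3, one_mul]
      rcases (cf (conf p (shU x U))).eq_empty_or_nonempty with h4 | ⟨w, hw⟩
      · rw [h4]
        have : Gf v ∅ = 0 := by unfold Gf; simp
        rw [this]
        exact Gf_nonneg hv _
      · have hfin := ((mem_cf _ _).1 hw).1
        have h5 : A.filter (Rl p U x) = (cf (conf p (shU x U))).map (addRightEmbedding x) := by
          ext y
          rw [Finset.mem_filter, Finset.mem_map]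
          constructor
          · rintro ⟨_, h6⟩
            refine ⟨y - x, ?_, by simp⟩
            rw [mem_cf]
            refine ⟨hfin, ?_⟩
            show (opn (conf p (shU x U))).Reachable 0 (y - x)
            rw [reach_shU, zero_add, sub_add_cancel]
            exact h6
          · rintro ⟨z, hz, rfl⟩
            have h6 := (mem_cf _ _).1 hz
            have h7 : (opn (conf p (shU x U))).Reachable 0 z := h6.2
            rw [reach_shU, zero_add] at h7
            exact ⟨hx z (h2 hz), h7⟩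
        rw [h5, Gf_map]
    · exact h0
  · rw [Set.indicator_of_notMem h1]
    exact h0

theorem iq_ind (p : ℝ) (B : ℕ) (x : Z d) (U : Lab d) :
    iq (qU p B U) x = (VB d p B).indicator (1 : Lab d → ℝ) (shU x U) := by
  unfold iq
  by_cases h : qU p B U x
  · rw [if_pos h, Set.indicator_of_mem ((VB_shU p B U x).2 h)]; rfl
  · rw [if_neg h, Set.indicator_of_notMem (fun h2 => h ((VB_shU p B U x).1 h2))]

open Classical in
theorem main_q (hd : 1 ≤ d) (p : NNReal) (hp : p ≤ 1) {N m n B L : ℕ} (hN : 0 < N)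
    (hNn : N ≤ n) (hmn : m ≤ n) (hB : (2 * n + 1) ^ d < B)
    {v : (Fin d → ℝ) → ℝ} (hv : Mu v) (hvw : ∀ k, v k ≤ wt k) {a l : ℝ} (ha : 0 < a) (hl : 0 < l)
    (ρ : ℕ) :
    ((In1 d (N * L) ρ).card : ℝ) * ∫ U, GQ v p B ρ U ∂(LU d) ≤
      (1 + a) * (((N * L : ℕ) : ℝ) ^ d * Av (bondM d) (uI p hp) m v +
        ((8 * m + 1 : ℕ) : ℝ) ^ d * nn d N (5 * m) L +
        ((L : ℝ) ^ d * Real.log 2 / l + 8 * (((2 * m + 1 : ℕ) : ℝ) ^ d) ^ 2 * l *
          ((N * L : ℕ) : ℝ) ^ d)) +
      (1 + a⁻¹) * (4 * (4 * (((N * L : ℕ) : ℝ) ^ d *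
          (mu (bondM d) (uI p hp)).real (Ta (bondM d) 0 N n)) +
        ((N * L : ℕ) : ℝ) ^ d * (pr (bondM d) (uI p hp) m - (LU d).real (VB d p B)) +
        (nn d N 1 L + nn d N m L))) := by
  obtain ⟨R, hR1, hR2, hR3⟩ := fluct (bondM d) (uI p hp) (m := m) (L := L) hN hv l hl
  set A := box d (N * L) with hA
  have hcard : (A.card : ℝ) = ((N * L : ℕ) : ℝ) ^ d := box_card d (N * L)
  have hI : ∀ x, Integrable (fun U => (Ta (bondM d) x N n).indicator
      (1 : ((bondM d).ι → Bool) → ℝ) (zt p U)) (LU d) ∧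
      ∫ U, (Ta (bondM d) x N n).indicator (1 : ((bondM d).ι → Bool) → ℝ) (zt p U) ∂(LU d) =
        (mu (bondM d) (uI p hp)).real (Ta (bondM d) x N n) := fun x =>
    ind_zt p hp (Ta_meas (bondM d) x N n) (dep_mono (Ta_dep (bondM d) x N n) (In_sub_Ed _))
  have hea : ∀ x, Integrable (fun U => (Ae (bondM d) m x).indicator
      (1 : ((bondM d).ι → Bool) → ℝ) (zt p U)) (LU d) ∧
      ∫ U, (Ae (bondM d) m x).indicator (1 : ((bondM d).ι → Bool) → ℝ) (zt p U) ∂(LU d) =
        (mu (bondM d) (uI p hp)).real (Ae (bondM d) m x) := fun x =>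
    ind_zt p hp (Ae_meas (bondM d) m x) (dep_mono (Am_dep (bondM d) x m x) (In_sub_Ed _))
  have he : ∀ x, Integrable (fun U => iq (qU p B U) x) (LU d) ∧
      ∫ U, iq (qU p B U) x ∂(LU d) = (LU d).real (VB d p B) := by
    intro x
    simp_rw [iq_ind]
    exact int_shU (VB_meas p B) x
  have hsb : ∀ x, Integrable (fun U => (Ae (bondM d) m x).indicator
      (1 : ((bondM d).ι → Bool) → ℝ) (zt p U) - iq (qU p B U) x) (LU d) := fun x =>
    (hea x).1.sub (he x).1
  have hRz := FD_zt p hp hR1 (fun s hs => by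
    obtain ⟨x, _, hx⟩ := Finset.mem_biUnion.1 hs
    exact In_sub_Ed _ ((mem_Af (bondM d)).1 hx))
  -- the pointwise bound
  have hpt : ∀ U : Lab d, ∑ x ∈ In1 d (N * L) ρ, GQ v p B ρ (shU x U) ≤
      (1 + a) * R (zt p U) + (1 + a⁻¹) * (4 * (4 * (∑ x ∈ A, (Ta (bondM d) x N n).indicator
          (1 : ((bondM d).ι → Bool) → ℝ) (zt p U)) +
        ∑ x ∈ A, ((Ae (bondM d) m x).indicator (1 : ((bondM d).ι → Bool) → ℝ) (zt p U) -
          iq (qU p B U) x) +
        (nn d N 1 L + nn d N m L))) := by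
    intro U
    have hi0 : ∀ x, 0 ≤ iq (qU p B U) x := by
      intro x; unfold iq; split_ifs <;> norm_num
    have h1 : ∑ x ∈ In1 d (N * L) ρ, GQ v p B ρ (shU x U) ≤ ∑ x ∈ In1 d (N * L) ρ,
        iq (qU p B U) x * Gf v (A.filter (Rl p U x)) := by
      refine Finset.sum_le_sum fun x hx => ?_
      exact GQ_shU hv p B ρ U A x (Finset.mem_filter.1 hx).2
    have h2 : ∑ x ∈ In1 d (N * L) ρ, iq (qU p B U) x * Gf v (A.filter (Rl p U x)) ≤ ∑ x ∈ A,
        iq (qU p B U) x * Gf v (A.filter (Rl p U x)) := by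
      refine Finset.sum_le_sum_of_subset_of_nonneg (Finset.filter_subset _ _) fun x _ _ => ?_
      exact mul_nonneg (hi0 x) (Gf_nonneg hv _)
    have h3 := clus A v (Rl p U) (fun x y h => SimpleGraph.Reachable.symm h)
      (fun x y z h h' => SimpleGraph.Reachable.trans h h') (fun x => SimpleGraph.Reachable.refl x)
      (fun x => iq (qU p B U) x)
      (fun x y h => by
        show iq (qU p B U) x = iq (qU p B U) y
        unfold iq
        simp only [qU_const p B U h])
      (fun x => by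
        show iq (qU p B U) x = 0 ∨ iq (qU p B U) x = 1
        unfold iq
        split_ifs
        · exact Or.inr rfl
        · exact Or.inl rfl) _
      (fun X hX hXc => combq (bondM d) (uI p hp) hd hN hv hvw (Rl p U) (zt p U) (R (zt p U))
        (fun T hT => hR2 T hT _) (qU p B U)
        (fun x hx => Ae_anti (bondM d) hmn x (qU_Am hB U (self_mem_Bo x n) hx)) X hX hXc ha)
    refine (h1.trans h2).trans (h3.trans ?_)
    have h4 : ∑ x ∈ A, cnq d N L (Rl p U) (qU p B U) x ≤
        ∑ x ∈ A, (Ta (bondM d) x N n).indicator (1 : ((bondM d).ι → Bool) → ℝ) (zt p U) :=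
      Finset.sum_le_sum fun x _ => cnq_le hN hNn hB L U x
    have hai : 0 < a⁻¹ := inv_pos.2 ha
    gcongr
  -- integration
  have hint1 : Integrable (fun U => ∑ x ∈ In1 d (N * L) ρ, GQ v p B ρ (shU x U)) (LU d) :=
    integrable_finset_sum _ fun x _ => GQ_shU_int hv p B ρ x
  have hA1 : Integrable (fun U => ∑ x ∈ A, (Ta (bondM d) x N n).indicator
      (1 : ((bondM d).ι → Bool) → ℝ) (zt p U)) (LU d) :=
    integrable_finset_sum _ fun x _ => (hI x).1
  have hA2 : Integrable (fun U => ∑ x ∈ A,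
      ((Ae (bondM d) m x).indicator (1 : ((bondM d).ι → Bool) → ℝ) (zt p U) -
        iq (qU p B U) x)) (LU d) :=
    integrable_finset_sum _ fun x _ => hsb x
  have hA12 : Integrable (fun U => 4 * (∑ x ∈ A, (Ta (bondM d) x N n).indicator
      (1 : ((bondM d).ι → Bool) → ℝ) (zt p U)) +
      ∑ x ∈ A, ((Ae (bondM d) m x).indicator (1 : ((bondM d).ι → Bool) → ℝ) (zt p U) -
        iq (qU p B U) x)) (LU d) :=
    (hA1.const_mul 4).add hA2
  have hA3 : Integrable (fun U => 4 * (∑ x ∈ A, (Ta (bondM d) x N n).indicator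
      (1 : ((bondM d).ι → Bool) → ℝ) (zt p U)) +
      ∑ x ∈ A, ((Ae (bondM d) m x).indicator (1 : ((bondM d).ι → Bool) → ℝ) (zt p U) -
        iq (qU p B U) x) +
      ((nn d N 1 L : ℝ) + nn d N m L)) (LU d) := hA12.add (integrable_const _)
  have hRi : Integrable (fun U => (1 + a) * R (zt p U)) (LU d) := hRz.1.const_mul _
  have hBi : Integrable (fun U => (1 + a⁻¹) * (4 * (4 * (∑ x ∈ A, (Ta (bondM d) x N n).indicator
      (1 : ((bondM d).ι → Bool) → ℝ) (zt p U)) +
      ∑ x ∈ A, ((Ae (bondM d) m x).indicator (1 : ((bondM d).ι → Bool) → ℝ) (zt p U) -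
        iq (qU p B U) x) +
      ((nn d N 1 L : ℝ) + nn d N m L)))) (LU d) := (hA3.const_mul 4).const_mul _
  have key := integral_mono hint1 (hRi.add hBi) hpt
  have hL : ∫ U, ∑ x ∈ In1 d (N * L) ρ, GQ v p B ρ (shU x U) ∂(LU d) =
      ((In1 d (N * L) ρ).card : ℝ) * ∫ U, GQ v p B ρ U ∂(LU d) := by
    rw [integral_finset_sum _ fun x _ => GQ_shU_int hv p B ρ x]
    simp_rw [int_GQ_shU]
    rw [Finset.sum_const, nsmul_eq_mul]
  have hTs : ∀ x : Z d, (mu (bondM d) (uI p hp)).real (Ta (bondM d) x N n) =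
      (mu (bondM d) (uI p hp)).real (Ta (bondM d) 0 N n) := by
    intro x
    have := Ta_shift (bondM d) (uI p hp) 0 x N n
    rwa [zero_add] at this
  have hS1 : ∫ U, ∑ x ∈ A, (Ta (bondM d) x N n).indicator
      (1 : ((bondM d).ι → Bool) → ℝ) (zt p U) ∂(LU d) =
      ((N * L : ℕ) : ℝ) ^ d * (mu (bondM d) (uI p hp)).real (Ta (bondM d) 0 N n) := by
    rw [integral_finset_sum _ fun x _ => (hI x).1]
    have h1 : ∀ x ∈ A, ∫ U, (Ta (bondM d) x N n).indicator
      (1 : ((bondM d).ι → Bool) → ℝ) (zt p U) ∂(LU d) =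
        (mu (bondM d) (uI p hp)).real (Ta (bondM d) 0 N n) := by
      intro x _
      rw [(hI x).2, hTs]
    rw [Finset.sum_congr rfl h1, Finset.sum_const, nsmul_eq_mul, hcard]
  have hS2 : ∫ U, ∑ x ∈ A, ((Ae (bondM d) m x).indicator (1 : ((bondM d).ι → Bool) → ℝ) (zt p U) -
      iq (qU p B U) x) ∂(LU d) =
      ((N * L : ℕ) : ℝ) ^ d * (pr (bondM d) (uI p hp) m - (LU d).real (VB d p B)) := by
    rw [integral_finset_sum _ fun x _ => hsb x]
    have h1 : ∀ x ∈ A, ∫ U, ((Ae (bondM d) m x).indicator (1 : ((bondM d).ι → Bool) → ℝ) (zt p U) -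
        iq (qU p B U) x) ∂(LU d) =
        pr (bondM d) (uI p hp) m - (LU d).real (VB d p B) := by
      intro x _
      rw [integral_sub (hea x).1 (he x).1, (hea x).2, (he x).2, Ae_real]
    rw [Finset.sum_congr rfl h1, Finset.sum_const, nsmul_eq_mul, hcard]
  have hRHS : ∫ U, ((1 + a) * R (zt p U) + (1 + a⁻¹) * (4 * (4 * (∑ x ∈ A,
      (Ta (bondM d) x N n).indicator (1 : ((bondM d).ι → Bool) → ℝ) (zt p U)) +
      ∑ x ∈ A, ((Ae (bondM d) m x).indicator (1 : ((bondM d).ι → Bool) → ℝ) (zt p U) -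
        iq (qU p B U) x) +
      ((nn d N 1 L : ℝ) + nn d N m L)))) ∂(LU d) =
      (1 + a) * (∫ ω, R ω ∂(mu (bondM d) (uI p hp))) +
      (1 + a⁻¹) * (4 * (4 * (((N * L : ℕ) : ℝ) ^ d *
          (mu (bondM d) (uI p hp)).real (Ta (bondM d) 0 N n)) +
        ((N * L : ℕ) : ℝ) ^ d * (pr (bondM d) (uI p hp) m - (LU d).real (VB d p B)) +
        (nn d N 1 L + nn d N m L))) := by
    rw [integral_add hRi hBi, integral_const_mul, hRz.2, integral_const_mul, integral_const_mul,
      integral_add hA12 (integrable_const _), integral_add (hA1.const_mul 4) hA2,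
      integral_const_mul, hS1, hS2, integral_const]
    simp
  have key2 : ((In1 d (N * L) ρ).card : ℝ) * ∫ U, GQ v p B ρ U ∂(LU d) ≤
      (1 + a) * (∫ ω, R ω ∂(mu (bondM d) (uI p hp))) +
      (1 + a⁻¹) * (4 * (4 * (((N * L : ℕ) : ℝ) ^ d *
          (mu (bondM d) (uI p hp)).real (Ta (bondM d) 0 N n)) +
        ((N * L : ℕ) : ℝ) ^ d * (pr (bondM d) (uI p hp) m - (LU d).real (VB d p B)) +
        (nn d N 1 L + nn d N m L))) := by
    rw [← hL, ← hRHS]
    exact key
  refine key2.trans (add_le_add ?_ le_rfl)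
  exact mul_le_mul_of_nonneg_left hR3 (by linarith)

end

end Pool.Agent.J4.H90.Perc
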