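import Pool.Agent.J4.H90.Perc.Q2
import Pool.Agent.J4.H90.Perc.Fin4

/-!
The one-scale inequality for the spectral density at a single parameter.
-/

set_option autoImplicit false
set_option linter.deprecated false

open MeasureTheory Set Filter
open scoped Topology

namespace Pool.Agent.J4.H90.Perc

open Pool.Agent.Results.MP_54f242_pr.InfraredMean (opn P tau cube dot Dhat Dhat_le cube_meas cube_fin
  cube_vol cos_mul_Dhat box box_card dot_sub integrable_of_cont int_cos int_cos_mul_cos int_term sh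
  meas_reach)
open Pool.Agent.Y990.CB (Z Bo Bf mem_Bf card_Bf coe_Bf Perc Perc_meas bondM Mod mu G th Perc_shift
  dep_mono Am_dep Am Ta Ta_meas Ta_dep Ta_shift self_mem_Bo Cn Cn_meas Cn_dep reach_mono)
open Pool.Agent.W783.PC (pm DepOn Inc bern)
open Pool.Agent.J4.H67.PC (LU conf meas_conf map_conf conf_mono shift shift_reach cl cf mem_cf meas_cf
  meas_cl meas_fin FF FF_meas FF_empty meas_joint int_FF_le reach_left ps ps_cont ps_eq ps_nonneg
  coe_cf dens dens_U dens_meas dens_fin)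

noncomputable section

variable {d : ℕ}

/-- the energy of the large finite cluster of the origin -/
def GQI (v : (Fin d → ℝ) → ℝ) (p : ℝ) (B : ℕ) (U : Lab d) : ℝ :=
  (VB d p B).indicator (fun U => Gf v (cf (conf p U))) U

theorem GQI_meas (v : (Fin d → ℝ) → ℝ) (p : ℝ) (B : ℕ) : Measurable (GQI (d := d) v p B) := by
  unfold GQI
  exact ((measurable_of_countable (fun A : Finset (Z d) => Gf v A)).comp
      (meas_cf.comp (meas_conf p))).indicator (VB_meas p B)

theorem GQI_nonneg {v : (Fin d → ℝ) → ℝ} (hv : Mu v) (p : ℝ) (B : ℕ) (U : Lab d) :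
    0 ≤ GQI v p B U := Set.indicator_nonneg (fun U _ => Gf_nonneg hv _) U

theorem GQI_le_one {v : (Fin d → ℝ) → ℝ} (hv : Mu v) (p : ℝ) (B : ℕ) (U : Lab d) :
    GQI v p B U ≤ 1 := Set.indicator_le' (fun U _ => Gf_le hv _) (fun _ _ => zero_le_one) U

theorem GQI_int {v : (Fin d → ℝ) → ℝ} (hv : Mu v) (p : ℝ) (B : ℕ) :
    Integrable (GQI (d := d) v p B) (LU d) :=
  Integrable.of_bound (GQI_meas v p B).aestronglyMeasurable 1 (Eventually.of_forall fun U => by
    rw [Real.norm_eq_abs, abs_of_nonneg (GQI_nonneg hv p B U)]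
    exact GQI_le_one hv p B U)

theorem GQI_int_le {v : (Fin d → ℝ) → ℝ} (hv : Mu v) (p : ℝ) (B : ℕ) :
    ∫ U, GQI v p B U ∂(LU d) ≤ (LU d).real (VB d p B) := by
  rw [← integral_indicator_one (VB_meas p B)]
  refine integral_mono (GQI_int hv p B) ?_ fun U => ?_
  · exact (integrable_const (1 : ℝ)).indicator (VB_meas p B)
  · exact Set.indicator_le_indicator (Gf_le hv _)

open Classical in
theorem GQ_tendsto {v : (Fin d → ℝ) → ℝ} (hv : Mu v) (p : ℝ) (B : ℕ) :
    Tendsto (fun ρ : ℕ => ∫ U, GQ v p B ρ U ∂(LU d)) atTop (𝓝 (∫ U, GQI v p B U ∂(LU d))) := by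
  refine tendsto_integral_of_dominated_convergence (fun _ => (1 : ℝ))
    (fun ρ => (GQ_meas v p B ρ).aestronglyMeasurable) (integrable_const _)
    (fun ρ => Eventually.of_forall fun U => ?_) (Eventually.of_forall fun U => ?_)
  · rw [Real.norm_eq_abs, abs_of_nonneg (GQ_nonneg hv p B ρ U)]
    exact GQ_le hv p B ρ U
  · refine tendsto_const_nhds.congr' ?_
    obtain ⟨b, hb⟩ := ((cf (conf p U)).image Pool.Agent.Y990.CB.nm).bddAbove
    filter_upwards [eventually_ge_atTop b] with ρ hρ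
    have h : cf (conf p U) ⊆ Bf 0 ρ := by
      intro x hx
      rw [mem_Bf]
      intro i
      have h1 : Pool.Agent.Y990.CB.nm x ≤ b := hb (Finset.mem_coe.2 (Finset.mem_image_of_mem _ hx))
      have h2 := Pool.Agent.Y990.CB.abs_le_nm x i
      simp only [Pi.zero_apply, sub_zero]
      have h3 : ((Pool.Agent.Y990.CB.nm x : ℕ) : ℤ) ≤ ρ := by exact_mod_cast h1.trans hρ
      exact h2.trans h3
    unfold GQ GQI
    by_cases h1 : U ∈ VB d p B
    · rw [Set.indicator_of_mem h1, Set.indicator_of_mem h1, if_pos h]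
    · rw [Set.indicator_of_notMem h1, Set.indicator_of_notMem h1]

/-- **The inequality of the energies of large clusters in infinite volume.** -/
theorem GQI_le (hd : 1 ≤ d) (p : NNReal) (hp : p ≤ 1) {N m n B : ℕ} (h1N : 2 ≤ N)
    (hmN : 2 * (5 * m) ≤ N) (hNn : N ≤ n) (hB : (2 * n + 1) ^ d < B)
    {v : (Fin d → ℝ) → ℝ} (hv : Mu v) (hvw : ∀ k, v k ≤ wt k) {a l : ℝ} (ha : 0 < a) (hl : 0 < l) :
    ∫ U, GQI v p B U ∂(LU d) ≤
      (1 + a) * (Av (bondM d) (uI p hp) m v + ((8 * m + 1 : ℕ) : ℝ) ^ d * nu d N (5 * m) +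
        (Real.log 2 / (l * (N : ℝ) ^ d) + 8 * (((2 * m + 1 : ℕ) : ℝ) ^ d) ^ 2 * l)) +
      (1 + a⁻¹) * (4 * (4 * (mu (bondM d) (uI p hp)).real (Ta (bondM d) 0 N n) +
        (pr (bondM d) (uI p hp) m - (LU d).real (VB d p B)) + (nu d N 1 + nu d N m))) := by
  set K : ℝ := (1 + a) * (Av (bondM d) (uI p hp) m v + ((8 * m + 1 : ℕ) : ℝ) ^ d * nu d N (5 * m) +
        (Real.log 2 / (l * (N : ℝ) ^ d) + 8 * (((2 * m + 1 : ℕ) : ℝ) ^ d) ^ 2 * l)) +
      (1 + a⁻¹) * (4 * (4 * (mu (bondM d) (uI p hp)).real (Ta (bondM d) 0 N n) +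
        (pr (bondM d) (uI p hp) m - (LU d).real (VB d p B)) + (nu d N 1 + nu d N m))) with hK
  have hN : 0 < N := by omega
  have hNr : (0 : ℝ) < N := by exact_mod_cast hN
  have hmn : m ≤ n := by omega
  -- the finite volume inequality, divided by the volume
  have h1 : ∀ ρ L : ℕ, 0 < L → ((In1 d (N * L) ρ).card : ℝ) * ∫ U, GQ v p B ρ U ∂(LU d) ≤
      ((N * L : ℕ) : ℝ) ^ d * K := by
    intro ρ L hL
    refine (main_q hd p hp hN hNn hmn hB hv hvw ha hl ρ (L := L)).trans ?_
    have hLr : (0 : ℝ) < L := by exact_mod_cast hL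
    have n1 := nn_le_nu (d := d) (L := L) hN (by omega : 2 * 1 ≤ N)
    have n2 := nn_le_nu (d := d) (L := L) hN (by omega : 2 * m ≤ N)
    have n3 := nn_le_nu (d := d) (L := L) hN hmN
    have hlog : (L : ℝ) ^ d * Real.log 2 / l = ((N * L : ℕ) : ℝ) ^ d *
        (Real.log 2 / (l * (N : ℝ) ^ d)) := by
      push_cast
      rw [mul_pow]
      field_simp
    rw [hlog, hK]
    have hai : 0 < a⁻¹ := inv_pos.2 ha
    set V : ℝ := ((N * L : ℕ) : ℝ) ^ d with hV
    set T := (mu (bondM d) (uI p hp)).real (Ta (bondM d) 0 N n) with hT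
    set W := (LU d).real (VB d p B) with hW
    have e1 : V * Av (bondM d) (uI p hp) m v + ((8 * m + 1 : ℕ) : ℝ) ^ d * nn d N (5 * m) L +
        (V * (Real.log 2 / (l * (N : ℝ) ^ d)) + 8 * (((2 * m + 1 : ℕ) : ℝ) ^ d) ^ 2 * l * V) ≤
        V * (Av (bondM d) (uI p hp) m v + ((8 * m + 1 : ℕ) : ℝ) ^ d * nu d N (5 * m) +
        (Real.log 2 / (l * (N : ℝ) ^ d) + 8 * (((2 * m + 1 : ℕ) : ℝ) ^ d) ^ 2 * l)) := by
      have := mul_le_mul_of_nonneg_left n3 (show (0 : ℝ) ≤ ((8 * m + 1 : ℕ) : ℝ) ^ d by positivity)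
      linarith
    have e2 : 4 * (V * T) + V * (pr (bondM d) (uI p hp) m - W) +
        ((nn d N 1 L : ℝ) + nn d N m L) ≤
        V * (4 * T + (pr (bondM d) (uI p hp) m - W) + (nu d N 1 + nu d N m)) := by linarith
    have e3 := mul_le_mul_of_nonneg_left e1 (show (0 : ℝ) ≤ 1 + a by linarith)
    have e4 := mul_le_mul_of_nonneg_left e2 (show (0 : ℝ) ≤ (1 + a⁻¹) * 4 by positivity)
    linarith
  -- the limit of the boxes
  have h2 : ∀ ρ : ℕ, ∫ U, GQ v p B ρ U ∂(LU d) ≤ K := by
    intro ρ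
    set I : ℝ := ∫ U, GQ v p B ρ U ∂(LU d) with hI
    have hI0 : 0 ≤ I := integral_nonneg fun U => GQ_nonneg hv p B ρ U
    have h3 : ∀ᶠ L : ℕ in atTop, (((N * L : ℕ) : ℝ) - 2 * ρ) ^ d / ((N * L : ℕ) : ℝ) ^ d * I ≤ K := by
      filter_upwards [eventually_ge_atTop (2 * ρ + 1)] with L hL
      have hL0 : 0 < L := by omega
      have h4 : 2 * ρ ≤ N * L := by nlinarith
      have hV : (0 : ℝ) < ((N * L : ℕ) : ℝ) ^ d := by positivity
      have h5 := h1 ρ L hL0
      have h6 := In1_card (d := d) h4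
      rw [div_mul_eq_mul_div, div_le_iff₀ hV, mul_comm K]
      exact (mul_le_mul_of_nonneg_right h6 hI0).trans h5
    have h4 : Tendsto (fun L : ℕ => (((N * L : ℕ) : ℝ) - 2 * ρ) ^ d / ((N * L : ℕ) : ℝ) ^ d * I) atTop
        (𝓝 (1 * I)) := by
      refine Tendsto.mul_const I ?_
      have h5 : Tendsto (fun L : ℕ => N * L) atTop atTop :=
        tendsto_id.const_mul_atTop' hN
      have h6 : Tendsto (fun n : ℕ => ((n : ℝ) - 2 * ρ) / n) atTop (𝓝 1) := by
        have h2 : Tendsto (fun n : ℕ => 1 - (2 * ρ : ℝ) / n) atTop (𝓝 (1 - 0)) :=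
          tendsto_const_nhds.sub (tendsto_const_div_atTop_nhds_zero_nat _)
        rw [sub_zero] at h2
        refine h2.congr' ?_
        filter_upwards [eventually_gt_atTop 0] with n hn
        have hn' : (n : ℝ) ≠ 0 := by positivity
        field_simp
      have h7 := ((h6.comp h5).pow d)
      rw [one_pow] at h7
      refine h7.congr fun L => ?_
      simp only [Function.comp_apply]
      rw [div_pow]
    rw [one_mul] at h4
    exact le_of_tendsto h4 h3
  exact le_of_tendsto' (GQ_tendsto hv p B) h2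

/-- the mean of a multiplier -/
def Im (v : (Fin d → ℝ) → ℝ) : ℝ := (∫ k in cube d, v k) / (2 * Real.pi) ^ d

theorem Mu.int1 {v : (Fin d → ℝ) → ℝ} (hv : Mu v) : Integrable v (volume.restrict (cube d)) := by
  have : IsFiniteMeasure (volume.restrict (cube d)) := ⟨by simpa using cube_fin⟩
  have h := hv.int (integrable_const (μ := volume.restrict (cube d)) (1 : ℝ))
  simpa using h

theorem Im_nonneg {v : (Fin d → ℝ) → ℝ} (hv : Mu v) : 0 ≤ Im v :=
  div_nonneg (integral_nonneg fun k => hv.nn k) two_pi_pos.le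

theorem Kv_Im {v : (Fin d → ℝ) → ℝ} (hv : Mu v) (z : Fin d → ℤ) : |Kv v z| ≤ Im v := by
  unfold Kv Im
  rw [abs_div, abs_of_pos (two_pi_pos (d := d))]
  refine div_le_div_of_nonneg_right ?_ two_pi_pos.le
  rw [← Real.norm_eq_abs]
  refine (norm_integral_le_integral_norm _).trans ?_
  refine integral_mono (hv.int (cos_int' z)).norm hv.int1 fun k => ?_
  show ‖v k * Real.cos (dot k z)‖ ≤ v k
  rw [norm_mul, Real.norm_eq_abs, Real.norm_eq_abs, abs_of_nonneg (hv.nn k)]
  exact mul_le_of_le_one_right (hv.nn k) (Real.abs_cos_le_one _)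

theorem Gf_Im {v : (Fin d → ℝ) → ℝ} (hv : Mu v) (A : Finset (Z d)) : Gf v A ≤ A.card * Im v := by
  unfold Gf
  rcases Nat.eq_zero_or_pos A.card with h0 | h0
  · rw [h0]; simp
  · have h1 : (0 : ℝ) < A.card := by exact_mod_cast h0
    rw [div_le_iff₀ h1]
    unfold bl
    calc ∑ x ∈ A, ∑ y ∈ A, (1 : (Fin d → ℤ) → ℝ) x * (1 : (Fin d → ℤ) → ℝ) y * Kv v (y - x)
        ≤ ∑ x ∈ A, ∑ y ∈ A, Im v := by
          refine Finset.sum_le_sum fun x _ => Finset.sum_le_sum fun y _ => ?_
          simp only [Pi.one_apply, one_mul]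
          exact (le_abs_self _).trans (Kv_Im hv _)
      _ = A.card * Im v * A.card := by
          rw [Finset.sum_const, Finset.sum_const, nsmul_eq_mul, nsmul_eq_mul]; ring

theorem Av_Im (M : Mod d) (p : unitInterval) (m : ℕ) {v : (Fin d → ℝ) → ℝ} (hv : Mu v) :
    Av M p m v ≤ ((8 * m + 1 : ℕ) : ℝ) ^ d * Im v := by
  unfold Av
  calc ∑ z ∈ Bf (0 : Z d) (2 * (m + m)), cc M p m m z * Kv v z
      ≤ ∑ z ∈ Bf (0 : Z d) (2 * (m + m)), Im v := by
        refine Finset.sum_le_sum fun z _ => ?_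
        refine (le_abs_self _).trans ?_
        rw [abs_mul]
        calc |cc M p m m z| * |Kv v z| ≤ 1 * Im v :=
              mul_le_mul (cc_abs M p m m z) (Kv_Im hv z) (abs_nonneg _) zero_le_one
          _ = Im v := one_mul _
    _ = _ := by
        rw [Finset.sum_const, nsmul_eq_mul, card_Bf]
        have : 2 * (2 * (m + m)) + 1 = 8 * m + 1 := by ring
        rw [this]
        push_cast
        ring

theorem Gf_split {v : (Fin d → ℝ) → ℝ} (hv : Mu v) (p : ℝ) (B : ℕ) (U : Lab d) :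
    Gf v (cf (conf p U)) ≤ GQI v p B U + B * Im v := by
  have h0 := Im_nonneg hv
  unfold GQI
  by_cases h : U ∈ VB d p B
  · rw [Set.indicator_of_mem h]
    have : 0 ≤ (B : ℝ) * Im v := by positivity
    linarith
  · rw [Set.indicator_of_notMem h, zero_add]
    have h1 : (cl (conf p U)).encard < B := not_le.1 h
    have h2 : (cl (conf p U)).Finite := Set.encard_lt_top_iff.1 (h1.trans_le le_top)
    rw [← coe_cf h2, Set.encard_coe_eq_coe_finsetCard] at h1
    have h3 : (cf (conf p U)).card ≤ B := by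
      have : (cf (conf p U)).card < B := by exact_mod_cast h1
      omega
    refine (Gf_Im hv _).trans ?_
    exact mul_le_mul_of_nonneg_right (by exact_mod_cast h3) h0

/-- the pairing with the density at a single parameter -/
theorem dens_pair {v : (Fin d → ℝ) → ℝ} (hv : Mu v) (p : NNReal) (hp : p ≤ 1) :
    ∫ k in cube d, v k * (dens d p hp k).toReal =
      (2 * Real.pi) ^ d * ∫ U, Gf v (cf (conf p U)) ∂(LU d) := by
  have hvm : Measurable fun k => ENNReal.ofReal (v k) := hv.meas.ennreal_ofReal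
  have h0 : ∫⁻ k in cube d, ENNReal.ofReal (v k) * dens d p hp k =
      ENNReal.ofReal ((2 * Real.pi) ^ d * ∫ U, Gf v (cf (conf p U)) ∂(LU d)) := by
    have h1 : ∀ k, ENNReal.ofReal (v k) * dens d p hp k = ∫⁻ U, ENNReal.ofReal (v k) *
        FF (cf (conf p U)) k ∂(LU d) := by
      intro k
      have hk : Measurable fun U : Lab d => FF (cf (conf p U)) k :=
        (measurable_of_countable (fun A : Finset (Z d) => FF A k)).comp
          (meas_cf.comp (meas_conf p))
      rw [dens_U, lintegral_const_mul _ hk]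
    simp_rw [h1]
    have hsw : ∫⁻ k in cube d, ∫⁻ U, ENNReal.ofReal (v k) * FF (cf (conf p U)) k ∂(LU d) =
        ∫⁻ U, (∫⁻ k in cube d, ENNReal.ofReal (v k) * FF (cf (conf p U)) k) ∂(LU d) := by
      refine lintegral_lintegral_swap (f := fun (k : Fin d → ℝ) (U : Lab d) =>
        ENNReal.ofReal (v k) * FF (cf (conf p U)) k) ?_
      exact ((hvm.comp measurable_fst).mul ((meas_joint (d := d) p).comp measurable_swap)).aemeasurable
    rw [hsw]
    simp_rw [Gf_lint hv]
    have hm : Measurable fun U : Lab d => Gf v (cf (conf p U)) :=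
      (measurable_of_countable (fun A : Finset (Z d) => Gf v A)).comp (meas_cf.comp (meas_conf p))
    have hi : Integrable (fun U => (2 * Real.pi) ^ d * Gf v (cf (conf p U))) (LU d) := by
      refine Integrable.const_mul ?_ _
      refine Integrable.of_bound hm.aestronglyMeasurable 1 (Eventually.of_forall fun U => ?_)
      rw [Real.norm_eq_abs, abs_of_nonneg (Gf_nonneg hv _)]
      exact Gf_le hv _
    rw [← integral_const_mul, ofReal_integral_eq_lintegral_ofReal hi
      (Eventually.of_forall fun U => mul_nonneg two_pi_pos.le (Gf_nonneg hv _))]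
  have hG0 : 0 ≤ ∫ U, Gf v (cf (conf p U)) ∂(LU d) := integral_nonneg fun U => Gf_nonneg hv _
  have hm : Measurable fun k => ENNReal.ofReal (v k) * dens d p hp k := hvm.mul (dens_meas _ _)
  have hae : ∀ᵐ k ∂(volume.restrict (cube d)), ENNReal.ofReal (v k) * dens d p hp k < ⊤ := by
    filter_upwards [dens_fin (d := d) p hp] with k hk
    exact ENNReal.mul_lt_top ENNReal.ofReal_lt_top hk
  have h2 := integral_toReal hm.aemeasurable hae
  rw [h0, ENNReal.toReal_ofReal (mul_nonneg two_pi_pos.le hG0)] at h2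
  rw [← h2]
  refine integral_congr_ae (Eventually.of_forall fun k => ?_)
  show v k * (dens d p hp k).toReal = (ENNReal.ofReal (v k) * dens d p hp k).toReal
  rw [ENNReal.toReal_mul, ENNReal.toReal_ofReal (hv.nn k)]

theorem dens_pair_le {v : (Fin d → ℝ) → ℝ} (hv : Mu v) (p : NNReal) (hp : p ≤ 1) (B : ℕ) :
    ∫ k in cube d, v k * (dens d p hp k).toReal ≤
      (2 * Real.pi) ^ d * (∫ U, GQI v p B U ∂(LU d) + B * Im v) := by
  rw [dens_pair hv p hp]
  refine mul_le_mul_of_nonneg_left ?_ two_pi_pos.le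
  have hm : Measurable fun U : Lab d => Gf v (cf (conf p U)) :=
    (measurable_of_countable (fun A : Finset (Z d) => Gf v A)).comp (meas_cf.comp (meas_conf p))
  have hi : Integrable (fun U => Gf v (cf (conf p U))) (LU d) := by
    refine Integrable.of_bound hm.aestronglyMeasurable 1 (Eventually.of_forall fun U => ?_)
    rw [Real.norm_eq_abs, abs_of_nonneg (Gf_nonneg hv _)]
    exact Gf_le hv _
  refine (integral_mono hi ((GQI_int hv p B).add (integrable_const (B * Im v)))
    fun U => Gf_split hv p B U).trans (le_of_eq ?_)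
  show ∫ U, (GQI v p B U + B * Im v) ∂(LU d) = _
  rw [integral_add (GQI_int hv p B) (integrable_const _), integral_const]
  simp

end

end Pool.Agent.J4.H90.Perc
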