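import Pool.Agent.J4.H90.Perc.BoxU

/-!
The two-arm bound for boxes of polynomial size, uniformly in the parameter, as long as the connections
in the boxes of the given size are not too unlikely (after the project CB).
-/

set_option autoImplicit false

open MeasureTheory Set

namespace Pool.Agent.J4.H90.Perc

open Pool.Agent.W783.PC (pm DepOn Inc)
open Pool.Agent.Y990.CB
open Pool.Agent.Y232.CB (con con_nonneg con_le_one con_self con_symm con_mono con_mul con_sym con_shift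
  con_edge sw rf sw_apply rf_apply con_sw con_rf qq qq_pos qq_le_one qq_anti mv mv_apply mv_zero mv_Nb
  decomp mix mix_mem)
open Pool.Agent.Y333.CB (fi fi_nonneg rec_step mem_Ff)

noncomputable section

variable {d : ℕ}

/-- there is a vertex of the frame with a good connection -/
def Fv (M : Mod d) (p : unitInterval) (q : ℝ) (l : ℕ) : Prop :=
  ∃ w ∈ Fr (0 : Z d) l, q ≤ con M p (Bo 0 l) 0 w

theorem frame_v (M : Mod d) (p : unitInterval) (hd : 1 ≤ d) (l : ℕ) (h : 1 / 2 ≤ fi M l p) :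
    Fv M p (qq d l / 2) l := by
  by_contra hcon
  unfold Fv at hcon
  push Not at hcon
  have hd0 : (0 : ℝ) < d := by exact_mod_cast hd
  have hq : ∀ x ∈ Ff (0 : Z d) l, (mu M p).real (Cn M (Bo 0 l) 0 x) < qq d l / 2 := by
    intro x hx
    exact hcon x (mem_Ff.1 hx)
  have hcard : ((Ff (0 : Z d) l).card : ℝ) ≤ ((2 * l + 1 : ℕ) : ℝ) ^ d := by
    have h1 : (Ff (0 : Z d) l).card ≤ (Bf (0 : Z d) l).card := by
      classical
      unfold Ff
      exact Finset.card_filter_le _ _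
    rw [card_Bf] at h1
    exact_mod_cast h1
  unfold fi at h
  rcases (Ff (0 : Z d) l).eq_empty_or_nonempty with he | hne
  · rw [he] at h
    simp at h
    linarith
  · have hlt : ∑ x ∈ Ff (0 : Z d) l, (mu M p).real (Cn M (Bo 0 l) 0 x) <
        ∑ _x ∈ Ff (0 : Z d) l, qq d l / 2 := Finset.sum_lt_sum_of_nonempty hne hq
    rw [Finset.sum_const, nsmul_eq_mul] at hlt
    have h2 : ((Ff (0 : Z d) l).card : ℝ) * (qq d l / 2) ≤
        ((2 * l + 1 : ℕ) : ℝ) ^ d * (qq d l / 2) :=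
      mul_le_mul_of_nonneg_right hcard (by have := qq_pos hd l; linarith)
    have h3 : 2 * d * (((2 * l + 1 : ℕ) : ℝ) ^ d * (qq d l / 2)) = 1 / 2 := by
      unfold qq
      have : (0 : ℝ) < ((2 * l + 1 : ℕ) : ℝ) ^ d := by positivity
      field_simp
    have h4 : 2 * (d : ℝ) * ∑ x ∈ Ff (0 : Z d) l, (mu M p).real (Cn M (Bo 0 l) 0 x) <
        2 * d * (((2 * l + 1 : ℕ) : ℝ) ^ d * (qq d l / 2)) :=
      mul_lt_mul_of_pos_left (lt_of_lt_of_le hlt h2) (by positivity)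
    rw [h3] at h4
    linarith

theorem axis_v (M : Mod d) (p : unitInterval) {q : ℝ} (l : ℕ) (h : Fv M p q l) (i : Fin d)
    (s : ℤ) (hs : s = 1 ∨ s = -1) :
    ∃ w : Z d, w i = s * l ∧ q ≤ con M p (Bo 0 l) 0 w := by
  obtain ⟨w, ⟨_, j, hj⟩, hw⟩ := h
  have hj' : |w j| = l := by
    have : w j - (0 : Z d) j = w j := by simp
    rwa [this] at hj
  have h1 : |sw i j w i| = l := by
    rw [sw_apply, Equiv.swap_apply_left]
    exact hj'
  have h2 : q ≤ con M p (Bo 0 l) 0 (sw i j w) := by rw [con_sw]; exact hw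
  obtain ⟨w1, hw1⟩ : ∃ w1, w1 = sw i j w := ⟨_, rfl⟩
  rw [← hw1] at h1 h2
  by_cases h3 : w1 i = s * l
  · exact ⟨w1, h3, h2⟩
  · refine ⟨rf i w1, ?_, by rw [con_rf]; exact h2⟩
    rw [rf_apply, if_pos rfl]
    rcases abs_eq (by positivity : (0 : ℤ) ≤ (l : ℤ)) |>.1 h1 with h4 | h4
    · rcases hs with rfl | rfl
      · exact absurd (by rw [h4]; ring) h3
      · rw [h4]; ring
    · rcases hs with rfl | rfl
      · rw [h4]; ring
      · exact absurd (by rw [h4]; ring) h3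

theorem jump (M : Mod d) (p : unitInterval) {q : ℝ} (hq : 0 ≤ q) (l : ℕ) (h : Fv M p q l) (i : Fin d)
    (s : ℤ) (hs : s = 1 ∨ s = -1) (a : Z d) {R : Set (Z d)} (hR : R.Finite)
    (h1 : Bo a l ⊆ R) (h2 : Bo (mv a i (2 * s * l)) l ⊆ R) :
    q ^ 2 ≤ con M p R a (mv a i (2 * s * l)) := by
  obtain ⟨w, hwi, hw⟩ := axis_v M p l h i s hs
  obtain ⟨b, hb⟩ : ∃ b, b = mv a i (2 * s * l) := ⟨_, rfl⟩
  rw [← hb] at h2 ⊢
  have e1 : q ≤ con M p R a (w + a) := by
    have h3 := con_shift M p a 0 l 0 w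
    rw [zero_add] at h3
    rw [← h3] at hw
    exact hw.trans (con_mono M p h1 _ _)
  have e2 : q ≤ con M p R (w + a) b := by
    have h3 : q ≤ con M p (Bo 0 l) 0 (rf i w) := by rw [con_rf]; exact hw
    have h4 := con_shift M p b 0 l 0 (rf i w)
    rw [zero_add] at h4
    rw [← h4] at h3
    have h5 : rf i w + b = w + a := by
      funext k
      rw [Pi.add_apply, Pi.add_apply, hb, mv_apply, rf_apply]
      by_cases hk : k = i
      · rw [if_pos hk, if_pos hk, hk, hwi]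
        ring
      · rw [if_neg hk, if_neg hk]
    rw [h5, con_symm] at h3
    exact h3.trans (con_mono M p h2 _ _)
  have e3 := con_mul M p hR a (w + a) b
  calc q ^ 2 = q * q := sq _
    _ ≤ con M p R a (w + a) * con M p R (w + a) b := mul_le_mul e1 e2 hq (con_nonneg _ _ _ _ _)
    _ ≤ _ := e3

theorem step (M : Mod d) (p : unitInterval) {q : ℝ} (hq : 0 ≤ q) (hq1 : q ≤ 1)
    (n : ℕ) (h : ∀ l : ℕ, l ≤ n → Fv M p q l) (z a : Z d) (i : Fin d) (t : ℤ) (ha : a ∈ Bo z n)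
    (hb : mv a i t ∈ Bo z n) :
    q ^ 2 * (p : ℝ) ^ 2 ≤ con M p (Bo z (4 * n)) a (mv a i t) := by
  have hai := ha i
  have hbi := hb i
  rw [mv_apply, if_pos rfl] at hbi
  have ht : |t| ≤ 2 * n := by
    have : t = (a i + t - z i) - (a i - z i) := by ring
    rw [this]
    have := abs_sub (a i + t - z i) (a i - z i)
    linarith
  obtain ⟨s, l, r, hs, hl, hr, htt⟩ := decomp t n ht
  have hR := Bo_finite z (4 * n)
  have hm : mv a i (2 * s * l) ∈ Bo z n := by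
    intro k
    rw [mv_apply]
    by_cases hk : k = i
    · rw [if_pos hk, hk]
      rw [abs_le] at hai hbi ⊢
      rw [htt] at hbi
      rcases hs with rfl | rfl <;> rcases hr with rfl | rfl <;> push_cast at hbi ⊢ <;>
        constructor <;> linarith [hai.1, hai.2, hbi.1, hbi.2]
    · rw [if_neg hk]
      exact ha k
  have hp0 : (0 : ℝ) ≤ (p : ℝ) ^ 2 := by positivity
  have e1 : q ^ 2 ≤ con M p (Bo z (4 * n)) a (mv a i (2 * s * l)) := by
    rcases Nat.eq_zero_or_pos l with h0 | h0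
    · rw [h0]
      have : (2 * s * ((0 : ℕ) : ℤ)) = 0 := by simp
      rw [this, mv_zero, con_self]
      exact pow_le_one₀ hq hq1
    · refine jump M p hq l (h l hl) i s hs a hR ?_ ?_
      · exact Bo_sub ha (by omega)
      · exact Bo_sub hm (by omega)
  have e2 : (p : ℝ) ^ 2 ≤ con M p (Bo z (4 * n)) (mv a i (2 * s * l)) (mv a i t) := by
    rcases hr with rfl | rfl
    · have : t = 2 * s * l := by rw [htt]; simp
      rw [this, con_self]
      exact pow_le_one₀ p.2.1 p.2.2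
    · have : t = 2 * s * l + s := by rw [htt]; simp
      refine con_edge M p (Bo_mono z (by omega) hm) (Bo_mono z (by omega) hb) ?_
      rw [this]
      exact mv_Nb a i _ s hs
  refine le_trans ?_ (con_mul M p hR a (mv a i (2 * s * l)) (mv a i t))
  exact mul_le_mul e1 e2 hp0 (con_nonneg _ _ _ _ _)

theorem mixl (M : Mod d) (p : unitInterval) {q : ℝ} (hq : 0 ≤ q) (hq1 : q ≤ 1)
    (n : ℕ) (h : ∀ l : ℕ, l ≤ n → Fv M p q l) (z x y : Z d) (hx : x ∈ Bo z n) (hy : y ∈ Bo z n)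
    (T : Finset (Fin d)) :
    (q ^ 2 * (p : ℝ) ^ 2) ^ T.card ≤ con M p (Bo z (4 * n)) x (mix x y T) := by
  classical
  induction T using Finset.induction_on with
  | empty =>
    have : mix x y ∅ = x := by
      funext l
      simp [mix]
    rw [this, con_self]
    simp
  | insert i T hi ih =>
    have e : mix x y (insert i T) = mv (mix x y T) i (y i - x i) := by
      funext l
      rw [mv_apply]
      unfold mix
      by_cases hl : l = i
      · subst hl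
        simp [hi]
      · simp [hl]
    have h1 := step M p hq hq1 n h z (mix x y T) i (y i - x i) (mix_mem hx hy T)
      (by rw [← e]; exact mix_mem hx hy _)
    rw [← e] at h1
    rw [Finset.card_insert_of_notMem hi, pow_succ]
    refine le_trans ?_ (con_mul M p (Bo_finite z (4 * n)) x (mix x y T) (mix x y (insert i T)))
    exact mul_le_mul ih h1 (by positivity) (con_nonneg _ _ _ _ _)

/-- **Polynomial lower bound for connections.** -/
theorem con_low (M : Mod d) (p : unitInterval) (hd : 1 ≤ d) (n : ℕ) (hn : 1 ≤ n)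
    (h : ∀ l : ℕ, l ≤ n → 1 / 2 ≤ fi M l p) (z x y : Z d) (hx : x ∈ Bo z n) (hy : y ∈ Bo z n) :
    (p : ℝ) ^ (2 * d) / ((4 * d) ^ (2 * d) * 3 ^ (2 * d ^ 2)) / (n : ℝ) ^ (2 * d ^ 2) ≤
      (mu M p).real (Cn M (Bo z (4 * n)) x y) := by
  have hd0 : (0 : ℝ) < d := by exact_mod_cast hd
  have hn0 : (0 : ℝ) < n := by exact_mod_cast hn
  have hq0 := qq_pos hd n
  have hq1 := qq_le_one hd n
  have hF : ∀ l : ℕ, l ≤ n → Fv M p (qq d n / 2) l := by
    intro l hl
    obtain ⟨w, hw, hw'⟩ := frame_v M p hd l (h l hl)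
    exact ⟨w, hw, le_trans (by have := qq_anti hd hl; linarith) hw'⟩
  have key := mixl M p (by linarith) (by linarith) n hF z x y hx hy Finset.univ
  have e : mix x y Finset.univ = y := by
    funext l
    simp [mix]
  rw [e, Finset.card_univ, Fintype.card_fin] at key
  refine le_trans ?_ key
  have e1 : ((qq d n / 2) ^ 2 * (p : ℝ) ^ 2) ^ d =
      (p : ℝ) ^ (2 * d) / ((4 * d) ^ (2 * d) * ((2 * n + 1 : ℕ) : ℝ) ^ (2 * d ^ 2)) := by
    unfold qq
    have a1 : ((1 : ℝ) / (2 * d * ((2 * n + 1 : ℕ) : ℝ) ^ d) / 2) ^ 2 * (p : ℝ) ^ 2 =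
        (p : ℝ) ^ 2 / (4 * d * ((2 * n + 1 : ℕ) : ℝ) ^ d) ^ 2 := by
      have : (1 : ℝ) / (2 * d * ((2 * n + 1 : ℕ) : ℝ) ^ d) / 2 =
          1 / (4 * d * ((2 * n + 1 : ℕ) : ℝ) ^ d) := by
        rw [div_div]; congr 1; ring
      rw [this, div_pow, one_pow]
      ring
    rw [a1, div_pow, ← pow_mul, ← pow_mul, mul_pow, ← pow_mul]
    congr 3
    ring
  rw [e1, div_div]
  have hp0' : (0 : ℝ) ≤ p := p.2.1
  apply div_le_div_of_nonneg_left (pow_nonneg hp0' _) (by positivity)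
  rw [mul_assoc]
  apply mul_le_mul_of_nonneg_left _ (by positivity)
  rw [← mul_pow]
  apply pow_le_pow_left₀ (by positivity)
  have : (1 : ℝ) ≤ n := by exact_mod_cast hn
  push_cast
  linarith

theorem fi_zero (M : Mod d) (hM : Nd M) : fi M 1 0 = 0 := by
  unfold fi
  have h1 : ∑ x ∈ Ff (0 : Z d) 1, (mu M 0).real (Cn M (Bo 0 1) 0 x) = 0 := by
    refine Finset.sum_eq_zero fun x hx => ?_
    obtain ⟨_, i, hi⟩ := mem_Ff.1 hx
    have hx0 : (0 : Z d) ≠ x := by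
      rintro rfl
      simp at hi
    have h2 := Lk_zero M hM (Bo 0 1) {0} {x} (by
      rw [Set.disjoint_singleton]
      exact hx0)
    refine le_antisymm (le_trans (measureReal_mono ?_ (measure_ne_top _ _)) h2.le)
      measureReal_nonneg
    intro ω hω
    exact ⟨0, rfl, x, rfl, hω⟩
  rw [h1, mul_zero]

/-- the parameter is bounded from below if connections are not too unlikely -/
theorem p_lower (M : Mod d) (hM : Nd M) : ∃ p1 : ℝ, 0 < p1 ∧ p1 ≤ 1 ∧ ∀ q : unitInterval,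
    1 / 2 ≤ fi M 1 q → p1 ≤ q := by
  have hfE : (In M (Bo (0 : Z d) 1)).Finite := In_fin M (Bo_finite 0 1)
  set D := hfE.toFinset with hD
  set K : ℝ := 2 * d * ((Ff (0 : Z d) 1).card * D.card) with hK
  have hK0 : 0 ≤ K := by positivity
  have hK1 : 0 < 2 * (K + 1) := by linarith
  refine ⟨1 / (2 * (K + 1)), div_pos one_pos hK1, ?_, fun q hq => ?_⟩
  · rw [div_le_one hK1]; linarith
  have hq0 : (0 : ℝ) ≤ q := q.2.1
  have h1 : ∀ x : Z d, (mu M q).real (Cn M (Bo 0 1) 0 x) ≤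
      (mu M 0).real (Cn M (Bo 0 1) 0 x) + D.card * (q : ℝ) := by
    intro x
    have h2 := Pool.Agent.W400.PC.s_tv _ (fun _ : M.ι => q) (fun _ : M.ι => (0 : unitInterval)) D
      (Cn M (Bo 0 1) 0 x) (by rw [hD, Set.Finite.coe_toFinset]; exact Cn_dep M _ 0 x)
    have h3 : ∑ c ∈ D, |((fun _ : M.ι => q) c : ℝ) - (fun _ : M.ι => (0 : unitInterval)) c| ≤
        D.card * (q : ℝ) := by
      calc ∑ c ∈ D, |((fun _ : M.ι => q) c : ℝ) - (fun _ : M.ι => (0 : unitInterval)) c|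
          ≤ ∑ c ∈ D, (q : ℝ) := Finset.sum_le_sum (fun c _ => by
            show |(q : ℝ) - ((0 : unitInterval) : ℝ)| ≤ q
            have : ((0 : unitInterval) : ℝ) = 0 := rfl
            rw [this, sub_zero, abs_of_nonneg hq0])
        _ = D.card * (q : ℝ) := by rw [Finset.sum_const, nsmul_eq_mul]
    have h4 := (abs_le.1 (h2.trans h3)).2
    unfold mu
    linarith
  have h5 : fi M 1 q ≤ fi M 1 0 + K * q := by
    unfold fi
    calc 2 * (d : ℝ) * ∑ x ∈ Ff (0 : Z d) 1, (mu M q).real (Cn M (Bo 0 1) 0 x)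
        ≤ 2 * (d : ℝ) * ∑ x ∈ Ff (0 : Z d) 1,
          ((mu M 0).real (Cn M (Bo 0 1) 0 x) + D.card * (q : ℝ)) :=
          mul_le_mul_of_nonneg_left (Finset.sum_le_sum fun x _ => h1 x) (by positivity)
      _ = _ := by
          rw [Finset.sum_add_distrib, Finset.sum_const, nsmul_eq_mul, hK]
          ring
  rw [fi_zero M hM, zero_add] at h5
  rw [div_le_iff₀ hK1]
  nlinarith

/-- **The two-arm bound for boxes of polynomial size, uniformly in the parameter.** -/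
theorem two_unif (M : Mod d) (hd : 1 ≤ d) (hNd : Nd M) (hQm : Qm M) : ∃ C : ℝ, 1 ≤ C ∧
    ∀ (p : unitInterval) (k : ℕ), 1 ≤ k → (∀ l : ℕ, l ≤ k → 1 / 2 ≤ fi M l p) →
    ∀ (z : Z d) (L : ℕ), 1 ≤ L →
      (mu M p).real (Ta M z k L) ≤ C * ((k : ℝ) + 1) ^ (2 * d ^ 2 + 3 * d) / √L := by
  classical
  obtain ⟨p1, hp1, hp11, hp1'⟩ := p_lower M hNd
  set C₀ : ℝ := (p1 ^ 5)⁻¹ * (7 : ℝ) ^ (4 * d) * 8 * 32 ^ d * √(4 * d : ℝ) + 1 with hC₀
  have hC₀1 : 1 ≤ C₀ := by
    have : 0 ≤ (p1 ^ 5)⁻¹ * (7 : ℝ) ^ (4 * d) * 8 * 32 ^ d * √(4 * d : ℝ) := by positivity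
    linarith
  have hd0 : (0 : ℝ) < d := by exact_mod_cast hd
  set c : ℝ := p1 ^ (2 * d) / ((4 * d) ^ (2 * d) * 3 ^ (2 * d ^ 2)) with hc'
  have hc : 0 < c := by positivity
  set C₁ : ℝ := C₀ * 4 ^ d * 4 * 2 ^ (3 * d) / c with hC₁
  have hC₁0 : 0 ≤ C₁ := by positivity
  refine ⟨16 + C₁, by linarith, fun p k hk1' hfi z L hL => ?_⟩
  have hpp1 : p1 ≤ (p : ℝ) := hp1' p (hfi 1 hk1')
  have hp0 : (0 : ℝ) < p := hp1.trans_le hpp1
  have hpI : 0 < p := by exact_mod_cast hp0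
  have hKb : Kb d p + 1 ≤ C₀ := by
    rw [hC₀]
    unfold Kb
    have h1 : ((p : ℝ) ^ 5)⁻¹ ≤ (p1 ^ 5)⁻¹ := by
      apply inv_anti₀ (by positivity)
      exact pow_le_pow_left₀ hp1.le hpp1 5
    have h2 : (0 : ℝ) ≤ (7 : ℝ) ^ (4 * d) * 8 * 32 ^ d * √(4 * d : ℝ) := by positivity
    have := mul_le_mul_of_nonneg_right h1 h2
    linarith
  set e : ℕ := 2 * d ^ 2 + 3 * d with he
  have he1 : 1 ≤ e := by
    have : 1 ≤ 3 * d := by omega
    omega
  have hLR : (0 : ℝ) < L := by exact_mod_cast hL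
  have hL1 : (1 : ℝ) ≤ L := by exact_mod_cast hL
  have hsL : 0 < √(L : ℝ) := Real.sqrt_pos.2 hLR
  have hk1 : (1 : ℝ) ≤ (k : ℝ) + 1 := by
    have : (0 : ℝ) ≤ k := Nat.cast_nonneg k
    linarith
  have hke : (k : ℝ) + 1 ≤ ((k : ℝ) + 1) ^ e := le_self_pow₀ hk1 (by omega)
  set n : ℕ := k with hn
  have hkn : k ≤ n := le_rfl
  have hn1 : 1 ≤ n := hk1'
  have hnk : n ≤ k + 1 := by omega
  set Q := L / 8 with hQ
  by_cases hnQ : Q < 2 * n
  · -- trivial case
    have h1 : L < 16 * n := by omega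
    have h2 : (L : ℝ) ≤ 16 * ((k : ℝ) + 1) := by
      have : L ≤ 16 * (k + 1) := by omega
      exact_mod_cast this
    have h4 : √(L : ℝ) ≤ L := by
      rw [Real.sqrt_le_left hLR.le]
      nlinarith
    calc (mu M p).real (Ta M z k L) ≤ 1 := measureReal_le_one
      _ ≤ (16 + C₁) * ((k : ℝ) + 1) ^ e / √(L : ℝ) := by
        rw [one_le_div hsL]
        calc √(L : ℝ) ≤ L := h4
          _ ≤ 16 * ((k : ℝ) + 1) := h2
          _ ≤ 16 * ((k : ℝ) + 1) ^ e := by linarith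
          _ ≤ (16 + C₁) * ((k : ℝ) + 1) ^ e := by
            refine mul_le_mul_of_nonneg_right (by linarith) (by positivity)
  rw [not_lt] at hnQ
  have hQ2 : 2 ≤ Q := by omega
  have h8Q : 8 * Q ≤ L := by omega
  have hQR : (2 : ℝ) ≤ Q := by exact_mod_cast hQ2
  have hsQ : 0 < √(Q : ℝ) := Real.sqrt_pos.2 (by linarith)
  -- translation
  have hTa : ∀ u : Z d, (mu M p).real (Ta M u k L) = (mu M p).real (Ta M 0 k L) := by
    intro u
    have := Ta_shift M p 0 u k L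
    rwa [zero_add] at this
  rw [hTa z]
  set T := (mu M p).real (Ta M 0 k L) with hT
  have h1 : ∀ u ∈ Bf (0 : Z d) Q, T ≤ ∑ x ∈ Bf u n, ∑ y ∈ Bf u n,
      (mu M p).real (Ev M (4 * Q) Q x y) := by
    intro u hu
    rw [mem_Bf] at hu
    rw [← hTa u]
    refine (measureReal_mono (Pool.Agent.Y815.CB.Ta_sub2 M (by omega) hkn (by omega) h8Q hu)
      (measure_ne_top _ _)).trans ?_
    refine (measureReal_biUnion_finset_le _ _).trans (Finset.sum_le_sum fun a _ => ?_)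
    exact measureReal_biUnion_finset_le _ _
  have h2 : ((Bf (0 : Z d) Q).card : ℝ) * T ≤ ∑ u ∈ Bf (0 : Z d) Q, ∑ x ∈ Bf u n, ∑ y ∈ Bf u n,
      (mu M p).real (Ev M (4 * Q) Q x y) := by
    rw [← nsmul_eq_mul]
    exact Finset.card_nsmul_le_sum _ _ _ h1
  have hnR : (0 : ℝ) < n := by exact_mod_cast hn1
  have hτ : 0 < c / (n : ℝ) ^ (2 * d ^ 2) := by positivity
  have hlow : ∀ (u x y : Z d), x ∈ Bo u n → y ∈ Bo u n →
      c / (n : ℝ) ^ (2 * d ^ 2) ≤ (mu M p).real (Cn M (Bo u (4 * n)) x y) := by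
    intro u x y hx hy
    refine le_trans ?_ (con_low M p hd n hn1 hfi u x y hx hy)
    refine div_le_div_of_nonneg_right ?_ (by positivity)
    rw [hc']
    refine div_le_div_of_nonneg_right ?_ (by positivity)
    exact pow_le_pow_left₀ hp1.le hpp1 _
  have h3' := box2u Pool.Agent.Y448.CB2.ctc M p hNd hQm hpI (4 * Q) Q n Q
    (c / (n : ℝ) ^ (2 * d ^ 2)) hQ2 (by omega) hτ
    (fun u _ x hx y hy => hlow u x y (mem_Bf.1 hx) (mem_Bf.1 hy))
  have h3 : ∑ u ∈ Bf (0 : Z d) Q, ∑ x ∈ Bf u n, ∑ y ∈ Bf u n, (mu M p).real (Ev M (4 * Q) Q x y) ≤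
      C₀ / (c / (n : ℝ) ^ (2 * d ^ 2)) * ((n : ℝ) + 1) ^ (3 * d) *
        ((2 * (4 * Q) + 1 : ℕ) : ℝ) ^ d / √Q := by
    refine h3'.trans ?_
    gcongr
  have h4 := h2.trans h3
  rw [card_Bf] at h4
  push_cast at h4
  have hQd : (0 : ℝ) < (2 * (Q : ℝ) + 1) ^ d := by positivity
  -- elementary estimates
  have e1 : (2 * (4 * (Q : ℝ)) + 1) ^ d ≤ 4 ^ d * (2 * (Q : ℝ) + 1) ^ d := by
    rw [← mul_pow]
    refine pow_le_pow_left₀ (by positivity) ?_ _
    linarith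
  have e2 : 1 / √(Q : ℝ) ≤ 4 / √(L : ℝ) := by
    rw [div_le_div_iff₀ hsQ hsL, one_mul]
    have h6 : (L : ℝ) ≤ 4 ^ 2 * Q := by
      have : L ≤ 16 * Q := by omega
      have h7 : (L : ℝ) ≤ 16 * Q := by exact_mod_cast this
      linarith
    calc √(L : ℝ) ≤ √(4 ^ 2 * (Q : ℝ)) := Real.sqrt_le_sqrt h6
      _ = 4 * √(Q : ℝ) := by rw [Real.sqrt_mul (by norm_num), Real.sqrt_sq (by norm_num)]
  have e3 : C₀ / (c / (n : ℝ) ^ (2 * d ^ 2)) ≤ C₀ / c * ((k : ℝ) + 1) ^ (2 * d ^ 2) := by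
    have h5 : (n : ℝ) ^ (2 * d ^ 2) ≤ ((k : ℝ) + 1) ^ (2 * d ^ 2) := by
      refine pow_le_pow_left₀ hnR.le ?_ _
      exact_mod_cast hnk
    have h6 : C₀ / (c / (n : ℝ) ^ (2 * d ^ 2)) = C₀ / c * (n : ℝ) ^ (2 * d ^ 2) := by
      field_simp
    rw [h6]
    exact mul_le_mul_of_nonneg_left h5 (by positivity)
  have e4 : ((n : ℝ) + 1) ^ (3 * d) ≤ 2 ^ (3 * d) * ((k : ℝ) + 1) ^ (3 * d) := by
    rw [← mul_pow]
    refine pow_le_pow_left₀ (by positivity) ?_ _
    have : (n : ℝ) ≤ (k : ℝ) + 1 := by exact_mod_cast hnk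
    linarith
  have h5 : (2 * (Q : ℝ) + 1) ^ d * T ≤ (2 * (Q : ℝ) + 1) ^ d *
      (C₁ * ((k : ℝ) + 1) ^ e / √(L : ℝ)) := by
    refine h4.trans ?_
    rw [div_eq_mul_one_div]
    calc C₀ / (c / (n : ℝ) ^ (2 * d ^ 2)) * ((n : ℝ) + 1) ^ (3 * d) *
          (2 * (4 * (Q : ℝ)) + 1) ^ d * (1 / √(Q : ℝ))
        ≤ (C₀ / c * ((k : ℝ) + 1) ^ (2 * d ^ 2)) * (2 ^ (3 * d) * ((k : ℝ) + 1) ^ (3 * d)) *
          (4 ^ d * (2 * (Q : ℝ) + 1) ^ d) * (4 / √(L : ℝ)) := by
          refine mul_le_mul (mul_le_mul (mul_le_mul e3 e4 (by positivity) (by positivity)) e1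
            (by positivity) (by positivity)) e2 (by positivity) (by positivity)
      _ = _ := by
          rw [hC₁, he, pow_add]
          ring
  have h6 : T ≤ C₁ * ((k : ℝ) + 1) ^ e / √(L : ℝ) := le_of_mul_le_mul_left h5 hQd
  refine h6.trans ?_
  refine div_le_div_of_nonneg_right ?_ hsL.le
  refine mul_le_mul_of_nonneg_right (by linarith) (by positivity)

/-- exponential decay of the arms if connections are unlikely -/
theorem arm_half (M : Mod d) (p : unitInterval) (n : ℕ) (h : fi M n p ≤ 1 / 2) (k : ℕ) :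
    (mu M p).real {ω | Am M ω 0 (k * (n + 2)) 0} ≤ (1 / 2) ^ k := by
  induction k with
  | zero => rw [pow_zero]; exact measureReal_le_one
  | succ k ih =>
    have e : (k + 1) * (n + 2) = k * (n + 2) + n + 2 := by ring
    rw [e, pow_succ, mul_comm ((1 / 2 : ℝ) ^ k)]
    exact (rec_step M p n _).trans (mul_le_mul h ih measureReal_nonneg (by norm_num))

end

end Pool.Agent.J4.H90.Perc
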