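import Pool.Agent.J4.H90.Perc.Q3
import Pool.Agent.J4.H90.Perc.TwoU

/-!
Pigeonholing over the scales.
-/

set_option autoImplicit false
set_option linter.deprecated false

open MeasureTheory Set Filter
open scoped Topology

namespace Pool.Agent.J4.H90.Perc

open Pool.Agent.Results.MP_54f242_pr.InfraredMean (opn P tau cube dot Dhat Dhat_le cube_meas cube_fin
  cube_vol cos_mul_Dhat box box_card dot_sub integrable_of_cont int_cos int_cos_mul_cos int_term sh
  meas_reach)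
open Pool.Agent.Y990.CB (Z Bo Bf mem_Bf card_Bf coe_Bf Perc Perc_meas bondM Mod mu G th Perc_shift
  dep_mono Am_dep Am Ta Ta_meas Ta_dep Ta_shift self_mem_Bo Cn Cn_meas Cn_dep reach_mono Fr)
open Pool.Agent.W783.PC (pm DepOn Inc bern)
open Pool.Agent.Y333.CB (fi)
open Pool.Agent.J4.H67.PC (LU conf meas_conf map_conf conf_mono shift shift_reach cl cf mem_cf meas_cf
  meas_cl meas_fin FF FF_meas FF_empty meas_joint int_FF_le reach_left ps ps_cont ps_eq ps_nonneg
  coe_cf dens dens_U dens_meas dens_fin)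
open Pool.Agent.Helper401_FP (E ex ex_ed ed Ed exists_ed ex_meas map_restr Perc_dep In_sub_Ed)

noncomputable section

variable {d : ℕ}

theorem pr_zt (p : NNReal) (hp : p ≤ 1) (m : ℕ) :
    pr (bondM d) (uI p hp) m = (LU d).real {U : Lab d | zt p U ∈ Ae (bondM d) m 0} := by
  have h := (ind_zt p hp (Ae_meas (bondM d) m (0 : Z d))
    (dep_mono (Am_dep (bondM d) 0 m 0) (In_sub_Ed _))).2
  have hm : MeasurableSet {U : Lab d | zt (p : ℝ) U ∈ Ae (bondM d) m 0} :=
    (Ae_meas (bondM d) m 0).preimage (zt_meas p)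
  unfold pr
  rw [← h, ← integral_indicator_one hm]
  rfl

/-- the volume is large if there is a long arm -/
theorem pr_le_VB (p : NNReal) (hp : p ≤ 1) (B : ℕ) :
    pr (bondM d) (uI p hp) B ≤ (LU d).real (VB d p B) := by
  classical
  rw [pr_zt]
  refine measureReal_mono ?_ (measure_ne_top _ _)
  intro U hU
  have h1 : ∀ j : ℕ, ∃ y : Z d, j ≤ B → (y ∈ Fr (0 : Z d) j ∧ y ∈ cl (conf p U)) := by
    intro j
    by_cases hj : j ≤ B
    · obtain ⟨y, hy, hr⟩ := Ae_anti (bondM d) hj (0 : Z d) hU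
      refine ⟨y, fun _ => ⟨hy, ?_⟩⟩
      have h2 := reach_mono (subset_univ _) hr
      unfold zt at h2
      rw [G_eq] at h2
      exact h2
    · exact ⟨0, fun h => absurd h hj⟩
  choose f hf using h1
  have hinj : Set.InjOn f (Finset.range B : Set ℕ) := by
    have key : ∀ j l : ℕ, j < l → l ≤ B → f j ≠ f l := by
      intro j l hjl hl he
      obtain ⟨⟨ha, _⟩, _⟩ := hf j (by omega)
      obtain ⟨⟨_, i, hi⟩, _⟩ := hf l hl
      have h3 := ha i
      rw [he, hi] at h3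
      have : (l : ℤ) ≤ j := h3
      omega
    intro j hj l hl he
    simp only [Finset.coe_range, Set.mem_Iio] at hj hl
    by_contra hne
    rcases Nat.lt_or_gt_of_ne hne with h | h
    · exact key j l h (by omega) he
    · exact key l j h (by omega) he.symm
  have hsub : (((Finset.range B).image f : Finset (Z d)) : Set (Z d)) ⊆ cl (conf p U) := by
    intro y hy
    rw [Finset.coe_image] at hy
    obtain ⟨j, hj, rfl⟩ := hy
    have hj' : j < B := by simpa using hj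
    exact (hf j (by omega)).2
  have hcard : ((Finset.range B).image f).card = B := by
    rw [Finset.card_image_of_injOn hinj, Finset.card_range]
  have h2 := Set.encard_le_encard hsub
  rw [Set.encard_coe_eq_coe_finsetCard, hcard] at h2
  exact h2

theorem VB_le_pr (p : NNReal) (hp : p ≤ 1) {B n : ℕ} (hB : (2 * n + 1) ^ d < B) :
    (LU d).real (VB d p B) ≤ pr (bondM d) (uI p hp) n := by
  rw [pr_zt]
  refine measureReal_mono ?_ (measure_ne_top _ _)
  intro U hU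
  have h : qU p B U 0 := hU
  exact qU_Am hB U (self_mem_Bo 0 n) h

theorem nu_le {N r : ℕ} (hN : 0 < N) (h : 2 * r ≤ N) : nu d N r ≤ 2 * r * d / N := by
  have hN' : (0 : ℝ) < N := by exact_mod_cast hN
  unfold nu
  have h1 : ((N : ℝ) - 2 * r) / N = 1 + (-(2 * r / N)) := by field_simp; ring
  have h2 : (2 * r : ℝ) / N ≤ 1 := by
    rw [div_le_one hN']; exact_mod_cast h
  have h3 := one_add_mul_le_pow (show (-2 : ℝ) ≤ -(2 * r / N) by linarith) d
  rw [h1]
  have h4 : (2 * r * d : ℝ) / N = -((d : ℝ) * (-(2 * r / N))) := by ring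
  rw [h4]
  linarith

/-- the size of the cells -/
def Ns (d K m : ℕ) : ℕ := 10 * d * K ^ 2 * (8 * m + 1) ^ (2 * d + 1)

/-- the distance of the two arms -/
def ns (d C K m : ℕ) : ℕ := C ^ 2 * K ^ 2 * (Ns d K m + 1) ^ (2 * (2 * d ^ 2 + 3 * d))

/-- the volume of the clusters -/
def Bs' (d C K m : ℕ) : ℕ := (2 * ns d C K m + 1) ^ d + 1

theorem le_Ns (hd : 1 ≤ d) {K m : ℕ} (hK : 1 ≤ K) : 10 * (8 * m + 1) ≤ Ns d K m := by
  unfold Ns
  have h1 : 1 ≤ K ^ 2 := Nat.one_le_pow _ _ hK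
  have h2 : 8 * m + 1 ≤ (8 * m + 1) ^ (2 * d + 1) := Nat.le_self_pow (by omega) _
  calc 10 * (8 * m + 1) = 10 * 1 * 1 * (8 * m + 1) := by ring
    _ ≤ 10 * d * K ^ 2 * (8 * m + 1) ^ (2 * d + 1) := by gcongr

theorem le_ns (hd : 1 ≤ d) {C K m : ℕ} (hC : 1 ≤ C) (hK : 1 ≤ K) :
    K * (Ns d K m + 2) ≤ ns d C K m := by
  unfold ns
  have h0 : 1 ≤ Ns d K m := by have := le_Ns hd hK (m := m); omega
  have h1 : 1 ≤ C ^ 2 := Nat.one_le_pow _ _ hC
  have h2 : K ≤ K ^ 2 := Nat.le_self_pow (by norm_num) _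
  have h3 : (Ns d K m + 1) ^ 2 ≤ (Ns d K m + 1) ^ (2 * (2 * d ^ 2 + 3 * d)) := by
    refine Nat.pow_le_pow_right (by omega) ?_
    have : 1 ≤ 2 * d ^ 2 + 3 * d := by nlinarith
    omega
  have h4 : Ns d K m + 2 ≤ (Ns d K m + 1) ^ 2 := by nlinarith
  calc K * (Ns d K m + 2) = 1 * K * (Ns d K m + 2) := by ring
    _ ≤ C ^ 2 * K ^ 2 * (Ns d K m + 1) ^ (2 * (2 * d ^ 2 + 3 * d)) := by
        gcongr
        exact h4.trans h3

/-- the errors at one scale -/
theorem errs (hd : 1 ≤ d) {K m : ℕ} (hK : 1 ≤ K) (hm : 1 ≤ m) :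
    ((8 * m + 1 : ℕ) : ℝ) ^ d * nu d (Ns d K m) (5 * m) ≤ 1 / K ∧
    nu d (Ns d K m) 1 + nu d (Ns d K m) m ≤ 1 / K ∧
    Real.log 2 / (1 / (8 * (((2 * m + 1 : ℕ) : ℝ) ^ d) ^ 2 * K) * (Ns d K m : ℝ) ^ d) +
      8 * (((2 * m + 1 : ℕ) : ℝ) ^ d) ^ 2 * (1 / (8 * (((2 * m + 1 : ℕ) : ℝ) ^ d) ^ 2 * K)) ≤ 2 / K := by
  set N := Ns d K m with hN
  have h0 := le_Ns hd hK (m := m)
  rw [← hN] at h0
  have hN0 : 0 < N := by omega
  have hNr : (0 : ℝ) < N := by exact_mod_cast hN0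
  have hKr : (0 : ℝ) < K := by exact_mod_cast hK
  have hK1 : (1 : ℝ) ≤ K := by exact_mod_cast hK
  have hm1 : (1 : ℝ) ≤ m := by exact_mod_cast hm
  have hd1 : (1 : ℝ) ≤ d := by exact_mod_cast hd
  set x : ℝ := ((8 * m + 1 : ℕ) : ℝ) with hx
  have hxm : x = 8 * m + 1 := by rw [hx]; push_cast; ring
  have hx1 : 1 ≤ x := by rw [hxm]; linarith
  have hNeq : (N : ℝ) = 10 * d * K ^ 2 * x ^ (2 * d + 1) := by
    rw [hN]; unfold Ns; rw [hx]; push_cast; ring
  have hxp : ∀ k, (1 : ℝ) ≤ x ^ k := fun k => one_le_pow₀ hx1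
  refine ⟨?_, ?_, ?_⟩
  · have h1 := nu_le (d := d) hN0 (show 2 * (5 * m) ≤ N by omega)
    have h2 : x ^ d * nu d N (5 * m) ≤ x ^ d * (2 * ((5 * m : ℕ) : ℝ) * d / N) :=
      mul_le_mul_of_nonneg_left h1 (by positivity)
    refine h2.trans ?_
    rw [mul_div_assoc', div_le_div_iff₀ hNr hKr, one_mul, hNeq]
    push_cast
    have e1 : x ^ (2 * d + 1) = x ^ d * x ^ (d + 1) := by rw [← pow_add]; congr 1; ring
    rw [e1]
    have e2 : (m : ℝ) * K ≤ K ^ 2 * x ^ (d + 1) := by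
      have h3 : (m : ℝ) ≤ x ^ (d + 1) := by
        calc (m : ℝ) ≤ x := by rw [hxm]; linarith
          _ ≤ x ^ (d + 1) := le_self_pow₀ hx1 (by omega)
      have h4 : (K : ℝ) ≤ K ^ 2 := by nlinarith
      calc (m : ℝ) * K = K * m := mul_comm _ _
        _ ≤ K ^ 2 * x ^ (d + 1) := mul_le_mul h4 h3 (by positivity) (by positivity)
    have e3 := mul_le_mul_of_nonneg_left e2 (show (0 : ℝ) ≤ 10 * d * x ^ d by positivity)
    nlinarith
  · have h1 := nu_le (d := d) hN0 (show 2 * 1 ≤ N by omega)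
    have h2 := nu_le (d := d) hN0 (show 2 * m ≤ N by omega)
    refine (add_le_add h1 h2).trans ?_
    rw [← add_div, div_le_div_iff₀ hNr hKr, one_mul, hNeq]
    push_cast
    have h3 : (m : ℝ) ≤ x ^ (2 * d + 1) := by
      calc (m : ℝ) ≤ x := by rw [hxm]; linarith
        _ ≤ x ^ (2 * d + 1) := le_self_pow₀ hx1 (by omega)
    have h4 : (K : ℝ) ≤ K ^ 2 := by nlinarith
    have h5 : (K : ℝ) * m ≤ K ^ 2 * x ^ (2 * d + 1) := mul_le_mul h4 h3 (by positivity) (by positivity)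
    have h6 : (K : ℝ) ≤ K * m := le_mul_of_one_le_right hKr.le hm1
    have h7 : 0 ≤ (d : ℝ) * (K ^ 2 * x ^ (2 * d + 1)) := by positivity
    have h8 := mul_le_mul_of_nonneg_left h5 (show (0 : ℝ) ≤ d by positivity)
    have h9 := mul_le_mul_of_nonneg_left h6 (show (0 : ℝ) ≤ d by positivity)
    nlinarith
  · set κ : ℝ := (((2 * m + 1 : ℕ) : ℝ) ^ d) ^ 2 with hκ
    have hκ0 : 0 < κ := by positivity
    have hκx : κ ≤ x ^ (2 * d) := by
      rw [hκ, ← pow_mul, mul_comm d 2]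
      refine pow_le_pow_left₀ (by positivity) ?_ _
      rw [hxm]; push_cast; linarith
    have e1 : 8 * κ * (1 / (8 * κ * K)) = 1 / K := by field_simp
    rw [e1]
    have hNd : (N : ℝ) ≤ (N : ℝ) ^ d := le_self_pow₀ (by exact_mod_cast hN0) (by omega)
    have e2 : Real.log 2 / (1 / (8 * κ * K) * (N : ℝ) ^ d) ≤ 1 / K := by
      have hlog : Real.log 2 ≤ 1 := by
        have := Real.log_le_sub_one_of_pos (show (0 : ℝ) < 2 by norm_num)
        linarith
      have h1 : Real.log 2 / (1 / (8 * κ * K) * (N : ℝ) ^ d) =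
          Real.log 2 * (8 * κ * K) / (N : ℝ) ^ d := by
        field_simp
      rw [h1, div_le_div_iff₀ (by positivity) hKr, one_mul]
      calc Real.log 2 * (8 * κ * K) * K ≤ 1 * (8 * κ * K) * K := by gcongr
        _ = 8 * (K ^ 2 * κ) := by ring
        _ ≤ 8 * (K ^ 2 * x ^ (2 * d)) := by gcongr
        _ ≤ 10 * d * K ^ 2 * x ^ (2 * d + 1) := by
            have e5 : x ^ (2 * d + 1) = x ^ (2 * d) * x := pow_succ _ _
            rw [e5]
            have h2 : (1 : ℝ) ≤ d * x := one_le_mul_of_one_le_of_one_le hd1 hx1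
            have h3 : 0 ≤ (K : ℝ) ^ 2 * x ^ (2 * d) := by positivity
            have h4 := mul_le_mul_of_nonneg_left h2 h3
            nlinarith
        _ = N := hNeq.symm
        _ ≤ (N : ℝ) ^ d := hNd
    have e3 : (2 : ℝ) / K = 1 / K + 1 / K := by ring
    rw [e3]
    linarith

/-- **One scale.** -/
theorem one_scale (hd : 1 ≤ d) (p : NNReal) (hp : p ≤ 1) {C : ℕ} (hC : 1 ≤ C)
    (hC2 : ∀ (p : unitInterval) (k : ℕ), 1 ≤ k → (∀ l : ℕ, l ≤ k → 1 / 2 ≤ fi (bondM d) l p) →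
      ∀ (z : Z d) (L : ℕ), 1 ≤ L →
      (mu (bondM d) p).real (Ta (bondM d) z k L) ≤ C * ((k : ℝ) + 1) ^ (2 * d ^ 2 + 3 * d) / √L)
    {K m : ℕ} (hK : 1 ≤ K) (hm : 1 ≤ m)
    (hpr : pr (bondM d) (uI p hp) m - pr (bondM d) (uI p hp) (Bs' d C K m) ≤ 1 / K)
    {v : (Fin d → ℝ) → ℝ} (hv : Mu v) (hvw : ∀ k, v k ≤ wt k) :
    ∫ U, GQI v p (Bs' d C K m) U ∂(LU d) ≤ 2 * (Bs' d C K m : ℝ) * Im v + 54 / K := by
  set N := Ns d K m with hN
  set n := ns d C K m with hn
  set B := Bs' d C K m with hB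
  have hI := Im_nonneg hv
  have h0 := le_Ns hd hK (m := m)
  rw [← hN] at h0
  have h0' := le_ns hd hC hK (m := m)
  rw [← hN, ← hn] at h0'
  have hNn : N ≤ n := by
    have : 1 * (N + 2) ≤ K * (N + 2) := Nat.mul_le_mul_right _ hK
    omega
  have hBn : (2 * n + 1) ^ d < B := Nat.lt_succ_self _
  have hKr : (0 : ℝ) < K := by exact_mod_cast hK
  have hBr : (0 : ℝ) ≤ B := Nat.cast_nonneg _
  by_cases hfi : ∀ l : ℕ, l ≤ N → 1 / 2 ≤ fi (bondM d) l (uI p hp)
  · -- the two-arm bound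
    have hTa : (mu (bondM d) (uI p hp)).real (Ta (bondM d) 0 N n) ≤ 1 / K := by
      refine (hC2 (uI p hp) N (by omega) hfi 0 n (by omega)).trans ?_
      have hs : √(n : ℝ) = C * K * ((N : ℝ) + 1) ^ (2 * d ^ 2 + 3 * d) := by
        have e : (n : ℝ) = (C * K * ((N : ℝ) + 1) ^ (2 * d ^ 2 + 3 * d)) ^ 2 := by
          rw [hn, hN]; unfold ns; push_cast
          rw [mul_pow, mul_pow, ← pow_mul]
          congr 2
          ring
        rw [e, Real.sqrt_sq (by positivity)]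
      rw [hs]
      have hCr : (0 : ℝ) < C := by exact_mod_cast hC
      have hX : (0 : ℝ) < ((N : ℝ) + 1) ^ (2 * d ^ 2 + 3 * d) := by positivity
      rw [div_le_div_iff₀ (by positivity) hKr]
      linarith
    obtain ⟨g1, g2, g3⟩ := errs hd hK hm
    rw [← hN] at g1 g2 g3
    set l : ℝ := 1 / (8 * (((2 * m + 1 : ℕ) : ℝ) ^ d) ^ 2 * K) with hl
    have hl0 : 0 < l := by positivity
    have hmain := GQI_le hd p hp (N := N) (m := m) (n := n) (B := B) (by omega) (by omega) hNn hBn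
      hv hvw one_pos hl0
    have hVB := pr_le_VB (d := d) p hp B
    have hAv := Av_Im (bondM d) (uI p hp) m hv
    have hBm : ((8 * m + 1 : ℕ) : ℝ) ^ d ≤ B := by
      have h1 : (8 * m + 1) ^ d ≤ (2 * n + 1) ^ d := Nat.pow_le_pow_left (by omega) d
      have h2 : (8 * m + 1) ^ d ≤ B := by omega
      exact_mod_cast h2
    have hAv2 : Av (bondM d) (uI p hp) m v ≤ B * Im v :=
      hAv.trans (mul_le_mul_of_nonneg_right hBm hI)
    have e1 : (1 + (1 : ℝ)⁻¹) = 2 := by norm_num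
    rw [e1] at hmain
    refine hmain.trans ?_
    have e3 : (54 : ℝ) / K = 54 * (1 / K) := by ring
    have e4 : (2 : ℝ) / K = 2 * (1 / K) := by ring
    rw [e4] at g3
    rw [e3]
    have hKi : (0 : ℝ) < 1 / K := by positivity
    nlinarith
  · push Not at hfi
    obtain ⟨l, hl, hfl⟩ := hfi
    refine (GQI_int_le hv p B).trans ?_
    refine (VB_le_pr p hp hBn).trans ?_
    have h1 : pr (bondM d) (uI p hp) n ≤ pr (bondM d) (uI p hp) (K * (l + 2)) := by
      refine measureReal_mono (Ae_anti (bondM d) ?_ 0) (measure_ne_top _ _)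
      have : K * (l + 2) ≤ K * (N + 2) := Nat.mul_le_mul_left _ (by omega)
      omega
    have h2 := arm_half (bondM d) (uI p hp) l hfl.le K
    have h3 : pr (bondM d) (uI p hp) (K * (l + 2)) ≤ (1 / 2) ^ K := h2
    have h4 : ((1 : ℝ) / 2) ^ K ≤ 1 / K := by
      rw [one_div_pow]
      refine one_div_le_one_div_of_le hKr ?_
      have : K ≤ 2 ^ K := Nat.lt_two_pow_self.le
      exact_mod_cast this
    have h5 : (1 : ℝ) / K ≤ 54 / K := div_le_div_of_nonneg_right (by norm_num) hKr.le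
    have h6 : 0 ≤ 2 * (B : ℝ) * Im v := by positivity
    linarith

end

end Pool.Agent.J4.H90.Perc
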