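import Pool.Agent.J4.H90.Perc.Q4

/-!
The choice of the scale and its size.
-/

set_option autoImplicit false
set_option linter.deprecated false

open MeasureTheory Set Filter
open scoped Topology

namespace Pool.Agent.J4.H90.Perc

open Pool.Agent.Results.MP_54f242_pr.InfraredMean (opn P tau cube dot Dhat Dhat_le cube_meas cube_fin
  cube_vol cos_mul_Dhat box box_card dot_sub integrable_of_cont int_cos int_cos_mul_cos int_term sh
  meas_reach)
open Pool.Agent.Y990.CB (Z Bo Bf mem_Bf card_Bf coe_Bf Perc Perc_meas bondM Mod mu G th Perc_shift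
  dep_mono Am_dep Am Ta Ta_meas Ta_dep Ta_shift self_mem_Bo Cn Cn_meas Cn_dep reach_mono Fr nd_bond)
open Pool.Agent.Y333.CB (fi)
open Pool.Agent.J4.H67.PC (LU conf meas_conf map_conf conf_mono shift shift_reach cl cf mem_cf meas_cf
  meas_cl meas_fin FF FF_meas FF_empty meas_joint int_FF_le reach_left ps ps_cont ps_eq ps_nonneg
  coe_cf dens dens_U dens_meas dens_fin)

noncomputable section

variable {d : ℕ}

/-- the scales -/
def sc (d C K : ℕ) : ℕ → ℕ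
  | 0 => 1
  | j + 1 => Bs' d C K (sc d C K j)

theorem le_Bs (hd : 1 ≤ d) {C K : ℕ} (hC : 1 ≤ C) (hK : 1 ≤ K) (m : ℕ) : m ≤ Bs' d C K m := by
  have h1 := le_Ns hd hK (m := m)
  have h2 := le_ns hd hC hK (m := m)
  have h3 : 1 * (Ns d K m + 2) ≤ K * (Ns d K m + 2) := Nat.mul_le_mul_right _ hK
  have h4 : 2 * ns d C K m + 1 ≤ (2 * ns d C K m + 1) ^ d := Nat.le_self_pow (by omega) _
  unfold Bs'
  omega

theorem sc_mono (hd : 1 ≤ d) {C K : ℕ} (hC : 1 ≤ C) (hK : 1 ≤ K) : Monotone (sc d C K) :=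
  monotone_nat_of_le_succ fun j => le_Bs hd hC hK (sc d C K j)

theorem sc_pos (hd : 1 ≤ d) {C K : ℕ} (hC : 1 ≤ C) (hK : 1 ≤ K) (j : ℕ) : 1 ≤ sc d C K j :=
  sc_mono hd hC hK (Nat.zero_le j)

/-- pigeonhole -/
theorem pigeon (f : ℕ → ℝ) (h0 : ∀ n, 0 ≤ f n) (h1 : ∀ n, f n ≤ 1) (s : ℕ → ℕ) {K : ℕ}
    (hK : 1 ≤ K) : ∃ j, j < K ∧ f (s j) - f (s (j + 1)) ≤ 1 / K := by
  by_contra hc
  push Not at hc
  have hKr : (0 : ℝ) < K := by exact_mod_cast hK
  have h2 : ∑ j ∈ Finset.range K, (1 / (K : ℝ)) < ∑ j ∈ Finset.range K, (f (s j) - f (s (j + 1))) := by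
    refine Finset.sum_lt_sum_of_nonempty ⟨0, Finset.mem_range.2 hK⟩ fun j hj => ?_
    exact hc j (Finset.mem_range.1 hj)
  rw [Finset.sum_range_sub' (fun j => f (s j)), Finset.sum_const, Finset.card_range, nsmul_eq_mul,
    mul_one_div_cancel hKr.ne'] at h2
  have := h0 (s K)
  have := h1 (s 0)
  linarith

/-- **The uniform bound with the scale.** -/
theorem unif_sc (hd : 1 ≤ d) : ∃ C : ℕ, 1 ≤ C ∧ ∀ (p : NNReal) (hp : p ≤ 1) (K : ℕ), 1 ≤ K →
    ∀ v : (Fin d → ℝ) → ℝ, Mu v → (∀ k, v k ≤ wt k) →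
    ∫ k in cube d, v k * (dens d p hp k).toReal ≤
      (2 * Real.pi) ^ d * (3 * (sc d C K K : ℝ) * Im v + 54 / K) := by
  obtain ⟨C0, hC0, h⟩ := two_unif (bondM d) hd nd_bond (Pool.Agent.Y448.CB2.qm_bond d)
  have hC1 : 1 ≤ ⌈C0⌉₊ := Nat.one_le_ceil_iff.2 (by linarith)
  refine ⟨⌈C0⌉₊, hC1, fun p hp K hK v hv hvw => ?_⟩
  set C := ⌈C0⌉₊ with hC
  have hC2 : ∀ (p : unitInterval) (k : ℕ), 1 ≤ k → (∀ l : ℕ, l ≤ k → 1 / 2 ≤ fi (bondM d) l p) →
      ∀ (z : Z d) (L : ℕ), 1 ≤ L →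
      (mu (bondM d) p).real (Ta (bondM d) z k L) ≤ C * ((k : ℝ) + 1) ^ (2 * d ^ 2 + 3 * d) / √L := by
    intro p k hk hfi z L hL
    refine (h p k hk hfi z L hL).trans ?_
    have hle : C0 ≤ C := Nat.le_ceil _
    gcongr
  obtain ⟨j, hj, hpr⟩ := pigeon (pr (bondM d) (uI p hp)) (pr_nonneg _ _) (pr_le_one _ _)
    (sc d C K) hK
  have h1 := one_scale hd p hp hC1 hC2 hK (sc_pos hd hC1 hK j) hpr hv hvw
  have h2 := dens_pair_le hv p hp (Bs' d C K (sc d C K j))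
  refine h2.trans (mul_le_mul_of_nonneg_left ?_ two_pi_pos.le)
  have h3 : Bs' d C K (sc d C K j) ≤ sc d C K K := sc_mono hd hC1 hK (show j + 1 ≤ K by omega)
  have h4 : ((Bs' d C K (sc d C K j) : ℕ) : ℝ) ≤ sc d C K K := by exact_mod_cast h3
  have h5 := mul_le_mul_of_nonneg_right h4 (Im_nonneg hv)
  linarith

/-- the exponent of the growth of the scales -/
def Ex (d : ℕ) : ℕ := (4 + (2 * d + 4) * (2 * (2 * d ^ 2 + 3 * d))) * d

theorem Bs_le (hd : 1 ≤ d) {C K m : ℕ} (hC : 1 ≤ C) (hK : 1 ≤ K) (hm : 1 ≤ m) :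
    Bs' d C K m ≤ (594 * C * d * K * m) ^ Ex d := by
  set X : ℕ := 99 * d * K * m with hX
  have hdKm : 1 ≤ d * K * m := Nat.one_le_iff_ne_zero.2 (by positivity)
  have hX1 : 1 ≤ X := by rw [hX]; nlinarith
  have a1 : 11 * d ≤ X := by
    have : 11 * d * 1 ≤ 99 * d * (K * m) := Nat.mul_le_mul (by omega)
      (Nat.one_le_iff_ne_zero.2 (by positivity))
    rw [hX]; nlinarith
  have a2 : K ≤ X := by
    have : 1 * K ≤ (99 * d * m) * K := Nat.mul_le_mul_right _ (Nat.one_le_iff_ne_zero.2 (by positivity))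
    rw [hX]; nlinarith
  have a3 : 8 * m + 1 ≤ X := by
    have h1 : 9 * m ≤ X := by
      have : 9 * 1 * m ≤ 99 * (d * K) * m := Nat.mul_le_mul_right _
        (Nat.mul_le_mul (by omega) (Nat.one_le_iff_ne_zero.2 (by positivity)))
      rw [hX]; nlinarith
    omega
  have b1 : Ns d K m + 1 ≤ X ^ (2 * d + 4) := by
    unfold Ns
    have h1 : 1 ≤ d * K ^ 2 * (8 * m + 1) ^ (2 * d + 1) :=
      Nat.one_le_iff_ne_zero.2 (by positivity)
    calc 10 * d * K ^ 2 * (8 * m + 1) ^ (2 * d + 1) + 1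
        ≤ 10 * d * K ^ 2 * (8 * m + 1) ^ (2 * d + 1) + d * K ^ 2 * (8 * m + 1) ^ (2 * d + 1) := by
          omega
      _ = (11 * d) * K ^ 2 * (8 * m + 1) ^ (2 * d + 1) := by ring
      _ ≤ X * X ^ 2 * X ^ (2 * d + 1) := by gcongr
      _ = X ^ (2 * d + 4) := by rw [← pow_succ', ← pow_add]; congr 1; ring
  set e : ℕ := 2 * (2 * d ^ 2 + 3 * d) with he
  set Y : ℕ := C * X with hY
  have hY1 : 1 ≤ Y := Nat.mul_pos hC hX1
  have hCY : C ≤ Y := Nat.le_mul_of_pos_right _ hX1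
  have hXY : X ≤ Y := Nat.le_mul_of_pos_left _ hC
  have b2 : ns d C K m ≤ Y ^ (4 + (2 * d + 4) * e) := by
    unfold ns
    calc C ^ 2 * K ^ 2 * (Ns d K m + 1) ^ e
        ≤ Y ^ 2 * Y ^ 2 * (Y ^ (2 * d + 4)) ^ e := by
          gcongr
          · exact a2.trans hXY
          · exact b1.trans (Nat.pow_le_pow_left hXY _)
      _ = Y ^ (4 + (2 * d + 4) * e) := by rw [← pow_mul, ← pow_add, ← pow_add]
  set E : ℕ := 4 + (2 * d + 4) * e with hE
  have hEx : Ex d = E * d := by rw [hE, he]; unfold Ex; rfl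
  have hE0 : E ≠ 0 := by rw [hE]; omega
  have b3 : 6 * Y ^ E ≤ (6 * Y) ^ E := by
    rw [mul_pow 6 Y E]
    exact Nat.mul_le_mul_right _ (Nat.le_self_pow hE0 _)
  have hn0 : 1 ≤ ns d C K m := by
    have h1 := le_Ns hd hK (m := m)
    have h2 := le_ns hd hC hK (m := m)
    have h3 : 1 * (Ns d K m + 2) ≤ K * (Ns d K m + 2) := Nat.mul_le_mul_right _ hK
    omega
  have b4 : Bs' d C K m ≤ (6 * ns d C K m) ^ d := by
    unfold Bs'
    set n := ns d C K m with hn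
    have c1 : (2 * n + 1) ^ d ≤ (3 * n) ^ d := Nat.pow_le_pow_left (by omega) d
    have c2 : 1 ≤ (3 * n) ^ d := Nat.one_le_pow _ _ (by omega)
    have c3 : 2 ≤ 2 ^ d := Nat.le_self_pow (by omega) 2
    calc (2 * n + 1) ^ d + 1 ≤ 2 * (3 * n) ^ d := by omega
      _ ≤ 2 ^ d * (3 * n) ^ d := Nat.mul_le_mul_right _ c3
      _ = (6 * n) ^ d := by rw [← mul_pow]; congr 1; ring
  calc Bs' d C K m ≤ (6 * ns d C K m) ^ d := b4
    _ ≤ (6 * Y ^ E) ^ d := Nat.pow_le_pow_left (Nat.mul_le_mul_left _ b2) d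
    _ ≤ ((6 * Y) ^ E) ^ d := Nat.pow_le_pow_left b3 d
    _ = (594 * C * d * K * m) ^ Ex d := by
        rw [← pow_mul, hEx, hY, hX]
        congr 1
        ring

theorem sc_le (hd : 1 ≤ d) {C K : ℕ} (hC : 1 ≤ C) (hK : 1 ≤ K) (j : ℕ) :
    sc d C K j ≤ (594 * C * d * K) ^ ((2 * Ex d) ^ j) := by
  set Y : ℕ := 594 * C * d * K with hY
  have hY1 : 1 ≤ Y := Nat.one_le_iff_ne_zero.2 (by positivity)
  have hA : 1 ≤ Ex d := by
    unfold Ex
    exact Nat.one_le_iff_ne_zero.2 (by positivity)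
  induction j with
  | zero => rw [pow_zero, pow_one]; exact hY1
  | succ j ih =>
    show Bs' d C K (sc d C K j) ≤ _
    refine (Bs_le hd hC hK (sc_pos hd hC hK j)).trans ?_
    rw [← hY]
    calc (Y * sc d C K j) ^ Ex d ≤ (Y * Y ^ ((2 * Ex d) ^ j)) ^ Ex d :=
          Nat.pow_le_pow_left (Nat.mul_le_mul_left _ ih) _
      _ = Y ^ (((2 * Ex d) ^ j + 1) * Ex d) := by rw [← pow_succ', ← pow_mul]
      _ ≤ Y ^ ((2 * Ex d) ^ (j + 1)) := by
          refine Nat.pow_le_pow_right hY1 ?_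
          have h1 : 1 ≤ (2 * Ex d) ^ j := Nat.one_le_pow _ _ (by omega)
          calc ((2 * Ex d) ^ j + 1) * Ex d ≤ ((2 * Ex d) ^ j + (2 * Ex d) ^ j) * Ex d :=
                Nat.mul_le_mul_right _ (by omega)
            _ = (2 * Ex d) ^ (j + 1) := by rw [pow_succ]; ring

/-- the scales are at most doubly exponential -/
theorem sc_exp (hd : 1 ≤ d) {C : ℕ} (hC : 1 ≤ C) : ∃ c : ℝ, 0 < c ∧ ∀ K : ℕ, 1 ≤ K →
    (sc d C K K : ℝ) ≤ Real.exp (Real.exp (c * K)) := by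
  have hA : 1 ≤ Ex d := by
    unfold Ex
    exact Nat.one_le_iff_ne_zero.2 (by positivity)
  have hA2 : (1 : ℝ) ≤ 2 * (Ex d : ℝ) := by
    have : (1 : ℝ) ≤ Ex d := by exact_mod_cast hA
    linarith
  have hA0 : (0 : ℝ) < 2 * (Ex d : ℝ) := by linarith
  refine ⟨Real.log (2 * (Ex d : ℝ)) + 594 * C * d, ?_, fun K hK => ?_⟩
  · have h1 := Real.log_nonneg hA2
    have h2 : (0 : ℝ) < 594 * C * d := by positivity
    linarith
  · have h1 := sc_le hd hC hK K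
    have h2 : (sc d C K K : ℝ) ≤ ((594 * C * d * K : ℕ) : ℝ) ^ ((2 * Ex d) ^ K) := by exact_mod_cast h1
    refine h2.trans ?_
    set Y : ℝ := ((594 * C * d * K : ℕ) : ℝ) with hY
    have hY0 : 0 < Y := by
      have : 0 < 594 * C * d * K := by positivity
      rw [hY]; exact_mod_cast this
    have h3 : Y ^ ((2 * Ex d) ^ K) = Real.exp ((2 * (Ex d : ℝ)) ^ K * Real.log Y) := by
      rw [← Real.rpow_natCast, Real.rpow_def_of_pos hY0]
      congr 1
      push_cast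
      ring
    rw [h3]
    refine Real.exp_le_exp.2 ?_
    have h4 : Real.log Y ≤ Real.exp (594 * C * d * K) := by
      have h5 : Real.log Y ≤ Y - 1 := Real.log_le_sub_one_of_pos hY0
      have h6 : Y + 1 ≤ Real.exp Y := Real.add_one_le_exp Y
      have h7 : Y = 594 * C * d * K := by rw [hY]; push_cast; ring
      rw [← h7]
      linarith
    have h5 : (2 * (Ex d : ℝ)) ^ K = Real.exp (Real.log (2 * (Ex d : ℝ)) * K) := by
      rw [← Real.rpow_natCast, Real.rpow_def_of_pos hA0]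
    calc (2 * (Ex d : ℝ)) ^ K * Real.log Y
        ≤ Real.exp (Real.log (2 * (Ex d : ℝ)) * K) * Real.exp (594 * C * d * K) := by
          rw [h5]
          exact mul_le_mul_of_nonneg_left h4 (Real.exp_pos _).le
      _ = Real.exp ((Real.log (2 * (Ex d : ℝ)) + 594 * C * d) * K) := by
          rw [← Real.exp_add]; congr 1; ring

/-- **The uniform bound.** -/
theorem unif_exp (hd : 1 ≤ d) : ∃ c : ℝ, 0 < c ∧ ∀ (p : NNReal) (hp : p ≤ 1) (K : ℕ), 1 ≤ K →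
    ∀ v : (Fin d → ℝ) → ℝ, Mu v → (∀ k, v k ≤ wt k) →
    ∫ k in cube d, v k * (dens d p hp k).toReal ≤
      3 * Real.exp (Real.exp (c * K)) * (∫ k in cube d, v k) + 54 * (2 * Real.pi) ^ d / K := by
  obtain ⟨C, hC, h⟩ := unif_sc hd
  obtain ⟨c, hc, h2⟩ := sc_exp hd hC
  refine ⟨c, hc, fun p hp K hK v hv hvw => ?_⟩
  refine (h p hp K hK v hv hvw).trans ?_
  have h3 := mul_le_mul_of_nonneg_right (h2 K hK) (Im_nonneg hv)
  have hpi := two_pi_pos (d := d)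
  have h4 : (2 * Real.pi) ^ d * Im v = ∫ k in cube d, v k := by
    unfold Im
    field_simp
  calc (2 * Real.pi) ^ d * (3 * (sc d C K K : ℝ) * Im v + 54 / K)
      ≤ (2 * Real.pi) ^ d * (3 * Real.exp (Real.exp (c * K)) * Im v + 54 / K) := by
        refine mul_le_mul_of_nonneg_left ?_ hpi.le
        linarith
    _ = 3 * Real.exp (Real.exp (c * K)) * ((2 * Real.pi) ^ d * Im v) + 54 * (2 * Real.pi) ^ d / K := by
        ring
    _ = _ := by rw [h4]

end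

end Pool.Agent.J4.H90.Perc
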