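import Pool.Agent.J4.H90.Perc.Q5
import Pool.Agent.J4.H90.Perc.Fin5

/-!
The tails of `(1 - D̂) f_p` and the convergence of the measures `f_p dk`.
-/

set_option autoImplicit false
set_option linter.deprecated false

open MeasureTheory Set Filter
open scoped Topology

namespace Pool.Agent.J4.H90.Perc

open Pool.Agent.Results.MP_54f242_pr.InfraredMean (opn P tau cube dot Dhat Dhat_le cube_meas cube_fin
  cube_vol cos_mul_Dhat box box_card dot_sub integrable_of_cont int_cos int_cos_mul_cos int_term sh
  meas_reach tau_zero)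
open Pool.Agent.J4.H67.PC (dens dens_U dens_meas dens_fin int_dens_le)

noncomputable section

variable {d : ℕ}

theorem int_dens_real (p : NNReal) (hp : p ≤ 1) :
    ∫ k in cube d, (dens d p hp k).toReal ≤ (2 * Real.pi) ^ d := by
  rw [integral_toReal (dens_meas p hp).aemeasurable (dens_fin p hp)]
  exact ENNReal.toReal_le_of_le_ofReal two_pi_pos.le (int_dens_le p hp)

theorem wdens_int (p : NNReal) (hp : p ≤ 1) :
    Integrable (fun k => (1 - Dhat k) * (dens d p hp k).toReal) (volume.restrict (cube d)) := by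
  have h := (wt_Mu.int (dens_int (d := d) p hp)).const_mul 2
  refine h.congr (Eventually.of_forall fun k => ?_)
  show 2 * (wt k * (dens d p hp k).toReal) = (1 - Dhat k) * (dens d p hp k).toReal
  unfold wt
  ring

theorem int_wdens (p : NNReal) (hp : p ≤ 1) :
    ∫ k in cube d, (1 - Dhat k) * (dens d p hp k).toReal ≤ 2 * (2 * Real.pi) ^ d := by
  calc ∫ k in cube d, (1 - Dhat k) * (dens d p hp k).toReal
      ≤ ∫ k in cube d, 2 * (dens d p hp k).toReal := by
        refine integral_mono (wdens_int p hp) ((dens_int p hp).const_mul 2) fun k => ?_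
        refine mul_le_mul_of_nonneg_right ?_ ENNReal.toReal_nonneg
        have := abs_le.1 (Dhat_le k)
        linarith [this.1]
    _ = 2 * ∫ k in cube d, (dens d p hp k).toReal := integral_const_mul _ _
    _ ≤ 2 * (2 * Real.pi) ^ d := by
        have := int_dens_real (d := d) p hp
        linarith

theorem wdens_nonneg (p : NNReal) (hp : p ≤ 1) (k : Fin d → ℝ) :
    0 ≤ (1 - Dhat k) * (dens d p hp k).toReal := by
  refine mul_nonneg ?_ ENNReal.toReal_nonneg
  have := abs_le.1 (Dhat_le k)
  linarith [this.2]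

theorem tail_K (p : NNReal) (hp : p ≤ 1) {c : ℝ}
    (h : ∀ (K : ℕ), 1 ≤ K → ∀ v : (Fin d → ℝ) → ℝ, Mu v → (∀ k, v k ≤ wt k) →
      ∫ k in cube d, v k * (dens d p hp k).toReal ≤
        3 * Real.exp (Real.exp (c * K)) * (∫ k in cube d, v k) + 54 * (2 * Real.pi) ^ d / K)
    (K : ℕ) (hK : 1 ≤ K) (T : ℝ) (hT : 1 ≤ T) :
    ∫ k in cube d ∩ {k | T < (1 - Dhat k) * (dens d p hp k).toReal},
      (1 - Dhat k) * (dens d p hp k).toReal ≤
      (2 * Real.pi) ^ d * (12 * Real.exp (Real.exp (c * K)) / T + 108 / K) := by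
  set f : (Fin d → ℝ) → ℝ := fun k => (1 - Dhat k) * (dens d p hp k).toReal with hf
  set E : Set (Fin d → ℝ) := {k | T < f k} with hE
  have hfm : Measurable f :=
    (continuous_const.sub Dhat_cont).measurable.mul (dens_meas p hp).ennreal_toReal
  have hEm : MeasurableSet E := measurableSet_lt measurable_const hfm
  have hv := ind_Mu (d := d) wt_Mu hEm
  have h1 := h K hK (E.indicator wt) hv (fun k => Set.indicator_le_self' (fun k _ => wt_Mu.nn k) k)
  have hT0 : 0 < T := by linarith
  have h2 : ∫ k in cube d ∩ E, f k = 2 * ∫ k in cube d, E.indicator wt k * (dens d p hp k).toReal := by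
    rw [← setIntegral_indicator hEm, ← integral_const_mul]
    refine integral_congr_ae (Eventually.of_forall fun k => ?_)
    show E.indicator f k = 2 * (E.indicator wt k * (dens d p hp k).toReal)
    by_cases hk : k ∈ E
    · rw [Set.indicator_of_mem hk, Set.indicator_of_mem hk]
      simp only [hf, wt]
      ring
    · rw [Set.indicator_of_notMem hk, Set.indicator_of_notMem hk]
      ring
  have h3 : ∫ k in cube d, E.indicator wt k ≤ 2 * (2 * Real.pi) ^ d / T := by
    have h4 : ∫ k in cube d, E.indicator wt k ≤ ∫ k in cube d, T⁻¹ * f k := by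
      refine integral_mono hv.int1 ((wdens_int p hp).const_mul _) fun k => ?_
      show E.indicator wt k ≤ T⁻¹ * f k
      have h0 : 0 ≤ f k := wdens_nonneg p hp k
      by_cases hk : k ∈ E
      · rw [Set.indicator_of_mem hk]
        have h5 : T < f k := hk
        have h6 : 1 ≤ T⁻¹ * f k := by
          rw [inv_mul_eq_div, le_div_iff₀ hT0]
          linarith
        exact (wt_Mu.le k).trans h6
      · rw [Set.indicator_of_notMem hk]
        positivity
    refine h4.trans ?_
    rw [integral_const_mul, inv_mul_eq_div]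
    exact div_le_div_of_nonneg_right (int_wdens p hp) hT0.le
  rw [h2]
  have hexp : 0 < Real.exp (Real.exp (c * K)) := Real.exp_pos _
  calc 2 * ∫ k in cube d, E.indicator wt k * (dens d p hp k).toReal
      ≤ 2 * (3 * Real.exp (Real.exp (c * K)) * (2 * (2 * Real.pi) ^ d / T) +
          54 * (2 * Real.pi) ^ d / K) := by
        refine mul_le_mul_of_nonneg_left (h1.trans ?_) (by norm_num)
        gcongr
    _ = _ := by ring

/-- **The weak infrared bound.** -/
theorem tail_loglog (hd : 1 ≤ d) : ∃ A : ℝ, 0 < A ∧ ∀ (p : NNReal) (hp : p ≤ 1) (T : ℝ),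
    Real.exp 1 < T →
    ∫ k in cube d ∩ {k | T < (1 - Dhat k) * (dens d p hp k).toReal},
      (1 - Dhat k) * (dens d p hp k).toReal ≤ A / Real.log (Real.log T) := by
  obtain ⟨c, hc, h⟩ := unif_exp hd
  set Q : ℝ := (2 * Real.pi) ^ d with hQ
  have hQ0 : 0 < Q := two_pi_pos
  refine ⟨Q * (30 + 436 * c), by positivity, fun p hp T hT => ?_⟩
  have hT0 : 0 < T := (Real.exp_pos 1).trans hT
  have hT1 : 1 ≤ T := (Real.one_le_exp zero_le_one).trans hT.le
  set u : ℝ := Real.log T with hu
  have hu1 : 1 < u := (Real.lt_log_iff_exp_lt hT0).2 hT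
  have hu0 : 0 < u := by linarith
  set L : ℝ := Real.log u with hL
  have hL0 : 0 < L := Real.log_pos hu1
  rw [le_div_iff₀ hL0]
  -- the trivial bound
  have htriv : ∫ k in cube d ∩ {k | T < (1 - Dhat k) * (dens d p hp k).toReal},
      (1 - Dhat k) * (dens d p hp k).toReal ≤ 2 * Q := by
    refine le_trans ?_ (int_wdens p hp)
    exact setIntegral_mono_set (wdens_int p hp)
      (Eventually.of_forall fun k => wdens_nonneg p hp k) (Eventually.of_forall inter_subset_left)
  by_cases h1 : L < 2 * c
  · calc _ ≤ 2 * Q * L := mul_le_mul_of_nonneg_right htriv hL0.le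
      _ ≤ 2 * Q * (2 * c) := by gcongr
      _ ≤ Q * (30 + 436 * c) := by nlinarith
  push Not at h1
  by_cases h2 : u < 4
  · have h3 : L ≤ 3 := by
      have := Real.log_le_sub_one_of_pos hu0
      linarith
    calc _ ≤ 2 * Q * L := mul_le_mul_of_nonneg_right htriv hL0.le
      _ ≤ 2 * Q * 3 := by gcongr
      _ ≤ Q * (30 + 436 * c) := by nlinarith
  push Not at h2
  set K : ℕ := ⌊L / (2 * c)⌋₊ with hK
  have hx1 : 1 ≤ L / (2 * c) := by rw [le_div_iff₀ (by positivity)]; linarith
  have hK1 : 1 ≤ K := Nat.le_floor (by exact_mod_cast hx1)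
  have hKx : (K : ℝ) ≤ L / (2 * c) := Nat.floor_le (by linarith)
  have hKr : (0 : ℝ) < K := by exact_mod_cast hK1
  have hK2 : L / (4 * c) ≤ K := by
    have h4 : L / (2 * c) < K + 1 := Nat.lt_floor_add_one _
    have h5 : (1 : ℝ) ≤ K := by exact_mod_cast hK1
    have h6 : L / (4 * c) = (L / (2 * c)) / 2 := by
      rw [div_div]; congr 1; ring
    rw [h6]
    linarith
  have hmain := tail_K p hp (fun K hK v hv hvw => h p hp K hK v hv hvw) K hK1 T hT1
  have e1 : Real.exp (c * K) ≤ √u := by
    have h4 : c * K ≤ L / 2 := by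
      have := mul_le_mul_of_nonneg_left hKx hc.le
      have h5 : c * (L / (2 * c)) = L / 2 := by field_simp
      linarith
    refine (Real.exp_le_exp.2 h4).trans (le_of_eq ?_)
    have h5 : Real.exp (L / 2) ^ 2 = u := by
      rw [← Real.exp_nat_mul]
      have : ((2 : ℕ) : ℝ) * (L / 2) = L := by push_cast; ring
      rw [this, hL, Real.exp_log hu0]
    rw [← h5, Real.sqrt_sq (Real.exp_pos _).le]
  have e2 : √u ≤ u / 2 := by
    rw [Real.sqrt_le_left (by positivity)]
    nlinarith
  have e3 : Real.exp (Real.exp (c * K)) / T ≤ 2 / L := by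
    have h4 : Real.exp (Real.exp (c * K)) ≤ Real.exp (u / 2) := Real.exp_le_exp.2 (e1.trans e2)
    have h5 : T = Real.exp (u / 2) * Real.exp (u / 2) := by
      rw [← Real.exp_add, add_halves, hu, Real.exp_log hT0]
    have h6 : u / 2 ≤ Real.exp (u / 2) := by
      have := Real.add_one_le_exp (u / 2)
      linarith
    have h7 : L ≤ u := by
      have := Real.log_le_sub_one_of_pos hu0
      linarith
    have hexp := Real.exp_pos (u / 2)
    rw [div_le_div_iff₀ hT0 hL0, h5]
    calc Real.exp (Real.exp (c * K)) * L ≤ Real.exp (u / 2) * u := by gcongr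
      _ ≤ Real.exp (u / 2) * (2 * Real.exp (u / 2)) := by
          refine mul_le_mul_of_nonneg_left ?_ hexp.le
          linarith
      _ = 2 * (Real.exp (u / 2) * Real.exp (u / 2)) := by ring
  have e4 : (1 : ℝ) / K ≤ 4 * c / L := by
    rw [div_le_div_iff₀ hKr hL0, one_mul]
    rw [div_le_iff₀ (by positivity)] at hK2
    linarith
  have e5 : Q * (12 * Real.exp (Real.exp (c * K)) / T + 108 / K) ≤ Q * (24 / L + 432 * c / L) := by
    refine mul_le_mul_of_nonneg_left ?_ hQ0.le
    have h4 : 12 * Real.exp (Real.exp (c * K)) / T = 12 * (Real.exp (Real.exp (c * K)) / T) := by ring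
    have h5 : (108 : ℝ) / K = 108 * (1 / K) := by ring
    have h6 : (24 : ℝ) / L = 12 * (2 / L) := by ring
    have h7 : 432 * c / L = 108 * (4 * c / L) := by ring
    rw [h4, h5, h6, h7]
    linarith
  calc _ ≤ Q * (24 / L + 432 * c / L) * L := mul_le_mul_of_nonneg_right (hmain.trans e5) hL0.le
    _ = Q * (24 + 432 * c) := by field_simp
    _ ≤ Q * (30 + 436 * c) := by
        refine mul_le_mul_of_nonneg_left ?_ hQ0.le
        linarith

/-- the weighted convergence along sequences -/
theorem wconv_seq {g : (Fin d → ℝ) → ℝ}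
    (h : ∀ ε : ℝ, 0 < ε → ∃ p0 : NNReal, p0 < pcrit d ∧ ∀ (p : NNReal) (hp : p ≤ 1), p0 < p →
      p < pcrit d → ∫ k in cube d, (1 - Dhat k) * |(dens d p hp k).toReal - g k| ≤ ε)
    (q : ℕ → NNReal) (hq : ∀ n, q n ≤ 1) (hlt : ∀ n, q n < pcrit d)
    (hlim : Tendsto q atTop (𝓝 (pcrit d))) :
    Tendsto (fun n => ∫ k in cube d, (1 - Dhat k) * |(dens d (q n) (hq n) k).toReal - g k|)
      atTop (𝓝 0) := by
  rw [Metric.tendsto_atTop]
  intro ε hε
  obtain ⟨p0, h1, h2⟩ := h (ε / 2) (by linarith)
  obtain ⟨N, hN⟩ := eventually_atTop.1 (hlim.eventually (lt_mem_nhds h1))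
  refine ⟨N, fun n hn => ?_⟩
  have h3 := h2 (q n) (hq n) (hN n hn) (hlt n)
  have h4 : 0 ≤ ∫ k in cube d, (1 - Dhat k) * |(dens d (q n) (hq n) k).toReal - g k| := by
    refine integral_nonneg fun k => mul_nonneg ?_ (abs_nonneg _)
    have := abs_le.1 (Dhat_le k)
    linarith [this.2]
  rw [Real.dist_eq, sub_zero, abs_of_nonneg h4]
  linarith

/-- **Convergence of the measures.** -/
theorem phi_conv (hd : 1 ≤ d) {g : (Fin d → ℝ) → ℝ}
    (hg : Integrable g (volume.restrict (cube d))) (hg0 : ∀ k, 0 ≤ g k)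
    (hmass : ∫ k in cube d, g k = (2 * Real.pi) ^ d * (1 - theta d (pcrit d) pcrit_le ^ 2))
    (q : ℕ → NNReal) (hq : ∀ n, q n ≤ 1) (hlt : ∀ n, q n < pcrit d)
    (hw : Tendsto (fun n => ∫ k in cube d, (1 - Dhat k) * |(dens d (q n) (hq n) k).toReal - g k|)
      atTop (𝓝 0))
    {φ : (Fin d → ℝ) → ℝ} (hφm : Measurable φ) {B : ℝ} (hφb : ∀ k, |φ k| ≤ B)
    (hφ0 : ContinuousAt φ 0) :
    Tendsto (fun n => ∫ k in cube d, φ k * (dens d (q n) (hq n) k).toReal) atTop
      (𝓝 ((2 * Real.pi) ^ d * theta d (pcrit d) pcrit_le ^ 2 * φ 0 +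
        ∫ k in cube d, φ k * g k)) := by
  set Q : ℝ := (2 * Real.pi) ^ d with hQ
  have hQ0 : 0 < Q := two_pi_pos
  have hB0 : 0 ≤ B := (abs_nonneg _).trans (hφb 0)
  have hd0 : (0 : ℝ) < d := by exact_mod_cast hd
  set t : ℝ := theta d (pcrit d) pcrit_le ^ 2 with ht
  set f : ℕ → (Fin d → ℝ) → ℝ := fun n k => (dens d (q n) (hq n) k).toReal with hf
  have hfi : ∀ n, Integrable (f n) (volume.restrict (cube d)) := fun n => dens_int _ _
  have hf0 : ∀ n k, 0 ≤ f n k := fun n k => ENNReal.toReal_nonneg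
  have hfmass : ∀ n, ∫ k in cube d, f n k = Q := by
    intro n
    have h1 := int_nd (q n) (hq n) (fin_of_lt (q n) (hq n) (hlt n))
    unfold nd at h1
    rw [integral_div, div_eq_one_iff_eq hQ0.ne'] at h1
    exact h1
  have hφbd : ∀ {F : (Fin d → ℝ) → ℝ}, Integrable F (volume.restrict (cube d)) →
      Integrable (fun k => φ k * F k) (volume.restrict (cube d)) := fun {F} hF =>
    hF.bdd_mul (c := B) hφm.aestronglyMeasurable (Eventually.of_forall fun k => by
      rw [Real.norm_eq_abs]; exact hφb k)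
  have hid : ∀ n, (∫ k in cube d, φ k * f n k) - (Q * t * φ 0 + ∫ k in cube d, φ k * g k) =
      ∫ k in cube d, (φ k - φ 0) * (f n k - g k) := by
    intro n
    have e : ∀ k, (φ k - φ 0) * (f n k - g k) =
        (φ k * f n k - φ k * g k) - (φ 0 * f n k - φ 0 * g k) := fun k => by ring
    simp_rw [e]
    have j1 : Integrable (fun k => φ k * f n k - φ k * g k) (volume.restrict (cube d)) :=
      (hφbd (hfi n)).sub (hφbd hg)
    have j2 : Integrable (fun k => φ 0 * f n k - φ 0 * g k) (volume.restrict (cube d)) :=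
      ((hfi n).const_mul _).sub (hg.const_mul _)
    rw [integral_sub j1 j2, integral_sub (hφbd (hfi n)) (hφbd hg),
      integral_sub ((hfi n).const_mul _) (hg.const_mul _), integral_const_mul, integral_const_mul,
      hfmass, hmass]
    ring
  have hwi : ∀ n, Integrable (fun k => (1 - Dhat k) * |f n k - g k|) (volume.restrict (cube d)) := by
    intro n
    have h := (wt_Mu.int ((hfi n).sub hg).abs).const_mul 2
    refine h.congr (Eventually.of_forall fun k => ?_)
    show 2 * (wt k * |f n k - g k|) = (1 - Dhat k) * |f n k - g k|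
    unfold wt
    ring
  rw [Metric.tendsto_atTop]
  intro ε hε
  -- the neighbourhood of the origin
  set ε' : ℝ := ε / (4 * Q) with hε'
  have hε'0 : 0 < ε' := by positivity
  obtain ⟨δ, hδ, hδ'⟩ := Metric.continuousAt_iff.1 hφ0 ε' hε'0
  set r : ℝ := δ / 2 with hr
  have hr0 : 0 < r := by positivity
  have hnear : ∀ k ∈ sm d r, |φ k - φ 0| ≤ ε' := by
    intro k hk
    have h1 : dist k 0 < δ := by
      rw [dist_zero_right]
      refine lt_of_le_of_lt ((pi_norm_le_iff_of_nonneg hr0.le).2 fun i => ?_) (by linarith : r < δ)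
      rw [Real.norm_eq_abs]
      exact hk i
    have h2 := hδ' h1
    rw [Real.dist_eq] at h2
    exact h2.le
  set c : ℝ := 2 / (d * Real.pi ^ 2) * r ^ 2 with hc
  have hc0 : 0 < c := by positivity
  have hpt : ∀ n, ∀ k ∈ cube d, |(φ k - φ 0) * (f n k - g k)| ≤
      ε' * (f n k + g k) + 2 * B / c * ((1 - Dhat k) * |f n k - g k|) := by
    intro n k hk
    rw [abs_mul]
    have h0 : 0 ≤ f n k + g k := add_nonneg (hf0 n k) (hg0 k)
    have h1 : 0 ≤ (1 - Dhat k) * |f n k - g k| := by
      refine mul_nonneg ?_ (abs_nonneg _)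
      have := abs_le.1 (Dhat_le k)
      linarith [this.2]
    by_cases hs : k ∈ sm d r
    · have h2 : |f n k - g k| ≤ f n k + g k := by
        rw [abs_le]
        have := hf0 n k
        have := hg0 k
        constructor <;> linarith
      have h3 : |φ k - φ 0| * |f n k - g k| ≤ ε' * (f n k + g k) :=
        mul_le_mul (hnear k hs) h2 (abs_nonneg _) hε'0.le
      have h4 : 0 ≤ 2 * B / c * ((1 - Dhat k) * |f n k - g k|) := by positivity
      linarith
    · have h2 := one_sub_Dhat_ge hk hr0.le hs
      rw [← hc] at h2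
      have h3 : |φ k - φ 0| ≤ 2 * B := by
        refine (abs_sub _ _).trans ?_
        have := hφb k
        have := hφb 0
        linarith
      have h4 : |φ k - φ 0| * |f n k - g k| ≤ 2 * B * |f n k - g k| :=
        mul_le_mul_of_nonneg_right h3 (abs_nonneg _)
      have h5 : 2 * B * |f n k - g k| ≤ 2 * B / c * ((1 - Dhat k) * |f n k - g k|) := by
        have h6 : 2 * B / c * (c * |f n k - g k|) = 2 * B * |f n k - g k| := by field_simp
        rw [← h6]
        refine mul_le_mul_of_nonneg_left ?_ (by positivity)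
        exact mul_le_mul_of_nonneg_right h2 (abs_nonneg _)
      have h7 : 0 ≤ ε' * (f n k + g k) := by positivity
      linarith
  have hbound : ∀ n, |∫ k in cube d, (φ k - φ 0) * (f n k - g k)| ≤
      ε / 2 + 2 * B / c * ∫ k in cube d, (1 - Dhat k) * |f n k - g k| := by
    intro n
    have i0 : Integrable (fun k => (φ k - φ 0) * (f n k - g k)) (volume.restrict (cube d)) := by
      refine ((hfi n).sub hg).bdd_mul (c := 2 * B)
        ((hφm.sub measurable_const).aestronglyMeasurable) (Eventually.of_forall fun k => ?_)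
      rw [Real.norm_eq_abs]
      refine (abs_sub _ _).trans ?_
      have := hφb k
      have := hφb 0
      linarith
    have i1 : Integrable (fun k => ε' * (f n k + g k)) (volume.restrict (cube d)) :=
      ((hfi n).add hg).const_mul _
    have i2 := (hwi n).const_mul (2 * B / c)
    have h1 : |∫ k in cube d, (φ k - φ 0) * (f n k - g k)| ≤
        ∫ k in cube d, |(φ k - φ 0) * (f n k - g k)| := by
      rw [← Real.norm_eq_abs]
      exact norm_integral_le_integral_norm _
    have h2 : ∫ k in cube d, |(φ k - φ 0) * (f n k - g k)| ≤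
        ∫ k in cube d, (ε' * (f n k + g k) + 2 * B / c * ((1 - Dhat k) * |f n k - g k|)) :=
      setIntegral_mono_on i0.abs (i1.add i2) cube_meas (fun k hk => hpt n k hk)
    have h3 : ∫ k in cube d, (ε' * (f n k + g k) + 2 * B / c * ((1 - Dhat k) * |f n k - g k|)) =
        ε' * (∫ k in cube d, (f n k + g k)) +
          2 * B / c * ∫ k in cube d, (1 - Dhat k) * |f n k - g k| := by
      rw [integral_add i1 i2, integral_const_mul, integral_const_mul]
    have h4 : ∫ k in cube d, (f n k + g k) ≤ 2 * Q := by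
      rw [integral_add (hfi n) hg, hfmass, hmass]
      have : 0 ≤ Q * t := by positivity
      nlinarith
    have h5 : ε' * (∫ k in cube d, (f n k + g k)) ≤ ε / 2 := by
      refine (mul_le_mul_of_nonneg_left h4 hε'0.le).trans (le_of_eq ?_)
      rw [hε']
      field_simp
      norm_num
    linarith
  -- the choice of n
  have hlim : Tendsto (fun n => 2 * B / c * ∫ k in cube d, (1 - Dhat k) * |f n k - g k|) atTop
      (𝓝 0) := by
    have := hw.const_mul (2 * B / c)
    rw [mul_zero] at this
    exact this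
  obtain ⟨N, hN⟩ := eventually_atTop.1 (hlim.eventually (gt_mem_nhds (show (0 : ℝ) < ε / 2 by linarith)))
  refine ⟨N, fun n hn => ?_⟩
  rw [Real.dist_eq]
  have h1 := hid n
  have h2 : (∫ k in cube d, φ k * (dens d (q n) (hq n) k).toReal) = ∫ k in cube d, φ k * f n k := rfl
  rw [h2, h1]
  have h3 := hbound n
  have h4 := hN n hn
  linarith

end

end Pool.Agent.J4.H90.Perc
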