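import Pool.Agent.J4.H90.Perc.Loc

/-!
From pointwise bounds (of the two-point function, of the spectral density) to the mass near the
origin.
-/

set_option autoImplicit false
set_option linter.deprecated false

open MeasureTheory Set Filter
open scoped Topology

namespace Pool.Agent.J4.H90.Perc

open Pool.Agent.Results.MP_54f242_pr.InfraredMean (opn P tau cube dot Dhat Dhat_le cube_meas cube_fin
  cos_mul_Dhat tau_mono tau_zero tau_nonneg tau_le_one)
open Pool.Agent.J4.H67.PC (LU conf dens tauf tauf_eq fourier dens_meas dens_fin int_dens_le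
  map_conf meas_conf reach_left conf_mono ps ps_eq ps_nonneg ps_cont)
open Pool.Agent.Y990.CB (Z Bo Bf mem_Bf card_Bf coe_Bf nm nm_le abs_le_nm exists_nm)

noncomputable section

variable {d : ℕ}

/-- sums over boxes from a pointwise bound -/
theorem sum_of_tau (hd : 1 ≤ d) (c C : ℝ) (hc : 0 < c) (hC : 0 ≤ C)
    (h : ∀ x : Fin d → ℤ, x ≠ 0 → tau d (pcrit d) pcrit_le x ≤ C * (nm x : ℝ) ^ (-c))
    (p : NNReal) (hp : p ≤ 1) (hlt : p < pcrit d) (n : ℕ) (hn : 1 ≤ n) :
    ∑ x ∈ Bf (0 : Z d) n, tau d p hp x ≤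
      (3 ^ d * (1 + C)) * (n : ℝ) ^ ((d : ℝ) - min ((d : ℝ) / 2) (c / 2)) := by
  classical
  have hd0 : (0 : ℝ) < d := by exact_mod_cast hd
  have hn1 : (1 : ℝ) ≤ n := by exact_mod_cast hn
  have hn0 : (0 : ℝ) < n := by linarith
  set m := Nat.sqrt n with hm
  have hm1 : (m : ℝ) ≤ √(n : ℝ) := Real.nat_sqrt_le_real_sqrt
  have hm2 : √(n : ℝ) ≤ m + 1 := Real.real_sqrt_le_nat_sqrt_succ
  have hs1 : 1 ≤ √(n : ℝ) := by rw [Real.one_le_sqrt]; exact hn1
  have hb : ∀ x ∈ Bf (0 : Z d) n, tau d p hp x ≤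
      (if x ∈ Bf (0 : Z d) m then 1 else 0) + C * (n : ℝ) ^ (-(c / 2)) := by
    intro x _
    have h0 : 0 ≤ C * (n : ℝ) ^ (-(c / 2)) := by positivity
    split_ifs with hx
    · have := tau_le_one p hp x
      linarith
    · rw [zero_add]
      have hx0 : x ≠ 0 := by
        rintro rfl
        exact hx (mem_Bf.2 (Pool.Agent.Y990.CB.self_mem_Bo 0 m))
      have hxm : m + 1 ≤ nm x := by
        by_contra hcon
        apply hx
        rw [mem_Bf]
        intro i
        have h1 := abs_le_nm x i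
        have h2 : x i - (0 : Z d) i = x i := by simp
        rw [h2]
        omega
      have h1 : √(n : ℝ) ≤ nm x := hm2.trans (by exact_mod_cast hxm)
      refine (tau_mono p (pcrit d) hp pcrit_le hlt.le x).trans ((h x hx0).trans ?_)
      refine mul_le_mul_of_nonneg_left ?_ hC
      refine (Real.rpow_le_rpow_of_nonpos (by positivity) h1 (by linarith)).trans (le_of_eq ?_)
      rw [Real.sqrt_eq_rpow, ← Real.rpow_mul hn0.le]
      congr 1
      ring
  refine (Finset.sum_le_sum hb).trans ?_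
  rw [Finset.sum_add_distrib, Finset.sum_const, nsmul_eq_mul, ← Finset.sum_filter,
    Finset.sum_const, nsmul_eq_mul, mul_one]
  have hmin1 : min ((d : ℝ) / 2) (c / 2) ≤ (d : ℝ) / 2 := min_le_left _ _
  have hmin2 : min ((d : ℝ) / 2) (c / 2) ≤ c / 2 := min_le_right _ _
  set a := min ((d : ℝ) / 2) (c / 2) with ha
  have h1 : (((Bf (0 : Z d) n).filter (fun x => x ∈ Bf (0 : Z d) m)).card : ℝ) ≤
      3 ^ d * (n : ℝ) ^ ((d : ℝ) - a) := by
    have h2 : ((Bf (0 : Z d) n).filter (fun x => x ∈ Bf (0 : Z d) m)).card ≤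
        (Bf (0 : Z d) m).card := Finset.card_le_card fun x hx => (Finset.mem_filter.1 hx).2
    rw [card_Bf] at h2
    have h3 : (((Bf (0 : Z d) n).filter (fun x => x ∈ Bf (0 : Z d) m)).card : ℝ) ≤
        (2 * (m : ℝ) + 1) ^ d := by exact_mod_cast h2
    refine h3.trans ?_
    calc (2 * (m : ℝ) + 1) ^ d ≤ (3 * √(n : ℝ)) ^ d :=
          pow_le_pow_left₀ (by positivity) (by linarith) d
      _ = 3 ^ d * (n : ℝ) ^ ((d : ℝ) / 2) := by
          rw [mul_pow, Real.sqrt_eq_rpow, ← Real.rpow_natCast ((n : ℝ) ^ (1 / 2 : ℝ)),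
            ← Real.rpow_mul hn0.le]
          congr 2
          ring
      _ ≤ 3 ^ d * (n : ℝ) ^ ((d : ℝ) - a) := by
          refine mul_le_mul_of_nonneg_left ?_ (by positivity)
          exact Real.rpow_le_rpow_of_exponent_le hn1 (by linarith)
  have h2 : ((Bf (0 : Z d) n).card : ℝ) * (C * (n : ℝ) ^ (-(c / 2))) ≤
      3 ^ d * C * (n : ℝ) ^ ((d : ℝ) - a) := by
    have h3 : ((Bf (0 : Z d) n).card : ℝ) ≤ 3 ^ d * (n : ℝ) ^ (d : ℝ) := by
      rw [card_Bf, Real.rpow_natCast, ← mul_pow]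
      push_cast
      exact pow_le_pow_left₀ (by positivity) (by linarith) d
    calc ((Bf (0 : Z d) n).card : ℝ) * (C * (n : ℝ) ^ (-(c / 2)))
        ≤ (3 ^ d * (n : ℝ) ^ (d : ℝ)) * (C * (n : ℝ) ^ (-(c / 2))) :=
          mul_le_mul_of_nonneg_right h3 (by positivity)
      _ = 3 ^ d * C * (n : ℝ) ^ ((d : ℝ) + -(c / 2)) := by
          rw [Real.rpow_add hn0]; ring
      _ ≤ 3 ^ d * C * (n : ℝ) ^ ((d : ℝ) - a) := by
          refine mul_le_mul_of_nonneg_left ?_ (by positivity)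
          exact Real.rpow_le_rpow_of_exponent_le hn1 (by linarith)
  calc _ ≤ 3 ^ d * (n : ℝ) ^ ((d : ℝ) - a) + 3 ^ d * C * (n : ℝ) ^ ((d : ℝ) - a) :=
        add_le_add h1 h2
    _ = _ := by ring

/-- the mass near the origin from a pointwise bound of the density -/
theorem mass_of_point (hd : 1 ≤ d) (s A : ℝ) (hs : 0 ≤ s) (hsd : 2 * s < d) (hA : 0 ≤ A)
    (f : (Fin d → ℝ) → ENNReal)
    (h : ∀ k ∈ cube d, f k * ENNReal.ofReal ((1 - Dhat k) ^ s) ≤ ENNReal.ofReal A)
    (r : ℝ) (hr : 0 < r) :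
    ∫⁻ k in cube d ∩ sm d r, f k ≤ ENNReal.ofReal
      ((A * (2 / (d * Real.pi ^ 2)) ^ (-s) * 2 ^ ((d : ℝ) + 2 * s) *
        (1 - (2 : ℝ) ^ (-((d : ℝ) - 2 * s)))⁻¹) * r ^ ((d : ℝ) - 2 * s)) := by
  have hd0 : (0 : ℝ) < d := by exact_mod_cast hd
  set c0 : ℝ := 2 / (d * Real.pi ^ 2) with hc0
  have hc0p : 0 < c0 := by positivity
  set S : ℕ → Set (Fin d → ℝ) := fun j => cube d ∩ (sm d (r / 2 ^ j) \ sm d (r / 2 ^ (j + 1))) with hS
  have hcover : cube d ∩ sm d r ⊆ {0} ∪ ⋃ j, S j := by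
    intro k hk
    by_cases hk0 : k = 0
    · exact Or.inl hk0
    right
    rw [mem_iUnion]
    -- some coordinate does not vanish
    obtain ⟨i, hi⟩ : ∃ i, k i ≠ 0 := by
      by_contra hc
      push Not at hc
      exact hk0 (funext hc)
    have h1 : ∃ j : ℕ, k ∉ sm d (r / 2 ^ j) := by
      have h2 : Tendsto (fun j : ℕ => r / (2 : ℝ) ^ j) atTop (𝓝 0) :=
        tendsto_const_nhds.div_atTop (tendsto_pow_atTop_atTop_of_one_lt (by norm_num))
      obtain ⟨j, hj⟩ := (h2.eventually (gt_mem_nhds (abs_pos.2 hi))).exists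
      exact ⟨j, fun hc => absurd (hc i) (not_le.2 hj)⟩
    classical
    set j := Nat.find h1 with hj
    have hj1 : k ∉ sm d (r / 2 ^ j) := Nat.find_spec h1
    have hj0 : j ≠ 0 := by
      intro hc
      rw [hc, pow_zero, div_one] at hj1
      exact hj1 hk.2
    obtain ⟨j', hj'⟩ := Nat.exists_eq_succ_of_ne_zero hj0
    refine ⟨j', hk.1, ?_, ?_⟩
    · by_contra hc
      have := Nat.find_min' h1 hc
      omega
    · rw [hj'] at hj1
      exact hj1
  have hzero : volume ({0} : Set (Fin d → ℝ)) = 0 := by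
    have : Nonempty (Fin d) := ⟨⟨0, hd⟩⟩
    exact measure_singleton 0
  set b : ℕ → ℝ := fun j => A * c0 ^ (-s) * (2 : ℝ) ^ ((d : ℝ) + 2 * s) * r ^ ((d : ℝ) - 2 * s) *
    ((2 : ℝ) ^ (-((d : ℝ) - 2 * s))) ^ j with hb
  have hshell : ∀ j, ∫⁻ k in S j, f k ≤ ENNReal.ofReal (b j) := by
    intro j
    set t : ℝ := r / 2 ^ (j + 1) with ht
    have ht0 : 0 < t := by positivity
    have hcb : ∀ k ∈ S j, f k ≤ ENNReal.ofReal (A * (c0 * t ^ 2) ^ (-s)) := by
      intro k hk
      have h1 := one_sub_Dhat_ge hk.1 ht0.le hk.2.2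
      have h2 : (c0 * t ^ 2) ^ s ≤ (1 - Dhat k) ^ s := Real.rpow_le_rpow (by positivity) h1 hs
      have h3 : 0 < (c0 * t ^ 2) ^ s := by positivity
      have h4 : f k * ENNReal.ofReal ((c0 * t ^ 2) ^ s) ≤ ENNReal.ofReal A :=
        (mul_le_mul_right (ENNReal.ofReal_le_ofReal h2) _).trans (h k hk.1)
      have h5 : f k ≤ ENNReal.ofReal A / ENNReal.ofReal ((c0 * t ^ 2) ^ s) := by
        rw [ENNReal.le_div_iff_mul_le (Or.inl (by
          rw [Ne, ENNReal.ofReal_eq_zero, not_le]; exact h3)) (Or.inl ENNReal.ofReal_ne_top)]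
        exact h4
      refine h5.trans (le_of_eq ?_)
      rw [← ENNReal.ofReal_div_of_pos h3, Real.rpow_neg (by positivity), div_eq_mul_inv]
    have hSm : MeasurableSet (S j) := cube_meas.inter ((sm_meas _).diff (sm_meas _))
    calc ∫⁻ k in S j, f k ≤ ∫⁻ _k in S j, ENNReal.ofReal (A * (c0 * t ^ 2) ^ (-s)) :=
          setLIntegral_mono' hSm hcb
      _ = ENNReal.ofReal (A * (c0 * t ^ 2) ^ (-s)) * volume (S j) := by
          rw [setLIntegral_const]
      _ ≤ ENNReal.ofReal (A * (c0 * t ^ 2) ^ (-s)) * ENNReal.ofReal ((2 * (r / 2 ^ j)) ^ d) := by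
          refine mul_le_mul_right ?_ _
          rw [← sm_vol _ (by positivity)]
          exact measure_mono fun k hk => hk.2.1
      _ = ENNReal.ofReal (b j) := by
          rw [← ENNReal.ofReal_mul (by positivity)]
          congr 1
          rw [hb, ht]
          simp only
          have e1 : ((2 : ℝ) ^ (-((d : ℝ) - 2 * s))) ^ j = ((2 : ℝ) ^ j) ^ (-((d : ℝ) - 2 * s)) := by
            rw [← Real.rpow_natCast, ← Real.rpow_mul (by norm_num), ← Real.rpow_natCast,
              ← Real.rpow_mul (by norm_num)]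
            congr 1
            ring
          set w : ℝ := (2 : ℝ) ^ j with hw
          have hw0 : 0 < w := by positivity
          rw [e1, pow_succ (2 : ℝ) j, ← hw, Real.mul_rpow hc0p.le (by positivity), ← Real.rpow_natCast,
            ← Real.rpow_natCast, ← Real.rpow_mul (by positivity)]
          have e2 : r / (w * 2) = r * (w⁻¹ * 2⁻¹) := by field_simp
          have e3 : 2 * (r / w) = 2 * (r * w⁻¹) := by field_simp
          rw [e2, e3, Real.mul_rpow hr.le (by positivity), Real.mul_rpow (by positivity) (by norm_num),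
            Real.mul_rpow (by norm_num) (by positivity), Real.mul_rpow hr.le (by positivity),
            Real.inv_rpow hw0.le, Real.inv_rpow (by norm_num), Real.inv_rpow hw0.le,
            Real.rpow_neg hw0.le, Real.rpow_sub hw0, Real.rpow_sub hr, Real.rpow_add (by norm_num)]
          have e4 : ∀ y : ℝ, 0 < y → y ^ (((2 : ℕ) : ℝ) * (-s)) = (y ^ (2 * s))⁻¹ := by
            intro y hy
            rw [← Real.rpow_neg hy.le]
            congr 1
            push_cast
            ring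
          rw [e4 r hr, e4 w hw0, e4 2 (by norm_num)]
          have p1 : (0 : ℝ) < r ^ (2 * s) := by positivity
          have p2 : (0 : ℝ) < w ^ (2 * s) := by positivity
          have p3 : (0 : ℝ) < (2 : ℝ) ^ (2 * s) := by positivity
          have p4 : (0 : ℝ) < w ^ (d : ℝ) := by positivity
          field_simp
  have hρ0 : (0 : ℝ) ≤ (2 : ℝ) ^ (-((d : ℝ) - 2 * s)) := by positivity
  have hρ1 : (2 : ℝ) ^ (-((d : ℝ) - 2 * s)) < 1 :=
    Real.rpow_lt_one_of_one_lt_of_neg (by norm_num) (by linarith)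
  have hsum : HasSum b (A * c0 ^ (-s) * (2 : ℝ) ^ ((d : ℝ) + 2 * s) * r ^ ((d : ℝ) - 2 * s) *
      (1 - (2 : ℝ) ^ (-((d : ℝ) - 2 * s)))⁻¹) :=
    (hasSum_geometric_of_lt_one hρ0 hρ1).mul_left _
  calc ∫⁻ k in cube d ∩ sm d r, f k ≤ ∫⁻ k in {0} ∪ ⋃ j, S j, f k := lintegral_mono_set hcover
    _ ≤ (∫⁻ k in {0}, f k) + ∫⁻ k in ⋃ j, S j, f k := lintegral_union_le _ _ _
    _ = ∫⁻ k in ⋃ j, S j, f k := by
        rw [setLIntegral_measure_zero _ _ hzero, zero_add]
    _ ≤ ∑' j, ∫⁻ k in S j, f k := lintegral_iUnion_le _ _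
    _ ≤ ∑' j, ENNReal.ofReal (b j) := ENNReal.tsum_le_tsum hshell
    _ = ENNReal.ofReal (∑' j, b j) := by
        rw [ENNReal.ofReal_tsum_of_nonneg (fun j => by rw [hb]; positivity) hsum.summable]
    _ = _ := by
        rw [hsum.tsum_eq]
        congr 1
        ring

end

end Pool.Agent.J4.H90.Perc
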