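import Pool.Agent.J4.H90.Perc.Cond

/-!
The covariance of the events that a vertex is connected to distance `m`: spectral densities and their
convergence in mean.
-/

set_option autoImplicit false
set_option linter.deprecated false

open MeasureTheory Set Filter
open scoped Topology

namespace Pool.Agent.J4.H90.Perc

open Pool.Agent.Results.MP_54f242_pr.InfraredMean (opn P tau cube dot Dhat Dhat_le cube_meas cube_fin
  cos_mul_Dhat tau_mono tau_zero tau_nonneg tau_le_one box prop prop_nonneg prop_le_one prop_tendsto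
  dot_sub integrable_of_cont int_cos int_cos_mul_cos)
open Pool.Agent.Y990.CB
open Pool.Agent.W783.PC (pm DepOn Inc bern)

noncomputable section

variable {d : ℕ}

theorem int_lin4 {α : Type*} [MeasurableSpace α] {μ : Measure α} {f g h i : α → ℝ}
    (hf : Integrable f μ) (hg : Integrable g μ) (hh : Integrable h μ) (hi : Integrable i μ)
    (a b c e : ℝ) : ∫ ω, (a * f ω + b * g ω + c * h ω + e * i ω) ∂μ =
      a * ∫ ω, f ω ∂μ + b * ∫ ω, g ω ∂μ + c * ∫ ω, h ω ∂μ + e * ∫ ω, i ω ∂μ := by
  have h1 : Integrable (fun ω => a * f ω) μ := hf.const_mul a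
  have h2 : Integrable (fun ω => b * g ω) μ := hg.const_mul b
  have h3 : Integrable (fun ω => c * h ω) μ := hh.const_mul c
  have h4 : Integrable (fun ω => e * i ω) μ := hi.const_mul e
  have h12 : Integrable (fun ω => a * f ω + b * g ω) μ := h1.add h2
  have h123 : Integrable (fun ω => a * f ω + b * g ω + c * h ω) μ := h12.add h3
  rw [integral_add h123 h4, integral_add h12 h3, integral_add h1 h2, integral_const_mul,
    integral_const_mul, integral_const_mul, integral_const_mul]

/-- a summable positive definite function has a nonnegative sum -/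
theorem pd_nonneg (F : (Fin d → ℤ) → ℝ) (hs : Summable fun z => ‖F z‖)
    (h : ∀ N : ℕ, 0 ≤ ∑ x ∈ box d N, ∑ y ∈ box d N, F (y - x)) : 0 ≤ ∑' z, F z := by
  classical
  have hFs : Summable F := hs.of_norm
  have key : ∀ N : ℕ, (∑ x ∈ box d N, ∑ y ∈ box d N, F (y - x)) / (N : ℝ) ^ d =
      ∑' z, F z * prop N z := by
    intro N
    have h1 : ∀ x, ∑ y ∈ box d N, F (y - x) = ∑' z, (if x + z ∈ box d N then F z else 0) := by
      intro x
      rw [← (Equiv.subRight x).tsum_eq]
      rw [tsum_eq_sum (s := box d N)]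
      · refine Finset.sum_congr rfl fun y hy => ?_
        simp [hy]
      · intro y hy
        simp [hy]
    have h2 : ∀ x, Summable (fun z => (if x + z ∈ box d N then F z else 0)) := by
      intro x
      refine Summable.of_norm_bounded hs fun z => ?_
      split_ifs
      · exact le_rfl
      · simp
    simp_rw [h1]
    rw [← Summable.tsum_finsetSum (fun x _ => h2 x), ← tsum_div_const]
    refine tsum_congr fun z => ?_
    rw [← Finset.sum_filter, Finset.sum_const, nsmul_eq_mul, prop]
    ring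
  have hlim : Tendsto (fun N : ℕ => ∑' z, F z * prop N z) atTop (𝓝 (∑' z, F z * 1)) := by
    refine tendsto_tsum_of_dominated_convergence (bound := fun z => ‖F z‖) hs
      (fun z => (prop_tendsto z).const_mul (F z)) (Eventually.of_forall fun N z => ?_)
    rw [norm_mul, Real.norm_eq_abs (prop N z), abs_of_nonneg (prop_nonneg N z)]
    exact mul_le_of_le_one_right (norm_nonneg _) (prop_le_one N z)
  simp only [mul_one] at hlim
  refine ge_of_tendsto' hlim fun N => ?_
  rw [← key]
  exact div_nonneg (h N) (by positivity)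

variable (M : Mod d) (p : unitInterval)

/-- the vertex `x` is connected to distance `m` -/
def Ae (m : ℕ) (x : Z d) : Set (M.ι → Bool) := {ω | Am M ω x m x}

theorem Ae_meas (m : ℕ) (x : Z d) : MeasurableSet (Ae M m x) := Am_meas M x m x

theorem Ae_anti {m l : ℕ} (h : m ≤ l) (x : Z d) : Ae M l x ⊆ Ae M m x := by
  rintro ω ⟨x', ⟨hx', i, hi⟩, hr⟩
  refine exit_Am (self_mem_Bo x m) ?_ hr
  by_cases hb : x' ∈ Bo x m
  · right
    refine ⟨hb, i, le_antisymm (hb i) ?_⟩
    rw [hi]; exact_mod_cast h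
  · exact Or.inl hb

theorem Ae_joint (m l : ℕ) (x y : Z d) :
    (mu M p).real (Ae M m x ∩ Ae M l y) = (mu M p).real (Ae M m 0 ∩ Ae M l (y - x)) := by
  rw [← mu_inv_real M p (sf x) ((Ae_meas M m 0).inter (Ae_meas M l (y - x)))]
  congr 1
  ext ω
  have h1 := Am_sym M ω 0 x 0 m
  have h2 := Am_sym M ω (y - x) x (y - x) l
  rw [zero_add] at h1
  rw [sub_add_cancel] at h2
  exact and_congr h1.symm h2.symm

/-- the one-arm probability -/
def pr (m : ℕ) : ℝ := (mu M p).real (Ae M m 0)

theorem Ae_real (m : ℕ) (x : Z d) : (mu M p).real (Ae M m x) = pr M p m := by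
  have h := Ae_joint M p m m x x
  rw [inter_self, sub_self, inter_self] at h
  exact h

/-- the covariances -/
def cc (m l : ℕ) (x : Z d) : ℝ := (mu M p).real (Ae M m 0 ∩ Ae M l x) - pr M p m * pr M p l

theorem cc_zero (m l : ℕ) (x : Z d) (hx : x ∉ Bo (0 : Z d) (2 * (m + l))) : cc M p m l x = 0 := by
  unfold cc
  have hdis := Pool.Agent.Y508.CB.disj_Bo hx
  have h := Pool.Agent.Y508.CB.indep_real M p (A := Ae M m 0) (B := Ae M l x)
    (R := Bo 0 (m + l)) (R' := Bo x (m + l))
    (dep_mono (Am_dep M 0 m 0) (In_mono M (Bo_mono 0 (Nat.le_add_right _ _))))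
    (dep_mono (Am_dep M x l x) (In_mono M (Bo_mono x (Nat.le_add_left _ _)))) hdis
    (Ae_meas M m 0) (Ae_meas M l x)
  rw [h, Ae_real, Ae_real]
  ring

/-- the centred indicator -/
def ci (m : ℕ) (x : Z d) (ω : M.ι → Bool) : ℝ := (Ae M m x).indicator 1 ω - pr M p m

theorem ci_int (m : ℕ) (x : Z d) : Integrable (ci M p m x) (mu M p) :=
  (Pool.Agent.Y508.CB.ind_int (mu M p) (Ae_meas M m x)).sub (integrable_const _)

theorem ci_mul_int (m l : ℕ) (x y : Z d) :
    Integrable (fun ω => ci M p m x ω * ci M p l y ω) (mu M p) := by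
  have h : ∀ ω, ci M p m x ω * ci M p l y ω =
      (Ae M m x).indicator 1 ω * (Ae M l y).indicator 1 ω - pr M p l * (Ae M m x).indicator 1 ω -
        pr M p m * (Ae M l y).indicator 1 ω + pr M p m * pr M p l := by
    intro ω; unfold ci; ring
  simp_rw [h]
  exact (((Pool.Agent.Y508.CB.ind_mul_int (mu M p) (Ae_meas M m x) (Ae_meas M l y)).sub
    ((Pool.Agent.Y508.CB.ind_int (mu M p) (Ae_meas M m x)).const_mul _)).sub
    ((Pool.Agent.Y508.CB.ind_int (mu M p) (Ae_meas M l y)).const_mul _)).add (integrable_const _)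

theorem ci_mul (m l : ℕ) (x y : Z d) :
    ∫ ω, ci M p m x ω * ci M p l y ω ∂(mu M p) = cc M p m l (y - x) := by
  have h : ∀ ω, ci M p m x ω * ci M p l y ω =
      1 * ((Ae M m x).indicator 1 ω * (Ae M l y).indicator 1 ω) +
        (-pr M p l) * (Ae M m x).indicator 1 ω +
        (-pr M p m) * (Ae M l y).indicator 1 ω + (pr M p m * pr M p l) * 1 := by
    intro ω; unfold ci; ring
  simp_rw [h]
  rw [int_lin4 (Pool.Agent.Y508.CB.ind_mul_int (mu M p) (Ae_meas M m x) (Ae_meas M l y))
    (Pool.Agent.Y508.CB.ind_int (mu M p) (Ae_meas M m x))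
    (Pool.Agent.Y508.CB.ind_int (mu M p) (Ae_meas M l y)) (integrable_const (1 : ℝ)),
    Pool.Agent.Y508.CB.integral_ind_mul _ (Ae_meas M m x) (Ae_meas M l y),
    integral_indicator_one (Ae_meas M m x), integral_indicator_one (Ae_meas M l y), Ae_real, Ae_real,
    Ae_joint, integral_const]
  unfold cc
  simp only [probReal_univ, smul_eq_mul, mul_one]
  ring

/-- the spectral densities of the covariances -/
def gg (m l : ℕ) (k : Fin d → ℝ) : ℝ :=
  ∑ z ∈ Bf (0 : Z d) (2 * (m + l)), cc M p m l z * Real.cos (dot k z)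

theorem gg_tsum (m l : ℕ) (k : Fin d → ℝ) :
    gg M p m l k = ∑' z, cc M p m l z * Real.cos (dot k z) := by
  unfold gg
  rw [tsum_eq_sum]
  intro z hz
  rw [cc_zero M p m l z (fun h => hz (mem_Bf.2 h)), zero_mul]

theorem gg_summable (m l : ℕ) (k : Fin d → ℝ) :
    Summable fun z => cc M p m l z * Real.cos (dot k z) := by
  refine summable_of_ne_finset_zero (s := Bf (0 : Z d) (2 * (m + l))) fun z hz => ?_
  rw [cc_zero M p m l z (fun h => hz (mem_Bf.2 h)), zero_mul]

theorem gg_cont (m l : ℕ) : Continuous (gg M p m l) := by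
  unfold gg
  refine continuous_finset_sum _ fun z _ => ?_
  exact continuous_const.mul (Real.continuous_cos.comp (dot_cont z))

theorem quad (m l : ℕ) (a b : ℝ) (k : Fin d → ℝ) :
    0 ≤ a ^ 2 * gg M p m m k + a * b * (gg M p m l k + gg M p l m k) + b ^ 2 * gg M p l l k := by
  set F : (Fin d → ℤ) → ℝ := fun z => (a ^ 2 * cc M p m m z + a * b * (cc M p m l z + cc M p l m z) +
    b ^ 2 * cc M p l l z) * Real.cos (dot k z) with hF
  have hFe : ∀ z, F z = a ^ 2 * (cc M p m m z * Real.cos (dot k z)) +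
      a * b * (cc M p m l z * Real.cos (dot k z) + cc M p l m z * Real.cos (dot k z)) +
      b ^ 2 * (cc M p l l z * Real.cos (dot k z)) := by
    intro z; simp only [hF]; ring
  have hFs : Summable F := by
    refine Summable.congr ?_ (fun z => (hFe z).symm)
    exact (((gg_summable M p m m k).mul_left _).add
      (((gg_summable M p m l k).add (gg_summable M p l m k)).mul_left _)).add
      ((gg_summable M p l l k).mul_left _)
  have hsum : ∑' z, F z = a ^ 2 * gg M p m m k + a * b * (gg M p m l k + gg M p l m k) +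
      b ^ 2 * gg M p l l k := by
    simp_rw [hFe]
    rw [Summable.tsum_add (((gg_summable M p m m k).mul_left _).add
      (((gg_summable M p m l k).add (gg_summable M p l m k)).mul_left _))
      ((gg_summable M p l l k).mul_left _), Summable.tsum_add ((gg_summable M p m m k).mul_left _)
      (((gg_summable M p m l k).add (gg_summable M p l m k)).mul_left _), tsum_mul_left,
      tsum_mul_left, tsum_mul_left, Summable.tsum_add (gg_summable M p m l k)
      (gg_summable M p l m k), gg_tsum, gg_tsum, gg_tsum, gg_tsum]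
  rw [← hsum]
  refine pd_nonneg F ?_ fun N => ?_
  · refine summable_of_ne_finset_zero (s := Bf (0 : Z d) (2 * (m + m)) ∪ Bf (0 : Z d) (2 * (m + l)) ∪
      Bf (0 : Z d) (2 * (l + m)) ∪ Bf (0 : Z d) (2 * (l + l))) fun z hz => ?_
    simp only [Finset.mem_union, not_or] at hz
    simp only [hF]
    rw [cc_zero M p m m z (fun h => hz.1.1.1 (mem_Bf.2 h)),
      cc_zero M p m l z (fun h => hz.1.1.2 (mem_Bf.2 h)),
      cc_zero M p l m z (fun h => hz.1.2 (mem_Bf.2 h)), cc_zero M p l l z (fun h => hz.2 (mem_Bf.2 h))]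
    simp
  · -- the second moment of a random exponential sum
    set W : Z d → (M.ι → Bool) → ℝ := fun x ω => a * ci M p m x ω + b * ci M p l x ω with hW
    have hWe : ∀ x y ω, W x ω * W y ω = a ^ 2 * (ci M p m x ω * ci M p m y ω) +
        a * b * (ci M p m x ω * ci M p l y ω + ci M p l x ω * ci M p m y ω) +
        b ^ 2 * (ci M p l x ω * ci M p l y ω) := by
      intro x y ω; simp only [hW]; ring
    have hWi : ∀ x y, Integrable (fun ω => W x ω * W y ω) (mu M p) := by
      intro x y
      simp_rw [hWe]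
      exact (((ci_mul_int M p m m x y).const_mul _).add
        (((ci_mul_int M p m l x y).add (ci_mul_int M p l m x y)).const_mul _)).add
        ((ci_mul_int M p l l x y).const_mul _)
    have hWv : ∀ x y, ∫ ω, W x ω * W y ω ∂(mu M p) = a ^ 2 * cc M p m m (y - x) +
        a * b * (cc M p m l (y - x) + cc M p l m (y - x)) + b ^ 2 * cc M p l l (y - x) := by
      intro x y
      have e : ∀ ω, W x ω * W y ω = a ^ 2 * (ci M p m x ω * ci M p m y ω) +
          (a * b) * (ci M p m x ω * ci M p l y ω) + (a * b) * (ci M p l x ω * ci M p m y ω) +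
          b ^ 2 * (ci M p l x ω * ci M p l y ω) := by
        intro ω; rw [hWe]; ring
      simp_rw [e]
      rw [int_lin4 (ci_mul_int M p m m x y) (ci_mul_int M p m l x y) (ci_mul_int M p l m x y)
        (ci_mul_int M p l l x y), ci_mul, ci_mul, ci_mul, ci_mul]
      ring
    have h1 : ∑ x ∈ box d N, ∑ y ∈ box d N, F (y - x) =
        ∫ ω, ∑ x ∈ box d N, ∑ y ∈ box d N, (W x ω * W y ω) * Real.cos (dot k (y - x)) ∂(mu M p) := by
      rw [integral_finset_sum _ (fun x _ => integrable_finset_sum _ fun y _ =>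
        (hWi x y).mul_const _)]
      refine Finset.sum_congr rfl fun x _ => ?_
      rw [integral_finset_sum _ (fun y _ => (hWi x y).mul_const _)]
      refine Finset.sum_congr rfl fun y _ => ?_
      rw [integral_mul_const, hWv]
    rw [h1]
    refine integral_nonneg fun ω => ?_
    have h2 : ∑ x ∈ box d N, ∑ y ∈ box d N, (W x ω * W y ω) * Real.cos (dot k (y - x)) =
        (∑ x ∈ box d N, W x ω * Real.cos (dot k x)) ^ 2 +
        (∑ x ∈ box d N, W x ω * Real.sin (dot k x)) ^ 2 := by
      rw [sq, sq, Finset.sum_mul_sum, Finset.sum_mul_sum, ← Finset.sum_add_distrib]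
      refine Finset.sum_congr rfl fun x _ => ?_
      rw [← Finset.sum_add_distrib]
      refine Finset.sum_congr rfl fun y _ => ?_
      rw [dot_sub, Real.cos_sub]
      ring
    show 0 ≤ ∑ x ∈ box d N, ∑ y ∈ box d N, (W x ω * W y ω) * Real.cos (dot k (y - x))
    rw [h2]
    positivity

theorem gg_nonneg (m : ℕ) (k : Fin d → ℝ) : 0 ≤ gg M p m m k := by
  have := quad M p m m 1 0 k
  simpa using this

/-- the pointwise difference of the densities -/
theorem gg_diff (m l : ℕ) (k : Fin d → ℝ) (c : ℝ) (hc : 0 < c) :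
    |gg M p m m k - gg M p l l k| ≤
      (c * (gg M p m m k + (gg M p m l k + gg M p l m k) + gg M p l l k) +
        c⁻¹ * (gg M p m m k - (gg M p m l k + gg M p l m k) + gg M p l l k)) / 2 := by
  set X := gg M p m m k with hX
  set Y := gg M p l l k with hY
  set H := gg M p m l k + gg M p l m k with hH
  have h1 : ∀ a b : ℝ, 0 ≤ a ^ 2 * X + a * b * H + b ^ 2 * Y := fun a b => quad M p m l a b k
  -- apply it to suitable vectors
  have h2 := h1 (c - 1) (c + 1)
  have h3 := h1 (c + 1) (c - 1)
  have e1 : (c * (X + H + Y) + c⁻¹ * (X - H + Y)) / 2 =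
      (c ^ 2 * (X + H + Y) + (X - H + Y)) / (2 * c) := by
    field_simp
  rw [e1, le_div_iff₀ (by positivity)]
  rcases abs_cases (X - Y) with ⟨h4, _⟩ | ⟨h4, _⟩
  · rw [h4]; nlinarith
  · rw [h4]; nlinarith

/-- the integral of the density of the covariance -/
theorem int_gg (m l : ℕ) : ∫ k in cube d, gg M p m l k = (2 * Real.pi) ^ d * cc M p m l 0 := by
  unfold gg
  have hi : ∀ z : Z d, Integrable (fun k : Fin d → ℝ => Real.cos (dot k z))
      (volume.restrict (cube d)) := fun z => integrable_of_cont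
    (Real.continuous_cos.comp (dot_cont z))
  rw [integral_finset_sum _ (fun z _ => (hi z).const_mul _)]
  have h : ∀ z : Z d, ∫ k in cube d, cc M p m l z * Real.cos (dot k z) =
      if z = 0 then (2 * Real.pi) ^ d * cc M p m l 0 else 0 := by
    intro z
    rw [integral_const_mul, int_cos]
    split_ifs with hz
    · rw [hz]; ring
    · simp
  simp_rw [h]
  rw [Finset.sum_ite_eq', if_pos (mem_Bf.2 (self_mem_Bo 0 _))]

theorem cc_neg (m l : ℕ) (x : Z d) : cc M p m l (-x) = cc M p l m x := by
  unfold cc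
  have h := Ae_joint M p l m x 0
  rw [zero_sub, inter_comm] at h
  have h2 := Ae_joint M p m l 0 x
  rw [sub_zero] at h2
  have h3 := Ae_joint M p m l (-x) 0
  rw [zero_sub, neg_neg] at h3
  have h4 : (mu M p).real (Ae M m 0 ∩ Ae M l (-x)) = (mu M p).real (Ae M l 0 ∩ Ae M m x) := by
    rw [inter_comm (Ae M m 0)]
    have h5 := Ae_joint M p l m (-x) 0
    rw [zero_sub, neg_neg] at h5
    exact h5
  rw [h4]
  ring

theorem int_gg_cos (m : ℕ) (x : Z d) :
    ∫ k in cube d, gg M p m m k * Real.cos (dot k x) = (2 * Real.pi) ^ d * cc M p m m x := by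
  unfold gg
  simp_rw [Finset.sum_mul]
  have hi : ∀ z : Z d, Integrable (fun k : Fin d → ℝ => Real.cos (dot k z) * Real.cos (dot k x))
      (volume.restrict (cube d)) := fun z => integrable_of_cont
    ((Real.continuous_cos.comp (dot_cont z)).mul (Real.continuous_cos.comp (dot_cont x)))
  have e : ∀ (z : Z d) (k : Fin d → ℝ), cc M p m m z * Real.cos (dot k z) * Real.cos (dot k x) =
      cc M p m m z * (Real.cos (dot k z) * Real.cos (dot k x)) := fun z k => by ring
  simp_rw [e]
  rw [integral_finset_sum _ (fun z _ => (hi z).const_mul _)]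
  simp_rw [integral_const_mul, int_cos_mul_cos]
  have h : ∀ z : Z d, cc M p m m z * ((2 * Real.pi) ^ d *
      ((if z = x then (1 : ℝ) else 0) + (if z = -x then 1 else 0)) / 2) =
      (if z = x then (2 * Real.pi) ^ d * cc M p m m x / 2 else 0) +
      (if z = -x then (2 * Real.pi) ^ d * cc M p m m x / 2 else 0) := by
    intro z
    by_cases h1 : z = x
    · by_cases h2 : z = -x
      · subst h1; rw [if_pos rfl, if_pos h2, if_pos rfl, if_pos h2]; ring
      · subst h1; rw [if_pos rfl, if_neg h2, if_pos rfl, if_neg h2]; ring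
    · by_cases h2 : z = -x
      · rw [if_neg h1, if_pos h2, if_neg h1, if_pos h2, h2, cc_neg]; ring
      · rw [if_neg h1, if_neg h2, if_neg h1, if_neg h2]; ring
  simp_rw [h]
  rw [Finset.sum_add_distrib, Finset.sum_ite_eq', Finset.sum_ite_eq']
  by_cases hx : x ∈ Bf (0 : Z d) (2 * (m + m))
  · have hx' : -x ∈ Bf (0 : Z d) (2 * (m + m)) := by
      rw [mem_Bf] at hx ⊢
      intro i
      have := hx i
      simp only [Pi.zero_apply, sub_zero, Pi.neg_apply, abs_neg] at this ⊢
      exact this
    rw [if_pos hx, if_pos hx']; ring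
  · have hx' : -x ∉ Bf (0 : Z d) (2 * (m + m)) := by
      intro hc
      apply hx
      rw [mem_Bf] at hc ⊢
      intro i
      have := hc i
      simp only [Pi.zero_apply, sub_zero, Pi.neg_apply, abs_neg] at this ⊢
      exact this
    rw [if_neg hx, if_neg hx', cc_zero M p m m x (fun h => hx (mem_Bf.2 h))]; ring

theorem cc_le_one (m l : ℕ) (x : Z d) : cc M p m l x ≤ 1 := by
  unfold cc
  have h1 : (mu M p).real (Ae M m 0 ∩ Ae M l x) ≤ 1 := measureReal_le_one
  have h2 : 0 ≤ pr M p m * pr M p l := mul_nonneg measureReal_nonneg measureReal_nonneg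
  linarith

theorem cc_at_zero {m l : ℕ} (h : m ≤ l) : cc M p m l 0 = pr M p l - pr M p m * pr M p l ∧
    cc M p l m 0 = pr M p l - pr M p m * pr M p l := by
  have h1 : Ae M m 0 ∩ Ae M l 0 = Ae M l 0 := inter_eq_right.2 (Ae_anti M h 0)
  constructor
  · unfold cc; rw [h1]; rfl
  · unfold cc; rw [inter_comm, h1, mul_comm (pr M p l)]; rfl

/-- convergence in mean of the densities -/
theorem gg_cauchy {m l : ℕ} (h : m ≤ l) (c : ℝ) (hc : 0 < c) :
    ∫ k in cube d, |gg M p m m k - gg M p l l k| ≤
      (2 * Real.pi) ^ d * ((4 * c + c⁻¹ * (pr M p m - pr M p l)) / 2) := by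
  have hi : ∀ m l : ℕ, Integrable (gg M p m l) (volume.restrict (cube d)) := fun m l =>
    integrable_of_cont (gg_cont M p m l)
  have h1 : ∫ k in cube d, |gg M p m m k - gg M p l l k| ≤
      ∫ k in cube d, (c * (gg M p m m k + (gg M p m l k + gg M p l m k) + gg M p l l k) +
        c⁻¹ * (gg M p m m k - (gg M p m l k + gg M p l m k) + gg M p l l k)) / 2 := by
    refine integral_mono ((hi m m).sub (hi l l)).abs ?_ fun k => gg_diff M p m l k c hc
    exact ((((((hi m m).add ((hi m l).add (hi l m))).add (hi l l)).const_mul c).add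
      ((((hi m m).sub ((hi m l).add (hi l m))).add (hi l l)).const_mul c⁻¹))).div_const 2
  refine h1.trans ?_
  have e : ∀ k, (c * (gg M p m m k + (gg M p m l k + gg M p l m k) + gg M p l l k) +
        c⁻¹ * (gg M p m m k - (gg M p m l k + gg M p l m k) + gg M p l l k)) / 2 =
      ((c + c⁻¹) / 2) * gg M p m m k + ((c - c⁻¹) / 2) * gg M p m l k +
        ((c - c⁻¹) / 2) * gg M p l m k + ((c + c⁻¹) / 2) * gg M p l l k := by
    intro k; ring
  simp_rw [e]
  rw [int_lin4 (hi m m) (hi m l) (hi l m) (hi l l), int_gg, int_gg, int_gg, int_gg]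
  obtain ⟨e1, e2⟩ := cc_at_zero M p h
  have e3 := (cc_at_zero M p (le_refl m)).1
  have e4 := (cc_at_zero M p (le_refl l)).1
  rw [e1, e2, e3, e4]
  have hpi : 0 < (2 * Real.pi) ^ d := by positivity
  set X := pr M p m
  set Y := pr M p l
  have hX0 : 0 ≤ X := measureReal_nonneg
  have hX1 : X ≤ 1 := measureReal_le_one
  have hY0 : 0 ≤ Y := measureReal_nonneg
  have hY1 : Y ≤ 1 := measureReal_le_one
  have hc' : 0 < c⁻¹ := inv_pos.2 hc
  have key : (c + c⁻¹) / 2 * (X - X * X) + (c - c⁻¹) / 2 * (Y - X * Y) +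
      (c - c⁻¹) / 2 * (Y - X * Y) + (c + c⁻¹) / 2 * (Y - Y * Y) ≤
      (4 * c + c⁻¹ * (X - Y)) / 2 := by
    have k1 : X + 3 * Y - (X + Y) ^ 2 ≤ 4 := by nlinarith
    have k2 : X - Y - (X - Y) ^ 2 ≤ X - Y := by nlinarith [sq_nonneg (X - Y)]
    have k3 := mul_le_mul_of_nonneg_left k1 hc.le
    have k4 := mul_le_mul_of_nonneg_left k2 hc'.le
    nlinarith
  calc _ = (2 * Real.pi) ^ d * ((c + c⁻¹) / 2 * (X - X * X) + (c - c⁻¹) / 2 * (Y - X * Y) +
      (c - c⁻¹) / 2 * (Y - X * Y) + (c + c⁻¹) / 2 * (Y - Y * Y)) := by ring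
    _ ≤ _ := mul_le_mul_of_nonneg_left key hpi.le

end

end Pool.Agent.J4.H90.Perc
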