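import Pool.Agent.J4.H90.Perc.Spec

/-!
The spectral measure of the two-point function: an atom at the origin and a density.
-/

set_option autoImplicit false
set_option linter.deprecated false

open MeasureTheory Set Filter
open scoped Topology

namespace Pool.Agent.J4.H90.Perc

open Pool.Agent.Results.MP_54f242_pr.InfraredMean (opn P tau cube dot Dhat Dhat_le cube_meas cube_fin
  cos_mul_Dhat tau_mono tau_zero tau_nonneg tau_le_one box prop prop_nonneg prop_le_one prop_tendsto
  dot_sub integrable_of_cont int_cos int_cos_mul_cos)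
open Pool.Agent.Y990.CB
open Pool.Agent.W783.PC (pm DepOn Inc bern)
open Pool.Agent.J4.H67.PC (dens tauf)
open Pool.Agent.Helper401_FP (ex)

noncomputable section

variable {d : ℕ}

/-- completeness of the space of integrable functions -/
theorem L1_limit {α : Type*} [MeasurableSpace α] {μ : Measure α} {G : ℕ → α → ℝ}
    (hG : ∀ m, Integrable (G m) μ)
    (hC : ∀ ε : ℝ, 0 < ε → ∃ N : ℕ, ∀ m, N ≤ m → ∀ l, m ≤ l → ∫ x, |G m x - G l x| ∂μ < ε) :
    ∃ g : α → ℝ, Integrable g μ ∧ Tendsto (fun m => ∫ x, |G m x - g x| ∂μ) atTop (𝓝 0) := by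
  have hn : ∀ (f h : α → ℝ) (hf : Integrable f μ) (hh : Integrable h μ),
      ‖hf.toL1 f - hh.toL1 h‖ = ∫ x, |f x - h x| ∂μ := by
    intro f h hf hh
    rw [← Integrable.toL1_sub f h hf hh, L1.norm_of_fun_eq_integral_norm]
    rfl
  have hc : CauchySeq fun m => (hG m).toL1 (G m) := by
    refine Metric.cauchySeq_iff'.2 fun ε hε => ?_
    obtain ⟨N, hN⟩ := hC ε hε
    refine ⟨N, fun n hn' => ?_⟩
    rw [dist_comm, dist_eq_norm, hn]
    exact hN N le_rfl n hn'
  obtain ⟨L, hL⟩ := cauchySeq_tendsto_of_complete hc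
  refine ⟨L, L1.integrable_coeFn L, ?_⟩
  have h1 : Tendsto (fun m => ‖(hG m).toL1 (G m) - L‖) atTop (𝓝 0) :=
    tendsto_iff_norm_sub_tendsto_zero.1 hL
  refine h1.congr fun m => ?_
  have h2 := hn (G m) L (hG m) (L1.integrable_coeFn L)
  rw [Integrable.toL1_coeFn] at h2
  exact h2

variable (M : Mod d) (p : unitInterval)

theorem inter_Ae (x : Z d) : ⋂ m : ℕ, Ae M m x = Perc M x := by
  ext ω
  simp only [mem_iInter]
  constructor
  · intro h hfin
    have h1 : ∀ m : ℕ, ∃ y ∈ cl M ω univ x, m ≤ nm (y - x) := by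
      intro m
      obtain ⟨x', ⟨_, i, hi⟩, h2⟩ := h m
      refine ⟨x', reach_mono (subset_univ _) h2, ?_⟩
      have h3 := abs_le_nm (x' - x) i
      rw [Pi.sub_apply, hi] at h3
      exact_mod_cast h3
    obtain ⟨B, hB⟩ := (hfin.image fun y => nm (y - x)).bddAbove
    obtain ⟨y, hy, hy'⟩ := h1 (B + 1)
    have : nm (y - x) ≤ B := hB ⟨y, hy, rfl⟩
    omega
  · intro h m
    obtain ⟨y, hy, hy'⟩ := Set.Infinite.exists_notMem_finite h (Bo_finite x m)
    exact exit_Am (self_mem_Bo x m) (Or.inl hy') hy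

theorem pr_tendsto : Tendsto (pr M p) atTop (𝓝 (th M p)) := by
  have hanti : Antitone fun m : ℕ => Ae M m (0 : Z d) := fun a b hab => Ae_anti M hab 0
  have h1 := tendsto_measure_iInter_atTop (μ := mu M p) (s := fun m : ℕ => Ae M m 0)
    (fun m => (Ae_meas M m 0).nullMeasurableSet) hanti ⟨0, measure_ne_top _ _⟩
  rw [inter_Ae] at h1
  exact (ENNReal.tendsto_toReal (measure_ne_top _ _)).comp h1

theorem cc_tendsto (x : Z d) : Tendsto (fun m => cc M p m m x) atTop
    (𝓝 ((mu M p).real (Perc M 0 ∩ Perc M x) - th M p ^ 2)) := by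
  have hanti : Antitone fun m : ℕ => Ae M m (0 : Z d) ∩ Ae M m x := fun a b hab =>
    inter_subset_inter (Ae_anti M hab 0) (Ae_anti M hab x)
  have h1 := tendsto_measure_iInter_atTop (μ := mu M p) (s := fun m : ℕ => Ae M m 0 ∩ Ae M m x)
    (fun m => ((Ae_meas M m 0).inter (Ae_meas M m x)).nullMeasurableSet) hanti
    ⟨0, measure_ne_top _ _⟩
  rw [iInter_inter_distrib, inter_Ae, inter_Ae] at h1
  have h2 := (ENNReal.tendsto_toReal (measure_ne_top _ _)).comp h1
  have h3 := (pr_tendsto M p).mul (pr_tendsto M p)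
  rw [← sq] at h3
  exact h2.sub h3

/-- **The spectral density of the infinite cluster.** -/
theorem spec_inf : ∃ g : (Fin d → ℝ) → ℝ, (∀ k, 0 ≤ g k) ∧
    Integrable g (volume.restrict (cube d)) ∧ ∀ x : Z d,
      ∫ k in cube d, g k * Real.cos (dot k x) =
        (2 * Real.pi) ^ d * ((mu M p).real (Perc M 0 ∩ Perc M x) - th M p ^ 2) := by
  have hG : ∀ m, Integrable (gg M p m m) (volume.restrict (cube d)) := fun m =>
    integrable_of_cont (gg_cont M p m m)
  have hpi : 0 < (2 * Real.pi) ^ d := by positivity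
  have hC : ∀ ε : ℝ, 0 < ε → ∃ N : ℕ, ∀ m, N ≤ m → ∀ l, m ≤ l →
      ∫ k in cube d, |gg M p m m k - gg M p l l k| < ε := by
    intro ε hε
    set c : ℝ := ε / (4 * (2 * Real.pi) ^ d) with hc
    have hc0 : 0 < c := by positivity
    have h1 := pr_tendsto M p
    have h2 : ∀ᶠ m in atTop, pr M p m < th M p + c * c := h1.eventually (gt_mem_nhds (by
      have : 0 < c * c := by positivity
      linarith))
    obtain ⟨N, hN⟩ := eventually_atTop.1 h2
    refine ⟨N, fun m hm l hml => ?_⟩
    have h3 := gg_cauchy M p hml c hc0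
    have h4 : th M p ≤ pr M p l := by
      have h5 : Antitone (pr M p) := fun a b hab =>
        measureReal_mono (Ae_anti M hab 0) (measure_ne_top _ _)
      exact h5.le_of_tendsto h1 l
    have h5 : c⁻¹ * (pr M p m - pr M p l) ≤ c := by
      rw [inv_mul_le_iff₀ hc0]
      have := hN m hm
      linarith
    calc ∫ k in cube d, |gg M p m m k - gg M p l l k| ≤ _ := h3
      _ ≤ (2 * Real.pi) ^ d * ((4 * c + c) / 2) := by gcongr
      _ < ε := by
          have e : (2 * Real.pi) ^ d * c = ε / 4 := by rw [hc]; field_simp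
          have e2 : (2 * Real.pi) ^ d * ((4 * c + c) / 2) = 5 / 2 * ((2 * Real.pi) ^ d * c) := by ring
          rw [e2, e]
          linarith
  obtain ⟨g, hg, hlim⟩ := L1_limit hG hC
  refine ⟨fun k => max (g k) 0, fun k => le_max_right _ _, hg.pos_part, fun x => ?_⟩
  have hlim2 : Tendsto (fun m => ∫ k in cube d, |gg M p m m k - max (g k) 0|) atTop (𝓝 0) := by
    refine squeeze_zero (fun m => integral_nonneg fun k => abs_nonneg _) (fun m => ?_) hlim
    refine integral_mono ((hG m).sub hg.pos_part).abs ((hG m).sub hg).abs fun k => ?_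
    have h0 := gg_nonneg M p m k
    show |gg M p m m k - max (g k) 0| ≤ |gg M p m m k - g k|
    rcases le_total (g k) 0 with h | h
    · rw [max_eq_right h, sub_zero, abs_of_nonneg h0, abs_of_nonneg (by linarith)]
      linarith
    · rw [max_eq_left h]
  have hcos : Tendsto (fun m => ∫ k in cube d, gg M p m m k * Real.cos (dot k x)) atTop
      (𝓝 (∫ k in cube d, max (g k) 0 * Real.cos (dot k x))) := by
    have hcc : AEStronglyMeasurable (fun k : Fin d → ℝ => Real.cos (dot k x))
        (volume.restrict (cube d)) :=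
      (Real.continuous_cos.comp (dot_cont x)).aestronglyMeasurable
    have hb : ∀ k : Fin d → ℝ, ‖Real.cos (dot k x)‖ ≤ 1 := fun k => by
      rw [Real.norm_eq_abs]; exact Real.abs_cos_le_one _
    have i1 : ∀ m, Integrable (fun k => gg M p m m k * Real.cos (dot k x))
        (volume.restrict (cube d)) := fun m => (hG m).mul_bdd (c := 1) hcc (Eventually.of_forall hb)
    have i2 : Integrable (fun k => max (g k) 0 * Real.cos (dot k x)) (volume.restrict (cube d)) :=
      hg.pos_part.mul_bdd (c := 1) hcc (Eventually.of_forall hb)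
    rw [tendsto_iff_norm_sub_tendsto_zero]
    refine squeeze_zero (fun m => norm_nonneg _) (fun m => ?_) hlim2
    rw [← integral_sub (i1 m) i2]
    refine (norm_integral_le_integral_norm _).trans ?_
    refine integral_mono ((i1 m).sub i2).norm ((hG m).sub hg.pos_part).abs fun k => ?_
    show ‖gg M p m m k * Real.cos (dot k x) - max (g k) 0 * Real.cos (dot k x)‖ ≤
      |gg M p m m k - max (g k) 0|
    rw [← sub_mul, norm_mul, Real.norm_eq_abs]
    exact mul_le_of_le_one_right (abs_nonneg _) (hb k)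
  simp_rw [int_gg_cos] at hcos
  exact tendsto_nhds_unique hcos ((cc_tendsto M p x).const_mul _)

/-- two infinite clusters do not occur -/
theorem Nu_null (hp : 0 < p) (u v : Z d) : (mu M p).real (Pool.Agent.Helper401_FP.Nu M u v) = 0 := by
  obtain ⟨C, hC, h⟩ := s_two d M p hp
  set k := max (nm u) (nm v) with hk
  have hu : u ∈ Bo (0 : Z d) k := by
    have := mem_Bo_nm (0 : Z d) u
    rw [zero_add] at this
    exact Bo_mono 0 (le_max_left _ _) this
  have hv : v ∈ Bo (0 : Z d) k := by
    have := mem_Bo_nm (0 : Z d) v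
    rw [zero_add] at this
    exact Bo_mono 0 (le_max_right _ _) this
  have hle : ∀ n : ℕ, max k 1 ≤ n →
      (mu M p).real (Pool.Agent.Helper401_FP.Nu M u v) ≤ C ^ (k + 1) / √(n : ℝ) := by
    intro n hn
    refine (measureReal_mono ?_ (measure_ne_top _ _)).trans (h 0 k n (le_trans (le_max_right _ _) hn))
    intro ω hω
    have hkn : k ≤ n := le_trans (le_max_left _ _) hn
    refine ⟨u, hu, v, hv, Pool.Agent.Helper401_FP.arm_of_inf (Bo_mono 0 hkn hu) hω.1,
      Pool.Agent.Helper401_FP.arm_of_inf (Bo_mono 0 hkn hv) hω.2.1, fun hc => hω.2.2 ?_⟩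
    exact reach_mono (subset_univ _) hc
  have htend : Tendsto (fun n : ℕ => C ^ (k + 1) / √(n : ℝ)) atTop (𝓝 0) :=
    tendsto_const_nhds.div_atTop (Real.tendsto_sqrt_atTop.comp tendsto_natCast_atTop_atTop)
  exact le_antisymm (ge_of_tendsto htend (eventually_atTop.2 ⟨max k 1, hle⟩)) measureReal_nonneg

theorem perc_inter (hp : 0 < p) (x : Z d) :
    (mu M p).real (Perc M 0 ∩ Perc M x) = (mu M p).real (Cn M univ 0 x ∩ Perc M 0) := by
  have hN := Nu_null M p hp 0 x
  have h1 : Cn M univ 0 x ∩ Perc M 0 ⊆ Perc M 0 ∩ Perc M x := by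
    rintro ω ⟨h1, h2⟩
    refine ⟨h2, ?_⟩
    have h3 : x ∈ cl M ω univ 0 := h1
    have h4 := cl_eq h3
    show (cl M ω univ x).Infinite
    rw [h4]
    exact h2
  have h2 : Perc M 0 ∩ Perc M x ⊆ (Cn M univ 0 x ∩ Perc M 0) ∪ Pool.Agent.Helper401_FP.Nu M 0 x := by
    rintro ω ⟨h1, h2⟩
    by_cases hc : ω ∈ Cn M univ 0 x
    · exact Or.inl ⟨hc, h1⟩
    · exact Or.inr ⟨h1, h2, hc⟩
  refine le_antisymm ?_ (measureReal_mono h1 (measure_ne_top _ _))
  calc (mu M p).real (Perc M 0 ∩ Perc M x)
      ≤ (mu M p).real ((Cn M univ 0 x ∩ Perc M 0) ∪ Pool.Agent.Helper401_FP.Nu M 0 x) :=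
        measureReal_mono h2 (measure_ne_top _ _)
    _ ≤ (mu M p).real (Cn M univ 0 x ∩ Perc M 0) +
        (mu M p).real (Pool.Agent.Helper401_FP.Nu M 0 x) := measureReal_union_le _ _
    _ = _ := by rw [hN, add_zero]

/-- **The spectral measure of the two-point function.** -/
theorem spec_tau (p : NNReal) (hp : p ≤ 1) : ∃ g : (Fin d → ℝ) → ℝ, (∀ k, 0 ≤ g k) ∧
    Integrable g (volume.restrict (cube d)) ∧ (∀ k, (dens d p hp k).toReal ≤ g k) ∧ ∀ x : Fin d → ℤ,
      ∫ k in cube d, g k * Real.cos (dot k x) =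
        (2 * Real.pi) ^ d * (tau d p hp x - theta d p hp ^ 2) := by
  rcases eq_or_lt_of_le (show (0 : NNReal) ≤ p from zero_le) with h0 | h0
  · -- the trivial parameter
    have hlt : p < pcrit d := by rw [← h0]; exact pcrit_pos
    refine ⟨fun k => (dens d p hp k).toReal, fun k => ENNReal.toReal_nonneg, dens_int p hp,
      fun k => le_rfl, fun x => ?_⟩
    rw [Pool.Agent.J4.H67.PC.fourier, Pool.Agent.J4.H67.PC.tauf_eq p hp (fin_of_lt p hp hlt),
      theta_zero_of_lt p hp hlt]
    ring
  · obtain ⟨g, hg0, hgi, hg⟩ := spec_inf (bondM d) (uI p hp)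
    refine ⟨fun k => (dens d p hp k).toReal + g k, fun k => add_nonneg ENNReal.toReal_nonneg (hg0 k),
      (dens_int p hp).add hgi, fun k => le_add_of_nonneg_right (hg0 k), fun x => ?_⟩
    have hcc : AEStronglyMeasurable (fun k : Fin d → ℝ => Real.cos (dot k x))
        (volume.restrict (cube d)) :=
      (Real.continuous_cos.comp (dot_cont x)).aestronglyMeasurable
    have hb : ∀ k : Fin d → ℝ, ‖Real.cos (dot k x)‖ ≤ 1 := fun k => by
      rw [Real.norm_eq_abs]; exact Real.abs_cos_le_one _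
    have i1 : Integrable (fun k => (dens d p hp k).toReal * Real.cos (dot k x))
        (volume.restrict (cube d)) := (dens_int p hp).mul_bdd (c := 1) hcc (Eventually.of_forall hb)
    have i2 : Integrable (fun k => g k * Real.cos (dot k x)) (volume.restrict (cube d)) :=
      hgi.mul_bdd (c := 1) hcc (Eventually.of_forall hb)
    simp_rw [add_mul]
    rw [integral_add i1 i2, Pool.Agent.J4.H67.PC.fourier, hg x]
    have hpI : (0 : unitInterval) < uI p hp := by
      show (0 : ℝ) < (p : ℝ)
      exact_mod_cast h0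
    rw [perc_inter (bondM d) (uI p hp) hpI x, ← theta_mu]
    have h1 : tauf d p hp x = (mu (bondM d) (uI p hp)).real
        (Cn (bondM d) univ 0 x ∩ (Perc (bondM d) 0)ᶜ) := by
      unfold tauf
      rw [← real_eq p hp ((Cn_meas (bondM d) univ 0 x).inter (Perc_meas (bondM d) 0).compl)]
      · congr 2
        ext η
        show (Pool.Agent.J4.H67.PC.cl η).Finite ∧ (opn η).Reachable 0 x ↔
          (G (bondM d) (ex η) univ).Reachable 0 x ∧ ¬ (cl (bondM d) (ex η) univ 0).Infinite
        unfold cl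
        rw [G_eq, Set.not_infinite]
        exact and_comm
      · intro ω ω' h
        have e1 := (dep_mono (Cn_dep (bondM d) univ 0 x) (Pool.Agent.Helper401_FP.In_sub_Ed _)) ω ω' h
        have e2 := Pool.Agent.Helper401_FP.Perc_dep 0 ω ω' h
        exact and_congr e1 (not_congr e2)
    have h2 : tau d p hp x = (mu (bondM d) (uI p hp)).real (Cn (bondM d) univ 0 x) := by
      unfold tau
      rw [tau_mu]
    have h3 := measureReal_inter_add_sdiff (μ := mu (bondM d) (uI p hp))
      (s := Cn (bondM d) univ 0 x) (Perc_meas (bondM d) 0)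
    rw [sdiff_eq] at h3
    rw [h1, h2, ← h3]
    ring

end

end Pool.Agent.J4.H90.Perc
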