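import Pool.Agent.J4.H90.Perc.Cell
import Pool.Agent.J4.H90.Perc.Dec

/-!
The energy of the local fluctuations of the arm events with arbitrary signs of the cells.
-/

set_option autoImplicit false
set_option linter.deprecated false

open MeasureTheory Set Filter
open scoped Topology

namespace Pool.Agent.J4.H90.Perc

open Pool.Agent.Results.MP_54f242_pr.InfraredMean (opn P tau cube dot Dhat Dhat_le cube_meas cube_fin
  cube_vol cos_mul_Dhat box box_card dot_sub integrable_of_cont int_cos int_cos_mul_cos int_term)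
open Pool.Agent.Y990.CB
open Pool.Agent.W783.PC (pm DepOn Inc bern)

noncomputable section

variable {d : ℕ} (M : Mod d) (p : unitInterval)

open Classical in
/-- the bits in a box -/
def Af (m : ℕ) (x : Z d) : Finset M.ι := (In_fin M (Bo_finite x m)).toFinset

theorem mem_Af {m : ℕ} {x : Z d} {c : M.ι} : c ∈ Af M m x ↔ c ∈ In M (Bo x m) := by
  unfold Af
  rw [Set.Finite.mem_toFinset]

theorem ci_FD (m : ℕ) (x : Z d) : FD (ci M p m x) (Af M m x) := by
  intro ω ω' h
  have h1 : ω ∈ Ae M m x ↔ ω' ∈ Ae M m x := Am_dep M x m x ω ω' fun c hc => h c ((mem_Af M).2 hc)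
  unfold ci
  by_cases h2 : ω ∈ Ae M m x
  · rw [Set.indicator_of_mem h2, Set.indicator_of_mem (h1.1 h2)]; rfl
  · rw [Set.indicator_of_notMem h2, Set.indicator_of_notMem (fun h3 => h2 (h1.2 h3))]

theorem Af_disj {m : ℕ} {x y : Z d} (h : Disjoint (Bo x m) (Bo y m)) :
    Disjoint (Af M m x) (Af M m y) := by
  have h1 := In_disj M h
  rw [Finset.disjoint_left]
  intro c hc hc'
  exact Set.disjoint_left.1 h1 ((mem_Af M).1 hc) ((mem_Af M).1 hc')

theorem pr_nonneg (m : ℕ) : 0 ≤ pr M p m := measureReal_nonneg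

theorem pr_le_one (m : ℕ) : pr M p m ≤ 1 := measureReal_le_one

theorem ci_abs (m : ℕ) (x : Z d) (ω : M.ι → Bool) : |ci M p m x ω| ≤ 1 := by
  have h1 := pr_nonneg M p m
  have h2 := pr_le_one M p m
  unfold ci
  by_cases h : ω ∈ Ae M m x
  · rw [Set.indicator_of_mem h, Pi.one_apply, abs_le]; constructor <;> linarith
  · rw [Set.indicator_of_notMem h, abs_le]; constructor <;> linarith

theorem ci_mean (m : ℕ) (x : Z d) : ∫ ω, ci M p m x ω ∂(mu M p) = 0 := by
  unfold ci
  rw [integral_sub (Pool.Agent.Y508.CB.ind_int (mu M p) (Ae_meas M m x)) (integrable_const _),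
    integral_indicator_one (Ae_meas M m x), Ae_real, integral_const]
  simp

/-- the residue classes of the vertices -/
def res (m : ℕ) (x : Z d) : Z d := fun i => x i % ((2 * m + 1 : ℕ) : ℤ)

theorem res_mem (m : ℕ) (x : Z d) : res m x ∈ box d (2 * m + 1) := by
  unfold box res
  rw [Fintype.mem_piFinset]
  intro i
  rw [Finset.mem_Ico]
  exact ⟨Int.emod_nonneg _ (by positivity), Int.emod_lt_of_pos _ (by positivity)⟩

theorem res_disj {m : ℕ} {x y : Z d} (hne : x ≠ y) (h : res m x = res m y) :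
    Disjoint (Bo x m) (Bo y m) := by
  rw [Set.disjoint_left]
  intro z hz hz'
  apply hne
  funext i
  have h1 := congrFun h i
  unfold res at h1
  have h2 := abs_le.1 (hz i)
  have h3 := abs_le.1 (hz' i)
  have h4 : ((2 * m + 1 : ℕ) : ℤ) ∣ x i - y i :=
    Int.ModEq.dvd (n := ((2 * m + 1 : ℕ) : ℤ)) (a := y i) (b := x i) h1.symm
  have h5 : |x i - y i| < ((2 * m + 1 : ℕ) : ℤ) := by
    rw [abs_lt]
    push_cast
    constructor <;> linarith [h2.1, h2.2, h3.1, h3.2]
  have h6 := Int.eq_zero_of_abs_lt_dvd h4 h5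
  omega

theorem inn_Bo {N m : ℕ} {x z : Z d} (h : inn N m x) (hz : z ∈ Bo x m) : cell N z = cell N x := by
  have h1 := (inn_add (z := z - x) h fun i => hz i).1
  rw [add_sub_cancel] at h1
  exact h1

theorem cell_disj {N m : ℕ} {x y : Z d} (hx : inn N m x) (hy : inn N m y) (h : cell N x ≠ cell N y) :
    Disjoint (Bo x m) (Bo y m) := by
  rw [Set.disjoint_left]
  intro z hz hz'
  exact h ((inn_Bo hx hz).symm.trans (inn_Bo hy hz'))

open Classical in
/-- the interior vertices of the box -/
def SS (d N m L : ℕ) : Finset (Z d) := (box d (N * L)).filter (fun x => inn N m x)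

open Classical in
/-- the diagonal part -/
def Dg (N m L : ℕ) (v : (Fin d → ℝ) → ℝ) (ω : M.ι → Bool) : ℝ :=
  ∑ x ∈ SS d N m L, ∑ y ∈ SS d N m L, if cell N x = cell N y then
    ci M p m x ω * ci M p m y ω * Kv v (y - x) else 0

open Classical in
theorem bl_split (N m L : ℕ) (v : (Fin d → ℝ) → ℝ) (T : Finset (Z d)) (ω : M.ι → Bool) :
    bl v (SS d N m L) (fun x => sgn T (cell N x) * ci M p m x ω)
      (fun x => sgn T (cell N x) * ci M p m x ω) =
      Dg M p N m L v ω + Off (SS d N m L) (cell N) (ci M p m) (fun x y => Kv v (y - x)) (sgn T) ω := by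
  unfold bl Dg Off
  rw [← Finset.sum_add_distrib]
  refine Finset.sum_congr rfl fun x _ => ?_
  rw [← Finset.sum_add_distrib]
  refine Finset.sum_congr rfl fun y _ => ?_
  show (sgn T (cell N x) * ci M p m x ω) * (sgn T (cell N y) * ci M p m y ω) * Kv v (y - x) = _
  split_ifs with h
  · rw [h]
    have h1 := sgn_sq T (cell N y)
    linear_combination (ci M p m x ω * ci M p m y ω * Kv v (y - x)) * h1
  · ring

theorem cc_abs (m l : ℕ) (x : Z d) : |cc M p m l x| ≤ 1 := by
  unfold cc
  have h1 : (mu M p).real (Ae M m 0 ∩ Ae M l x) ≤ 1 := measureReal_le_one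
  have h1' : 0 ≤ (mu M p).real (Ae M m 0 ∩ Ae M l x) := measureReal_nonneg
  have h2 : 0 ≤ pr M p m * pr M p l := mul_nonneg measureReal_nonneg measureReal_nonneg
  have h3 : pr M p m * pr M p l ≤ 1 := mul_le_one₀ (pr_le_one M p m) (pr_nonneg M p l) (pr_le_one M p l)
  rw [abs_le]
  constructor <;> linarith

/-- the pairing of the multiplier with the local density -/
def Av (m : ℕ) (v : (Fin d → ℝ) → ℝ) : ℝ := ∑ z ∈ Bf (0 : Z d) (2 * (m + m)), cc M p m m z * Kv v z

theorem Av_eq (m : ℕ) {v : (Fin d → ℝ) → ℝ} (hv : Mu v) :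
    Av M p m v = (∫ k in cube d, v k * gg M p m m k) / (2 * Real.pi) ^ d := by
  unfold Av gg Kv
  simp_rw [Finset.mul_sum]
  have e : ∀ (z : Z d) (k : Fin d → ℝ), v k * (cc M p m m z * Real.cos (dot k z)) =
      cc M p m m z * (v k * Real.cos (dot k z)) := fun z k => by ring
  simp_rw [e]
  rw [integral_finset_sum _ (fun z _ => (hv.int (cos_int' z)).const_mul _), Finset.sum_div]
  refine Finset.sum_congr rfl fun z _ => ?_
  rw [integral_const_mul, mul_div_assoc]

theorem Av_nonneg (m : ℕ) {v : (Fin d → ℝ) → ℝ} (hv : Mu v) : 0 ≤ Av M p m v := by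
  rw [Av_eq M p m hv]
  refine div_nonneg (integral_nonneg fun k => ?_) two_pi_pos.le
  exact mul_nonneg (hv.nn k) (gg_nonneg M p m k)

open Classical in
theorem Dg_FD (N m L : ℕ) (v : (Fin d → ℝ) → ℝ) :
    FD (Dg M p N m L v) ((SS d N m L).biUnion (Af M m)) := by
  intro a b h
  unfold Dg
  refine Finset.sum_congr rfl fun x hx => Finset.sum_congr rfl fun y hy => ?_
  rw [ci_FD M p m x a b fun e he => h e (Finset.mem_biUnion.2 ⟨x, hx, he⟩),
    ci_FD M p m y a b fun e he => h e (Finset.mem_biUnion.2 ⟨y, hy, he⟩)]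

open Classical in
theorem int_Dg {N m L : ℕ} (hN : 0 < N) {v : (Fin d → ℝ) → ℝ} (hv : Mu v) :
    ∫ ω, Dg M p N m L v ω ∂(mu M p) ≤
      ((N * L : ℕ) : ℝ) ^ d * Av M p m v + ((8 * m + 1 : ℕ) : ℝ) ^ d * nn d N (5 * m) L := by
  have hi : ∀ x y : Z d, Integrable (fun ω => if cell N x = cell N y then
      ci M p m x ω * ci M p m y ω * Kv v (y - x) else 0) (mu M p) := by
    intro x y
    split_ifs
    · exact (ci_mul_int M p m m x y).mul_const _
    · exact integrable_zero _ _ _
  have h1 : ∫ ω, Dg M p N m L v ω ∂(mu M p) = ∑ x ∈ SS d N m L, ∑ y ∈ SS d N m L,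
      if cell N x = cell N y then cc M p m m (y - x) * Kv v (y - x) else 0 := by
    unfold Dg
    rw [integral_finset_sum _ (fun x _ => integrable_finset_sum _ fun y _ => hi x y)]
    refine Finset.sum_congr rfl fun x _ => ?_
    rw [integral_finset_sum _ (fun y _ => hi x y)]
    refine Finset.sum_congr rfl fun y _ => ?_
    split_ifs
    · rw [integral_mul_const, ci_mul]
    · simp
  rw [h1]
  have hkey : ∀ x ∈ SS d N m L, ∑ y ∈ SS d N m L,
      (if cell N x = cell N y then cc M p m m (y - x) * Kv v (y - x) else 0) ≤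
      Av M p m v + ((8 * m + 1 : ℕ) : ℝ) ^ d * (if ¬ inn N (5 * m) x then (1 : ℝ) else 0) := by
    intro x hx
    have hx' := Finset.mem_filter.1 hx
    -- the change of variables
    have h2 : ∑ y ∈ SS d N m L,
        (if cell N x = cell N y then cc M p m m (y - x) * Kv v (y - x) else 0) =
        ∑ z ∈ Bf (0 : Z d) (2 * (m + m)),
          if x + z ∈ SS d N m L ∧ cell N x = cell N (x + z) then cc M p m m z * Kv v z else 0 := by
      have h3 : ∑ y ∈ SS d N m L,
          (if cell N x = cell N y then cc M p m m (y - x) * Kv v (y - x) else 0) =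
          ∑ y ∈ (SS d N m L).filter (fun y => y - x ∈ Bf (0 : Z d) (2 * (m + m))),
          (if cell N x = cell N y then cc M p m m (y - x) * Kv v (y - x) else 0) := by
        rw [Finset.sum_filter]
        refine Finset.sum_congr rfl fun y _ => ?_
        by_cases h4 : y - x ∈ Bf (0 : Z d) (2 * (m + m))
        · rw [if_pos h4]
        · rw [if_neg h4, cc_zero M p m m _ (fun h => h4 (mem_Bf.2 h))]
          simp
      rw [h3, ← Finset.sum_filter]
      conv_rhs => rw [← Finset.sum_filter]
      refine Finset.sum_bij' (fun y _ => y - x) (fun z _ => x + z) ?_ ?_ ?_ ?_ ?_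
      · intro y hy
        simp only [Finset.mem_filter] at hy ⊢
        rw [add_sub_cancel]
        exact ⟨hy.1.2, hy.1.1, hy.2⟩
      · intro z hz
        simp only [Finset.mem_filter] at hz ⊢
        rw [add_sub_cancel_left]
        exact ⟨⟨hz.2.1, hz.1⟩, hz.2.2⟩
      · intro y _; exact add_sub_cancel x y
      · intro z _; exact add_sub_cancel_left x z
      · intro y _; rfl
    rw [h2]
    by_cases h5 : inn N (5 * m) x
    · rw [if_neg (not_not.2 h5), mul_zero, add_zero]
      refine le_of_eq ?_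
      unfold Av
      refine Finset.sum_congr rfl fun z hz => ?_
      have hz' : ∀ i, |z i| ≤ ((4 * m : ℕ) : ℤ) := by
        intro i
        have := (mem_Bf.1 hz) i
        simp only [Pi.zero_apply, sub_zero] at this
        refine this.trans ?_
        push_cast
        linarith
      have h4m : inn N (4 * m) x := fun i => by
        have := h5 i
        push_cast at this ⊢
        constructor <;> omega
      have h6 := inn_add h4m hz'
      have h7 : x + z ∈ SS d N m L := by
        rw [SS, Finset.mem_filter]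
        refine ⟨inn_mem hN hx'.1 h4m hz', fun i => ?_⟩
        rw [h6.2 i]
        have h8 := h5 i
        have h9 := abs_le.1 (hz' i)
        push_cast at h8 h9
        constructor <;> linarith [h8.1, h8.2, h9.1, h9.2]
      rw [if_pos ⟨h7, h6.1.symm⟩]
    · rw [if_pos h5, mul_one]
      have h6 : ∑ z ∈ Bf (0 : Z d) (2 * (m + m)),
          (if x + z ∈ SS d N m L ∧ cell N x = cell N (x + z) then cc M p m m z * Kv v z else 0) ≤
          ((8 * m + 1 : ℕ) : ℝ) ^ d := by
        refine (Finset.sum_le_card_nsmul _ _ 1 fun z _ => ?_).trans (le_of_eq ?_)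
        · split_ifs
          · refine (le_abs_self _).trans ?_
            rw [abs_mul]
            exact mul_le_one₀ (cc_abs M p m m z) (abs_nonneg _) (Kv_abs_le hv z)
          · exact zero_le_one
        · rw [card_Bf, nsmul_eq_mul, mul_one]
          push_cast
          ring
      have h7 := Av_nonneg M p m hv
      linarith
  refine (Finset.sum_le_sum hkey).trans ?_
  rw [Finset.sum_add_distrib, Finset.sum_const, nsmul_eq_mul, ← Finset.mul_sum]
  have hc1 : ((SS d N m L).card : ℝ) ≤ ((N * L : ℕ) : ℝ) ^ d := by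
    rw [← box_card]
    exact_mod_cast Finset.card_le_card (Finset.filter_subset _ _)
  have hc2 : ∑ x ∈ SS d N m L, (if ¬ inn N (5 * m) x then (1 : ℝ) else 0) ≤ nn d N (5 * m) L := by
    have : (nn d N (5 * m) L : ℝ) = ∑ x ∈ box d (N * L), (if ¬ inn N (5 * m) x then (1 : ℝ) else 0) := by
      rw [← Finset.sum_filter, Finset.sum_const, nsmul_eq_mul, mul_one]
      rfl
    rw [this]
    refine Finset.sum_le_sum_of_subset_of_nonneg (Finset.filter_subset _ _) fun x _ _ => ?_
    split_ifs <;> norm_num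
  have h7 := Av_nonneg M p m hv
  exact add_le_add (mul_le_mul_of_nonneg_right hc1 h7) (mul_le_mul_of_nonneg_left hc2 (by positivity))

open Classical in
/-- **The energy of the fluctuations with arbitrary signs of the cells.** -/
theorem fluct {N m L : ℕ} (hN : 0 < N) {v : (Fin d → ℝ) → ℝ} (hv : Mu v) (l : ℝ) (hl : 0 < l) :
    ∃ R : (M.ι → Bool) → ℝ, FD R ((SS d N m L).biUnion (Af M m)) ∧
      (∀ T ∈ (box d L).powerset, ∀ ω, bl v (SS d N m L) (fun x => sgn T (cell N x) * ci M p m x ω)
        (fun x => sgn T (cell N x) * ci M p m x ω) ≤ R ω) ∧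
      ∫ ω, R ω ∂(mu M p) ≤
        ((N * L : ℕ) : ℝ) ^ d * Av M p m v + ((8 * m + 1 : ℕ) : ℝ) ^ d * nn d N (5 * m) L +
        ((L : ℝ) ^ d * Real.log 2 / l + 8 * (((2 * m + 1 : ℕ) : ℝ) ^ d) ^ 2 * l *
          ((N * L : ℕ) : ℝ) ^ d) := by
  obtain ⟨H, h1, h2, h3⟩ := off_max (fun _ : M.ι => p) (SS d N m L) (box d L) (cell N)
    (fun x hx => (mem_box_cell hN x).1 (Finset.mem_filter.1 hx).1) (box d (2 * m + 1)) (res m)
    (fun x _ => res_mem m x) ⟨res m 0, res_mem m 0⟩ (ci M p m) (Af M m) (fun x _ => ci_FD M p m x)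
    (fun x _ y _ hne h => Af_disj M (res_disj hne h))
    (fun x hx y hy h => Af_disj M (cell_disj (Finset.mem_filter.1 hx).2 (Finset.mem_filter.1 hy).2 h))
    (ci_abs M p m) (fun x _ => ci_mean M p m x) (fun x y => Kv v (y - x))
    (fun Y => Wv_sq hv (SS d N m L) Y) l hl
  have hD := Dg_FD M p N m L v
  refine ⟨fun ω => Dg M p N m L v ω + H ω, ?_, ?_, ?_⟩
  · intro a b h
    show Dg M p N m L v a + H a = Dg M p N m L v b + H b
    rw [hD a b h, h1 a b h]
  · intro T hT ω
    rw [bl_split]
    exact add_le_add le_rfl (h3 T hT ω)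
  · rw [integral_add (hD.int (mu M p)) (h1.int (mu M p))]
    refine add_le_add (int_Dg M p hN hv) (h2.trans ?_)
    rw [box_card, box_card]
    have hc1 : ((SS d N m L).card : ℝ) ≤ ((N * L : ℕ) : ℝ) ^ d := by
      rw [← box_card]
      exact_mod_cast Finset.card_le_card (Finset.filter_subset _ _)
    have : 8 * (((2 * m + 1 : ℕ) : ℝ) ^ d) ^ 2 * l * ((SS d N m L).card : ℝ) ≤
        8 * (((2 * m + 1 : ℕ) : ℝ) ^ d) ^ 2 * l * ((N * L : ℕ) : ℝ) ^ d :=
      mul_le_mul_of_nonneg_left hc1 (by positivity)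
    linarith

end

end Pool.Agent.J4.H90.Perc
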