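import Pool.Agent.Y990.CB.Poly
import Pool.Agent.Helper401_FP.Pcd
import Pool.Agent.J4.H67.PC.Lone

/-!
Transfer between bond percolation on the directed edges of `ℤ^d` (the infrared bound problem) and
the general models of the project CB.
-/

set_option autoImplicit false
set_option linter.deprecated false

open MeasureTheory Set Filter
open scoped Topology

namespace Pool.Agent.J4.H90.Perc

open Pool.Agent.Results.MP_54f242_pr.InfraredMean (opn P tau)
open Pool.Agent.J4.H67.PC (LU conf)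
open Pool.Agent.Y990.CB
open Pool.Agent.W783.PC (pm DepOn Inc bern)
open Pool.Agent.Helper401_FP (E ex ex_ed ed Ed exists_ed)

noncomputable section

variable {d : ℕ}

/-- the parameter as an element of the unit interval -/
def uI (p : NNReal) (hp : p ≤ 1) : unitInterval := ⟨p, p.2, by exact_mod_cast hp⟩

theorem P_eq (p : NNReal) (hp : p ≤ 1) : P d p hp = pm (fun _ : E d => uI p hp) := by
  unfold P pm
  congr 1
  funext e
  refine Pool.Agent.Results.MP_54f242_pr.InfraredMean.bool_ext _ _ ?_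
  rw [Pool.Agent.Results.MP_54f242_pr.InfraredMean.ber_true, Pool.Agent.W400.PC.bern_true]
  show (p : ENNReal) = ENNReal.ofReal (p : ℝ)
  rw [ENNReal.ofReal_coe_nnreal]

theorem adj_iff (η : E d → Bool) (x y : Z d) :
    (G (bondM d) (ex η) univ).Adj x y ↔ (opn η).Adj x y := by
  rw [Pool.Agent.Helper401_FP.adj_Opn, opn, SimpleGraph.fromRel_adj]
  unfold Pool.Agent.Helper401_FP.Opn
  constructor
  · rintro ⟨e, he, h⟩
    have hne : x ≠ y := by
      have h0 : e.1 ≠ e.1 + Pi.single e.2 (1 : ℤ) := Nb_ne (Pool.Agent.Helper401_FP.Nb_single e.1 e.2)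
      rcases h with ⟨h1, h2⟩ | ⟨h1, h2⟩
      · rw [h1, h2]; exact h0
      · rw [h1, h2]; exact h0.symm
    refine ⟨hne, ?_⟩
    rcases h with ⟨h1, h2⟩ | ⟨h1, h2⟩
    · refine Or.inl ⟨e.2, by rw [h1, h2], by rw [h1]; exact he⟩
    · refine Or.inr ⟨e.2, by rw [h1, h2], by rw [h1]; exact he⟩
  · rintro ⟨_, ⟨i, h1, h2⟩ | ⟨i, h1, h2⟩⟩
    · exact ⟨(x, i), h2, Or.inl ⟨rfl, h1⟩⟩
    · exact ⟨(y, i), h2, Or.inr ⟨rfl, h1⟩⟩

theorem G_eq (η : E d → Bool) : G (bondM d) (ex η) univ = opn η := by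
  ext x y
  exact adj_iff η x y

/-- probabilities of events of the general model -/
theorem real_eq (p : NNReal) (hp : p ≤ 1) {A : Set (Sym2 (Z d) → Bool)} (hA : MeasurableSet A)
    (hd : DepOn A (Ed d)) :
    (P d p hp {η | ex η ∈ A}).toReal = (mu (bondM d) (uI p hp)).real A := by
  rw [P_eq, Pool.Agent.Helper401_FP.mu_ex hA hd]
  rfl

theorem tau_mu (p : NNReal) (hp : p ≤ 1) (x y : Z d) :
    (P d p hp {ω | (opn ω).Reachable x y}).toReal =
      (mu (bondM d) (uI p hp)).real (Cn (bondM d) univ x y) := by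
  rw [← real_eq p hp (Cn_meas (bondM d) univ x y)
    (dep_mono (Cn_dep (bondM d) univ x y) (Pool.Agent.Helper401_FP.In_sub_Ed _))]
  congr 2
  ext η
  show _ ↔ (G (bondM d) (ex η) univ).Reachable x y
  rw [G_eq]
  rfl

/-- the percolation probability -/
def theta (d : ℕ) (p : NNReal) (hp : p ≤ 1) : ℝ :=
  (P d p hp {ω | (Pool.Agent.J4.H67.PC.cl ω).Infinite}).toReal

theorem theta_mu (p : NNReal) (hp : p ≤ 1) : theta d p hp = th (bondM d) (uI p hp) := by
  unfold th theta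
  rw [← real_eq p hp (Perc_meas (bondM d) 0) (Pool.Agent.Helper401_FP.Perc_dep 0)]
  congr 2
  ext η
  show _ ↔ (cl (bondM d) (ex η) univ 0).Infinite
  unfold cl
  rw [G_eq]
  rfl

/-- the probability of a connection of the origin to distance `n` -/
def arm (d : ℕ) (p : NNReal) (hp : p ≤ 1) (n : ℕ) : ℝ :=
  (P d p hp {ω | ∃ x : Fin d → ℤ, (∃ i, (n : ℤ) ≤ |x i|) ∧ (opn ω).Reachable 0 x}).toReal

theorem arm_mu (p : NNReal) (hp : p ≤ 1) (n : ℕ) :
    arm d p hp n = (mu (bondM d) (uI p hp)).real {ω | Am (bondM d) ω 0 n 0} := by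
  unfold arm
  rw [← real_eq p hp (Am_meas (bondM d) 0 n 0)
    (dep_mono (Am_dep (bondM d) 0 n 0) (Pool.Agent.Helper401_FP.In_sub_Ed _))]
  congr 2
  ext η
  show _ ↔ Am (bondM d) (ex η) 0 n 0
  constructor
  · rintro ⟨x, ⟨i, hi⟩, h⟩
    rw [← G_eq] at h
    refine exit_Am (self_mem_Bo 0 n) ?_ h
    by_cases hx : x ∈ Bo (0 : Z d) n
    · right
      refine ⟨hx, i, le_antisymm (hx i) ?_⟩
      simpa using hi
    · exact Or.inl hx
  · rintro ⟨x, ⟨_, i, hi⟩, h⟩
    refine ⟨x, ⟨i, ?_⟩, ?_⟩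
    · have : |x i| = n := by simpa using hi
      rw [this]
    · rw [← G_eq]
      exact reach_mono (subset_univ _) h

/-- the critical point -/
def pcrit (d : ℕ) : NNReal := sSup {p : NNReal | ∃ hp : p ≤ 1, theta d p hp = 0}

theorem bdd : BddAbove {p : NNReal | ∃ hp : p ≤ 1, theta d p hp = 0} :=
  ⟨1, fun _ h => h.1⟩

theorem pcrit_le : pcrit d ≤ 1 := by
  unfold pcrit
  rcases Set.eq_empty_or_nonempty {p : NNReal | ∃ hp : p ≤ 1, theta d p hp = 0} with h | h
  · rw [h]; simp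
  · exact csSup_le h fun _ h => h.1

theorem pc_eq : uI (pcrit d) pcrit_le = pc (bondM d) := by
  apply Subtype.ext
  show ((pcrit d : NNReal) : ℝ) = sSup {x : ℝ | ∃ q : unitInterval, (q : ℝ) = x ∧ th (bondM d) q = 0}
  unfold pcrit
  rw [NNReal.coe_sSup]
  congr 1
  ext x
  constructor
  · rintro ⟨p, ⟨hp, h⟩, rfl⟩
    exact ⟨uI p hp, rfl, by rw [← theta_mu]; exact h⟩
  · rintro ⟨q, rfl, h⟩
    obtain ⟨r, hr⟩ : ∃ r : NNReal, (r : ℝ) = q := ⟨⟨(q : ℝ), q.2.1⟩, rfl⟩
    have hq : r ≤ 1 := by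
      rw [← NNReal.coe_le_coe, hr]; exact q.2.2
    refine ⟨r, ⟨hq, ?_⟩, hr⟩
    rw [theta_mu]
    have e : uI r hq = q := Subtype.ext hr
    rw [e]
    exact h

theorem theta_zero_of_lt (p : NNReal) (hp : p ≤ 1) (h : p < pcrit d) : theta d p hp = 0 := by
  rw [theta_mu]
  refine Pool.Agent.Helper401_FP.th_zero_of_lt (bondM d) ?_
  rw [← pc_eq]
  exact h

theorem pcrit_pos : 0 < pcrit d := by
  have h := Pool.Agent.Y333.CB.pc_pos d (bondM d) nd_bond
  rw [← pc_eq] at h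
  exact h

/-- clusters are finite below the critical point -/
theorem fin_of_lt (p : NNReal) (hp : p ≤ 1) (h : p < pcrit d) :
    ∀ᵐ ω ∂(P d p hp), (Pool.Agent.J4.H67.PC.cl ω).Finite := by
  have h1 := theta_zero_of_lt p hp h
  unfold theta at h1
  rw [ENNReal.toReal_eq_zero_iff] at h1
  rcases h1 with h1 | h1
  · rw [ae_iff]
    exact h1
  · exact absurd h1 (measure_ne_top _ _)

theorem fin_of_zero (p : NNReal) (hp : p ≤ 1) (h1 : theta d p hp = 0) :
    ∀ᵐ ω ∂(P d p hp), (Pool.Agent.J4.H67.PC.cl ω).Finite := by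
  unfold theta at h1
  rw [ENNReal.toReal_eq_zero_iff] at h1
  rcases h1 with h1 | h1
  · rw [ae_iff]
    exact h1
  · exact absurd h1 (measure_ne_top _ _)

end

end Pool.Agent.J4.H90.Perc
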