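import Pool.Agent.J4.H90.Perc.Ineq

/-!
The lazy simple random walk acting on the two-point function, and its Fourier multiplier.
-/

set_option autoImplicit false
set_option linter.deprecated false

open MeasureTheory Set Filter
open scoped Topology

namespace Pool.Agent.J4.H90.Perc

open Pool.Agent.Results.MP_54f242_pr.InfraredMean (opn P tau cube dot Dhat Dhat_le cube_meas cube_fin
  cos_mul_Dhat tau_mono)
open Pool.Agent.J4.H67.PC (LU conf dens tauf tauf_eq fourier dens_meas dens_fin int_dens_le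
  map_conf meas_conf reach_left conf_mono)

noncomputable section

variable {d : ℕ}

/-- one step of the lazy walk -/
def Tw (g : (Fin d → ℤ) → ℝ) (x : Fin d → ℤ) : ℝ :=
  (g x + (1 / (2 * (d : ℝ))) * ∑ i : Fin d, (g (x + Pi.single i 1) + g (x - Pi.single i 1))) / 2

/-- the multiplier -/
def mlt (k : Fin d → ℝ) : ℝ := (1 + Dhat k) / 2

theorem mlt_nonneg (k : Fin d → ℝ) : 0 ≤ mlt k := by
  have := (abs_le.1 (Dhat_le k)).1
  unfold mlt; linarith

theorem mlt_le_one (k : Fin d → ℝ) : mlt k ≤ 1 := by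
  have := (abs_le.1 (Dhat_le k)).2
  unfold mlt; linarith

theorem mlt_cont : Continuous (mlt (d := d)) := by
  unfold mlt Dhat; fun_prop

theorem dot_cont (x : Fin d → ℤ) : Continuous fun k : Fin d → ℝ => dot k x := by
  unfold dot; fun_prop

theorem Tw_cos (k : Fin d → ℝ) (x : Fin d → ℤ) :
    Tw (fun y => Real.cos (dot k y)) x = mlt k * Real.cos (dot k x) := by
  have h := cos_mul_Dhat k x
  unfold Tw mlt
  linarith

theorem Tw_int {μ : Measure (Fin d → ℝ)} {F : (Fin d → ℝ) → ℝ} (hF : Integrable F μ)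
    (x : Fin d → ℤ) :
    Tw (fun y => ∫ k, F k * Real.cos (dot k y) ∂μ) x =
      ∫ k, (F k * mlt k) * Real.cos (dot k x) ∂μ := by
  have hi : ∀ y : Fin d → ℤ, Integrable (fun k => F k * Real.cos (dot k y)) μ := by
    intro y
    refine hF.mul_bdd (c := 1) ?_ (Eventually.of_forall fun k => ?_)
    · exact (Real.continuous_cos.comp (dot_cont y)).aestronglyMeasurable
    · rw [Real.norm_eq_abs]; exact Real.abs_cos_le_one _
  have h : ∀ k, (F k * mlt k) * Real.cos (dot k x) =
      (F k * Real.cos (dot k x) + (1 / (2 * (d : ℝ))) * ∑ i : Fin d,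
        (F k * Real.cos (dot k (x + Pi.single i 1)) +
          F k * Real.cos (dot k (x - Pi.single i 1)))) / 2 := by
    intro k
    rw [mul_assoc, ← Tw_cos]
    unfold Tw
    simp_rw [← mul_add]
    rw [← Finset.mul_sum]
    ring
  simp_rw [h]
  have hi2 : Integrable (fun k => (1 / (2 * (d : ℝ))) * ∑ i : Fin d,
        (F k * Real.cos (dot k (x + Pi.single i 1)) +
          F k * Real.cos (dot k (x - Pi.single i 1)))) μ :=
    (integrable_finset_sum _ fun i _ => (hi _).add (hi _)).const_mul _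
  have hi3 : ∀ i : Fin d, Integrable (fun k => F k * Real.cos (dot k (x + Pi.single i 1)) +
      F k * Real.cos (dot k (x - Pi.single i 1))) μ := fun i => (hi _).add (hi _)
  rw [integral_div, integral_add (hi x) hi2, integral_const_mul,
    integral_finset_sum _ (fun i _ => hi3 i)]
  unfold Tw
  congr 3
  refine Finset.sum_congr rfl fun i _ => ?_
  exact (integral_add (hi _) (hi _)).symm

theorem Tw_iter {μ : Measure (Fin d → ℝ)} {F : (Fin d → ℝ) → ℝ} (hF : Integrable F μ) (n : ℕ) :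
    ∀ x : Fin d → ℤ, Tw^[n] (fun y => ∫ k, F k * Real.cos (dot k y) ∂μ) x =
      ∫ k, (F k * mlt k ^ n) * Real.cos (dot k x) ∂μ := by
  induction n with
  | zero => intro x; simp
  | succ n ih =>
    intro x
    rw [Function.iterate_succ_apply']
    have h : Tw^[n] (fun y => ∫ k, F k * Real.cos (dot k y) ∂μ) =
        fun y => ∫ k, (F k * mlt k ^ n) * Real.cos (dot k y) ∂μ := funext ih
    have hi : Integrable (fun k => F k * mlt k ^ n) μ := by
      refine hF.mul_bdd (c := 1) ((mlt_cont.pow n).aestronglyMeasurable)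
        (Eventually.of_forall fun k => ?_)
      rw [Real.norm_eq_abs, abs_of_nonneg (pow_nonneg (mlt_nonneg k) n)]
      exact pow_le_one₀ (mlt_nonneg k) (mlt_le_one k)
    rw [h, Tw_int hi]
    refine integral_congr_ae (Eventually.of_forall fun k => ?_)
    show (F k * mlt k ^ n) * mlt k * Real.cos (dot k x) = F k * mlt k ^ (n + 1) * Real.cos (dot k x)
    rw [pow_succ]; ring

theorem Tw_mono {g h : (Fin d → ℤ) → ℝ} (hgh : ∀ x, g x ≤ h x) (x : Fin d → ℤ) : Tw g x ≤ Tw h x := by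
  unfold Tw
  have h1 : ∑ i : Fin d, (g (x + Pi.single i 1) + g (x - Pi.single i 1)) ≤
      ∑ i : Fin d, (h (x + Pi.single i 1) + h (x - Pi.single i 1)) :=
    Finset.sum_le_sum fun i _ => add_le_add (hgh _) (hgh _)
  have h2 : (0 : ℝ) ≤ 1 / (2 * (d : ℝ)) := by positivity
  have h3 := mul_le_mul_of_nonneg_left h1 h2
  have h4 := hgh x
  linarith

theorem Tw_iter_mono {g h : (Fin d → ℤ) → ℝ} (hgh : ∀ x, g x ≤ h x) (n : ℕ) :
    ∀ x : Fin d → ℤ, Tw^[n] g x ≤ Tw^[n] h x := by
  induction n with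
  | zero => exact hgh
  | succ n ih =>
    intro x
    rw [Function.iterate_succ_apply', Function.iterate_succ_apply']
    exact Tw_mono ih x

theorem Tw_lower (hd : 1 ≤ d) {g : (Fin d → ℤ) → ℝ} {c : ℝ} (x : Fin d → ℤ) (h0 : c ≤ g x)
    (h1 : ∀ i, c ≤ g (x + Pi.single i 1)) (h2 : ∀ i, c ≤ g (x - Pi.single i 1)) : c ≤ Tw g x := by
  unfold Tw
  have hd' : (0 : ℝ) < d := by exact_mod_cast hd
  have h3 : ∑ i : Fin d, (c + c) ≤
      ∑ i : Fin d, (g (x + Pi.single i 1) + g (x - Pi.single i 1)) :=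
    Finset.sum_le_sum fun i _ => add_le_add (h1 i) (h2 i)
  rw [Finset.sum_const, Finset.card_univ, Fintype.card_fin, nsmul_eq_mul] at h3
  have h4 : (0 : ℝ) ≤ 1 / (2 * (d : ℝ)) := by positivity
  have h5 := mul_le_mul_of_nonneg_left h3 h4
  have h6 : 1 / (2 * (d : ℝ)) * (d * (c + c)) = c := by field_simp; ring
  rw [h6] at h5
  linarith

theorem Tw_iter_lower (hd : 1 ≤ d) {g : (Fin d → ℤ) → ℝ} {c : ℝ} (n : ℕ) : ∀ m : ℕ,
    (∀ x : Fin d → ℤ, (∀ i, |x i| ≤ (m + n : ℕ)) → c ≤ g x) →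
    ∀ x : Fin d → ℤ, (∀ i, |x i| ≤ (m : ℤ)) → c ≤ Tw^[n] g x := by
  induction n with
  | zero =>
    intro m h x hx
    exact h x fun i => by simpa using hx i
  | succ n ih =>
    intro m h x hx
    rw [Function.iterate_succ_apply']
    have h1 := ih (m + 1) (fun y hy => h y fun i => by
      have := hy i
      push_cast at this ⊢
      linarith)
    have hs : ∀ (i j : Fin d), |(Pi.single i (1 : ℤ) : Fin d → ℤ) j| ≤ 1 := by
      intro i j
      by_cases hij : j = i
      · subst hij; simp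
      · simp [Pi.single_eq_of_ne hij]
    refine Tw_lower hd x (h1 x fun i => by have := hx i; push_cast; linarith)
      (fun i => h1 _ fun j => ?_) (fun i => h1 _ fun j => ?_)
    · rw [Pi.add_apply]
      have h2 := abs_add_le (x j) ((Pi.single i (1 : ℤ) : Fin d → ℤ) j)
      have h3 := hx j
      have h4 := hs i j
      push_cast
      linarith
    · rw [Pi.sub_apply]
      have h2 := abs_sub (x j) ((Pi.single i (1 : ℤ) : Fin d → ℤ) j)
      have h3 := hx j
      have h4 := hs i j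
      push_cast
      linarith

theorem Tw_tendsto {α : Type*} {l : Filter α} {g : α → (Fin d → ℤ) → ℝ} {h : (Fin d → ℤ) → ℝ}
    (hg : ∀ x, Tendsto (fun a => g a x) l (𝓝 (h x))) (x : Fin d → ℤ) :
    Tendsto (fun a => Tw (g a) x) l (𝓝 (Tw h x)) := by
  unfold Tw
  refine Tendsto.div_const (Tendsto.add (hg x) (Tendsto.const_mul _ ?_)) _
  exact tendsto_finset_sum _ fun i _ => (hg _).add (hg _)

theorem Tw_iter_tendsto {α : Type*} {l : Filter α} {g : α → (Fin d → ℤ) → ℝ}
    {h : (Fin d → ℤ) → ℝ} (hg : ∀ x, Tendsto (fun a => g a x) l (𝓝 (h x))) (n : ℕ) :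
    ∀ x : Fin d → ℤ, Tendsto (fun a => Tw^[n] (g a) x) l (𝓝 (Tw^[n] h x)) := by
  induction n with
  | zero => exact hg
  | succ n ih =>
    intro x
    simp_rw [Function.iterate_succ_apply']
    exact Tw_tendsto ih x

/-- the small cube -/
def sm (d : ℕ) (r : ℝ) : Set (Fin d → ℝ) := {k | ∀ i, |k i| ≤ r}

theorem sm_meas (r : ℝ) : MeasurableSet (sm d r) := by
  have : sm d r = ⋂ i, {k : Fin d → ℝ | |k i| ≤ r} := by
    ext k; simp [sm]
  rw [this]
  exact MeasurableSet.iInter fun i =>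
    measurableSet_le (continuous_abs.measurable.comp (measurable_pi_apply i)) measurable_const

/-- the multiplier away from the origin -/
theorem one_sub_Dhat_ge {k : Fin d → ℝ} (hk : k ∈ cube d) {r : ℝ} (hr : 0 ≤ r)
    (h : k ∉ sm d r) : 2 / (d * Real.pi ^ 2) * r ^ 2 ≤ 1 - Dhat k := by
  have h' : ∃ i, r < |k i| := by
    by_contra hc
    push Not at hc
    exact h hc
  obtain ⟨i, hi⟩ := h'
  have hd : (0 : ℝ) < d := by
    have : 0 < d := Fin.pos i
    exact_mod_cast this
  have hki : |k i| ≤ Real.pi := by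
    have := Set.mem_univ_pi.1 hk i
    rw [abs_le]
    exact ⟨this.1.le, this.2⟩
  have h1 := Real.cos_le_one_sub_mul_cos_sq hki
  have h2 : 2 / Real.pi ^ 2 * r ^ 2 ≤ 1 - Real.cos (k i) := by
    have h3 : r ^ 2 ≤ k i ^ 2 := by
      rw [← sq_abs (k i)]
      exact pow_le_pow_left₀ hr hi.le 2
    have h4 : (0 : ℝ) ≤ 2 / Real.pi ^ 2 := by positivity
    have h5 := mul_le_mul_of_nonneg_left h3 h4
    linarith
  have h3 : ∑ j : Fin d, (1 - Real.cos (k j)) ≥ 1 - Real.cos (k i) :=
    Finset.single_le_sum (f := fun j => 1 - Real.cos (k j))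
      (fun j _ => by have := Real.cos_le_one (k j); linarith) (Finset.mem_univ i)
  have h4 : 1 - Dhat k = (1 / (d : ℝ)) * ∑ j : Fin d, (1 - Real.cos (k j)) := by
    unfold Dhat
    rw [Finset.sum_sub_distrib]
    simp only [Finset.sum_const, Finset.card_univ, Fintype.card_fin, nsmul_eq_mul, mul_one]
    field_simp
  rw [h4]
  calc 2 / (d * Real.pi ^ 2) * r ^ 2 = (1 / (d : ℝ)) * (2 / Real.pi ^ 2 * r ^ 2) := by
        field_simp
    _ ≤ _ := by
        refine mul_le_mul_of_nonneg_left (le_trans h2 h3) (by positivity)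

theorem mlt_pow_le {k : Fin d → ℝ} (hk : k ∈ cube d) {r : ℝ} (hr : 0 ≤ r) (h : k ∉ sm d r)
    (n : ℕ) : mlt k ^ n ≤ Real.exp (-(n * r ^ 2 / (d * Real.pi ^ 2))) := by
  have h1 := one_sub_Dhat_ge hk hr h
  have h2 : mlt k ≤ Real.exp (-(r ^ 2 / (d * Real.pi ^ 2))) := by
    have h3 := Real.add_one_le_exp (-(r ^ 2 / (d * Real.pi ^ 2)))
    have h4 : 2 / (d * Real.pi ^ 2) * r ^ 2 = 2 * (r ^ 2 / (d * Real.pi ^ 2)) := by ring
    unfold mlt
    linarith
  calc mlt k ^ n ≤ Real.exp (-(r ^ 2 / (d * Real.pi ^ 2))) ^ n :=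
        pow_le_pow_left₀ (mlt_nonneg k) h2 n
    _ = _ := by
        rw [← Real.exp_nat_mul]
        congr 1
        ring

end

end Pool.Agent.J4.H90.Perc
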